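import Mathlib

/-!
# Nets and spaces of Lipschitz functions

* `IsNet N`: the subset `N` of a metric space is a net.
* `Lip0 M o`: the Banach space of the real Lipschitz functions on `M` vanishing at `o`, with the
  norm `‖f‖ = sup |f x - f y| / d (x, y)`.
-/

open scoped NNReal

namespace Run7.h51

/-- `N` is a net in the metric space `X`: it is `ε`-separated for some `ε > 0`, and for some
`δ > 0` every point of `X` is at distance less than `δ` from a point of `N`. -/
def IsNet {X : Type*} [MetricSpace X] (N : Set X) : Prop :=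
  (∃ ε : ℝ, 0 < ε ∧ ∀ x ∈ N, ∀ y ∈ N, x ≠ y → ε ≤ dist x y) ∧
    ∃ δ : ℝ, 0 < δ ∧ ∀ x : X, ∃ y ∈ N, dist x y < δ

/-- The real vector space of the Lipschitz functions on `M` that vanish at `o`. -/
def lipSub (M : Type*) [MetricSpace M] (o : M) : Submodule ℝ (M → ℝ) where
  carrier := {f | f o = 0 ∧ ∃ K : ℝ≥0, LipschitzWith K f}
  add_mem' := by
    rintro f g ⟨hf, K, hK⟩ ⟨hg, L, hL⟩
    exact ⟨by simp [hf, hg], K + L, hK.add hL⟩
  zero_mem' := ⟨rfl, 0, LipschitzWith.const 0⟩
  smul_mem' := by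
    rintro c f ⟨hf, K, hK⟩
    exact ⟨by simp [hf], ‖c‖₊ * K, (lipschitzWith_smul c).comp hK⟩

/-- `Lip₀(M)`, the space of the real Lipschitz functions on `M` that vanish at the base point. -/
def Lip0 (M : Type*) [MetricSpace M] (o : M) : Type _ := lipSub M o

noncomputable section

variable {M : Type*} [MetricSpace M] {o : M}

instance : AddCommGroup (Lip0 M o) := inferInstanceAs (AddCommGroup (lipSub M o))

instance : Module ℝ (Lip0 M o) := inferInstanceAs (Module ℝ (lipSub M o))

instance : CoeFun (Lip0 M o) (fun _ => M → ℝ) := ⟨fun f => f.1⟩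

/-- The norm of `Lip₀(M)`: the least Lipschitz constant, `sup |f x - f y| / d (x, y)`. -/
instance : Norm (Lip0 M o) := ⟨fun f => ⨆ p : M × M, |f p.1 - f p.2| / dist p.1 p.2⟩

lemma norm_def (f : Lip0 M o) : ‖f‖ = ⨆ p : M × M, |f p.1 - f p.2| / dist p.1 p.2 := rfl

@[ext] lemma Lip0.ext {f g : Lip0 M o} (h : ∀ x, f x = g x) : f = g := Subtype.ext (funext h)

@[simp] lemma add_apply' (f g : Lip0 M o) (x : M) : (f + g) x = f x + g x := rfl

@[simp] lemma sub_apply' (f g : Lip0 M o) (x : M) : (f - g) x = f x - g x := rfl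

@[simp] lemma smul_apply' (c : ℝ) (f : Lip0 M o) (x : M) : (c • f) x = c * f x := rfl

@[simp] lemma zero_apply' (x : M) : (0 : Lip0 M o) x = 0 := rfl

lemma base_apply (f : Lip0 M o) : f o = 0 := f.2.1

lemma bddAbove (f : Lip0 M o) :
    BddAbove (Set.range fun p : M × M => |f p.1 - f p.2| / dist p.1 p.2) := by
  obtain ⟨_, K, hK⟩ := f.2
  refine ⟨K, ?_⟩
  rintro _ ⟨p, rfl⟩
  refine div_le_of_le_mul₀ dist_nonneg K.2 ?_
  have := hK.dist_le_mul p.1 p.2
  rwa [Real.dist_eq] at this

lemma norm_nonneg' (f : Lip0 M o) : 0 ≤ ‖f‖ := by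
  rw [norm_def]
  exact Real.iSup_nonneg fun p => div_nonneg (abs_nonneg _) dist_nonneg

lemma abs_sub_le (f : Lip0 M o) (x y : M) : |f x - f y| ≤ ‖f‖ * dist x y := by
  by_cases h : x = y
  · subst h
    simp
  · have hd : 0 < dist x y := dist_pos.mpr h
    rw [← div_le_iff₀ hd]
    exact le_ciSup (bddAbove f) (x, y)

lemma abs_le (f : Lip0 M o) (x : M) : |f x| ≤ ‖f‖ * dist x o := by
  have := abs_sub_le f x o
  rwa [base_apply, sub_zero] at this

lemma norm_le_of (f : Lip0 M o) {K : ℝ} (hK : 0 ≤ K) (h : ∀ x y, |f x - f y| ≤ K * dist x y) :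
    ‖f‖ ≤ K := by
  rw [norm_def]
  haveI : Nonempty (M × M) := ⟨(o, o)⟩
  refine ciSup_le fun p => ?_
  exact div_le_of_le_mul₀ dist_nonneg hK (h p.1 p.2)

lemma lip0_core : NormedSpace.Core ℝ (Lip0 M o) where
  norm_nonneg := norm_nonneg'
  norm_smul := by
    intro c f
    apply le_antisymm
    · refine norm_le_of _ (mul_nonneg (norm_nonneg c) (norm_nonneg' f)) fun x y => ?_
      rw [smul_apply', smul_apply', ← mul_sub, abs_mul, Real.norm_eq_abs, mul_assoc]
      gcongr
      exact abs_sub_le f x y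
    · by_cases hc : c = 0
      · subst hc
        rw [norm_zero, zero_mul]
        exact norm_nonneg' _
      · have hc' : 0 < ‖c‖ := norm_pos_iff.mpr hc
        have h1 : ‖f‖ ≤ ‖c‖⁻¹ * ‖c • f‖ := by
          refine norm_le_of _ (mul_nonneg (inv_nonneg.mpr hc'.le) (norm_nonneg' _)) fun x y => ?_
          have h2 := abs_sub_le (c • f) x y
          rw [smul_apply', smul_apply', ← mul_sub, abs_mul, ← Real.norm_eq_abs c] at h2
          rw [mul_assoc, inv_mul_eq_div, le_div_iff₀ hc', mul_comm]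
          exact h2
        calc ‖c‖ * ‖f‖ ≤ ‖c‖ * (‖c‖⁻¹ * ‖c • f‖) := by gcongr
          _ = ‖c • f‖ := by rw [← mul_assoc, mul_inv_cancel₀ hc'.ne', one_mul]
  norm_triangle := by
    intro f g
    refine norm_le_of _ (add_nonneg (norm_nonneg' _) (norm_nonneg' _)) fun x y => ?_
    have h1 := abs_sub_le f x y
    have h2 := abs_sub_le g x y
    rw [add_apply', add_apply', add_mul]
    calc |f x + g x - (f y + g y)| = |(f x - f y) + (g x - g y)| := by congr 1; ring
      _ ≤ |f x - f y| + |g x - g y| := abs_add_le _ _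
      _ ≤ _ := add_le_add h1 h2
  norm_eq_zero_iff := by
    intro f
    constructor
    · intro h
      ext x
      have := abs_le f x
      rw [h, zero_mul] at this
      exact abs_nonpos_iff.mp this
    · rintro rfl
      apply le_antisymm
      · exact norm_le_of _ le_rfl fun x y => by simp
      · exact norm_nonneg' _

instance : NormedAddCommGroup (Lip0 M o) := NormedAddCommGroup.ofCore lip0_core

instance : NormedSpace ℝ (Lip0 M o) := NormedSpace.ofCore lip0_core

/-- The element of `Lip₀(M)` given by a function with an explicit Lipschitz constant, after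
subtracting its value at the base point. -/
def mkLip (g : M → ℝ) (K : ℝ) (hK : ∀ x y, |g x - g y| ≤ K * dist x y) : Lip0 M o :=
  ⟨fun x => g x - g o, by
    refine ⟨sub_self _, K.toNNReal, LipschitzWith.of_dist_le_mul fun x y => ?_⟩
    rw [Real.dist_eq]
    have h1 : g x - g o - (g y - g o) = g x - g y := by ring
    rw [h1]
    refine (hK x y).trans ?_
    gcongr
    exact Real.le_coe_toNNReal K⟩

@[simp] lemma mkLip_apply (g : M → ℝ) (K : ℝ) (hK : ∀ x y, |g x - g y| ≤ K * dist x y) (x : M) :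
    (mkLip g K hK : Lip0 M o) x = g x - g o := rfl

lemma norm_mkLip_le (g : M → ℝ) (K : ℝ) (hK0 : 0 ≤ K) (hK : ∀ x y, |g x - g y| ≤ K * dist x y) :
    ‖(mkLip g K hK : Lip0 M o)‖ ≤ K := by
  refine norm_le_of _ hK0 fun x y => ?_
  rw [mkLip_apply, mkLip_apply]
  have h1 : g x - g o - (g y - g o) = g x - g y := by ring
  rw [h1]
  exact hK x y

end

end Run7.h51
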