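import Mathlib
import Pool.Agent.Run7.h51.NetsDefs

open scoped ENNReal Topology
open Filter

namespace Run7.h51

noncomputable section

/-! ### Maps into `ℓ^∞(Z)` and the decomposition method -/

section decomposition

variable {V Z : Type*} [NormedAddCommGroup V] [NormedSpace ℝ V] [NormedAddCommGroup Z]
  [NormedSpace ℝ Z]

/-- `ℓ^∞(Z)`. -/
abbrev Linf (Z : Type*) [NormedAddCommGroup Z] : Type _ := lp (fun _ : ℕ => Z) ∞

/-- A uniformly bounded sequence of linear maps, as a map into `ℓ^∞(Z)`. -/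
def toLinf (T : V →ₗ[ℝ] (ℕ → Z)) (C : ℝ) (hC : 0 ≤ C) (h : ∀ v k, ‖T v k‖ ≤ C * ‖v‖) :
    V →L[ℝ] Linf Z :=
  LinearMap.mkContinuous
    { toFun := fun v => ⟨T v, memℓp_infty ⟨C * ‖v‖, by rintro _ ⟨k, rfl⟩; exact h v k⟩⟩
      map_add' := fun v w => by
        apply lp.ext
        rw [lp.coeFn_add]
        exact map_add T v w
      map_smul' := fun c v => by
        apply lp.ext
        rw [lp.coeFn_smul]
        exact map_smul T c v }
    C (fun v => lp.norm_le_of_forall_le (by positivity) (h v))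

@[simp] lemma toLinf_apply (T : V →ₗ[ℝ] (ℕ → Z)) (C : ℝ) (hC : 0 ≤ C)
    (h : ∀ v k, ‖T v k‖ ≤ C * ‖v‖) (v : V) (k : ℕ) : toLinf T C hC h v k = T v k := rfl

omit [NormedSpace ℝ Z] in
lemma linf_norm_le (F : Linf Z) (k : ℕ) : ‖F k‖ ≤ ‖F‖ :=
  lp.norm_apply_le_norm ENNReal.top_ne_zero F k

/-- Shift to the right, with a new first term. -/
def prev (z : Z) (F : ℕ → Z) : ℕ → Z
  | 0 => z
  | (k + 1) => F k

/-- Decomposition method: if `ℓ^∞(Z)` is complemented in `Z` then `Z ≃ ℓ^∞(Z)`. -/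
theorem decomposition (S : Linf Z →L[ℝ] Z) (R : Z →L[ℝ] Linf Z) (hRS : ∀ F, R (S F) = F) :
    Nonempty (Z ≃L[ℝ] Linf Z) := by
  let P : Z →L[ℝ] Z := S.comp R
  let Q : Z →L[ℝ] Z := ContinuousLinearMap.id ℝ Z - P
  have hP : ∀ z, P z = S (R z) := fun z => rfl
  have hQ : ∀ z, Q z = z - S (R z) := fun z => rfl
  have hPS : ∀ F, P (S F) = S F := fun F => by rw [hP, hRS]
  have hQS : ∀ F, Q (S F) = 0 := fun F => by rw [hQ, hRS, sub_self]
  have hRQ : ∀ z, R (Q z) = 0 := fun z => by rw [hQ, map_sub, hRS, sub_self]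
  have hPP : ∀ z, P (P z) = P z := fun z => by rw [hP z, hPS]
  have hQP : ∀ z, Q (P z) = 0 := fun z => by rw [hP z, hQS]
  have hPQ : ∀ z, P (Q z) = 0 := fun z => by rw [hP, hRQ, map_zero]
  have hQQ : ∀ z, Q (Q z) = Q z := fun z => by
    rw [hQ (Q z), hRQ, map_zero, sub_zero]
  have hPQ1 : ∀ z, P z + Q z = z := fun z => by rw [hP, hQ]; abel
  let T1 : Z →ₗ[ℝ] (ℕ → Z) :=
    { toFun := fun z k => Q (prev z (R z) k) + P (R z k)
      map_add' := fun z w => by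
        funext k
        rcases k with _ | k
        · simp only [prev, map_add, lp.coeFn_add, Pi.add_apply]; abel
        · simp only [prev, map_add, lp.coeFn_add, Pi.add_apply]; abel
      map_smul' := fun c z => by
        funext k
        rcases k with _ | k
        · simp only [prev, map_smul, lp.coeFn_smul, Pi.smul_apply, smul_add, RingHom.id_apply]
        · simp only [prev, map_smul, lp.coeFn_smul, Pi.smul_apply, smul_add, RingHom.id_apply] }
  let T2 : Linf Z →ₗ[ℝ] (ℕ → Z) :=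
    { toFun := fun H k => P (H k) + Q (H (k + 1))
      map_add' := fun z w => by
        funext k
        simp only [map_add, lp.coeFn_add, Pi.add_apply]; abel
      map_smul' := fun c z => by
        funext k
        simp only [map_smul, lp.coeFn_smul, Pi.smul_apply, smul_add, RingHom.id_apply] }
  have hT1 : ∀ z k, ‖T1 z k‖ ≤ (‖Q‖ * (1 + ‖R‖) + ‖P‖ * ‖R‖) * ‖z‖ := by
    intro z k
    have h1 : ‖P (R z k)‖ ≤ ‖P‖ * ‖R‖ * ‖z‖ := by
      calc ‖P (R z k)‖ ≤ ‖P‖ * ‖R z k‖ := P.le_opNorm _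
        _ ≤ ‖P‖ * ‖R z‖ := by gcongr; exact linf_norm_le _ _
        _ ≤ ‖P‖ * (‖R‖ * ‖z‖) := by gcongr; exact R.le_opNorm _
        _ = _ := by ring
    have h2 : ‖Q (prev z (R z) k)‖ ≤ ‖Q‖ * (1 + ‖R‖) * ‖z‖ := by
      have h3 : ‖prev z (R z) k‖ ≤ (1 + ‖R‖) * ‖z‖ := by
        rcases k with _ | k
        · simp only [prev]
          have := mul_nonneg (norm_nonneg R) (norm_nonneg z)
          linarith
        · simp only [prev]
          have h4 : ‖R z k‖ ≤ ‖R‖ * ‖z‖ := (linf_norm_le _ _).trans (R.le_opNorm _)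
          have := norm_nonneg z
          linarith
      calc ‖Q (prev z (R z) k)‖ ≤ ‖Q‖ * ‖prev z (R z) k‖ := Q.le_opNorm _
        _ ≤ ‖Q‖ * ((1 + ‖R‖) * ‖z‖) := by gcongr
        _ = _ := by ring
    calc ‖T1 z k‖ ≤ ‖Q (prev z (R z) k)‖ + ‖P (R z k)‖ := norm_add_le _ _
      _ ≤ ‖Q‖ * (1 + ‖R‖) * ‖z‖ + ‖P‖ * ‖R‖ * ‖z‖ := add_le_add h2 h1
      _ = _ := by ring
  have hT2 : ∀ H k, ‖T2 H k‖ ≤ (‖P‖ + ‖Q‖) * ‖H‖ := by
    intro H k
    have h1 : ‖P (H k)‖ ≤ ‖P‖ * ‖H‖ := (P.le_opNorm _).trans (by gcongr; exact linf_norm_le _ _)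
    have h2 : ‖Q (H (k + 1))‖ ≤ ‖Q‖ * ‖H‖ :=
      (Q.le_opNorm _).trans (by gcongr; exact linf_norm_le _ _)
    calc ‖T2 H k‖ ≤ ‖P (H k)‖ + ‖Q (H (k + 1))‖ := norm_add_le _ _
      _ ≤ ‖P‖ * ‖H‖ + ‖Q‖ * ‖H‖ := add_le_add h1 h2
      _ = _ := by ring
  let Φ : Z →L[ℝ] Linf Z := toLinf T1 _ (by positivity) hT1
  let U : Linf Z →L[ℝ] Linf Z := toLinf T2 _ (by positivity) hT2
  let e0 : Linf Z →L[ℝ] Z := lp.evalCLM ℝ (fun _ : ℕ => Z) ∞ 0
  let Ψ : Linf Z →L[ℝ] Z := Q.comp e0 + S.comp U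
  have hΦ : ∀ z k, Φ z k = Q (prev z (R z) k) + P (R z k) := fun z k => rfl
  have hU : ∀ H k, U H k = P (H k) + Q (H (k + 1)) := fun H k => rfl
  have hΨ : ∀ H, Ψ H = Q (H 0) + S (U H) := fun H => rfl
  refine ⟨ContinuousLinearEquiv.equivOfInverse Φ Ψ ?_ ?_⟩
  · -- left inverse
    intro z
    have h1 : U (Φ z) = R z := by
      apply lp.ext
      funext k
      rw [hU, hΦ, hΦ]
      simp only [prev, map_add]
      rw [hPQ, hPP, hQQ, hQP, zero_add, add_zero, hPQ1]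
    rw [hΨ, h1, hΦ]
    simp only [prev, map_add]
    rw [hQQ, hQP, add_zero, ← hP, add_comm, hPQ1]
  · -- right inverse
    intro H
    have h1 : R (Ψ H) = U H := by
      rw [hΨ, map_add, hRQ, hRS, zero_add]
    apply lp.ext
    funext k
    rw [hΦ, h1]
    rcases k with _ | k
    · simp only [prev]
      rw [hΨ, hU, map_add, map_add, hQQ, hQS, hPP, hPQ, add_zero, add_zero, add_comm, hPQ1]
    · simp only [prev]
      rw [hU, hU, map_add, map_add, hQQ, hQP, hPP, hPQ, add_zero, zero_add, add_comm, hPQ1]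

end decomposition

/-! ### Limits along an ultrafilter -/

/-- The limit of a real sequence along a fixed nonprincipal ultrafilter. -/
def ulim (a : ℕ → ℝ) : ℝ := limUnder (hyperfilter ℕ : Filter ℕ) a

lemma tendsto_ulim (a : ℕ → ℝ) (B : ℝ) (hB : ∀ n, |a n| ≤ B) :
    Tendsto a (hyperfilter ℕ : Filter ℕ) (𝓝 (ulim a)) := by
  have hc : IsCompact (Set.Icc (-B) B) := isCompact_Icc
  have hmem : (Ultrafilter.map a (hyperfilter ℕ) : Filter ℝ) ≤ 𝓟 (Set.Icc (-B) B) := by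
    rw [Ultrafilter.coe_map, Filter.map_le_iff_le_comap]
    intro s hs
    rw [Filter.comap_principal, Filter.mem_principal] at hs
    have : s = Set.univ := by
      apply Set.eq_univ_of_univ_subset
      refine subset_trans ?_ hs
      intro n _
      exact Set.mem_preimage.mpr (_root_.abs_le.mp (hB n))
    rw [this]
    exact Filter.univ_mem
  obtain ⟨x, _, hx⟩ := hc.ultrafilter_le_nhds _ hmem
  have : Tendsto a (hyperfilter ℕ : Filter ℕ) (𝓝 x) := hx
  exact tendsto_nhds_limUnder ⟨x, this⟩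

lemma ulim_eq_of_tendsto {a : ℕ → ℝ} {c : ℝ} (h : Tendsto a (hyperfilter ℕ : Filter ℕ) (𝓝 c)) :
    ulim a = c := h.limUnder_eq

lemma ulim_eq_of_eventually {a : ℕ → ℝ} {c : ℝ} (h : ∀ᶠ n in atTop, a n = c) : ulim a = c := by
  apply ulim_eq_of_tendsto
  have h1 : ∀ᶠ n in (hyperfilter ℕ : Filter ℕ), a n = c := by
    have h2 : (hyperfilter ℕ : Filter ℕ) ≤ atTop := by
      rw [← Nat.cofinite_eq_atTop]
      exact hyperfilter_le_cofinite
    exact h2 h
  exact Tendsto.congr' (h1.mono fun n hn => hn.symm) tendsto_const_nhds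

lemma abs_ulim_le {a : ℕ → ℝ} {B : ℝ} (hB : ∀ n, |a n| ≤ B) : |ulim a| ≤ B := by
  have h := (tendsto_ulim a B hB).abs
  exact le_of_tendsto h (Eventually.of_forall hB)

end

end Run7.h51
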