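import Mathlib
import Pool.Agent.Run7.h51.NetsDefs
import Pool.Agent.Run7.h51.NetsMain

open scoped ENNReal Topology
open Filter

namespace Run7.h51

noncomputable section

/-! ### Far away centres -/

lemma exists_far_nat (r : ℕ → ℝ) (hr : ∀ n, 0 ≤ r n) :
    ∃ t : ℕ → ℝ, ∀ m n, m < n → r m + r n < t n - t m := by
  refine ⟨fun n => ∑ l ∈ Finset.range n, (r l + 1) + ∑ l ∈ Finset.range (n + 1), (r l + 1), ?_⟩
  intro m n hmn
  have h1 : ∑ l ∈ Finset.range m, (r l + 1) + (r m + 1) ≤ ∑ l ∈ Finset.range n, (r l + 1) := by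
    rw [← Finset.sum_range_succ]
    apply Finset.sum_le_sum_of_subset_of_nonneg
    · exact Finset.range_subset_range.mpr hmn
    · intro i _ _
      have := hr i
      linarith
  have h2 : ∑ l ∈ Finset.range (m + 1), (r l + 1) + (r n + 1)
      ≤ ∑ l ∈ Finset.range (n + 1), (r l + 1) := by
    rw [Finset.sum_range_succ _ n]
    gcongr
    · intro i _ _
      have := hr i
      linarith
    · omega
  linarith

lemma exists_far {X : Type*} [NormedAddCommGroup X] [NormedSpace ℝ X] [Nontrivial X]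
    (ρ : ℕ × ℕ → ℝ) (hρ : ∀ i, 0 ≤ ρ i) :
    ∃ c : ℕ × ℕ → X, ∀ i j, i ≠ j → ρ i + ρ j < ‖c i - c j‖ := by
  obtain ⟨e, he⟩ : ∃ e : X, ‖e‖ = 1 := exists_norm_eq X zero_le_one
  obtain ⟨t, ht⟩ := exists_far_nat (fun n => ρ (Nat.unpair n)) (fun n => hρ _)
  refine ⟨fun i => t (Nat.pair i.1 i.2) • e, ?_⟩
  intro i j hij
  have hne : Nat.pair i.1 i.2 ≠ Nat.pair j.1 j.2 := by
    intro h
    rw [Nat.pair_eq_pair] at h
    exact hij (Prod.ext h.1 h.2)
  rw [← sub_smul, norm_smul, he, mul_one, Real.norm_eq_abs]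
  rcases lt_or_gt_of_ne hne with h | h
  · have := ht _ _ h
    simp only [Nat.unpair_pair] at this
    rw [abs_sub_comm]
    exact this.trans_le (le_abs_self _)
  · have := ht _ _ h
    simp only [Nat.unpair_pair] at this
    rw [add_comm]
    exact this.trans_le (le_abs_self _)

/-! ### The geometric set-up -/

/-- All data: a net `N` in a normed space, given with its constants, a choice of near points and
far away centres. -/
structure Setup (X : Type*) [NormedAddCommGroup X] [NormedSpace ℝ X] where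
  N : Set X
  o : N
  ε : ℝ
  δ : ℝ
  hε : 0 < ε
  hδ : 0 < δ
  sep : ∀ x y : N, x ≠ y → ε ≤ dist x y
  near : X → N
  hnear : ∀ p, dist p (near p : X) < δ
  c : ℕ × ℕ → X
  hc : ∀ i j, i ≠ j → (2 * δ / ε + 1) * (2 ^ (i.1 + 1) + δ) + (2 * δ / ε + 1) * (2 ^ (j.1 + 1) + δ)
    < ‖c i - c j‖

namespace Setup

variable {X : Type*} [NormedAddCommGroup X] [NormedSpace ℝ X] (D : Setup X)

/-- The dilation constant. -/
def K : ℝ := 2 * D.δ / D.ε + 1

lemma K_ge : 1 ≤ D.K := by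
  unfold K
  have := D.hε; have := D.hδ
  have : 0 ≤ 2 * D.δ / D.ε := by positivity
  linarith

lemma K_pos : 0 < D.K := lt_of_lt_of_le one_pos D.K_ge

lemma K_mul : D.K * D.ε = 2 * D.δ + D.ε := by
  unfold K
  have := D.hε
  field_simp

/-- The Lipschitz constant of all maps. -/
def L : ℝ := D.K + 2 * D.δ / D.ε

lemma L_ge : 1 ≤ D.L := by
  unfold L
  have := D.K_ge
  have := D.hε; have := D.hδ
  have : 0 ≤ 2 * D.δ / D.ε := by positivity
  linarith

lemma L_nonneg : 0 ≤ D.L := zero_le_one.trans D.L_ge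

/-- The map `y ↦` near point of `x + K (y - o)`. -/
def θ (x : X) (y : D.N) : D.N := D.near (x + D.K • ((y : X) - D.o))

lemma θ_dist (x : X) (y : D.N) : ‖(D.θ x y : X) - x - D.K • ((y : X) - D.o)‖ < D.δ := by
  have := D.hnear (x + D.K • ((y : X) - D.o))
  rw [dist_comm, dist_eq_norm] at this
  have h : (D.θ x y : X) - x - D.K • ((y : X) - D.o)
      = (D.near (x + D.K • ((y : X) - D.o)) : X) - (x + D.K • ((y : X) - D.o)) := by
    unfold θ; abel
  rw [h]; exact this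

lemma θ_sub (x : X) (y y' : D.N) :
    ‖((D.θ x y : X) - D.θ x y') - D.K • ((y : X) - y')‖ < 2 * D.δ := by
  have h1 := D.θ_dist x y
  have h2 := D.θ_dist x y'
  have h : ((D.θ x y : X) - D.θ x y') - D.K • ((y : X) - y')
      = ((D.θ x y : X) - x - D.K • ((y : X) - D.o))
        - ((D.θ x y' : X) - x - D.K • ((y' : X) - D.o)) := by
    simp only [smul_sub]; abel
  rw [h]
  refine (norm_sub_le _ _).trans_lt ?_
  linarith

lemma θ_inj (x : X) : Function.Injective (D.θ x) := by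
  intro y y' h
  by_contra hne
  have h1 := D.θ_sub x y y'
  rw [h, sub_self, zero_sub, norm_neg, norm_smul, Real.norm_eq_abs, abs_of_pos D.K_pos] at h1
  have h2 : D.ε ≤ ‖(y : X) - y'‖ := by
    have := D.sep y y' hne
    rwa [Subtype.dist_eq, dist_eq_norm] at this
  have h3 : D.K * D.ε ≤ D.K * ‖(y : X) - y'‖ := by
    have := D.K_pos
    gcongr
  rw [D.K_mul] at h3
  have := D.hε
  linarith

lemma two_delta_le {y y' : D.N} (hne : y ≠ y') : 2 * D.δ ≤ 2 * D.δ / D.ε * dist y y' := by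
  have h2 := D.sep y y' hne
  have := D.hε; have := D.hδ
  rw [div_mul_eq_mul_div, le_div_iff₀ D.hε]
  gcongr

lemma θ_lip (x : X) (y y' : D.N) : dist (D.θ x y) (D.θ x y') ≤ D.L * dist y y' := by
  by_cases hne : y = y'
  · subst hne; simp
  have h1 := D.θ_sub x y y'
  have h2 : dist (D.θ x y) (D.θ x y') ≤ D.K * dist y y' + 2 * D.δ := by
    rw [Subtype.dist_eq, Subtype.dist_eq, dist_eq_norm, dist_eq_norm]
    have h : (D.θ x y : X) - D.θ x y'
      = (((D.θ x y : X) - D.θ x y') - D.K • ((y : X) - y')) + D.K • ((y : X) - y') := by abel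
    rw [h]
    refine (norm_add_le _ _).trans ?_
    rw [norm_smul, Real.norm_eq_abs, abs_of_pos D.K_pos]
    linarith
  have h3 := D.two_delta_le hne
  unfold L
  rw [add_mul]
  linarith

open Classical in
/-- A left inverse of `θ x`. -/
def τ (x : X) (z : D.N) : D.N :=
  if h : ∃ y, D.θ x y = z then h.choose else D.near ((D.o : X) + D.K⁻¹ • ((z : X) - x))

lemma τ_θ (x : X) (y : D.N) : D.τ x (D.θ x y) = y := by
  have h : ∃ y', D.θ x y' = D.θ x y := ⟨y, rfl⟩
  unfold τ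
  rw [dif_pos h]
  exact D.θ_inj x h.choose_spec

lemma τ_dist (x : X) (z : D.N) :
    ‖(D.τ x z : X) - D.o - D.K⁻¹ • ((z : X) - x)‖ ≤ D.δ := by
  by_cases h : ∃ y, D.θ x y = z
  · obtain ⟨y, rfl⟩ := h
    rw [τ_θ]
    have h1 := D.θ_dist x y
    have h2 : (y : X) - D.o - D.K⁻¹ • ((D.θ x y : X) - x)
        = - (D.K⁻¹ • ((D.θ x y : X) - x - D.K • ((y : X) - D.o))) := by
      rw [smul_sub D.K⁻¹ ((D.θ x y : X) - x), smul_smul, inv_mul_cancel₀ D.K_pos.ne', one_smul]
      abel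
    rw [h2, norm_neg, norm_smul, norm_inv, Real.norm_eq_abs, abs_of_pos D.K_pos]
    have h3 : D.K⁻¹ ≤ 1 := inv_le_one_of_one_le₀ D.K_ge
    have h4 : 0 ≤ D.K⁻¹ := inv_nonneg.mpr D.K_pos.le
    calc D.K⁻¹ * ‖(D.θ x y : X) - x - D.K • ((y : X) - D.o)‖ ≤ 1 * D.δ := by
          gcongr
      _ = D.δ := one_mul _
  · unfold τ
    rw [dif_neg h]
    have := D.hnear ((D.o : X) + D.K⁻¹ • ((z : X) - x))
    rw [dist_comm, dist_eq_norm] at this
    rw [sub_sub]
    exact this.le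

lemma τ_lip (x : X) (z z' : D.N) : dist (D.τ x z) (D.τ x z') ≤ D.L * dist z z' := by
  by_cases hne : z = z'
  · subst hne; simp
  have h1 := D.τ_dist x z
  have h2 := D.τ_dist x z'
  have h3 : dist (D.τ x z) (D.τ x z') ≤ D.K⁻¹ * dist z z' + 2 * D.δ := by
    rw [Subtype.dist_eq, Subtype.dist_eq, dist_eq_norm, dist_eq_norm]
    have h : (D.τ x z : X) - D.τ x z'
      = ((D.τ x z : X) - D.o - D.K⁻¹ • ((z : X) - x))
        - ((D.τ x z' : X) - D.o - D.K⁻¹ • ((z' : X) - x)) + D.K⁻¹ • ((z : X) - z') := by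
      simp only [smul_sub]; abel
    rw [h]
    refine (norm_add_le _ _).trans ?_
    have h5 : ‖((D.τ x z : X) - D.o - D.K⁻¹ • ((z : X) - x))
        - ((D.τ x z' : X) - D.o - D.K⁻¹ • ((z' : X) - x))‖ ≤ D.δ + D.δ :=
      (norm_sub_le _ _).trans (add_le_add h1 h2)
    rw [norm_smul, norm_inv, Real.norm_eq_abs, abs_of_pos D.K_pos]
    linarith
  have h4 := D.two_delta_le hne
  have h5 : D.K⁻¹ ≤ D.K := (inv_le_one_of_one_le₀ D.K_ge).trans D.K_ge
  have h6 : D.K⁻¹ * dist z z' ≤ D.K * dist z z' := by gcongr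
  unfold L
  rw [add_mul]
  linarith

/-- Cut-off function: `1` on the ball of radius `2 ^ n` about `o`, `0` off the ball of radius
`2 ^ (n + 1)`. -/
def cut (n : ℕ) (y : D.N) : ℝ := max 0 (min 1 (2 - dist y D.o / 2 ^ n))

lemma cut_nonneg (n : ℕ) (y : D.N) : 0 ≤ D.cut n y := le_max_left _ _

lemma cut_le_one (n : ℕ) (y : D.N) : D.cut n y ≤ 1 := max_le zero_le_one (min_le_left _ _)

lemma cut_eq_one {n : ℕ} {y : D.N} (h : dist y D.o ≤ 2 ^ n) : D.cut n y = 1 := by
  unfold cut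
  have : dist y D.o / 2 ^ n ≤ 1 := by
    rw [div_le_one (by positivity)]; exact h
  rw [min_eq_left (by linarith), max_eq_right zero_le_one]

lemma cut_eq_zero {n : ℕ} {y : D.N} (h : 2 ^ (n + 1) ≤ dist y D.o) : D.cut n y = 0 := by
  unfold cut
  have : 2 ≤ dist y D.o / 2 ^ n := by
    rw [le_div_iff₀ (by positivity)]
    rw [pow_succ] at h
    linarith
  apply max_eq_left
  exact (min_le_right _ _).trans (by linarith)

lemma cut_lip (n : ℕ) (y z : D.N) : |D.cut n y - D.cut n z| ≤ dist y z / 2 ^ n := by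
  unfold cut
  have h1 : |max 0 (min 1 (2 - dist y D.o / 2 ^ n)) - max 0 (min 1 (2 - dist z D.o / 2 ^ n))|
      ≤ |min 1 (2 - dist y D.o / 2 ^ n) - min 1 (2 - dist z D.o / 2 ^ n)| := by
    have := abs_max_sub_max_le_abs (min 1 (2 - dist y D.o / 2 ^ n))
      (min 1 (2 - dist z D.o / 2 ^ n)) 0
    rwa [max_comm _ (0 : ℝ), max_comm _ (0 : ℝ)] at this
  have h2 : |min 1 (2 - dist y D.o / 2 ^ n) - min 1 (2 - dist z D.o / 2 ^ n)|
      ≤ |(2 - dist y D.o / 2 ^ n) - (2 - dist z D.o / 2 ^ n)| := by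
    have := abs_min_sub_min_le_max 1 (2 - dist y D.o / 2 ^ n) 1 (2 - dist z D.o / 2 ^ n)
    simpa using this
  refine h1.trans (h2.trans ?_)
  have h3 : (2 - dist y D.o / 2 ^ n) - (2 - dist z D.o / 2 ^ n)
      = (dist z D.o - dist y D.o) / 2 ^ n := by ring
  rw [h3, abs_div, abs_of_pos (show (0 : ℝ) < 2 ^ n by positivity)]
  gcongr
  rw [abs_sub_comm]
  exact abs_dist_sub_le y z D.o

/-- The product of a function with the cut-off is `3 ‖f‖`-Lipschitz. -/
lemma cut_mul_lip (n : ℕ) (f : Lip0 D.N D.o) (y z : D.N) :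
    |D.cut n y * f y - D.cut n z * f z| ≤ 3 * ‖f‖ * dist y z := by
  have key : ∀ a b : D.N, dist a D.o ≤ 2 ^ (n + 1) →
      |D.cut n a * f a - D.cut n b * f b| ≤ 3 * ‖f‖ * dist a b := by
    intro a b ha
    have h1 : D.cut n a * f a - D.cut n b * f b
        = (D.cut n a - D.cut n b) * f a + D.cut n b * (f a - f b) := by ring
    rw [h1]
    refine (abs_add_le _ _).trans ?_
    rw [abs_mul, abs_mul, abs_of_nonneg (D.cut_nonneg n b)]
    have h2 : |D.cut n a - D.cut n b| * |f a| ≤ 2 * ‖f‖ * dist a b := by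
      have h3 := D.cut_lip n a b
      have h4 : |f a| ≤ ‖f‖ * 2 ^ (n + 1) :=
        (abs_le f a).trans (by gcongr)
      calc |D.cut n a - D.cut n b| * |f a| ≤ (dist a b / 2 ^ n) * (‖f‖ * 2 ^ (n + 1)) := by
            gcongr
        _ = 2 * ‖f‖ * dist a b := by
            rw [pow_succ]; field_simp
    have h5 : D.cut n b * |f a - f b| ≤ 1 * (‖f‖ * dist a b) := by
      gcongr
      · exact D.cut_le_one n b
      · exact abs_sub_le f a b
    linarith
  by_cases hy : dist y D.o ≤ 2 ^ (n + 1)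
  · exact key y z hy
  by_cases hz : dist z D.o ≤ 2 ^ (n + 1)
  · have := key z y hz
    rwa [abs_sub_comm, dist_comm]
  · rw [D.cut_eq_zero (not_le.mp hy).le, D.cut_eq_zero (not_le.mp hz).le]
    simp only [zero_mul, sub_self, abs_zero]
    positivity

/-- radius of the ball around the centre `c i` that carries the `i`-th piece -/
lemma ball_of_cut {i : ℕ × ℕ} {z : D.N} (h : D.cut i.1 (D.τ (D.c i) z) ≠ 0) :
    ‖(z : X) - D.c i‖ ≤ D.K * (2 ^ (i.1 + 1) + D.δ) := by
  have h1 : dist (D.τ (D.c i) z) D.o < 2 ^ (i.1 + 1) := by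
    by_contra hcon
    exact h (D.cut_eq_zero (not_lt.mp hcon))
  rw [Subtype.dist_eq, dist_eq_norm] at h1
  have h2 := D.τ_dist (D.c i) z
  have h3 : D.K⁻¹ * ‖(z : X) - D.c i‖ ≤ 2 ^ (i.1 + 1) + D.δ := by
    have h4 : D.K⁻¹ * ‖(z : X) - D.c i‖ = ‖D.K⁻¹ • ((z : X) - D.c i)‖ := by
      rw [norm_smul, norm_inv, Real.norm_eq_abs, abs_of_pos D.K_pos]
    rw [h4]
    have h5 : D.K⁻¹ • ((z : X) - D.c i) = ((D.τ (D.c i) z : X) - D.o)
      - ((D.τ (D.c i) z : X) - D.o - D.K⁻¹ • ((z : X) - D.c i)) := by abel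
    rw [h5]
    refine (norm_sub_le _ _).trans ?_
    linarith
  have h6 := D.K_pos
  calc ‖(z : X) - D.c i‖ = D.K * (D.K⁻¹ * ‖(z : X) - D.c i‖) := by
        rw [← mul_assoc, mul_inv_cancel₀ h6.ne', one_mul]
    _ ≤ _ := by gcongr

lemma unique_ball {i j : ℕ × ℕ} {z : X} (hi : ‖z - D.c i‖ ≤ D.K * (2 ^ (i.1 + 1) + D.δ))
    (hj : ‖z - D.c j‖ ≤ D.K * (2 ^ (j.1 + 1) + D.δ)) : i = j := by
  by_contra hne
  have h1 := D.hc i j hne
  have h2 : ‖D.c i - D.c j‖ ≤ ‖z - D.c i‖ + ‖z - D.c j‖ := by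
    have : D.c i - D.c j = (z - D.c j) - (z - D.c i) := by abel
    rw [this]
    refine (norm_sub_le _ _).trans ?_
    linarith
  unfold K at hi hj
  linarith

open Classical in
/-- The index of the piece that is active at `z`. -/
def idx (z : D.N) : ℕ × ℕ :=
  if h : ∃ i, ‖(z : X) - D.c i‖ ≤ D.K * (2 ^ (i.1 + 1) + D.δ) then h.choose else (0, 0)

lemma cut_eq_zero_of_ne {i : ℕ × ℕ} {z : D.N} (h : i ≠ D.idx z) :
    D.cut i.1 (D.τ (D.c i) z) = 0 := by
  by_contra hcon
  have h1 := D.ball_of_cut hcon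
  have h2 : ∃ i, ‖(z : X) - D.c i‖ ≤ D.K * (2 ^ (i.1 + 1) + D.δ) := ⟨i, h1⟩
  apply h
  unfold idx
  rw [dif_pos h2]
  exact D.unique_ball h1 h2.choose_spec

/-- The `i`-th piece. -/
def piece (F : Linf (Lip0 D.N D.o)) (i : ℕ × ℕ) (z : D.N) : ℝ :=
  D.cut i.1 (D.τ (D.c i) z) * F i.2 (D.τ (D.c i) z)

lemma piece_eq_zero (F : Linf (Lip0 D.N D.o)) {i : ℕ × ℕ} {z : D.N} (h : i ≠ D.idx z) :
    D.piece F i z = 0 := by
  unfold piece
  rw [D.cut_eq_zero_of_ne h, zero_mul]

lemma piece_lip (F : Linf (Lip0 D.N D.o)) (i : ℕ × ℕ) (z w : D.N) :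
    |D.piece F i z - D.piece F i w| ≤ 3 * D.L * ‖F‖ * dist z w := by
  unfold piece
  refine (D.cut_mul_lip i.1 (F i.2) _ _).trans ?_
  have h1 := D.τ_lip (D.c i) z w
  have h2 : ‖F i.2‖ ≤ ‖F‖ := linf_norm_le F i.2
  calc 3 * ‖F i.2‖ * dist (D.τ (D.c i) z) (D.τ (D.c i) w)
      ≤ 3 * ‖F‖ * (D.L * dist z w) := by gcongr
    _ = _ := by ring

/-- The sum of all pieces. -/
def S0 (F : Linf (Lip0 D.N D.o)) (z : D.N) : ℝ := D.piece F (D.idx z) z

lemma S0_lip (F : Linf (Lip0 D.N D.o)) (z w : D.N) :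
    |D.S0 F z - D.S0 F w| ≤ 6 * D.L * ‖F‖ * dist z w := by
  unfold S0
  have hL := D.L_nonneg
  by_cases h : D.idx z = D.idx w
  · rw [← h]
    refine (D.piece_lip F _ z w).trans ?_
    gcongr
    norm_num
  · have h1 : D.piece F (D.idx z) w = 0 := D.piece_eq_zero F h
    have h2 : D.piece F (D.idx w) z = 0 := D.piece_eq_zero F (Ne.symm h)
    have h3 := D.piece_lip F (D.idx z) z w
    have h4 := D.piece_lip F (D.idx w) z w
    rw [h1] at h3
    rw [h2] at h4
    have h5 : D.piece F (D.idx z) z - D.piece F (D.idx w) w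
      = (D.piece F (D.idx z) z - 0) + (0 - D.piece F (D.idx w) w) := by ring
    rw [h5]
    refine (abs_add_le _ _).trans ?_
    linarith

/-- The embedding `S : ℓ^∞(Z) → Z`. -/
def S : Linf (Lip0 D.N D.o) →L[ℝ] Lip0 D.N D.o :=
  LinearMap.mkContinuous
    { toFun := fun F => mkLip (D.S0 F) (6 * D.L * ‖F‖) (D.S0_lip F)
      map_add' := fun F G => by
        ext z
        simp only [mkLip_apply, add_apply', S0, piece, lp.coeFn_add, Pi.add_apply]
        ring
      map_smul' := fun c F => by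
        ext z
        simp only [mkLip_apply, smul_apply', S0, piece, lp.coeFn_smul, Pi.smul_apply,
          RingHom.id_apply]
        ring }
    (6 * D.L) (fun F => by
      have := D.L_nonneg
      exact norm_mkLip_le _ _ (by positivity) (D.S0_lip F))

lemma S_apply (F : Linf (Lip0 D.N D.o)) (z : D.N) : D.S F z = D.S0 F z - D.S0 F D.o := rfl

/-- The sequences whose limits give the map `R`. -/
def seq (f : Lip0 D.N D.o) (k : ℕ) (y : D.N) (n : ℕ) : ℝ :=
  f (D.θ (D.c (n, k)) y) - f (D.θ (D.c (n, k)) D.o)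

lemma seq_sub (f : Lip0 D.N D.o) (k : ℕ) (y y' : D.N) (n : ℕ) :
    |D.seq f k y n - D.seq f k y' n| ≤ D.L * ‖f‖ * dist y y' := by
  unfold seq
  have h : f (D.θ (D.c (n, k)) y) - f (D.θ (D.c (n, k)) D.o)
      - (f (D.θ (D.c (n, k)) y') - f (D.θ (D.c (n, k)) D.o))
      = f (D.θ (D.c (n, k)) y) - f (D.θ (D.c (n, k)) y') := by ring
  rw [h]
  refine (abs_sub_le f _ _).trans ?_
  calc ‖f‖ * dist (D.θ (D.c (n, k)) y) (D.θ (D.c (n, k)) y') ≤ ‖f‖ * (D.L * dist y y') := by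
        gcongr
        exact D.θ_lip _ _ _
    _ = _ := by ring

lemma seq_base (f : Lip0 D.N D.o) (k n : ℕ) : D.seq f k D.o n = 0 := sub_self _

lemma seq_bound (f : Lip0 D.N D.o) (k : ℕ) (y : D.N) (n : ℕ) :
    |D.seq f k y n| ≤ D.L * ‖f‖ * dist y D.o := by
  have := D.seq_sub f k y D.o n
  rwa [seq_base, sub_zero] at this

lemma seq_tendsto (f : Lip0 D.N D.o) (k : ℕ) (y : D.N) :
    Tendsto (D.seq f k y) (hyperfilter ℕ : Filter ℕ) (𝓝 (ulim (D.seq f k y))) :=
  tendsto_ulim _ _ (D.seq_bound f k y)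

lemma R0_lip (f : Lip0 D.N D.o) (k : ℕ) (y y' : D.N) :
    |ulim (D.seq f k y) - ulim (D.seq f k y')| ≤ D.L * ‖f‖ * dist y y' :=
  le_of_tendsto ((D.seq_tendsto f k y).sub (D.seq_tendsto f k y')).abs
    (Eventually.of_forall (D.seq_sub f k y y'))

lemma R0_base (f : Lip0 D.N D.o) (k : ℕ) : ulim (D.seq f k D.o) = 0 :=
  ulim_eq_of_eventually (Eventually.of_forall (D.seq_base f k))

/-- The coordinates of the left inverse `R : Z → ℓ^∞(Z)` as a linear map. -/
def R1 : Lip0 D.N D.o →ₗ[ℝ] (ℕ → Lip0 D.N D.o) where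
  toFun f k := mkLip (fun y => ulim (D.seq f k y)) (D.L * ‖f‖) (D.R0_lip f k)
  map_add' f g := by
    funext k
    ext y
    rw [Pi.add_apply, add_apply']
    simp only [mkLip_apply, R0_base, sub_zero]
    apply ulim_eq_of_tendsto
    refine Tendsto.congr ?_ ((D.seq_tendsto f k y).add (D.seq_tendsto g k y))
    intro n
    simp only [seq, add_apply']
    ring
  map_smul' c f := by
    funext k
    ext y
    rw [Pi.smul_apply, smul_apply', RingHom.id_apply]
    simp only [mkLip_apply, R0_base, sub_zero]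
    apply ulim_eq_of_tendsto
    refine Tendsto.congr ?_ ((D.seq_tendsto f k y).const_mul c)
    intro n
    simp only [seq, smul_apply']
    ring

lemma R1_apply (f : Lip0 D.N D.o) (k : ℕ) (y : D.N) : D.R1 f k y = ulim (D.seq f k y) := by
  have : D.R1 f k y = ulim (D.seq f k y) - ulim (D.seq f k D.o) := rfl
  rw [this, R0_base, sub_zero]

/-- The left inverse `R : Z → ℓ^∞(Z)`. -/
def R : Lip0 D.N D.o →L[ℝ] Linf (Lip0 D.N D.o) :=
  toLinf D.R1 D.L D.L_nonneg (fun f k =>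
    norm_mkLip_le _ _ (mul_nonneg D.L_nonneg (norm_nonneg _)) (D.R0_lip f k))

lemma S0_θ (F : Linf (Lip0 D.N D.o)) (n k : ℕ) (y : D.N) (hy : dist y D.o ≤ 2 ^ n) :
    D.S0 F (D.θ (D.c (n, k)) y) = F k y := by
  have h1 : ‖(D.θ (D.c (n, k)) y : X) - D.c (n, k)‖ ≤ D.K * (2 ^ (n + 1) + D.δ) := by
    have h2 := D.θ_dist (D.c (n, k)) y
    have h3 : (D.θ (D.c (n, k)) y : X) - D.c (n, k)
      = ((D.θ (D.c (n, k)) y : X) - D.c (n, k) - D.K • ((y : X) - D.o))
        + D.K • ((y : X) - D.o) := by abel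
    rw [h3]
    refine (norm_add_le _ _).trans ?_
    rw [norm_smul, Real.norm_eq_abs, abs_of_pos D.K_pos]
    rw [Subtype.dist_eq, dist_eq_norm] at hy
    have h4 := D.K_pos
    have h5 : D.K * ‖(y : X) - D.o‖ ≤ D.K * 2 ^ (n + 1) := by
      have : (2 : ℝ) ^ n ≤ 2 ^ (n + 1) := by
        rw [pow_succ]
        have : (0 : ℝ) < 2 ^ n := by positivity
        linarith
      gcongr
      linarith
    have h6 : D.δ ≤ D.K * D.δ := by
      have := D.K_ge
      have := D.hδ
      nlinarith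
    rw [mul_add]
    linarith
  have hidx : D.idx (D.θ (D.c (n, k)) y) = (n, k) := by
    have h2 : ∃ i, ‖(D.θ (D.c (n, k)) y : X) - D.c i‖ ≤ D.K * (2 ^ (i.1 + 1) + D.δ) :=
      ⟨(n, k), h1⟩
    unfold idx
    rw [dif_pos h2]
    exact (D.unique_ball (i := (n, k)) h1 h2.choose_spec).symm
  unfold S0 piece
  rw [hidx, D.τ_θ, D.cut_eq_one hy, one_mul]

lemma R_S (F : Linf (Lip0 D.N D.o)) : D.R (D.S F) = F := by
  apply lp.ext
  funext k
  ext y
  have h0 : (D.R (D.S F)) k y = ulim (D.seq (D.S F) k y) := D.R1_apply _ k y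
  rw [h0]
  apply ulim_eq_of_eventually
  obtain ⟨n0, hn0⟩ := pow_unbounded_of_one_lt (dist y D.o) (one_lt_two : (1 : ℝ) < 2)
  filter_upwards [eventually_ge_atTop n0] with n hn
  have h1 : dist y D.o ≤ 2 ^ n := hn0.le.trans (pow_le_pow_right₀ one_le_two hn)
  have h2 : dist D.o D.o ≤ 2 ^ n := by rw [dist_self]; positivity
  unfold seq
  rw [S_apply, S_apply, D.S0_θ F n k y h1, D.S0_θ F n k D.o h2, base_apply]
  ring

end Setup

/-- Main theorem for a nontrivial normed space. -/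
theorem lip0_net_equiv {X : Type*} [NormedAddCommGroup X] [NormedSpace ℝ X] (N : Set X)
    (hN : IsNet N) (o : N) : Nonempty (Lip0 N o ≃L[ℝ] Linf (Lip0 N o)) := by
  rcases subsingleton_or_nontrivial X with hX | hX
  · -- trivial case
    have h1 : Subsingleton (Lip0 N o) := by
      constructor
      intro f g
      ext x
      have : x = o := Subsingleton.elim _ _
      rw [this, base_apply, base_apply]
    have h2 : Subsingleton (Linf (Lip0 N o)) := by
      constructor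
      intro f g
      apply lp.ext
      funext k
      exact Subsingleton.elim _ _
    exact ⟨ContinuousLinearEquiv.equivOfInverse 0 0 (fun _ => Subsingleton.elim _ _)
      (fun _ => Subsingleton.elim _ _)⟩
  · obtain ⟨⟨ε, hε, hsep⟩, δ, hδ, hdense⟩ := hN
    choose near hnear1 hnear2 using hdense
    obtain ⟨c, hc⟩ := exists_far (X := X)
      (fun i => (2 * δ / ε + 1) * (2 ^ (i.1 + 1) + δ)) (fun i => by positivity)
    let D : Setup X :=
      { N := N
        o := o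
        ε := ε
        δ := δ
        hε := hε
        hδ := hδ
        sep := fun x y hxy => hsep x x.2 y y.2 (fun h => hxy (Subtype.ext h))
        near := fun p => ⟨near p, hnear1 p⟩
        hnear := hnear2
        c := c
        hc := hc }
    exact decomposition D.S D.R D.R_S

end

end Run7.h51
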