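import Pool.Agent.Run7.h51.EngPrime

/-!
Subdirectly irreducible rings in the variety of the identities of upper triangular
2 by 2 matrices over a finite field are small.
-/

namespace Run7.h51.Eng

open Polynomial

/-- A module over a commutative ring with `x ^ q = x`, faithful, all of whose nonzero submodules
contain a fixed nonzero vector. -/
theorem small_module {Λ J : Type} [CommRing Λ] [AddCommGroup J] [Module Λ J] (q : ℕ)
    (hq : 2 ≤ q) (hpow : ∀ l : Λ, l ^ q = l) (hfaith : ∀ l : Λ, (∀ j : J, l • j = 0) → l = 0)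
    (w : J) (hw : w ≠ 0) (hmin : ∀ N : Submodule Λ J, N ≠ ⊥ → w ∈ N) :
    (Finite Λ ∧ Nat.card Λ ≤ q) ∧ (Finite J ∧ Nat.card J ≤ q) := by
  classical
  have hnt : Nontrivial Λ := by
    refine ⟨1, 0, ?_⟩
    intro h
    apply hw
    rw [← one_smul Λ w, h, zero_smul]
  have hunit : ∀ l : Λ, l ≠ 0 → l ^ (q - 1) = 1 := by
    intro l hl
    set e := l ^ (q - 1) with he
    have hle : l * e = l := by
      rw [he, ← pow_succ', Nat.sub_add_cancel (by omega), hpow]
    have hee : e * e = e := by
      rw [he, ← pow_add]
      have : q - 1 + (q - 1) = q + (q - 2) := by omega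
      rw [this, pow_add, hpow, ← pow_succ']
      congr 1
      omega
    have he0 : e ≠ 0 := by
      intro h
      rw [h, mul_zero] at hle
      exact hl hle.symm
    let K₀ : Submodule Λ J :=
      { carrier := {j | e • j = 0}
        add_mem' := by
          intro a b ha hb
          show e • (a + b) = 0
          rw [smul_add, ha, hb, add_zero]
        zero_mem' := smul_zero e
        smul_mem' := by
          intro c a ha
          show e • c • a = 0
          rw [smul_comm, ha, smul_zero] }
    let K₁ : Submodule Λ J :=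
      { carrier := {j | e • j = j}
        add_mem' := by
          intro a b ha hb
          show e • (a + b) = a + b
          rw [smul_add, ha, hb]
        zero_mem' := smul_zero e
        smul_mem' := by
          intro c a ha
          show e • c • a = c • a
          rw [smul_comm, ha] }
    have h1 : w ∈ K₁ := by
      apply hmin
      intro h
      apply he0
      apply hfaith
      intro j
      have : e • j ∈ K₁ := by
        show e • e • j = e • j
        rw [smul_smul, hee]
      rw [h] at this
      simpa using this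
    have h0 : K₀ = ⊥ := by
      by_contra h
      have h2 := hmin K₀ h
      have h3 : e • w = 0 := h2
      have h4 : e • w = w := h1
      exact hw (h4.symm.trans h3)
    have h5 : ∀ j : J, (e - 1) • j = 0 := by
      intro j
      have : (e - 1) • j ∈ K₀ := by
        show e • (e - 1) • j = 0
        rw [smul_smul, mul_sub, hee, mul_one, sub_self, zero_smul]
      rw [h0] at this
      simpa using this
    have := hfaith _ h5
    exact sub_eq_zero.mp this
  have hdom : IsDomain Λ := by
    have : NoZeroDivisors Λ := ⟨by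
      intro a b hab
      by_cases ha : a = 0
      · exact Or.inl ha
      · right
        have h1 := hunit a ha
        have h2 : q - 1 = (q - 2) + 1 := by omega
        calc b = a ^ (q - 1) * b := by rw [h1, one_mul]
          _ = a ^ (q - 2) * (a * b) := by rw [h2, pow_succ, mul_assoc]
          _ = 0 := by rw [hab, mul_zero]⟩
    exact NoZeroDivisors.to_isDomain Λ
  have hdeg : (X ^ q - X : Λ[X]).natDegree = q := by
    rw [natDegree_sub_eq_left_of_natDegree_lt]
    · exact natDegree_X_pow q
    · rw [natDegree_X_pow, natDegree_X]; omega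
  have hf0 : (X ^ q - X : Λ[X]) ≠ 0 := by
    intro h
    rw [h, natDegree_zero] at hdeg
    omega
  have hroots : ∀ l : Λ, l ∈ (X ^ q - X : Λ[X]).roots.toFinset := by
    intro l
    rw [Multiset.mem_toFinset, mem_roots hf0, IsRoot.def, eval_sub, eval_pow, eval_X, hpow l,
      sub_self]
  have hcardroots : (X ^ q - X : Λ[X]).roots.toFinset.card ≤ q := by
    calc (X ^ q - X : Λ[X]).roots.toFinset.card ≤ Multiset.card (X ^ q - X : Λ[X]).roots :=
          Multiset.toFinset_card_le _
      _ ≤ (X ^ q - X : Λ[X]).natDegree := card_roots' _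
      _ = q := hdeg
  have hinj : Function.Injective
      (fun l : Λ => (⟨l, hroots l⟩ : (X ^ q - X : Λ[X]).roots.toFinset)) := by
    intro a b hab
    exact congrArg Subtype.val hab
  have hfin : Finite Λ := Finite.of_injective _ hinj
  have hcard : Nat.card Λ ≤ q := by
    have h1 := Nat.card_le_card_of_injective _ hinj
    have h2 : Nat.card (X ^ q - X : Λ[X]).roots.toFinset
        = (X ^ q - X : Λ[X]).roots.toFinset.card := by
      rw [Nat.card_eq_fintype_card, Fintype.card_coe]
    rw [h2] at h1
    exact h1.trans hcardroots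
  have hsurj : Function.Surjective fun l : Λ => l • w := by
    intro j
    by_cases hj : j = 0
    · exact ⟨0, by simp [hj]⟩
    · have h1 : w ∈ Submodule.span Λ {j} := by
        apply hmin
        intro h
        rw [Submodule.span_singleton_eq_bot] at h
        exact hj h
      obtain ⟨l, hl⟩ := Submodule.mem_span_singleton.mp h1
      have hl0 : l ≠ 0 := by
        rintro rfl
        rw [zero_smul] at hl
        exact hw hl.symm
      refine ⟨l ^ (q - 2), ?_⟩
      show l ^ (q - 2) • w = j
      rw [← hl, smul_smul, ← pow_succ]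
      have : q - 2 + 1 = q - 1 := by omega
      rw [this, hunit l hl0, one_smul]
  exact ⟨⟨hfin, hcard⟩, Finite.of_surjective _ hsurj,
    (Nat.card_le_card_of_surjective _ hsurj).trans hcard⟩

section si

variable {R : Type} [NonUnitalRing R]

/-- `npw n x = x ^ (n + 1)`. -/
def npw : ℕ → R → R
  | 0, x => x
  | n + 1, x => npw n x * x

/-- values of the two basic polynomials -/
def Cset (q : ℕ) : Set R := {u | (∃ a b : R, u = a * b - b * a) ∨ ∃ a : R, u = npw (q - 1) a - a}

open scoped IsMulCommutative in
theorem si_card (p e : ℕ) (hp : p.Prime) (he : 1 ≤ e) (hchar : ∀ x : R, p • x = 0)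
    (hC : ∀ u ∈ Cset (R := R) (p ^ e), ∀ v ∈ Cset (R := R) (p ^ e), u * v = 0) (w : R)
    (hw : w ≠ 0) (hmin : ∀ I : AddSubgroup R, IsId I → I ≠ ⊥ → w ∈ I) :
    Finite R ∧ Nat.card R ≤ p ^ e * p ^ e * p ^ e := by
  set q := p ^ e with hq
  have hq2 : 2 ≤ q := by
    calc 2 ≤ p := hp.two_le
      _ = p ^ 1 := (pow_one p).symm
      _ ≤ p ^ e := Nat.pow_le_pow_right hp.pos he
  let J : AddSubgroup R :=
    { carrier := {x | ∀ u ∈ Cset (R := R) q, u * x = 0 ∧ x * u = 0}
      add_mem' := by
        intro a b ha hb u hu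
        rw [mul_add, add_mul, (ha u hu).1, (ha u hu).2, (hb u hu).1, (hb u hu).2]
        simp
      zero_mem' := by
        intro u _
        simp
      neg_mem' := by
        intro a ha u hu
        rw [mul_neg, neg_mul, (ha u hu).1, (ha u hu).2]
        simp }
  have hcommC : ∀ a b : R, a * b - b * a ∈ Cset (R := R) q := fun a b => Or.inl ⟨a, b, rfl⟩
  have hJ : IsId J := by
    refine ⟨?_, ?_⟩
    · intro r x hx u hu
      refine ⟨?_, ?_⟩
      · have h1 : u * (r * x) = r * (u * x) + (u * r - r * u) * x := by
          rw [sub_mul]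
          simp only [mul_assoc]
          abel
        rw [h1, (hx u hu).1, (hx _ (hcommC u r)).1]
        simp
      · rw [mul_assoc, (hx u hu).2, mul_zero]
    · intro r x hx u hu
      refine ⟨?_, ?_⟩
      · rw [← mul_assoc, (hx u hu).1, zero_mul]
      · have h1 : x * r * u = (x * u) * r - x * (u * r - r * u) := by
          rw [mul_sub]
          simp only [mul_assoc]
          abel
        rw [h1, (hx u hu).2, (hx _ (hcommC u r)).2]
        simp
  have hCJ : ∀ u ∈ Cset (R := R) q, u ∈ J := fun u hu v hv => ⟨hC v hv u hu, hC u hu v hv⟩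
  have hJne : J ≠ ⊥ := by
    intro h
    by_cases hall : ∀ u ∈ Cset (R := R) q, u = 0
    · have : w ∈ J := by
        intro u hu
        rw [hall u hu]
        simp
      rw [h, AddSubgroup.mem_bot] at this
      exact hw this
    · push Not at hall
      obtain ⟨u, hu, hu0⟩ := hall
      have := hCJ u hu
      rw [h, AddSubgroup.mem_bot] at this
      exact hu0 this
  have hwJ : w ∈ J := hmin J hJ hJne
  let Lop : R → AddMonoid.End J := fun x =>
    { toFun := fun j => ⟨x * j, hJ.1 x j j.2⟩
      map_zero' := by ext; simp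
      map_add' := by intro a b; ext; simp [mul_add] }
  let Rop : R → AddMonoid.End J := fun x =>
    { toFun := fun j => ⟨j * x, hJ.2 x j j.2⟩
      map_zero' := by ext; simp
      map_add' := by intro a b; ext; simp [add_mul] }
  have hL : ∀ x (j : J), ((Lop x j : J) : R) = x * j := fun _ _ => rfl
  have hRo : ∀ x (j : J), ((Rop x j : J) : R) = j * x := fun _ _ => rfl
  let 𝒢 : Set (AddMonoid.End J) := Set.range Lop ∪ Set.range Rop
  have hLL : ∀ x y, Lop x * Lop y = Lop y * Lop x := by
    intro x y
    ext j
    show x * (y * (j : R)) = y * (x * (j : R))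
    have h1 := (j.2 _ (hcommC x y)).1
    rw [sub_mul, sub_eq_zero, mul_assoc, mul_assoc] at h1
    exact h1
  have hRR : ∀ x y, Rop x * Rop y = Rop y * Rop x := by
    intro x y
    ext j
    show (j : R) * y * x = (j : R) * x * y
    have h1 := (j.2 _ (hcommC x y)).2
    rw [mul_sub, sub_eq_zero, ← mul_assoc, ← mul_assoc] at h1
    exact h1.symm
  have hLR : ∀ x y, Lop x * Rop y = Rop y * Lop x := by
    intro x y
    ext j
    show x * ((j : R) * y) = x * (j : R) * y
    rw [mul_assoc]
  have hcomm : ∀ a ∈ 𝒢, ∀ b ∈ 𝒢, a * b = b * a := by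
    rintro a (⟨x, rfl⟩ | ⟨x, rfl⟩) b (⟨y, rfl⟩ | ⟨y, rfl⟩)
    · exact hLL x y
    · exact hLR x y
    · exact (hLR y x).symm
    · exact hRR x y
  have hc := Subring.isMulCommutative_closure hcomm
  let Λ := Subring.closure 𝒢
  have hsmul : ∀ (l : Λ) (j : J), l • j = (l : AddMonoid.End J) j := fun _ _ => rfl
  let w' : J := ⟨w, hwJ⟩
  have hw' : w' ≠ 0 := by
    intro h
    exact hw (congrArg Subtype.val h)
  have hnt : Nontrivial Λ := by
    refine ⟨1, 0, ?_⟩
    intro h
    apply hw'
    rw [← one_smul Λ w', h, zero_smul]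
  have hcharΛ : ((p : ℕ) : Λ) = 0 := by
    apply Subtype.ext
    ext j
    have h1 : (((p : ℕ) : Λ) : AddMonoid.End J) = ((p : ℕ) : AddMonoid.End J) := by simp
    rw [h1]
    have h2 : ((p : ℕ) : AddMonoid.End J) j = p • j := by simp
    rw [h2]
    show ((p • j : J) : R) = 0
    rw [AddSubgroup.coe_nsmul]
    exact hchar j
  have hCharP : CharP Λ p := (CharP.charP_iff_prime_eq_zero hp).mpr hcharΛ
  have hExp : ExpChar Λ p := ExpChar.prime hp
  have hpow : ∀ l : Λ, l ^ q = l := by
    have hLpow : ∀ (n : ℕ) x, Lop x ^ (n + 1) = Lop (npw n x) := by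
      intro n x
      induction n with
      | zero => rw [zero_add, pow_one]; rfl
      | succ n ih =>
        rw [pow_succ, ih]
        ext j
        show npw n x * (x * (j : R)) = npw n x * x * (j : R)
        rw [mul_assoc]
    have hRpow : ∀ (n : ℕ) x, Rop x ^ (n + 1) = Rop (npw n x) := by
      intro n x
      induction n with
      | zero => rw [zero_add, pow_one]; rfl
      | succ n ih =>
        rw [pow_succ', ih]
        ext j
        show (j : R) * npw n x * x = (j : R) * (npw n x * x)
        rw [mul_assoc]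
    have hgen : ∀ g ∈ 𝒢, g ^ q = g := by
      have hq1 : q = (q - 1) + 1 := by omega
      rintro g (⟨x, rfl⟩ | ⟨x, rfl⟩)
      · rw [hq1, hLpow]
        ext j
        show npw (q - 1) x * (j : R) = x * (j : R)
        have h1 := (j.2 _ (Or.inr ⟨x, rfl⟩ : npw (q - 1) x - x ∈ Cset (R := R) q)).1
        rw [sub_mul, sub_eq_zero] at h1
        exact h1
      · rw [hq1, hRpow]
        ext j
        show (j : R) * npw (q - 1) x = (j : R) * x
        have h1 := (j.2 _ (Or.inr ⟨x, rfl⟩ : npw (q - 1) x - x ∈ Cset (R := R) q)).2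
        rw [mul_sub, sub_eq_zero] at h1
        exact h1
    have key : ∀ (x : AddMonoid.End J) (hx : x ∈ Λ),
        iterateFrobenius Λ p e ⟨x, hx⟩ = ⟨x, hx⟩ := by
      intro x hx
      induction hx using Subring.closure_induction with
      | mem x hx =>
        apply Subtype.ext
        rw [iterateFrobenius_def]
        show x ^ p ^ e = x
        exact hgen x hx
      | zero =>
        have : (⟨0, Λ.zero_mem⟩ : Λ) = 0 := rfl
        rw [this, map_zero]
      | one =>
        have : (⟨1, Λ.one_mem⟩ : Λ) = 1 := rfl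
        rw [this, map_one]
      | add x y hx hy h1 h2 =>
        have : (⟨x + y, Λ.add_mem hx hy⟩ : Λ) = ⟨x, hx⟩ + ⟨y, hy⟩ := rfl
        rw [this, map_add, h1, h2]
      | neg x hx h1 =>
        have : (⟨-x, Λ.neg_mem hx⟩ : Λ) = -⟨x, hx⟩ := rfl
        rw [this, map_neg, h1]
      | mul x y hx hy h1 h2 =>
        have : (⟨x * y, Λ.mul_mem hx hy⟩ : Λ) = ⟨x, hx⟩ * ⟨y, hy⟩ := rfl
        rw [this, map_mul, h1, h2]
    rintro ⟨l, hl⟩
    have := key l hl
    rw [iterateFrobenius_def] at this
    exact this
  have hfaith : ∀ l : Λ, (∀ j : J, l • j = 0) → l = 0 := by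
    intro l hl
    apply Subtype.ext
    ext j
    have := hl j
    rw [hsmul] at this
    rw [this]
    rfl
  have hminJ : ∀ N : Submodule Λ J, N ≠ ⊥ → w' ∈ N := by
    intro N hN
    have h1 : w ∈ N.toAddSubgroup.map J.subtype := by
      apply hmin
      · refine ⟨?_, ?_⟩
        · rintro r _ ⟨j, hj, rfl⟩
          exact ⟨Lop r j, N.smul_mem ⟨Lop r, Subring.subset_closure (Or.inl ⟨r, rfl⟩)⟩ hj, rfl⟩
        · rintro r _ ⟨j, hj, rfl⟩
          exact ⟨Rop r j, N.smul_mem ⟨Rop r, Subring.subset_closure (Or.inr ⟨r, rfl⟩)⟩ hj, rfl⟩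
      · intro h
        apply hN
        rw [Submodule.eq_bot_iff]
        intro j hj
        have : (j : R) ∈ N.toAddSubgroup.map J.subtype := ⟨j, hj, rfl⟩
        rw [h, AddSubgroup.mem_bot] at this
        exact Subtype.ext this
    obtain ⟨j, hj, hjw⟩ := h1
    have : j = w' := Subtype.ext hjw
    rw [← this]
    exact hj
  obtain ⟨⟨hΛf, hΛc⟩, hJf, hJc⟩ := small_module q hq2 hpow hfaith w' hw' hminJ
  let Φ : R →+ Λ × Λ :=
    { toFun := fun x => (⟨Lop x, Subring.subset_closure (Or.inl ⟨x, rfl⟩)⟩,
        ⟨Rop x, Subring.subset_closure (Or.inr ⟨x, rfl⟩)⟩)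
      map_zero' := by
        apply Prod.ext
        · apply Subtype.ext
          ext j
          show (0 : R) * (j : R) = 0
          rw [zero_mul]
        · apply Subtype.ext
          ext j
          show (j : R) * (0 : R) = 0
          rw [mul_zero]
      map_add' := by
        intro x y
        apply Prod.ext
        · apply Subtype.ext
          ext j
          show (x + y) * (j : R) = x * (j : R) + y * (j : R)
          rw [add_mul]
        · apply Subtype.ext
          ext j
          show (j : R) * (x + y) = (j : R) * x + (j : R) * y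
          rw [mul_add] }
  have hker : ∀ x ∈ Φ.ker, x ∈ J := by
    intro x hx u hu
    rw [AddMonoidHom.mem_ker] at hx
    have h1 : Lop x = 0 := congrArg Subtype.val (congrArg Prod.fst hx)
    have h2 : Rop x = 0 := congrArg Subtype.val (congrArg Prod.snd hx)
    have h3 : ((Rop x ⟨u, hCJ u hu⟩ : J) : R) = 0 := by rw [h2]; rfl
    have h4 : ((Lop x ⟨u, hCJ u hu⟩ : J) : R) = 0 := by rw [h1]; rfl
    exact ⟨h3, h4⟩
  have hinjk : Function.Injective (fun x : Φ.ker => (⟨x, hker x x.2⟩ : J)) := by
    intro a b hab
    have hab' : (a : R) = (b : R) := congrArg (fun j : J => (j : R)) hab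
    exact Subtype.ext hab'
  have hkf : Finite Φ.ker := Finite.of_injective _ hinjk
  have hkc : Nat.card Φ.ker ≤ q := (Nat.card_le_card_of_injective _ hinjk).trans hJc
  have hqf : Finite (R ⧸ Φ.ker) :=
    Finite.of_equiv _ (QuotientAddGroup.quotientKerEquivRange Φ).toEquiv.symm
  have hqc : Nat.card (R ⧸ Φ.ker) ≤ q * q := by
    rw [Nat.card_congr (QuotientAddGroup.quotientKerEquivRange Φ).toEquiv]
    calc Nat.card Φ.range ≤ Nat.card (Λ × Λ) :=
          Nat.card_le_card_of_injective _ Subtype.val_injective
      _ = Nat.card Λ * Nat.card Λ := Nat.card_prod _ _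
      _ ≤ q * q := Nat.mul_le_mul hΛc hΛc
  refine ⟨Finite.of_equiv _ (AddSubgroup.addGroupEquivQuotientProdAddSubgroup (s := Φ.ker)).symm,
    ?_⟩
  rw [AddSubgroup.card_eq_card_quotient_mul_card_addSubgroup Φ.ker]
  exact Nat.mul_le_mul hqc hkc

end si

end Run7.h51.Eng
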