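import Pool.Agent.Run7.h51.EngPartI
import Pool.Agent.Run7.h51.EngSI

/-!
Minimal non-Engel varieties are Cross varieties.
-/

namespace Run7.h51.Eng

/-! ### The five identities -/

/-- the term `n t = t + ... + t` -/
def nsm : ℕ → RTerm → RTerm
  | 0, _ => .zero
  | n + 1, t => .add (nsm n t) t

/-- the term `t ^ (n + 1)` -/
def pw : ℕ → RTerm → RTerm
  | 0, t => t
  | n + 1, t => .mul (pw n t) t

/-- the commutator term -/
def cm (s t : RTerm) : RTerm := .add (.mul s t) (.neg (.mul t s))

/-- the term `t ^ q - t` -/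
def fr (q : ℕ) (t : RTerm) : RTerm := .add (pw (q - 1) t) (.neg t)

/-- The set of the five identities. -/
def WSet (p q : ℕ) : Set RTerm :=
  {nsm p (.var 0), .mul (cm (.var 0) (.var 1)) (cm (.var 2) (.var 3)),
    .mul (cm (.var 0) (.var 1)) (fr q (.var 2)), .mul (fr q (.var 0)) (cm (.var 1) (.var 2)),
    .mul (fr q (.var 0)) (fr q (.var 1))}

section terms

variable {R : Type} [NonUnitalRing R] (v : ℕ → R)

theorem eval_nsm (n : ℕ) (t : RTerm) : (nsm n t).eval v = n • t.eval v := by
  induction n with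
  | zero => simp [nsm, RTerm.eval]
  | succ n ih => simp only [nsm, RTerm.eval, ih]; rw [succ_nsmul]

theorem eval_pw (n : ℕ) (t : RTerm) : (pw n t).eval v = npw n (t.eval v) := by
  induction n with
  | zero => rfl
  | succ n ih => simp only [pw, RTerm.eval, ih]; rfl

theorem eval_cm (s t : RTerm) :
    (cm s t).eval v = s.eval v * t.eval v - t.eval v * s.eval v := by
  simp only [cm, RTerm.eval]
  rw [sub_eq_add_neg]

theorem eval_fr (q : ℕ) (t : RTerm) :
    (fr q t).eval v = npw (q - 1) (t.eval v) - t.eval v := by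
  simp only [fr, RTerm.eval, eval_pw]
  rw [sub_eq_add_neg]

end terms

theorem WSet_finite (p q : ℕ) : (WSet p q).Finite := by
  unfold WSet
  exact Set.toFinite _

theorem char_of_models {p q : ℕ} {R : Type} [NonUnitalRing R] (h : Models (WSet p q) R) (x : R) :
    p • x = 0 := by
  have h1 := h (nsm p (.var 0)) (by simp [WSet]) (fun _ => x)
  rwa [eval_nsm] at h1

theorem cset_of_models {p q : ℕ} {R : Type} [NonUnitalRing R] (h : Models (WSet p q) R) :
    ∀ u ∈ Cset (R := R) q, ∀ v ∈ Cset (R := R) q, u * v = 0 := by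
  rintro u (⟨a, b, rfl⟩ | ⟨a, rfl⟩) v (⟨c, d, rfl⟩ | ⟨c, rfl⟩)
  · have h1 := h (.mul (cm (.var 0) (.var 1)) (cm (.var 2) (.var 3))) (by simp [WSet])
      (fun n => if n = 0 then a else if n = 1 then b else if n = 2 then c else d)
    simpa [RTerm.eval, eval_cm] using h1
  · have h1 := h (.mul (cm (.var 0) (.var 1)) (fr q (.var 2))) (by simp [WSet])
      (fun n => if n = 0 then a else if n = 1 then b else c)
    simpa [RTerm.eval, eval_cm, eval_fr] using h1
  · have h1 := h (.mul (fr q (.var 0)) (cm (.var 1) (.var 2))) (by simp [WSet])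
      (fun n => if n = 0 then a else if n = 1 then c else d)
    simpa [RTerm.eval, eval_cm, eval_fr] using h1
  · have h1 := h (.mul (fr q (.var 0)) (fr q (.var 1))) (by simp [WSet])
      (fun n => if n = 0 then a else c)
    simpa [RTerm.eval, eval_cm, eval_fr] using h1

theorem map_npw {R S : Type} [NonUnitalRing R] [NonUnitalRing S] (f : R →ₙ+* S) (n : ℕ) (x : R) :
    f (npw n x) = npw n (f x) := by
  induction n with
  | zero => rfl
  | succ n ih =>
    show f (npw n x * x) = npw n (f x) * f x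
    rw [map_mul, ih]

/-- Upper triangular matrix rings satisfy the five identities. -/
theorem models_WSet {k : Type} [Field k] [Finite k] {p e : ℕ} [CharP k p]
    (hk : Nat.card k = p ^ e)
    (E : NonUnitalSubring (Matrix (Fin 2) (Fin 2) k)) (hE : ∀ M ∈ E, M 1 0 = 0) :
    Models (WSet p (p ^ e)) E := by
  have hq : 1 ≤ p ^ e := by
    rw [← hk]
    exact Nat.card_pos
  let d0 : E →ₙ+* k :=
    { toFun := fun M => (M : Matrix (Fin 2) (Fin 2) k) 0 0
      map_mul' := by
        intro M N
        show ((M : Matrix (Fin 2) (Fin 2) k) * (N : Matrix (Fin 2) (Fin 2) k)) 0 0 = _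
        rw [Matrix.mul_apply, Fin.sum_univ_two, hE _ N.2, mul_zero, add_zero]
      map_zero' := rfl
      map_add' := fun M N => rfl }
  let d1 : E →ₙ+* k :=
    { toFun := fun M => (M : Matrix (Fin 2) (Fin 2) k) 1 1
      map_mul' := by
        intro M N
        show ((M : Matrix (Fin 2) (Fin 2) k) * (N : Matrix (Fin 2) (Fin 2) k)) 1 1 = _
        rw [Matrix.mul_apply, Fin.sum_univ_two, hE _ M.2, zero_mul, zero_add]
      map_zero' := rfl
      map_add' := fun M N => rfl }
  have hnpw : ∀ (n : ℕ) (a : k), npw n a = a ^ (n + 1) := by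
    intro n a
    induction n with
    | zero => simp [npw]
    | succ n ih =>
      show npw n a * a = _
      rw [ih, pow_succ a (n + 1)]
  have hfrob : ∀ a : k, npw (p ^ e - 1) a - a = 0 := by
    intro a
    rw [hnpw, Nat.sub_add_cancel hq, ← hk, sub_eq_zero]
    have := Fintype.ofFinite k
    rw [Nat.card_eq_fintype_card]
    exact FiniteField.pow_card a
  have hcm0 : ∀ M N : E, d0 (M * N - N * M) = 0 := by
    intro M N
    rw [map_sub, map_mul, map_mul, mul_comm, sub_self]
  have hcm1 : ∀ M N : E, d1 (M * N - N * M) = 0 := by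
    intro M N
    rw [map_sub, map_mul, map_mul, mul_comm, sub_self]
  have hfr0 : ∀ M : E, d0 (npw (p ^ e - 1) M - M) = 0 := by
    intro M
    rw [map_sub, map_npw, hfrob]
  have hfr1 : ∀ M : E, d1 (npw (p ^ e - 1) M - M) = 0 := by
    intro M
    rw [map_sub, map_npw, hfrob]
  have hprod : ∀ M N : E, d0 M = 0 → d1 M = 0 → d0 N = 0 → d1 N = 0 → M * N = 0 := by
    intro M N h1 h2 h3 h4
    have h1' : (M : Matrix (Fin 2) (Fin 2) k) 0 0 = 0 := h1
    have h2' : (M : Matrix (Fin 2) (Fin 2) k) 1 1 = 0 := h2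
    have h3' : (N : Matrix (Fin 2) (Fin 2) k) 0 0 = 0 := h3
    have h4' : (N : Matrix (Fin 2) (Fin 2) k) 1 1 = 0 := h4
    apply Subtype.ext
    show (M : Matrix (Fin 2) (Fin 2) k) * (N : Matrix (Fin 2) (Fin 2) k) = 0
    ext i j
    rw [Matrix.mul_apply, Fin.sum_univ_two]
    fin_cases i <;> fin_cases j <;> simp [h1', h2', h3', h4', hE _ M.2, hE _ N.2]
  intro t ht
  simp only [WSet, Set.mem_insert_iff, Set.mem_singleton_iff] at ht
  intro v
  rcases ht with rfl | rfl | rfl | rfl | rfl
  · rw [eval_nsm]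
    apply Subtype.ext
    ext i j
    show ((p • (v 0) : E) : Matrix (Fin 2) (Fin 2) k) i j = 0
    have h1 : ((p • (v 0) : E) : Matrix (Fin 2) (Fin 2) k) = p • (v 0 : Matrix (Fin 2) (Fin 2) k) :=
      rfl
    rw [h1, Matrix.smul_apply, nsmul_eq_mul, CharP.cast_eq_zero, zero_mul]
  · simp only [RTerm.eval, eval_cm]
    exact hprod _ _ (hcm0 _ _) (hcm1 _ _) (hcm0 _ _) (hcm1 _ _)
  · simp only [RTerm.eval, eval_cm, eval_fr]
    exact hprod _ _ (hcm0 _ _) (hcm1 _ _) (hfr0 _) (hfr1 _)
  · simp only [RTerm.eval, eval_cm, eval_fr]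
    exact hprod _ _ (hfr0 _) (hfr1 _) (hcm0 _ _) (hcm1 _ _)
  · simp only [RTerm.eval, eval_fr]
    exact hprod _ _ (hfr0 _) (hfr1 _) (hfr0 _) (hfr1 _)

/-! ### Finitely many isomorphism types of small rings -/

theorem exists_reps (N : ℕ) : ∃ (m : ℕ) (C : Fin m → Type) (_ : ∀ i, NonUnitalRing (C i)),
    ∀ (R : Type) [NonUnitalRing R], Finite R → Nat.card R ≤ N → ∃ i, Nonempty (R ≃+* C i) := by
  classical
  let ι := Σ n : Fin (N + 1), ((Fin n → Fin n → Fin n) × (Fin n → Fin n → Fin n))
  let Good : ι → Prop := fun s => ∃ (R : Type) (_ : NonUnitalRing R) (f : R ≃ Fin s.1),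
    (∀ a b, f (a + b) = s.2.1 (f a) (f b)) ∧ (∀ a b, f (a * b) = s.2.2 (f a) (f b))
  have hch : ∀ s : ι, ∃ (R : Type) (_ : NonUnitalRing R), Good s → ∃ (f : R ≃ Fin s.1),
    (∀ a b, f (a + b) = s.2.1 (f a) (f b)) ∧ (∀ a b, f (a * b) = s.2.2 (f a) (f b)) := by
    intro s
    by_cases h : Good s
    · obtain ⟨R, inst, f, h1, h2⟩ := h
      exact ⟨R, inst, fun _ => ⟨f, h1, h2⟩⟩
    · exact ⟨PUnit, inferInstance, fun h' => absurd h' h⟩
  choose C₀ inst₀ hC₀ using hch
  have e : ι ≃ Fin (Fintype.card ι) := Fintype.equivFin ι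
  refine ⟨Fintype.card ι, fun i => C₀ (e.symm i), fun i => inst₀ (e.symm i), ?_⟩
  intro R _ hR hcard
  have f : R ≃ Fin (Nat.card R) := Finite.equivFin R
  let s : ι := ⟨⟨Nat.card R, by omega⟩, (fun i j => f (f.symm i + f.symm j),
    fun i j => f (f.symm i * f.symm j))⟩
  have hgood : Good s := ⟨R, inferInstance, f, by intro a b; simp [s], by intro a b; simp [s]⟩
  refine ⟨e s, ?_⟩
  have hse : e.symm (e s) = s := e.symm_apply_apply s
  show Nonempty (R ≃+* C₀ (e.symm (e s)))
  rw [hse]
  obtain ⟨g, hg1, hg2⟩ := hC₀ s hgood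
  refine ⟨{ toEquiv := f.trans g.symm, map_mul' := ?_, map_add' := ?_ }⟩
  · intro a b
    show g.symm (f (a * b)) = g.symm (f a) * g.symm (f b)
    rw [Equiv.symm_apply_eq, hg2]
    simp [s]
  · intro a b
    show g.symm (f (a + b)) = g.symm (f a) + g.symm (f b)
    rw [Equiv.symm_apply_eq, hg1]
    simp [s]

/-! ### Varieties generated by a finite ring are locally finite -/

/-- replace the variables with index at least `n` by zero -/
def RTerm.cut (n : ℕ) : RTerm → RTerm
  | .var i => if i < n then .var i else .zero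
  | .zero => .zero
  | .neg t => .neg (RTerm.cut n t)
  | .add s t => .add (RTerm.cut n s) (RTerm.cut n t)
  | .mul s t => .mul (RTerm.cut n s) (RTerm.cut n t)

theorem eval_cut {R : Type} [NonUnitalRing R] (n : ℕ) (v : ℕ → R) (t : RTerm) :
    (t.cut n).eval v = t.eval (fun i => if i < n then v i else 0) := by
  induction t with
  | var i =>
    simp only [RTerm.cut, RTerm.eval]
    split_ifs <;> rfl
  | zero => rfl
  | neg t ih => simp only [RTerm.cut, RTerm.eval, ih]
  | add s t ihs iht => simp only [RTerm.cut, RTerm.eval, ihs, iht]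
  | mul s t ihs iht => simp only [RTerm.cut, RTerm.eval, ihs, iht]

theorem locallyFinite_of_finite (E : Type) [NonUnitalRing E] [Finite E] :
    LocallyFinite {t | Sat E t} := by
  intro R _ hR hgen
  obtain ⟨s, hs, hcl⟩ := hgen
  obtain ⟨n, a, -, ha⟩ := hs.fin_param
  let ext : ∀ (S : Type) [NonUnitalRing S], (Fin n → S) → ℕ → S :=
    fun S _ b i => if h : i < n then b ⟨i, h⟩ else 0
  have hterm : ∀ r : R, ∃ t : RTerm, t.eval (ext R a) = r := by
    intro r
    have hr : r ∈ NonUnitalSubring.closure s := by rw [hcl]; trivial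
    induction hr using NonUnitalSubring.closure_induction with
    | mem x hx =>
      rw [← ha] at hx
      obtain ⟨i, rfl⟩ := hx
      refine ⟨.var i, ?_⟩
      show (if h : (i : ℕ) < n then a ⟨i, h⟩ else 0) = a i
      rw [dif_pos i.2]
    | zero => exact ⟨.zero, rfl⟩
    | add x y _ _ hx hy =>
      obtain ⟨t, rfl⟩ := hx
      obtain ⟨t', rfl⟩ := hy
      exact ⟨.add t t', rfl⟩
    | neg x _ hx =>
      obtain ⟨t, rfl⟩ := hx
      exact ⟨.neg t, rfl⟩
    | mul x y _ _ hx hy =>
      obtain ⟨t, rfl⟩ := hx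
      obtain ⟨t', rfl⟩ := hy
      exact ⟨.mul t t', rfl⟩
  choose T hT using hterm
  let F : R → ((Fin n → E) → E) := fun r b => (T r).eval (ext E b)
  have hF : Function.Injective F := by
    intro r r' hrr
    have hid : RTerm.cut n (.add (T r) (.neg (T r'))) ∈ {t | Sat E t} := by
      intro v
      rw [eval_cut]
      have h1 : (fun i => if i < n then v i else 0) = ext E (fun i => v i) := by
        funext i
        show _ = (if h : i < n then v i else 0)
        split_ifs <;> rfl
      rw [h1]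
      have h2 := congrFun hrr (fun i => v i)
      show (T r).eval (ext E fun i => v i) + - (T r').eval (ext E fun i => v i) = 0
      have h3 : (T r).eval (ext E fun i => v i) = (T r').eval (ext E fun i => v i) := h2
      rw [h3, add_neg_cancel]
    have h4 := hR _ hid (ext R a)
    rw [eval_cut] at h4
    have h5 : (fun i => if i < n then ext R a i else 0) = ext R a := by
      funext i
      show (if i < n then (if h : i < n then a ⟨i, h⟩ else 0) else 0)
        = (if h : i < n then a ⟨i, h⟩ else 0)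
      split_ifs <;> rfl
    rw [h5] at h4
    have h6 : (T r).eval (ext R a) + - (T r').eval (ext R a) = 0 := h4
    rw [hT, hT, ← sub_eq_add_neg, sub_eq_zero] at h6
    exact h6
  exact Finite.of_injective F hF

/-! ### Critical rings -/

theorem critical_si {C : Type} [NonUnitalRing C] (hC : Critical C) :
    ∃ w : C, w ≠ 0 ∧ ∀ I : AddSubgroup C, IsId I → I ≠ ⊥ → w ∈ I := by
  obtain ⟨hfin, hnot⟩ := hC
  unfold InVarOfProperFactors at hnot
  push Not at hnot
  obtain ⟨t, ht, hsat⟩ := hnot
  unfold Sat at hsat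
  push Not at hsat
  obtain ⟨v, hv⟩ := hsat
  refine ⟨t.eval v, hv, ?_⟩
  intro I hI hne
  obtain ⟨Q, _, π, hπ, hker⟩ := exists_quotient I hI.1 hI.2
  have hprop : IsProperFactor Q C := by
    refine ⟨⟨⊤, π.comp (NonUnitalSubringClass.subtype ⊤), ?_⟩, ?_⟩
    · intro x
      obtain ⟨c, hc⟩ := hπ x
      exact ⟨⟨c, trivial⟩, hc⟩
    · rintro ⟨f⟩
      have hinj : Function.Injective (fun c => f (π c)) :=
        Finite.injective_iff_surjective.mpr (f.surjective.comp hπ)
      apply hne
      rw [AddSubgroup.eq_bot_iff_forall]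
      intro x hx
      apply hinj
      show f (π x) = f (π 0)
      rw [(hker x).mpr hx, map_zero π]
  have h1 := ht Q hprop (fun n => π (v n))
  rw [eval_map] at h1
  exact (hker _).mp h1

theorem cross_of_min {Sg : Set RTerm} (hmin : MinimalNonEngel Sg) :
    Cross Sg ∧ ∃ (k : Type) (_ : Field k) (_ : Finite k)
      (E : NonUnitalSubring (Matrix (Fin 2) (Fin 2) k)), (∀ M ∈ E, M 1 0 = 0) ∧
      ∀ (R : Type) [NonUnitalRing R], Models Sg R ↔ Models {t | Sat E t} R := by
  obtain ⟨hne, hsub⟩ := hmin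
  obtain ⟨k, _, hkf, E, hE, ⟨Y, Z, hYZ⟩, hEM⟩ := hasBad_of_not_engel hne
  have hEE : Models {t | Sat E t} E := fun t ht => ht
  have hSE : ∀ (R : Type) [NonUnitalRing R], Models {t | Sat E t} R → Models Sg R :=
    fun R _ hR t ht => hR t (hEM t ht)
  have hES : SubVariety Sg {t | Sat E t} := by
    by_contra hcon
    obtain ⟨n, _, hn⟩ := hsub {t | Sat E t} (fun R _ hR => hSE R hR) hcon
    exact hYZ n (hn E hEE Z Y)
  have hiff : ∀ (R : Type) [NonUnitalRing R], Models Sg R ↔ Models {t | Sat E t} R :=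
    fun R _ => ⟨hES R, hSE R⟩
  refine ⟨?_, k, inferInstance, hkf, E, hE, hiff⟩
  have hft := Fintype.ofFinite k
  obtain ⟨p, hchar, ⟨e, he⟩, hp, hcard⟩ := FiniteField.card' k
  have hcard' : Nat.card k = p ^ e := by
    rw [Nat.card_eq_fintype_card, hcard]
    rfl
  have hW : Models (WSet p (p ^ e)) E := models_WSet hcard' E hE
  have hWsub : WSet p (p ^ e) ⊆ {t | Sat E t} := fun t ht => hW t ht
  have hsmall : ∀ (R : Type) [NonUnitalRing R], Models (WSet p (p ^ e)) R →
      (∃ w : R, w ≠ 0 ∧ ∀ I : AddSubgroup R, IsId I → I ≠ ⊥ → w ∈ I) →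
      Finite R ∧ Nat.card R ≤ p ^ e * p ^ e * p ^ e := by
    rintro R _ hR ⟨w, hw, hwI⟩
    exact si_card p e hp he (char_of_models hR) (cset_of_models hR) w hw hwI
  obtain ⟨m, C, instC, hC⟩ := exists_reps (p ^ e * p ^ e * p ^ e)
  have hloc : LocallyFinite {t | Sat E t} := locallyFinite_of_finite E
  refine ⟨?_, ?_, ?_⟩
  · -- finitely based
    have hch : ∀ i : Fin m, ∃ t : RTerm, t ∈ {t | Sat E t} ∧
        (¬ Models {t | Sat E t} (C i) → ¬ Sat (C i) t) := by
      intro i
      by_cases h : Models {t | Sat E t} (C i)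
      · exact ⟨.zero, fun v => rfl, fun h' => absurd h h'⟩
      · unfold Models at h
        push Not at h
        obtain ⟨t, ht, hns⟩ := h
        exact ⟨t, ht, fun _ => hns⟩
    choose T hT hT' using hch
    refine ⟨WSet p (p ^ e) ∪ Set.range T, (WSet_finite _ _).union (Set.finite_range T), ?_, ?_⟩
    · intro R _ hR
      apply hSE
      intro t ht v
      by_contra hv
      obtain ⟨Q, _, π, hπ, hne', hid⟩ := exists_quotient_avoiding {t.eval v} (by
        intro h
        rw [Set.mem_singleton_iff] at h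
        exact hv h.symm)
      have hQ : Models (WSet p (p ^ e) ∪ Set.range T) Q := hR.of_surjective π hπ
      have hw0 : π (t.eval v) ≠ 0 := hne' _ rfl
      obtain ⟨hQf, hQc⟩ := hsmall Q (fun t ht => hQ t (Or.inl ht)) ⟨π (t.eval v), hw0, by
        intro I hI hI0
        obtain ⟨z, hz, hzI⟩ := hid I hI hI0
        rw [Set.mem_singleton_iff] at hz
        rw [← hz]
        exact hzI⟩
      obtain ⟨i, ⟨f⟩⟩ := hC Q hQf hQc
      have hsat : Sat (C i) (T i) :=
        (hQ (T i) (Or.inr ⟨i, rfl⟩)).of_surjective (f : Q →ₙ+* C i) f.surjective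
      have hCi : Models {t | Sat E t} (C i) := by
        by_contra h
        exact hT' i h hsat
      have hQE : Models {t | Sat E t} Q := hCi.of_injective (f : Q →ₙ+* C i) f.injective
      apply hw0
      rw [← eval_map]
      exact hQE t ht _
    · intro R _ hR t ht
      rcases ht with ht | ⟨i, rfl⟩
      · exact hES R hR t (hWsub ht)
      · exact hES R hR _ (hT i)
  · intro R _ hR hgen
    exact hloc R (hES R hR) hgen
  · refine ⟨m, C, instC, ?_⟩
    intro R _ hR hcrit
    obtain ⟨hRf, hRc⟩ := hsmall R (fun t ht => hES R hR t (hWsub ht)) (critical_si hcrit)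
    exact hC R hRf hRc

end Run7.h51.Eng
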