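import Mathlib

/-!
Ring terms, identities, varieties of (nonunital associative) rings, Engel varieties,
critical rings, Cross varieties; basic closure properties.
-/

namespace Run7.h51.Eng

/-- Ring terms in variables `x_0, x_1, ...` in the signature `(+, -, 0, *)`. -/
inductive RTerm : Type
  | var : ℕ → RTerm
  | zero : RTerm
  | neg : RTerm → RTerm
  | add : RTerm → RTerm → RTerm
  | mul : RTerm → RTerm → RTerm

/-- The value of a ring term in a ring `R` under a valuation of the variables. -/
def RTerm.eval {R : Type} [NonUnitalRing R] (v : ℕ → R) : RTerm → R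
  | .var n => v n
  | .zero => 0
  | .neg t => - RTerm.eval v t
  | .add s t => RTerm.eval v s + RTerm.eval v t
  | .mul s t => RTerm.eval v s * RTerm.eval v t

/-- `R` satisfies the identity `t = 0`. -/
def Sat (R : Type) [NonUnitalRing R] (t : RTerm) : Prop := ∀ v : ℕ → R, t.eval v = 0

/-- `R` belongs to the variety defined by the set of identities `{t = 0 : t ∈ Sg}`. -/
def Models (Sg : Set RTerm) (R : Type) [NonUnitalRing R] : Prop := ∀ t ∈ Sg, Sat R t

/-- The long commutator `[x, y, ..., y]` with `k` entries `y`. -/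
def comm {R : Type} [NonUnitalRing R] : ℕ → R → R → R
  | 0, x, _ => x
  | k + 1, x, y => comm k x y * y - y * comm k x y

/-- The variety defined by `Sg` is Engel. -/
def IsEngel (Sg : Set RTerm) : Prop :=
  ∃ n : ℕ, 1 ≤ n ∧ ∀ (R : Type) [NonUnitalRing R], Models Sg R → ∀ x y : R, comm n x y = 0

/-- The variety defined by `Sg'` is contained in the variety defined by `Sg`. -/
def SubVariety (Sg' Sg : Set RTerm) : Prop :=
  ∀ (R : Type) [NonUnitalRing R], Models Sg' R → Models Sg R

/-- The variety defined by `Sg` is minimal non-Engel. -/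
def MinimalNonEngel (Sg : Set RTerm) : Prop :=
  ¬ IsEngel Sg ∧ ∀ Sg' : Set RTerm, SubVariety Sg' Sg → ¬ SubVariety Sg Sg' → IsEngel Sg'

/-- `F` is a factor of `R`: a homomorphic image of a subring of `R`. -/
def IsFactor (F R : Type) [NonUnitalRing F] [NonUnitalRing R] : Prop :=
  ∃ (S : NonUnitalSubring R) (f : S →ₙ+* F), Function.Surjective f

/-- `F` is a proper factor of `R`: a factor of `R` that is not isomorphic to `R`. -/
def IsProperFactor (F R : Type) [NonUnitalRing F] [NonUnitalRing R] : Prop :=
  IsFactor F R ∧ ¬ Nonempty (F ≃+* R)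

/-- `R` lies in the variety generated by its proper factors, that is, `R` satisfies every
identity which holds in all proper factors of `R`. -/
def InVarOfProperFactors (R : Type) [NonUnitalRing R] : Prop :=
  ∀ t : RTerm, (∀ (F : Type) [NonUnitalRing F], IsProperFactor F R → Sat F t) → Sat R t

/-- A finite ring is critical if it does not lie in the variety generated by its proper
factors. -/
def Critical (R : Type) [NonUnitalRing R] : Prop :=
  Finite R ∧ ¬ InVarOfProperFactors R

/-- The variety defined by `Sg` is finitely based. -/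
def FinitelyBased (Sg : Set RTerm) : Prop :=
  ∃ Sg' : Set RTerm, Sg'.Finite ∧ SubVariety Sg' Sg ∧ SubVariety Sg Sg'

/-- The variety defined by `Sg` is locally finite: every finitely generated member is finite. -/
def LocallyFinite (Sg : Set RTerm) : Prop :=
  ∀ (R : Type) [NonUnitalRing R], Models Sg R →
    (∃ s : Set R, s.Finite ∧ NonUnitalSubring.closure s = ⊤) → Finite R

/-- The variety defined by `Sg` contains only finitely many critical rings up to isomorphism. -/
def FinitelyManyCritical (Sg : Set RTerm) : Prop :=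
  ∃ (m : ℕ) (C : Fin m → Type) (_ : ∀ i, NonUnitalRing (C i)),
    ∀ (R : Type) [NonUnitalRing R], Models Sg R → Critical R → ∃ i, Nonempty (R ≃+* C i)

/-- The variety defined by `Sg` is a Cross variety. -/
def Cross (Sg : Set RTerm) : Prop :=
  FinitelyBased Sg ∧ LocallyFinite Sg ∧ FinitelyManyCritical Sg

/-! ### Basic facts -/

section basic

variable {R S : Type} [NonUnitalRing R] [NonUnitalRing S]

theorem eval_map (f : R →ₙ+* S) (v : ℕ → R) (t : RTerm) :
    t.eval (fun n => f (v n)) = f (t.eval v) := by
  induction t with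
  | var n => rfl
  | zero => simp [RTerm.eval]
  | neg t ih => simp [RTerm.eval, ih]
  | add s t ihs iht => simp [RTerm.eval, ihs, iht]
  | mul s t ihs iht => simp [RTerm.eval, ihs, iht]

theorem comm_map (f : R →ₙ+* S) (k : ℕ) (x y : R) : comm k (f x) (f y) = f (comm k x y) := by
  induction k with
  | zero => rfl
  | succ k ih => simp [comm, ih]

theorem comm_succ' (k : ℕ) (x y : R) : comm (k + 1) x y = comm k (comm 1 x y) y := by
  induction k with
  | zero => rfl
  | succ k ih =>
    show comm (k + 1) x y * y - y * comm (k + 1) x y = _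
    rw [ih]; rfl

theorem comm_add (k l : ℕ) (x y : R) : comm (k + l) x y = comm l (comm k x y) y := by
  induction l with
  | zero => rfl
  | succ l ih =>
    show comm (k + l) x y * y - y * comm (k + l) x y = _
    rw [ih]; rfl

theorem comm_zero_left (k : ℕ) (y : R) : comm k (0 : R) y = 0 := by
  induction k with
  | zero => rfl
  | succ k ih => simp [comm, ih]

theorem comm_ne_of_le {x y : R} {k l : ℕ} (h : k ≤ l) (hl : comm l x y ≠ 0) :
    comm k x y ≠ 0 := by
  intro h0
  apply hl
  obtain ⟨m, rfl⟩ := Nat.exists_eq_add_of_le h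
  rw [comm_add, h0, comm_zero_left]

/-- identities pass to subrings, along injective maps -/
theorem Sat.of_injective (f : R →ₙ+* S) (hf : Function.Injective f) {t : RTerm} (h : Sat S t) :
    Sat R t := by
  intro v
  apply hf
  rw [← eval_map, h, map_zero]

theorem Sat.of_surjective (f : R →ₙ+* S) (hf : Function.Surjective f) {t : RTerm}
    (h : Sat R t) : Sat S t := by
  intro v
  choose g hg using hf
  have : (fun n => f (g (v n))) = v := by
    funext n; exact hg _
  rw [← this, eval_map, h, map_zero]

theorem eval_pi {ι : Type} {R : ι → Type} [∀ i, NonUnitalRing (R i)] (v : ℕ → ∀ i, R i)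
    (t : RTerm) (i : ι) : (t.eval v) i = t.eval (fun n => v n i) := by
  induction t with
  | var n => rfl
  | zero => simp [RTerm.eval]
  | neg t ih => simp [RTerm.eval, ih]
  | add s t ihs iht => simp [RTerm.eval, ihs, iht]
  | mul s t ihs iht => simp [RTerm.eval, ihs, iht]

theorem comm_pi {ι : Type} {R : ι → Type} [∀ i, NonUnitalRing (R i)] (k : ℕ) (x y : ∀ i, R i)
    (i : ι) : (comm k x y) i = comm k (x i) (y i) := by
  induction k with
  | zero => rfl
  | succ k ih => simp [comm, ih]

theorem Sat.pi {ι : Type} {R : ι → Type} [∀ i, NonUnitalRing (R i)] {t : RTerm}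
    (h : ∀ i, Sat (R i) t) : Sat (∀ i, R i) t := by
  intro v
  funext i
  rw [eval_pi]
  exact h i _

theorem Models.of_injective (f : R →ₙ+* S) (hf : Function.Injective f) {Sg : Set RTerm}
    (h : Models Sg S) : Models Sg R := fun t ht => (h t ht).of_injective f hf

theorem Models.of_surjective (f : R →ₙ+* S) (hf : Function.Surjective f) {Sg : Set RTerm}
    (h : Models Sg R) : Models Sg S := fun t ht => (h t ht).of_surjective f hf

theorem Models.pi {ι : Type} {R : ι → Type} [∀ i, NonUnitalRing (R i)] {Sg : Set RTerm}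
    (h : ∀ i, Models Sg (R i)) : Models Sg (∀ i, R i) := fun t ht => Sat.pi fun i => h i t ht

/-- A transfer principle: if `G` is a subring of `R × S` such that `(0, s) ∈ G` implies `s = 0`,
then every identity of `R` holds in the projection of `G` to `S`. -/
theorem transfer (G : NonUnitalSubring (R × S)) (hG : ∀ s, ((0 : R), s) ∈ G → s = 0)
    {t : RTerm} (h : Sat R t) :
    Sat (G.map (NonUnitalRingHom.snd R S)) t := by
  intro v
  have hv : ∀ n, ∃ g : R × S, g ∈ G ∧ g.2 = (v n : S) := by
    intro n
    obtain ⟨g, hg, hg'⟩ := (v n).2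
    exact ⟨g, hg, hg'⟩
  choose g hg hg' using hv
  have h1 : ((t.eval (fun n => (⟨g n, hg n⟩ : G)) : G) : R × S) = t.eval g :=
    (eval_map (NonUnitalSubringClass.subtype G) (fun n => (⟨g n, hg n⟩ : G)) t).symm
  have h2 : (t.eval g).1 = 0 := by
    have := eval_map (NonUnitalRingHom.fst R S) g t
    rw [h] at this
    exact this.symm
  have h3 : (t.eval g).2 = t.eval (fun n => (v n : S)) := by
    have := eval_map (NonUnitalRingHom.snd R S) g t
    have e : (fun n => (NonUnitalRingHom.snd R S) (g n)) = fun n => (v n : S) := by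
      funext n; exact hg' n
    rw [e] at this
    exact this.symm
  have h4 : t.eval g ∈ G := by rw [← h1]; exact (t.eval (fun n => (⟨g n, hg n⟩ : G)) : G).2
  have h5 : (t.eval g).2 = 0 := by
    apply hG
    rw [← h2]
    exact h4
  apply Subtype.ext
  have h6 := eval_map (NonUnitalSubringClass.subtype (G.map (NonUnitalRingHom.snd R S))) v t
  have h7 : ((t.eval v : (G.map (NonUnitalRingHom.snd R S) : NonUnitalSubring S)) : S)
      = t.eval (fun n => (v n : S)) := h6.symm
  rw [h7, ← h3, h5]
  rfl

/-- quotient by an ideal -/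
theorem exists_quotient (I : AddSubgroup R) (hl : ∀ r x, x ∈ I → r * x ∈ I)
    (hr : ∀ r x, x ∈ I → x * r ∈ I) :
    ∃ (Q : Type) (_ : NonUnitalRing Q) (π : R →ₙ+* Q), Function.Surjective π ∧
      ∀ x, π x = 0 ↔ x ∈ I := by
  let J : TwoSidedIdeal R := TwoSidedIdeal.mk' (I : Set R) I.zero_mem (fun h h' => I.add_mem h h')
    (fun h => I.neg_mem h) (fun h => hl _ _ h) (fun h => hr _ _ h)
  refine ⟨J.ringCon.Quotient, inferInstance,
    { toFun := fun x => (x : J.ringCon.Quotient)
      map_mul' := fun _ _ => rfl
      map_zero' := rfl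
      map_add' := fun _ _ => rfl }, ?_, ?_⟩
  · exact Quotient.mk_surjective
  · intro x
    have h1 : (x : J.ringCon.Quotient) = ((0 : R) : J.ringCon.Quotient) ↔ J.ringCon x 0 :=
      RingCon.eq _
    have h2 : J.ringCon x 0 ↔ x ∈ J := Iff.rfl
    have h3 : x ∈ J ↔ x ∈ (I : Set R) := by
      simp only [J]
      rw [TwoSidedIdeal.mem_mk']
    exact h1.trans (h2.trans h3)

end basic

/-- A bad ring for `Sg`: a subring `E` of the upper triangular 2 by 2 matrices over a finite field
which lies in the variety of `Sg` and is not Engel. -/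
def HasBad (Sg : Set RTerm) : Prop :=
  ∃ (k : Type) (_ : Field k) (_ : Finite k) (E : NonUnitalSubring (Matrix (Fin 2) (Fin 2) k)),
    (∀ M ∈ E, M 1 0 = 0) ∧ (∃ Y Z : E, ∀ n, comm n Z Y ≠ 0) ∧ Models Sg E

end Run7.h51.Eng
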