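import Mathlib

/-!
A discrete Gehring inequality on a tree: two harmonic functions `A`, `b` on the nodes with
`b ^ p ≤ A ≤ Kp * b ^ p`.
-/

set_option autoImplicit false
set_option linter.unusedSectionVars false

namespace Pool.Agent.Run7.h51.GT

section av

variable {C : Type*} [Fintype C] [Nonempty C]

/-- the average over the children -/
noncomputable def av (f : C → ℝ) : ℝ := (∑ c, f c) / Fintype.card C

lemma card_pos' : (0 : ℝ) < Fintype.card C := by exact_mod_cast Fintype.card_pos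

lemma av_mono {f g : C → ℝ} (h : ∀ c, f c ≤ g c) : av f ≤ av g := by
  unfold av
  exact div_le_div_of_nonneg_right (Finset.sum_le_sum fun c _ => h c) card_pos'.le

lemma av_add (f g : C → ℝ) : av (fun c => f c + g c) = av f + av g := by
  unfold av
  rw [Finset.sum_add_distrib, add_div]

lemma av_sub (f g : C → ℝ) : av (fun c => f c - g c) = av f - av g := by
  unfold av
  rw [Finset.sum_sub_distrib, sub_div]

lemma av_mul (k : ℝ) (f : C → ℝ) : av (fun c => k * f c) = k * av f := by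
  unfold av
  rw [← Finset.mul_sum, mul_div_assoc]

lemma av_const (k : ℝ) : av (fun _ : C => k) = k := by
  unfold av
  rw [Finset.sum_const, Finset.card_univ, nsmul_eq_mul, mul_comm, mul_div_assoc,
    div_self card_pos'.ne', mul_one]

lemma le_card_av {f : C → ℝ} (h : ∀ c, 0 ≤ f c) (c : C) : f c ≤ Fintype.card C * av f := by
  unfold av
  rw [mul_div_cancel₀ _ card_pos'.ne']
  exact Finset.single_le_sum (fun c _ => h c) (Finset.mem_univ c)

end av

section tree

variable {T C : Type*} [Fintype C] [Nonempty C] (ch : T → C → T)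

/-- the average over the descendants of generation `N` of `F`, evaluated at the descendant and the
maximum of `t` and the values of `A` along the path to it -/
noncomputable def R (A : T → ℝ) (F : T → ℝ → ℝ) : ℕ → T → ℝ → ℝ
  | 0, Q, t => F Q (max t (A Q))
  | N + 1, Q, t => av fun c => R A F N (ch Q c) (max t (A Q))

lemma R_mono {A : T → ℝ} {F G : T → ℝ → ℝ} (h : ∀ Q s, 0 ≤ s → A Q ≤ s → F Q s ≤ G Q s) (N : ℕ)
    (Q : T) (t : ℝ) (ht : 0 ≤ t) : R ch A F N Q t ≤ R ch A G N Q t := by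
  induction N generalizing Q t with
  | zero => exact h _ _ (le_max_of_le_left ht) (le_max_right _ _)
  | succ N ih => exact av_mono fun c => ih _ _ (le_max_of_le_left ht)

lemma R_add {A : T → ℝ} (F G : T → ℝ → ℝ) (N : ℕ) (Q : T) (t : ℝ) :
    R ch A (fun Q s => F Q s + G Q s) N Q t = R ch A F N Q t + R ch A G N Q t := by
  induction N generalizing Q t with
  | zero => rfl
  | succ N ih =>
    simp only [R]
    rw [← av_add]
    congr 1
    funext c
    exact ih _ _

lemma R_mul {A : T → ℝ} (k : ℝ) (F : T → ℝ → ℝ) (N : ℕ) (Q : T) (t : ℝ) :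
    R ch A (fun Q s => k * F Q s) N Q t = k * R ch A F N Q t := by
  induction N generalizing Q t with
  | zero => rfl
  | succ N ih =>
    simp only [R]
    rw [← av_mul]
    congr 1
    funext c
    exact ih _ _

lemma R_harmonic {A H : T → ℝ} (hH : ∀ Q, av (fun c => H (ch Q c)) = H Q) (N : ℕ) (Q : T)
    (t : ℝ) : R ch A (fun Q _ => H Q) N Q t = H Q := by
  induction N generalizing Q t with
  | zero => rfl
  | succ N ih =>
    simp only [R]
    rw [← hH Q]
    congr 1
    funext c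
    exact ih _ _

/-- `y (y^δ - x^δ) ≤ (B δ/(1+δ)) (y^(1+δ) - x^(1+δ))` for `x ≤ y ≤ B x`. -/
lemma calc1 {x y B δ : ℝ} (hx : 0 ≤ x) (hxy : x ≤ y) (hyB : y ≤ B * x) (hδ : 0 ≤ δ) (hδ1 : δ ≤ 1) :
    y * (y ^ δ - x ^ δ) ≤ B * δ / (1 + δ) * (y ^ (1 + δ) - x ^ (1 + δ)) := by
  rcases hx.eq_or_lt with rfl | hx
  · have hy : y = 0 := le_antisymm (by simpa using hyB) hxy
    subst hy; simp
  · have hr : 0 ≤ y / x - 1 := by
      rw [sub_nonneg, le_div_iff₀ hx, one_mul]; exact hxy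
    have h1 := rpow_one_add_le_one_add_mul_self (s := y / x - 1) (by linarith) hδ hδ1
    have h2 := one_add_mul_self_le_rpow_one_add (s := y / x - 1) (by linarith) (p := 1 + δ)
      (by linarith)
    rw [add_sub_cancel] at h1 h2
    have hy : y = (y / x) * x := by field_simp
    have hyx : 0 ≤ y / x := by linarith
    have e1 : y ^ δ = (y / x) ^ δ * x ^ δ := by
      conv_lhs => rw [hy]
      exact Real.mul_rpow hyx hx.le
    have e2 : y ^ (1 + δ) = (y / x) ^ (1 + δ) * x ^ (1 + δ) := by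
      conv_lhs => rw [hy]
      exact Real.mul_rpow hyx hx.le
    have e3 : x ^ (1 + δ) = x * x ^ δ := by
      rw [Real.rpow_add hx, Real.rpow_one]
    have hxd : 0 < x ^ δ := Real.rpow_pos_of_pos hx _
    have hB : 0 ≤ B := by
      by_contra hB
      push Not at hB
      nlinarith
    calc y * (y ^ δ - x ^ δ) ≤ (B * x) * (δ * (y / x - 1) * x ^ δ) := by
          apply mul_le_mul hyB
          · rw [e1]; nlinarith
          · rw [sub_nonneg]; exact Real.rpow_le_rpow hx.le hxy hδ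
          · positivity
      _ = B * δ / (1 + δ) * ((1 + δ) * (y / x - 1) * (x * x ^ δ)) := by
          field_simp
      _ ≤ B * δ / (1 + δ) * (y ^ (1 + δ) - x ^ (1 + δ)) := by
          apply mul_le_mul_of_nonneg_left _ (by positivity)
          rw [e2, e3]
          have : 0 ≤ x * x ^ δ := by positivity
          nlinarith

/-- `y^p - x^p ≤ p/(p-1) * y * (y^(p-1) - x^(p-1))` for `0 ≤ x ≤ y`. -/
lemma calc2 {x y p : ℝ} (hx : 0 ≤ x) (hxy : x ≤ y) (hp : 1 < p) :
    y ^ p - x ^ p ≤ p / (p - 1) * (y * (y ^ (p - 1) - x ^ (p - 1))) := by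
  have hp1 : 0 < p - 1 := by linarith
  have hy0 : 0 ≤ y := hx.trans hxy
  rcases hx.eq_or_lt with rfl | hx
  · rw [Real.zero_rpow (by linarith), Real.zero_rpow hp1.ne', sub_zero, sub_zero]
    have e : y * y ^ (p - 1) = y ^ p := by
      rcases hy0.eq_or_lt with rfl | hy
      · rw [Real.zero_rpow (show p ≠ 0 by linarith)]; simp
      · rw [← Real.rpow_one_add' hy.le (by linarith)]; congr 1; ring
    rw [e]
    have h1 : 1 ≤ p / (p - 1) := by rw [le_div_iff₀ hp1]; linarith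
    have h2 : 0 ≤ y ^ p := Real.rpow_nonneg hy0 _
    nlinarith
  · have hy : 0 < y := lt_of_lt_of_le hx hxy
    have h2 := one_add_mul_self_le_rpow_one_add (s := y / x - 1) (by
      have : 0 ≤ y / x := by positivity
      linarith) (p := p) hp.le
    rw [add_sub_cancel] at h2
    have e1 : (y / x) ^ p * x ^ p = y ^ p := by
      rw [← Real.mul_rpow (by positivity) hx.le]; congr 1; field_simp
    have e2 : x ^ p = x * x ^ (p - 1) := by
      rw [← Real.rpow_one_add' hx.le (by linarith)]; congr 1; ring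
    have e3 : y ^ p = y * y ^ (p - 1) := by
      rw [← Real.rpow_one_add' hy.le (by linarith)]; congr 1; ring
    have hxp : 0 < x ^ p := Real.rpow_pos_of_pos hx _
    have h3 : (1 + p * (y / x - 1)) * x ^ p ≤ y ^ p := by
      rw [← e1]; exact mul_le_mul_of_nonneg_right h2 hxp.le
    have h4 : (1 + p * (y / x - 1)) * x ^ p = x ^ p + p * (y - x) * x ^ (p - 1) := by
      rw [e2]; field_simp
    rw [h4] at h3
    rw [div_mul_eq_mul_div, le_div_iff₀ hp1]
    nlinarith

/-- `b m^(p-1) ≤ θ m^p + θ^(1-p) b^p`. -/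
lemma calc3 {b m p θ : ℝ} (hb : 0 ≤ b) (hm : 0 ≤ m) (hp : 1 < p) (hθ : 0 < θ) :
    b * m ^ (p - 1) ≤ θ * m ^ p + θ ^ (1 - p) * b ^ p := by
  have hp1 : 0 < p - 1 := by linarith
  have ep : ∀ z : ℝ, 0 ≤ z → z ^ p = z * z ^ (p - 1) := by
    intro z hz
    rw [← Real.rpow_one_add' hz (by linarith)]; congr 1; ring
  have h1 : 0 ≤ θ ^ (1 - p) := Real.rpow_nonneg hθ.le _
  have h2 : 0 ≤ b ^ p := Real.rpow_nonneg hb _
  have h3 : 0 ≤ m ^ p := Real.rpow_nonneg hm _
  have h4 : 0 ≤ m ^ (p - 1) := Real.rpow_nonneg hm _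
  by_cases h : b ≤ θ * m
  · calc b * m ^ (p - 1) ≤ θ * m * m ^ (p - 1) := mul_le_mul_of_nonneg_right h h4
      _ = θ * m ^ p := by rw [ep m hm]; ring
      _ ≤ _ := by nlinarith
  · push Not at h
    have h5 : m ≤ b / θ := by rw [le_div_iff₀ hθ]; linarith
    have h6 : m ^ (p - 1) ≤ (b / θ) ^ (p - 1) := Real.rpow_le_rpow hm h5 hp1.le
    have h7 : (b / θ) ^ (p - 1) = θ ^ (1 - p) * b ^ (p - 1) := by
      rw [Real.div_rpow hb hθ.le, show (1 - p) = -(p - 1) by ring, Real.rpow_neg hθ.le]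
      field_simp
    calc b * m ^ (p - 1) ≤ b * (θ ^ (1 - p) * b ^ (p - 1)) := by
          rw [← h7]; exact mul_le_mul_of_nonneg_left h6 hb
      _ = θ ^ (1 - p) * b ^ p := by rw [ep b hb]; ring
      _ ≤ _ := by nlinarith

variable {A b : T → ℝ} {p δ Kp : ℝ}

/-- the basic inequality for `U` -/
lemma step1 (hA : ∀ Q, 0 ≤ A Q) (hAh : ∀ Q, av (fun c => A (ch Q c)) = A Q) (hδ : 0 ≤ δ)
    (hδ1 : δ ≤ 1) (N : ℕ) (Q : T) (t : ℝ) (ht : 0 ≤ t) :
    R ch A (fun Q s => A Q * s ^ δ) N Q t ≤ A Q * (max t (A Q)) ^ δ +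
      (Fintype.card C * δ / (1 + δ)) * (R ch A (fun _ s => s ^ (1 + δ)) N Q t
        - (max t (A Q)) ^ (1 + δ)) := by
  induction N generalizing Q t with
  | zero => simp [R]
  | succ N ih =>
    simp only [R]
    set s := max t (A Q) with hs
    have hs0 : 0 ≤ s := le_max_of_le_left ht
    have hAs : A Q ≤ s := le_max_right _ _
    set k : ℝ := Fintype.card C * δ / (1 + δ) with hk
    have hB1 : (1 : ℝ) ≤ Fintype.card C := by exact_mod_cast Fintype.card_pos
    have key : ∀ c, R ch A (fun Q s => A Q * s ^ δ) N (ch Q c) s ≤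
        A (ch Q c) * s ^ δ + k * (R ch A (fun _ s => s ^ (1 + δ)) N (ch Q c) s - s ^ (1 + δ)) := by
      intro c
      have h := ih (ch Q c) s hs0
      set sc := max s (A (ch Q c)) with hsc
      have h1 : A (ch Q c) ≤ sc := le_max_right _ _
      have h2 : s ≤ sc := le_max_left _ _
      have h3 : sc ≤ Fintype.card C * s := by
        apply max_le
        · nlinarith
        · have := le_card_av (f := fun c => A (ch Q c)) (fun c => hA _) c
          rw [hAh] at this
          nlinarith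
      have h4 := calc1 hs0 h2 h3 hδ hδ1
      have h5 : s ^ δ ≤ sc ^ δ := Real.rpow_le_rpow hs0 h2 hδ
      have h6 : A (ch Q c) * (sc ^ δ - s ^ δ) ≤ sc * (sc ^ δ - s ^ δ) :=
        mul_le_mul_of_nonneg_right h1 (by linarith)
      linarith
    refine (av_mono key).trans (le_of_eq ?_)
    rw [av_add, av_mul, av_sub, av_const]
    have : (av fun c => A (ch Q c) * s ^ δ) = A Q * s ^ δ := by
      rw [← hAh Q, mul_comm, ← av_mul]
      congr 1; funext c; ring
    rw [this]

/-- the basic inequality for `D` -/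
lemma step2 (hbh : ∀ Q, av (fun c => b (ch Q c)) = b Q) (hp : 1 < p)
    (N : ℕ) (Q : T) (t : ℝ) (ht : 0 ≤ t) :
    R ch b (fun _ s => s ^ p) N Q t ≤ (max t (b Q)) ^ p +
      (p / (p - 1)) * (R ch b (fun Q s => b Q * s ^ (p - 1)) N Q t
        - b Q * (max t (b Q)) ^ (p - 1)) := by
  induction N generalizing Q t with
  | zero => simp [R]
  | succ N ih =>
    simp only [R]
    set s := max t (b Q) with hs
    have hs0 : 0 ≤ s := le_max_of_le_left ht
    set k : ℝ := p / (p - 1) with hk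
    have key : ∀ c, R ch b (fun _ s => s ^ p) N (ch Q c) s ≤
        s ^ p + k * (R ch b (fun Q s => b Q * s ^ (p - 1)) N (ch Q c) s
          - b (ch Q c) * s ^ (p - 1)) := by
      intro c
      have h := ih (ch Q c) s hs0
      rcases le_total (b (ch Q c)) s with h1 | h1
      · rw [max_eq_left h1] at h
        exact h
      · rw [max_eq_right h1] at h
        have h2 := calc2 hs0 h1 hp
        linarith
    refine (av_mono key).trans (le_of_eq ?_)
    rw [av_add, av_mul, av_sub, av_const]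
    have : (av fun c => b (ch Q c) * s ^ (p - 1)) = b Q * s ^ (p - 1) := by
      rw [← hbh Q, mul_comm, ← av_mul]
      congr 1; funext c; ring
    rw [this]

/-- the discrete maximal theorem -/
lemma doob (hb : ∀ Q, 0 ≤ b Q) (hbh : ∀ Q, av (fun c => b (ch Q c)) = b Q)
    (hAh : ∀ Q, av (fun c => A (ch Q c)) = A Q) (hbA : ∀ Q, b Q ^ p ≤ A Q) (hp : 1 < p)
    (N : ℕ) (Q : T) :
    R ch b (fun _ s => s ^ p) N Q 0 ≤ (2 * (p / (p - 1))) ^ p * A Q := by
  have hp1 : 0 < p - 1 := by linarith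
  set k : ℝ := p / (p - 1) with hk
  have hk1 : 1 ≤ k := by rw [hk, le_div_iff₀ hp1]; linarith
  have hk0 : 0 < k := by linarith
  have h1 := step2 ch hbh hp N Q 0 le_rfl
  rw [max_eq_right (hb Q)] at h1
  have e : b Q * b Q ^ (p - 1) = b Q ^ p := by
    rw [← Real.rpow_one_add' (hb Q) (by linarith)]; congr 1; ring
  rw [e, ← hk] at h1
  set Z := R ch b (fun Q s => b Q * s ^ (p - 1)) N Q 0
  set D := R ch b (fun _ s => s ^ p) N Q 0
  have h2 : D ≤ k * Z := by
    have : 0 ≤ b Q ^ p := Real.rpow_nonneg (hb Q) _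
    nlinarith
  set θ : ℝ := (2 * k)⁻¹ with hθ
  have hθ0 : 0 < θ := by positivity
  have h3 : Z ≤ θ * D + θ ^ (1 - p) * A Q := by
    calc Z ≤ R ch b (fun Q s => θ * s ^ p + θ ^ (1 - p) * A Q) N Q 0 := by
          apply R_mono ch _ N Q 0 le_rfl
          intro Q s hs hbs
          refine (calc3 (hb Q) hs hp hθ0).trans ?_
          have : 0 ≤ θ ^ (1 - p) := Real.rpow_nonneg hθ0.le _
          have := mul_le_mul_of_nonneg_left (hbA Q) this
          linarith
      _ = θ * D + θ ^ (1 - p) * A Q := by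
          rw [R_add ch (fun _ s => θ * s ^ p) (fun Q _ => θ ^ (1 - p) * A Q),
            R_mul ch θ (fun _ s => s ^ p), R_mul ch (θ ^ (1 - p)) (fun Q _ => A Q),
            R_harmonic ch hAh]
  have h4 : k * θ = 1 / 2 := by rw [hθ]; field_simp
  have h5 : D ≤ k * (θ * D + θ ^ (1 - p) * A Q) :=
    h2.trans (mul_le_mul_of_nonneg_left h3 hk0.le)
  have h6 : k * (θ * D + θ ^ (1 - p) * A Q) = 1 / 2 * D + k * θ ^ (1 - p) * A Q := by
    rw [← h4]; ring
  have h7 : D ≤ 2 * k * θ ^ (1 - p) * A Q := by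
    rw [h6] at h5; linarith
  have h8 : 2 * k * θ ^ (1 - p) = (2 * k) ^ p := by
    have h2k : (0 : ℝ) < 2 * k := by positivity
    rw [hθ, Real.inv_rpow h2k.le, ← Real.rpow_neg h2k.le, ← Real.rpow_one_add' h2k.le]
    · congr 1; ring
    · linarith
  rw [h8] at h7
  exact h7

lemma step3a (hAb : ∀ Q, A Q ≤ Kp * b Q ^ p) (hb : ∀ Q, 0 ≤ b Q) (hK : 0 ≤ Kp) (hp : 1 < p)
    (N : ℕ) (Q : T) (t t' : ℝ) (ht' : 0 ≤ t') (h : t ≤ Kp * t' ^ p) :
    R ch A (fun _ s => s) N Q t ≤ Kp * R ch b (fun _ s => s ^ p) N Q t' := by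
  have aux : ∀ (Q : T) (t t' : ℝ), 0 ≤ t' → t ≤ Kp * t' ^ p →
      max t (A Q) ≤ Kp * (max t' (b Q)) ^ p := by
    intro Q t t' ht' h
    apply max_le
    · exact h.trans (mul_le_mul_of_nonneg_left
        (Real.rpow_le_rpow ht' (le_max_left _ _) (by linarith)) hK)
    · exact (hAb Q).trans (mul_le_mul_of_nonneg_left
        (Real.rpow_le_rpow (hb Q) (le_max_right _ _) (by linarith)) hK)
  induction N generalizing Q t t' with
  | zero => exact aux Q t t' ht' h
  | succ N ih =>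
    simp only [R]
    rw [← av_mul]
    exact av_mono fun c => ih _ _ _ (le_max_of_le_left ht') (aux Q t t' ht' h)

lemma step3 (hA : ∀ Q, 0 ≤ A Q) (hb : ∀ Q, 0 ≤ b Q) (hbh : ∀ Q, av (fun c => b (ch Q c)) = b Q)
    (hAh : ∀ Q, av (fun c => A (ch Q c)) = A Q) (hbA : ∀ Q, b Q ^ p ≤ A Q)
    (hAb : ∀ Q, A Q ≤ Kp * b Q ^ p) (hK : 0 ≤ Kp) (hp : 1 < p)
    (N : ℕ) (Q : T) (t : ℝ) (ht : 0 ≤ t) (h : t ≤ A Q) :
    R ch A (fun _ s => s) N Q t ≤ Kp * (2 * (p / (p - 1))) ^ p * A Q := by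
  have h0 : R ch A (fun _ s => s) N Q t = R ch A (fun _ s => s) N Q 0 := by
    cases N with
    | zero => simp only [R]; rw [max_eq_right h, max_eq_right (hA Q)]
    | succ N => simp only [R]; rw [max_eq_right h, max_eq_right (hA Q)]
  rw [h0]
  have h1 := step3a ch hAb hb hK hp N Q 0 0 le_rfl (by
    rw [Real.zero_rpow (by linarith)]; simp)
  have h2 := doob ch hb hbh hAh hbA hp N Q
  calc _ ≤ _ := h1
    _ ≤ Kp * ((2 * (p / (p - 1))) ^ p * A Q) := mul_le_mul_of_nonneg_left h2 hK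
    _ = _ := by ring

lemma step4 {C₁ : ℝ} (hAh : ∀ Q, av (fun c => A (ch Q c)) = A Q) (hδ : 0 ≤ δ)
    (hW : ∀ N Q t, 0 ≤ t → t ≤ A Q → R ch A (fun _ s => s) N Q t ≤ C₁ * A Q)
    (N : ℕ) (Q : T) (t : ℝ) (ht : 0 ≤ t) :
    R ch A (fun _ s => s ^ (1 + δ)) N Q t ≤ (max t (A Q)) ^ δ * R ch A (fun _ s => s) N Q t +
      C₁ * (R ch A (fun Q s => A Q * s ^ δ) N Q t - A Q * (max t (A Q)) ^ δ) := by
  induction N generalizing Q t with
  | zero =>
    simp only [R, sub_self, mul_zero, add_zero]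
    have hs0 : 0 ≤ max t (A Q) := le_max_of_le_left ht
    rw [mul_comm, ← Real.rpow_one_add' hs0 (by linarith)]
  | succ N ih =>
    simp only [R]
    set s := max t (A Q) with hs
    have hs0 : 0 ≤ s := le_max_of_le_left ht
    have key : ∀ c, R ch A (fun _ s => s ^ (1 + δ)) N (ch Q c) s ≤
        s ^ δ * R ch A (fun _ s => s) N (ch Q c) s +
          C₁ * (R ch A (fun Q s => A Q * s ^ δ) N (ch Q c) s - A (ch Q c) * s ^ δ) := by
      intro c
      have h := ih (ch Q c) s hs0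
      rcases le_total (A (ch Q c)) s with h1 | h1
      · rw [max_eq_left h1] at h
        exact h
      · rw [max_eq_right h1] at h
        have h2 := hW N (ch Q c) s hs0 h1
        have h5 : s ^ δ ≤ A (ch Q c) ^ δ := Real.rpow_le_rpow hs0 h1 hδ
        nlinarith
    refine (av_mono key).trans (le_of_eq ?_)
    rw [av_add, av_mul, av_mul, av_sub]
    have : (av fun c => A (ch Q c) * s ^ δ) = A Q * s ^ δ := by
      rw [← hAh Q, mul_comm, ← av_mul]
      congr 1; funext c; ring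
    rw [this]

/-- The discrete Gehring inequality. -/
theorem gehring (hA : ∀ Q, 0 ≤ A Q) (hb : ∀ Q, 0 ≤ b Q)
    (hbh : ∀ Q, av (fun c => b (ch Q c)) = b Q)
    (hAh : ∀ Q, av (fun c => A (ch Q c)) = A Q) (hbA : ∀ Q, b Q ^ p ≤ A Q)
    (hAb : ∀ Q, A Q ≤ Kp * b Q ^ p) (hK : 0 ≤ Kp) (hp : 1 < p) (hδ : 0 ≤ δ) (hδ1 : δ ≤ 1)
    (hs : Fintype.card C * δ * (Kp * (2 * (p / (p - 1))) ^ p) ≤ 1 / 2) (N : ℕ) (Q : T) :
    R ch A (fun Q _ => A Q ^ (1 + δ)) N Q 0 ≤ 2 * A Q ^ (1 + δ) := by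
  have hp1 : 0 < p - 1 := by linarith
  set C₁ : ℝ := Kp * (2 * (p / (p - 1))) ^ p with hC₁
  have hC0 : 0 ≤ C₁ := by positivity
  have h1 := step1 ch hA hAh hδ hδ1 N Q 0 le_rfl
  have h4 := step4 ch hAh hδ (fun N Q t => step3 ch hA hb hbh hAh hbA hAb hK hp N Q t)
    N Q 0 le_rfl
  have h3 := step3 ch hA hb hbh hAh hbA hAb hK hp N Q 0 le_rfl (hA Q)
  rw [← hC₁] at h3 h4
  rw [max_eq_right (hA Q)] at h1 h4
  have e : ∀ z : ℝ, 0 ≤ z → z * z ^ δ = z ^ (1 + δ) := fun z hz =>
    (Real.rpow_one_add' hz (by linarith)).symm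
  rw [e _ (hA Q)] at h1 h4
  have hL : R ch A (fun Q _ => A Q ^ (1 + δ)) N Q 0 ≤ R ch A (fun Q s => A Q * s ^ δ) N Q 0 := by
    apply R_mono ch _ N Q 0 le_rfl
    intro Q s hs0 hAs
    rw [← e _ (hA Q)]
    exact mul_le_mul_of_nonneg_left (Real.rpow_le_rpow (hA Q) hAs hδ) (hA Q)
  set U := R ch A (fun Q s => A Q * s ^ δ) N Q 0
  set V := R ch A (fun _ s => s ^ (1 + δ)) N Q 0
  set W := R ch A (fun _ s => s) N Q 0
  set a1 := A Q ^ (1 + δ) with ha1
  have ha0 : 0 ≤ a1 := Real.rpow_nonneg (hA Q) _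
  have hV : V ≤ C₁ * U := by
    have : A Q ^ δ * W ≤ A Q ^ δ * (C₁ * A Q) :=
      mul_le_mul_of_nonneg_left h3 (Real.rpow_nonneg (hA Q) _)
    have e2 : A Q ^ δ * (C₁ * A Q) = C₁ * a1 := by
      rw [ha1, ← e _ (hA Q)]; ring
    linarith
  have hU0 : 0 ≤ U := le_trans (by
    have := R_mono ch (A := A) (F := fun _ _ => 0) (G := fun Q _ => A Q ^ (1 + δ))
      (fun Q s _ _ => Real.rpow_nonneg (hA Q) _) N Q 0 le_rfl
    refine le_trans ?_ this
    have h0 := R_harmonic ch (A := A) (H := fun _ => (0 : ℝ)) (fun Q => av_const 0) N Q 0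
    exact h0.ge) hL
  have hB0 : (0 : ℝ) ≤ Fintype.card C := by positivity
  have hk : (Fintype.card C : ℝ) * δ / (1 + δ) ≤ Fintype.card C * δ := by
    rw [div_le_iff₀ (by linarith)]
    nlinarith [mul_nonneg hB0 hδ, mul_nonneg (mul_nonneg hB0 hδ) hδ]
  have hk0 : 0 ≤ (Fintype.card C : ℝ) * δ / (1 + δ) := by positivity
  have hfin : U ≤ a1 + 1 / 2 * U := by
    calc U ≤ a1 + (Fintype.card C * δ / (1 + δ)) * (V - a1) := h1
      _ ≤ a1 + (Fintype.card C * δ / (1 + δ)) * (C₁ * U) := by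
          have := mul_le_mul_of_nonneg_left (show V - a1 ≤ C₁ * U by linarith) hk0
          linarith
      _ ≤ a1 + (Fintype.card C * δ) * (C₁ * U) := by
          have := mul_le_mul_of_nonneg_right hk (mul_nonneg hC0 hU0)
          linarith
      _ = a1 + (Fintype.card C * δ * C₁) * U := by ring
      _ ≤ a1 + 1 / 2 * U := by
          have := mul_le_mul_of_nonneg_right hs hU0
          linarith
  linarith

end tree

end Pool.Agent.Run7.h51.GT
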