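import Mathlib
import Pool.Agent.Run7.h51.GehringTree

/-!
Dyadic decomposition of cubes and the Gehring inequality on cubes.
-/

set_option autoImplicit false

open MeasureTheory Set Filter Topology

namespace Pool.Agent.Run7.h51.GC

open Pool.Agent.Run7.h51.GT

variable {d : ℕ}

structure Cube (d : ℕ) where
  a : Fin d → ℝ
  s : ℝ
  pos : 0 < s

namespace Cube

/-- the half open cube -/
def S (Q : Cube d) : Set (Fin d → ℝ) :=
  Set.pi Set.univ fun i => Set.Ico (Q.a i) (Q.a i + Q.s)

noncomputable def sh (Q : Cube d) (e : Bool) : ℝ := if e then Q.s / 2 else 0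

noncomputable def child (Q : Cube d) (e : Fin d → Bool) : Cube d :=
  ⟨fun i => Q.a i + Q.sh (e i), Q.s / 2, half_pos Q.pos⟩

noncomputable def loc (Q : Cube d) (y : Fin d → ℝ) : Fin d → Bool :=
  fun i => decide (Q.a i + Q.s / 2 ≤ y i)

noncomputable def node : ℕ → Cube d → (Fin d → ℝ) → Cube d
  | 0, Q, _ => Q
  | N + 1, Q, y => node N (Q.child (Q.loc y)) y

lemma meas (Q : Cube d) : MeasurableSet Q.S := MeasurableSet.univ_pi fun _ => measurableSet_Ico

lemma vol (Q : Cube d) : volume Q.S = ENNReal.ofReal (Q.s ^ d) := by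
  unfold S
  rw [Real.volume_pi_Ico]
  simp only [add_sub_cancel_left]
  rw [Finset.prod_const, Finset.card_univ, Fintype.card_fin, ENNReal.ofReal_pow Q.pos.le]

lemma volr (Q : Cube d) : volume.real Q.S = Q.s ^ d := by
  rw [measureReal_def, vol, ENNReal.toReal_ofReal (pow_nonneg Q.pos.le _)]

lemma ae_eq (Q : Cube d) : Q.S =ᵐ[volume] Set.Icc Q.a (fun i => Q.a i + Q.s) :=
  Measure.univ_pi_Ico_ae_eq_Icc

lemma ball_eq (Q : Cube d) : Metric.closedBall (fun i => Q.a i + Q.s / 2) (Q.s / 2) =
    Set.Icc Q.a (fun i => Q.a i + Q.s) := by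
  rw [closedBall_pi _ (half_pos Q.pos).le, ← Set.pi_univ_Icc]
  congr 1
  funext i
  rw [Real.closedBall_eq_Icc]
  congr 1 <;> ring

lemma ico_split (a s : ℝ) (hs : 0 < s) :
    (⋃ e : Bool, Set.Ico (a + (if e then s / 2 else 0)) (a + (if e then s / 2 else 0) + s / 2)) =
      Set.Ico a (a + s) := by
  ext y
  simp only [Set.mem_iUnion, Set.mem_Ico, Bool.exists_bool, if_true, add_zero,
    Bool.false_eq_true, if_false]
  constructor
  · rintro (⟨h1, h2⟩ | ⟨h1, h2⟩)
    · constructor <;> linarith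
    · constructor <;> linarith
  · rintro ⟨h1, h2⟩
    by_cases h : y < a + s / 2
    · left; exact ⟨h1, h⟩
    · right; push Not at h; constructor <;> linarith

lemma union (Q : Cube d) : (⋃ e : Fin d → Bool, (Q.child e).S) = Q.S := by
  unfold S child sh
  simp only
  rw [Set.iUnion_univ_pi (fun (i : Fin d) (e : Bool) => Set.Ico (Q.a i + (if e then Q.s / 2 else 0))
    (Q.a i + (if e then Q.s / 2 else 0) + Q.s / 2))]
  congr 1
  funext i
  exact ico_split _ _ Q.pos

lemma loc_eq (Q : Cube d) (e : Fin d → Bool) {y : Fin d → ℝ} (hy : y ∈ (Q.child e).S) :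
    Q.loc y = e := by
  funext i
  have h := hy i (Set.mem_univ i)
  unfold loc
  unfold child sh at h
  simp only [Set.mem_Ico] at h
  cases he : e i with
  | false =>
    rw [he] at h
    simp only [Bool.false_eq_true, if_false, add_zero] at h
    simp only [decide_eq_false_iff_not, not_le]
    exact h.2
  | true =>
    rw [he] at h
    simp only [if_true] at h
    simp only [decide_eq_true_eq]
    exact h.1

lemma disj (Q : Cube d) : Pairwise (Function.onFun Disjoint fun e => (Q.child e).S) := by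
  intro e e' hne
  rw [Function.onFun, Set.disjoint_left]
  intro y h1 h2
  exact hne ((Q.loc_eq e h1).symm.trans (Q.loc_eq e' h2))

lemma mem_child (Q : Cube d) {y : Fin d → ℝ} (hy : y ∈ Q.S) : y ∈ (Q.child (Q.loc y)).S := by
  rw [← Q.union, Set.mem_iUnion] at hy
  obtain ⟨e, he⟩ := hy
  rw [Q.loc_eq e he]
  exact he

lemma mem_node (N : ℕ) (Q : Cube d) {y : Fin d → ℝ} (hy : y ∈ Q.S) : y ∈ (node N Q y).S := by
  induction N generalizing Q with
  | zero => exact hy
  | succ N ih => exact ih _ (Q.mem_child hy)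

lemma node_s (N : ℕ) (Q : Cube d) (y : Fin d → ℝ) : (node N Q y).s = Q.s / 2 ^ N := by
  induction N generalizing Q with
  | zero => simp [node]
  | succ N ih =>
    show (node N (Q.child (Q.loc y)) y).s = _
    rw [ih]
    show Q.s / 2 / 2 ^ N = _
    rw [pow_succ]
    field_simp

lemma meas_loc (Q : Cube d) : Measurable Q.loc := by
  rw [measurable_pi_iff]
  intro i
  refine measurable_to_bool ?_
  have : (fun y : Fin d → ℝ => Q.loc y i) ⁻¹' {true} = {y | Q.a i + Q.s / 2 ≤ y i} := by
    ext y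
    simp [loc]
  rw [this]
  exact measurableSet_le measurable_const (measurable_pi_apply i)

lemma meas_node (F : Cube d → ENNReal) (N : ℕ) (Q : Cube d) :
    Measurable fun y => F (node N Q y) := by
  induction N generalizing Q with
  | zero =>
    show Measurable fun _ => F Q
    exact measurable_const
  | succ N ih =>
    have h : Measurable fun z : (Fin d → Bool) × (Fin d → ℝ) => F (node N (Q.child z.1) z.2) :=
      measurable_from_prod_countable_right fun e => ih (Q.child e)
    exact h.comp (Q.meas_loc.prodMk measurable_id)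

/-- harmonicity of averages -/
lemma avg_harm {f : (Fin d → ℝ) → ℝ} (hf : LocallyIntegrable f volume) (Q : Cube d) :
    av (fun e => ⨍ x in (Q.child e).S, f x) = ⨍ x in Q.S, f x := by
  have hi : ∀ Q : Cube d, IntegrableOn f Q.S volume := fun Q => by
    rw [integrableOn_congr_set_ae Q.ae_eq]
    exact hf.integrableOn_isCompact isCompact_Icc
  have h1 := integral_iUnion_fintype (μ := volume) (f := f) (fun e => (Q.child e).meas)
    Q.disj (fun e => hi _)
  rw [Q.union] at h1
  simp only [setAverage_eq, smul_eq_mul]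
  unfold av
  rw [h1, volr]
  simp only [volr]
  rw [Finset.mul_sum, Finset.sum_div]
  refine Finset.sum_congr rfl fun e _ => ?_
  show ((Q.s / 2) ^ d)⁻¹ * _ / _ = _
  rw [Fintype.card_fun, Fintype.card_bool, Fintype.card_fin]
  have hs := Q.pos
  rw [div_pow]
  push_cast
  field_simp

lemma lint (F : Cube d → ℝ) (hF : ∀ Q, 0 ≤ F Q) (A : Cube d → ℝ) (N : ℕ) (Q : Cube d) (t : ℝ) :
    0 ≤ R child A (fun Q _ => F Q) N Q t ∧
    ∫⁻ y in Q.S, ENNReal.ofReal (F (node N Q y)) =
      ENNReal.ofReal (Q.s ^ d * R child A (fun Q _ => F Q) N Q t) := by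
  induction N generalizing Q t with
  | zero =>
    refine ⟨hF Q, ?_⟩
    simp only [node, R]
    rw [setLIntegral_const, vol, ENNReal.ofReal_mul (pow_nonneg Q.pos.le _), mul_comm]
  | succ N ih =>
    have hnn : 0 ≤ R child A (fun Q _ => F Q) (N + 1) Q t := by
      simp only [R]
      unfold av
      exact div_nonneg (Finset.sum_nonneg fun e _ => (ih _ _).1) (by positivity)
    refine ⟨hnn, ?_⟩
    rw [← Q.union, lintegral_iUnion (fun e => (Q.child e).meas) Q.disj, tsum_fintype]
    have h1 : ∀ e, ∫⁻ y in (Q.child e).S, ENNReal.ofReal (F (node (N + 1) Q y)) =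
        ENNReal.ofReal ((Q.s / 2) ^ d * R child A (fun Q _ => F Q) N (Q.child e) (max t (A Q))) := by
      intro e
      rw [← show (Q.child e).s = Q.s / 2 from rfl, ← (ih (Q.child e) (max t (A Q))).2]
      refine setLIntegral_congr_fun (Q.child e).meas fun y hy => ?_
      show ENNReal.ofReal (F (node N (Q.child (Q.loc y)) y)) = _
      rw [Q.loc_eq e hy]
    rw [Finset.sum_congr rfl fun e _ => h1 e, ← ENNReal.ofReal_sum_of_nonneg]
    · congr 1
      simp only [R]
      unfold av
      rw [← Finset.mul_sum, Fintype.card_fun, Fintype.card_bool, Fintype.card_fin, div_pow]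
      push_cast
      field_simp
    · intro e _
      exact mul_nonneg (pow_nonneg (half_pos Q.pos).le _) (ih _ _).1

/-- convergence of the dyadic averages -/
lemma conv {f : (Fin d → ℝ) → ℝ} (hf : LocallyIntegrable f volume) (Q : Cube d) :
    ∀ᵐ y ∂(volume.restrict Q.S),
      Tendsto (fun N => ⨍ x in (node N Q y).S, f x) atTop (𝓝 (f y)) := by
  have h := ae_restrict_of_ae (s := Q.S)
    (IsUnifLocDoublingMeasure.ae_tendsto_average hf (μ := volume) 1)
  filter_upwards [h, ae_restrict_mem Q.meas] with y hy hyQ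
  have h1 := @hy ℕ atTop (fun N => fun i => (node N Q y).a i + (node N Q y).s / 2)
    (fun N => (node N Q y).s / 2) (by
      rw [tendsto_nhdsWithin_iff]
      constructor
      · have : (fun N : ℕ => (node N Q y).s / 2) = fun N : ℕ => (Q.s / 2) * (1 / 2) ^ N := by
          funext N
          rw [node_s]
          rw [one_div, inv_pow]
          field_simp
        rw [this]
        have := (tendsto_pow_atTop_nhds_zero_of_lt_one (r := (1 / 2 : ℝ)) (by norm_num)
          (by norm_num)).const_mul (Q.s / 2)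
        rwa [mul_zero] at this
      · exact Filter.Eventually.of_forall fun N => half_pos (node N Q y).pos)
    (by
      refine Filter.Eventually.of_forall fun N => ?_
      rw [one_mul, ball_eq]
      have := mem_node N Q hyQ
      unfold S at this
      rw [Set.mem_univ_pi] at this
      exact ⟨fun i => (this i).1, fun i => (this i).2.le⟩)
  refine h1.congr fun N => ?_
  rw [ball_eq]
  exact setAverage_congr (ae_eq _).symm

end Cube

open Pool.Agent.Run7.h51.GC.Cube

lemma hiS {f : (Fin d → ℝ) → ℝ} (hf : LocallyIntegrable f volume) (Q : Cube d) :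
    IntegrableOn f Q.S volume := by
  rw [integrableOn_congr_set_ae Q.ae_eq]
  exact hf.integrableOn_isCompact isCompact_Icc

lemma jensen {w : (Fin d → ℝ) → ℝ} {p : ℝ} (hp : 1 < p) (hw : LocallyIntegrable w volume)
    (hv : LocallyIntegrable (fun x => w x ^ p) volume) (h0 : ∀ x, 0 ≤ w x) (Q : Cube d) :
    (⨍ x in Q.S, w x) ^ p ≤ ⨍ x in Q.S, w x ^ p := by
  have := ConvexOn.map_set_average_le (μ := volume) (t := Q.S) (f := w) (convexOn_rpow hp.le)
    (Continuous.continuousOn (Real.continuous_rpow_const (by linarith))) isClosed_Ici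
    (by
      rw [vol]
      have := pow_pos Q.pos d
      simpa using this)
    (by rw [vol]; exact ENNReal.ofReal_ne_top)
    (Filter.Eventually.of_forall fun x => h0 x) (hiS hw Q) (hiS hv Q)
  exact this

/-- Gehring's inequality on cubes. -/
theorem main {w : (Fin d → ℝ) → ℝ} {p δ Kp : ℝ} (hp : 1 < p) (hw : LocallyIntegrable w volume)
    (hv : LocallyIntegrable (fun x => w x ^ p) volume) (h0 : ∀ x, 0 ≤ w x)
    (hK0 : 0 ≤ Kp) (hK : ∀ Q : Cube d, ⨍ x in Q.S, w x ^ p ≤ Kp * (⨍ x in Q.S, w x) ^ p)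
    (hδ : 0 ≤ δ) (hδ1 : δ ≤ 1)
    (hs : (2 : ℝ) ^ d * δ * (Kp * (2 * (p / (p - 1))) ^ p) ≤ 1 / 2) (Q : Cube d) :
    ∫⁻ x in Q.S, ENNReal.ofReal ((w x ^ p) ^ (1 + δ)) ≤
      ENNReal.ofReal (Q.s ^ d * (2 * (⨍ x in Q.S, w x ^ p) ^ (1 + δ))) := by
  have hA : ∀ Q : Cube d, 0 ≤ ⨍ x in Q.S, w x ^ p := fun Q => by
    rw [setAverage_eq]
    exact smul_nonneg (by positivity) (integral_nonneg fun x => Real.rpow_nonneg (h0 x) _)
  have hb : ∀ Q : Cube d, 0 ≤ ⨍ x in Q.S, w x := fun Q => by
    rw [setAverage_eq]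
    exact smul_nonneg (by positivity) (integral_nonneg fun x => h0 x)
  have hbA : ∀ Q : Cube d, (⨍ x in Q.S, w x) ^ p ≤ ⨍ x in Q.S, w x ^ p := jensen hp hw hv h0
  have hG : ∀ N, R child (fun Q : Cube d => ⨍ x in Q.S, w x ^ p)
      (fun Q _ => (⨍ x in Q.S, w x ^ p) ^ (1 + δ)) N Q 0 ≤
        2 * (⨍ x in Q.S, w x ^ p) ^ (1 + δ) := by
    intro N
    refine gehring child (b := fun Q : Cube d => ⨍ x in Q.S, w x) hA hb (avg_harm hw)
      (avg_harm hv) hbA hK hK0 hp hδ hδ1 ?_ N Q
    rw [Fintype.card_fun, Fintype.card_bool, Fintype.card_fin]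
    push_cast
    exact hs
  have hint : ∀ N : ℕ, ∫⁻ y in Q.S,
      ENNReal.ofReal ((⨍ x in (node N Q y).S, w x ^ p) ^ (1 + δ)) ≤
        ENNReal.ofReal (Q.s ^ d * (2 * (⨍ x in Q.S, w x ^ p) ^ (1 + δ))) := by
    intro N
    have h2 := (lint (fun Q : Cube d => (⨍ x in Q.S, w x ^ p) ^ (1 + δ))
      (fun Q => Real.rpow_nonneg (hA Q) _) (fun Q : Cube d => ⨍ x in Q.S, w x ^ p) N Q 0).2
    rw [h2]
    exact ENNReal.ofReal_le_ofReal (mul_le_mul_of_nonneg_left (hG N) (pow_nonneg Q.pos.le _))
  have hc := conv hv Q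
  calc ∫⁻ x in Q.S, ENNReal.ofReal ((w x ^ p) ^ (1 + δ))
      = ∫⁻ y in Q.S, liminf (fun N : ℕ =>
          ENNReal.ofReal ((⨍ x in (node N Q y).S, w x ^ p) ^ (1 + δ))) atTop := by
        refine lintegral_congr_ae ?_
        filter_upwards [hc] with y hy
        have hcont : Continuous fun z : ℝ => ENNReal.ofReal (z ^ (1 + δ)) :=
          ENNReal.continuous_ofReal.comp (Real.continuous_rpow_const (by linarith))
        exact ((hcont.tendsto _).comp hy).liminf_eq.symm
    _ ≤ liminf (fun N : ℕ => ∫⁻ y in Q.S,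
          ENNReal.ofReal ((⨍ x in (node N Q y).S, w x ^ p) ^ (1 + δ))) atTop :=
        lintegral_liminf_le fun N =>
          meas_node (fun Q : Cube d => ENNReal.ofReal ((⨍ x in Q.S, w x ^ p) ^ (1 + δ))) N Q
    _ ≤ ENNReal.ofReal (Q.s ^ d * (2 * (⨍ x in Q.S, w x ^ p) ^ (1 + δ))) := by
        refine liminf_le_of_le (by isBoundedDefault) ?_
        intro b hb
        obtain ⟨N, hN⟩ := hb.exists
        exact hN.trans (hint N)

end Pool.Agent.Run7.h51.GC
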