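import Pool.Agent.Y53.FP.Final

/-!
Lipschitz free `p`-spaces over discrete metric spaces.

Every metric space `K` is the set of accumulation points of the completion of a discrete metric
space `D`, in such a way that `K` is a Lipschitz retract of the completion; hence the free `p`-space
of `K` is complemented in that of `D`.
-/

set_option autoImplicit false
set_option linter.unusedSectionVars false

open Set Filter Topology
open Pool.Agent.H548R3.PFree Pool.Agent.Y53.FP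

namespace Pool.Agent.Run7.h51.DiscFree

/-- every point of `M` is isolated -/
def IsDiscr (M : Type) [MetricSpace M] : Prop :=
  ∀ x : M, ∃ r : ℝ, 0 < r ∧ ∀ y : M, dist y x < r → y = x

lemma exists_net (K : Type) [MetricSpace K] (ε : ℝ) (hε : 0 < ε) :
    ∃ N : Set K, (∀ x ∈ N, ∀ y ∈ N, dist x y < ε → x = y) ∧ ∀ x : K, ∃ y ∈ N, dist x y < ε := by
  obtain ⟨N, hN⟩ := zorn_subset {N : Set K | ∀ x ∈ N, ∀ y ∈ N, dist x y < ε → x = y} (by
    intro c hc hch
    refine ⟨⋃₀ c, ?_, fun s hs => subset_sUnion_of_mem hs⟩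
    rintro x ⟨s, hs, hxs⟩ y ⟨t, ht, hyt⟩ hxy
    rcases hch.total hs ht with h | h
    · exact hc ht x (h hxs) y hyt hxy
    · exact hc hs x hxs y (h hyt) hxy)
  refine ⟨N, hN.prop, fun x => ?_⟩
  by_contra hcon
  push Not at hcon
  have h1 : insert x N ∈ {N : Set K | ∀ x ∈ N, ∀ y ∈ N, dist x y < ε → x = y} := by
    rintro a (rfl | ha) b (rfl | hb) hab
    · rfl
    · exact absurd hab (not_lt.2 (hcon b hb))
    · exact absurd hab (not_lt.2 (by rw [dist_comm]; exact hcon a ha))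
    · exact hN.prop a ha b hb hab
  have h2 : x ∈ N := hN.le_of_ge h1 (subset_insert x N) (mem_insert x N)
  exact absurd (hcon x h2) (by rw [dist_self]; exact not_le.2 hε)

/-- The discrete space of a metric space. -/
theorem exists_discrete (K : Type) [MetricSpace K] :
    ∃ D : Set (K × ℝ), (∀ q ∈ D, 0 < q.2 ∧ q.2 ≤ 1) ∧
      (∀ x ∈ D, ∃ r : ℝ, 0 < r ∧ ∀ y ∈ D, dist y x < r → y = x) ∧
      ∀ x : K, (x, (0 : ℝ)) ∈ closure D := by
  have h : ∀ n : ℕ, ∃ N : Set K, (∀ x ∈ N, ∀ y ∈ N, dist x y < (1 / 2 : ℝ) ^ n → x = y) ∧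
      ∀ x : K, ∃ y ∈ N, dist x y < (1 / 2 : ℝ) ^ n := fun n => exists_net K _ (by positivity)
  choose N hN1 hN2 using h
  refine ⟨{q | ∃ n, q.2 = (1 / 2 : ℝ) ^ n ∧ q.1 ∈ N n}, ?_, ?_, ?_⟩
  · rintro q ⟨n, hn, -⟩
    rw [hn]
    exact ⟨by positivity, pow_le_one₀ (by norm_num) (by norm_num)⟩
  · rintro ⟨x, t⟩ ⟨n, hn, hx⟩
    refine ⟨(1 / 2) ^ n / 2, by positivity, ?_⟩
    rintro ⟨y, s⟩ ⟨m, hm, hy⟩ hd
    simp only at hn hm hx hy
    subst hn hm
    rw [Prod.dist_eq, max_lt_iff] at hd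
    obtain ⟨hd1, hd2⟩ := hd
    simp only [Real.dist_eq] at hd1 hd2
    have h0 : (0 : ℝ) < (1 / 2) ^ n := by positivity
    have hmn : m = n := by
      rcases lt_trichotomy m n with h | h | h
      · exfalso
        have h1 : (1 / 2 : ℝ) ^ n ≤ (1 / 2) ^ (m + 1) :=
          pow_le_pow_of_le_one (by norm_num) (by norm_num) h
        rw [pow_succ] at h1
        have := (abs_lt.1 hd2).2
        linarith
      · exact h
      · exfalso
        have h1 : (1 / 2 : ℝ) ^ m ≤ (1 / 2) ^ (n + 1) :=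
          pow_le_pow_of_le_one (by norm_num) (by norm_num) h
        rw [pow_succ] at h1
        have := (abs_lt.1 hd2).1
        linarith
    subst hmn
    have := hN1 m y hy x hx (hd1.trans (by linarith))
    rw [this]
  · intro x
    rw [Metric.mem_closure_iff]
    intro ε hε
    obtain ⟨n, hn⟩ := exists_pow_lt_of_lt_one hε (by norm_num : (1 / 2 : ℝ) < 1)
    obtain ⟨y, hy, hxy⟩ := hN2 n x
    refine ⟨(y, (1 / 2) ^ n), ⟨n, rfl, hy⟩, ?_⟩
    rw [Prod.dist_eq]
    refine max_lt (hxy.trans hn) ?_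
    simp only [Real.dist_eq, zero_sub, abs_neg]
    rw [abs_of_pos (by positivity)]
    exact hn

/-- The free `p`-space of `K` is complemented in that of `D` as soon as the closure of `D` contains
`K × {0}`. -/
theorem exists_retract {K : Type} [MetricSpace K] (D : Set (K × ℝ))
    (hD : ∀ x : K, (x, (0 : ℝ)) ∈ closure D)
    (p : ℝ) (h0 : 0 < p) (h1 : p ≤ 1) (k : K) (o : D)
    (Y : Type) [NormedAddCommGroup Y] [Module ℝ Y] (η : K → Y) (hY : IsLipschitzFree p K k Y η)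
    (Z : Type) [NormedAddCommGroup Z] [Module ℝ Z] (δ : D → Z) (hZ : IsLipschitzFree p D o Z δ) :
    ∃ (R : Y →L[ℝ] Z) (S : Z →L[ℝ] Y), (∀ y, S (R y) = y) ∧ (∀ y, pnorm p (R y) = pnorm p y) ∧
      ∀ z, pnorm p (S z) ≤ pnorm p z := by
  have hp : Fact (0 < p ∧ p ≤ 1) := ⟨h0, h1⟩
  have hcZ : CompleteSpace Z := hZ.banach.2
  have hnZ : ∀ x y : D, ‖δ x - δ y‖ = dist x y ^ p := fun x y => by
    rw [← hZ.isometric x y, pnorm_rpow]
  have hnY : ∀ x y : K, ‖η x - η y‖ = dist x y ^ p := fun x y => by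
    rw [← hY.isometric x y, pnorm_rpow]
  have hpow : Tendsto (fun t : ℝ => t ^ p) (𝓝 0) (𝓝 0) := by
    have := (tendsto_id (x := 𝓝 (0 : ℝ))).rpow_const (p := p) (Or.inr h0.le)
    rwa [Real.zero_rpow h0.ne'] at this
  have hucZ : UniformContinuous δ := by
    rw [Metric.uniformContinuous_iff]
    intro ε hε
    refine ⟨ε ^ (1 / p), Real.rpow_pos_of_pos hε _, fun {a b} hab => ?_⟩
    rw [dist_eq_norm, hnZ]
    calc dist a b ^ p < (ε ^ (1 / p)) ^ p := Real.rpow_lt_rpow dist_nonneg hab h0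
      _ = ε := by rw [← Real.rpow_mul hε.le, one_div_mul_cancel h0.ne', Real.rpow_one]
  have hcY : Continuous η := by
    rw [Metric.continuous_iff]
    intro b ε hε
    refine ⟨ε ^ (1 / p), Real.rpow_pos_of_pos hε _, fun a hab => ?_⟩
    rw [dist_eq_norm, hnY]
    calc dist a b ^ p < (ε ^ (1 / p)) ^ p := Real.rpow_lt_rpow dist_nonneg hab h0
      _ = ε := by rw [← Real.rpow_mul hε.le, one_div_mul_cancel h0.ne', Real.rpow_one]
  obtain ⟨S, hS1, hS2, -⟩ := hZ.lift Y hY.banach (fun q => η q.1.1 - η o.1.1) (sub_self _)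
    ⟨1, fun x y => by
      rw [sub_sub_sub_cancel_right, hY.isometric, one_mul, Subtype.dist_eq, Prod.dist_eq]
      exact le_max_left _ _⟩
  choose u hu1 hu2 using fun x => mem_closure_iff_seq_limit.1 (hD x)
  have hw : ∀ x, CauchySeq fun n => (⟨u x n, hu1 x n⟩ : D) := fun x => by
    have h2 := (hu2 x).cauchySeq
    rw [Metric.cauchySeq_iff] at h2 ⊢
    exact h2
  have hg : ∀ x, ∃ z, Tendsto (fun n => δ ⟨u x n, hu1 x n⟩) atTop (𝓝 z) := fun x =>
    cauchySeq_tendsto_of_complete ((hw x).map hucZ)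
  choose g hg using hg
  have hgd : ∀ x y, ‖g x - g y‖ = dist x y ^ p := by
    intro x y
    have h2 := ((hg x).sub (hg y)).norm
    have h3 : Tendsto (fun n => dist (u x n) (u y n)) atTop (𝓝 (dist (x, (0 : ℝ)) (y, (0 : ℝ)))) :=
      (hu2 x).dist (hu2 y)
    have h4 : dist ((x, (0 : ℝ)) : K × ℝ) (y, (0 : ℝ)) = dist x y := by
      rw [Prod.dist_eq]
      simp
    rw [h4] at h3
    have h5 := h3.rpow_const (p := p) (Or.inr h0.le)
    refine tendsto_nhds_unique h2 (h5.congr fun n => ?_)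
    exact (hnZ ⟨u x n, hu1 x n⟩ ⟨u y n, hu1 y n⟩).symm
  have hgp : ∀ x y, pnorm p (g x - g y) = dist x y := by
    intro x y
    unfold pnorm
    rw [hgd, ← Real.rpow_mul dist_nonneg, mul_one_div_cancel h0.ne', Real.rpow_one]
  obtain ⟨R, hR1, hR2, -⟩ := hY.lift Z hZ.banach (fun x => g x - g k) (sub_self _)
    ⟨1, fun x y => by rw [sub_sub_sub_cancel_right, one_mul, hgp]⟩
  have hSg : ∀ x, S (g x) = η x - η o.1.1 := by
    intro x
    have h2 : Tendsto (fun n => S (δ ⟨u x n, hu1 x n⟩)) atTop (𝓝 (S (g x))) :=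
      (S.continuous.tendsto _).comp (hg x)
    have h3 : Tendsto (fun n => (u x n).1) atTop (𝓝 x) :=
      (continuous_fst.tendsto (x, (0 : ℝ))).comp (hu2 x)
    have h4 : Tendsto (fun n => η (u x n).1 - η o.1.1) atTop (𝓝 (η x - η o.1.1)) :=
      ((hcY.tendsto x).comp h3).sub_const _
    refine tendsto_nhds_unique h2 (h4.congr fun n => ?_)
    exact (hS1 ⟨u x n, hu1 x n⟩).symm
  have hSR : ∀ y, S (R y) = y := by
    obtain ⟨T, hT1, -, hT2⟩ := hY.lift Y hY.banach η hY.base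
      ⟨1, fun x y => by rw [one_mul, hY.isometric]⟩
    have e1 : S.comp R = T := hT2 _ fun x => by
      show S (R (η x)) = η x
      rw [hR1, map_sub, hSg, hSg, hY.base, sub_sub_sub_cancel_right, sub_zero]
    have e2 : ContinuousLinearMap.id ℝ Y = T := hT2 _ fun x => rfl
    intro y
    have e3 := congrArg (fun A : Y →L[ℝ] Y => A y) (e1.trans e2.symm)
    exact e3
  have hR3 : ∀ y, pnorm p (R y) ≤ pnorm p y := fun y => by
    have := (hR2 1 zero_le_one).1 (fun x y => by rw [sub_sub_sub_cancel_right, one_mul, hgp]) y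
    rwa [one_mul] at this
  have hS3 : ∀ z, pnorm p (S z) ≤ pnorm p z := fun z => by
    have := (hS2 1 zero_le_one).1 (fun x y => by
      rw [sub_sub_sub_cancel_right, hY.isometric, one_mul, Subtype.dist_eq, Prod.dist_eq]
      exact le_max_left _ _) z
    rwa [one_mul] at this
  refine ⟨R, S, hSR, fun y => le_antisymm (hR3 y) ?_, hS3⟩
  have h2 := hS3 (R y)
  rwa [hSR] at h2

lemma hasAP_of_retract {p : ℝ} {Y Z : Type} [NormedAddCommGroup Y] [Module ℝ Y]
    [NormedAddCommGroup Z] [Module ℝ Z] (R : Y →L[ℝ] Z) (S : Z →L[ℝ] Y)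
    (h : ∀ y, S (R y) = y) (hS : ∀ z, pnorm p (S z) ≤ pnorm p z) (hZ : HasAP p Z) :
    HasAP p Y := by
  intro C hC ε hε
  obtain ⟨T, hT1, hT2⟩ := hZ (R '' C) (hC.image R.continuous) ε hε
  refine ⟨S.comp (T.comp R), ?_, fun y hy => ?_⟩
  · have h2 : LinearMap.range ((S.comp (T.comp R) : Y →L[ℝ] Y) : Y →ₗ[ℝ] Y) ≤
        (LinearMap.range (T : Z →ₗ[ℝ] Z)).map (S : Z →ₗ[ℝ] Y) := by
      rintro _ ⟨y, rfl⟩
      exact ⟨T (R y), ⟨R y, rfl⟩, rfl⟩
    have := hT1
    exact Submodule.finiteDimensional_of_le h2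
  · have h2 := hT2 (R y) ⟨y, hy, rfl⟩
    have h3 : (S.comp (T.comp R)) y - y = S (T (R y) - R y) := by
      rw [map_sub, h]
      rfl
    rw [h3]
    exact (hS _).trans_lt h2

/-- One countable discrete metric space for all `p`. -/
theorem exists_fails : ∃ (M : Type) (_ : MetricSpace M), Countable M ∧ IsDiscr M ∧
    TotallyBounded (Set.univ : Set M) ∧
    ∀ (o : M) (p : ℝ), 0 < p → p ≤ 1 → FreeFailsAP p M o := by
  obtain ⟨K, _, ⟨e⟩, hK⟩ := exists_cantor
  have : CompactSpace K := e.symm.compactSpace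
  obtain ⟨D, hD1, hD2, hD3⟩ := exists_discrete K
  have hdis : IsDiscr D := by
    intro x
    obtain ⟨r, hr, h⟩ := hD2 x.1 x.2
    exact ⟨r, hr, fun y hy => Subtype.ext (h y.1 y.2 hy)⟩
  have hdt : DiscreteTopology D := by
    rw [discreteTopology_iff_isOpen_singleton]
    intro x
    obtain ⟨r, hr, h⟩ := hdis x
    rw [Metric.isOpen_iff]
    intro y hy
    rw [mem_singleton_iff] at hy
    subst hy
    exact ⟨r, hr, fun z hz => h z hz⟩
  refine ⟨D, inferInstance, ?_, hdis, ?_, fun o p h0 h1 => ?_⟩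
  · exact TopologicalSpace.separableSpace_iff_countable.1 inferInstance
  · have h2 : TotallyBounded D := by
      have h3 : IsCompact ((Set.univ : Set K) ×ˢ Set.Icc (0 : ℝ) 1) :=
        isCompact_univ.prod isCompact_Icc
      have h5 : D ⊆ (Set.univ : Set K) ×ˢ Set.Icc (0 : ℝ) 1 := fun q hq =>
        ⟨mem_univ _, (hD1 q hq).1.le, (hD1 q hq).2⟩
      exact h3.totallyBounded.subset h5
    have h4 := totallyBounded_preimage (f := ((↑) : D → K × ℝ)) (isUniformInducing_val D) h2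
    rwa [Subtype.coe_preimage_self] at h4
  · have hp : Fact (0 < p ∧ p ≤ 1) := ⟨h0, h1⟩
    refine ⟨⟨FF p D, inferInstance, inferInstance, fun x => cl x o, isLipschitzFree o⟩, ?_⟩
    intro Z _ _ δ hZ hAP
    obtain ⟨⟨Y, _, _, η, hY⟩, hfail⟩ := hK o.1.1 p h0 h1
    obtain ⟨R, S, hSR, -, hS⟩ := exists_retract D hD3 p h0 h1 o.1.1 o Y η hY Z δ hZ
    exact hfail Y η hY (hasAP_of_retract R S hSR hS hAP)

end Pool.Agent.Run7.h51.DiscFree
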