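import Mathlib

/-!
Specialisation of finitely generated commutative rings to finite fields.
-/

namespace Run7.h51.Eng

theorem isJacobsonRing_int : IsJacobsonRing ℤ := by
  rw [isJacobsonRing_iff_prime_eq]
  intro P hP
  by_cases h : P = ⊥
  · subst h
    apply le_antisymm _ Ideal.le_jacobson
    intro x hx
    by_contra hx0
    have hx0' : x ≠ 0 := hx0
    obtain ⟨p, hp, hpp⟩ := Nat.exists_infinite_primes (x.natAbs + 1)
    have hmax : (Ideal.span {(p : ℤ)}).IsMaximal := by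
      apply PrincipalIdealRing.isMaximal_of_irreducible
      exact (Nat.prime_iff_prime_int.mp hpp).irreducible
    have hx1 : x ∈ Ideal.span {(p : ℤ)} := by
      have := (Ideal.mem_jacobson_bot (x := x)).mp hx
      have h2 : x ∈ (⊥ : Ideal ℤ).jacobson := hx
      rw [Ideal.jacobson, Submodule.mem_sInf] at h2
      exact h2 _ ⟨bot_le, hmax⟩
    rw [Ideal.mem_span_singleton] at hx1
    have h3 : p ≤ x.natAbs := Nat.le_of_dvd (Int.natAbs_pos.mpr hx0') (by
      have := Int.natAbs_dvd_natAbs.mpr hx1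
      simpa using this)
    omega
  · have : P.IsMaximal := IsPrime.to_maximal_ideal h
    exact Ideal.jacobson_eq_self_of_isMaximal

theorem finite_of_field_finite_int (k : Type) [Field k] [Module.Finite ℤ k] : Finite k := by
  have hint : Algebra.IsIntegral ℤ k := inferInstance
  have hninj : ¬ Function.Injective (algebraMap ℤ k) := by
    intro hinj
    have h1 : IsField ℤ := isField_of_isIntegral_of_isField hinj (Field.toIsField k)
    obtain ⟨b, hb⟩ := h1.mul_inv_cancel (a := (2 : ℤ)) (by norm_num)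
    omega
  rw [injective_iff_map_eq_zero] at hninj
  push Not at hninj
  obtain ⟨n, hn, hn0⟩ := hninj
  apply Module.finite_of_fg_torsion
  intro x
  refine ⟨⟨n, mem_nonZeroDivisors_of_ne_zero hn0⟩, ?_⟩
  show n • x = 0
  rw [Algebra.smul_def, hn, zero_mul]

theorem exists_finite_field (σ : Type) [Finite σ] (𝔞 : Ideal (MvPolynomial σ ℤ))
    (b : MvPolynomial σ ℤ) (hb : ∀ n : ℕ, b ^ n ∉ 𝔞) :
    ∃ (k : Type) (_ : Field k) (_ : Finite k) (φ : MvPolynomial σ ℤ →+* k),
      (∀ a ∈ 𝔞, φ a = 0) ∧ φ b ≠ 0 := by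
  have := isJacobsonRing_int
  have h1 : b ∉ 𝔞.radical := by
    rintro ⟨n, hn⟩
    exact hb n hn
  rw [Ideal.radical_eq_jacobson, Ideal.jacobson, Submodule.mem_sInf] at h1
  push Not at h1
  obtain ⟨𝔪, ⟨h𝔪, hmax⟩, hb𝔪⟩ := h1
  have hmax' : Ideal.IsMaximal 𝔪 := hmax
  let _ : Field (MvPolynomial σ ℤ ⧸ 𝔪) := Ideal.Quotient.field 𝔪
  have : Module.Finite ℤ (MvPolynomial σ ℤ ⧸ 𝔪) :=
    finite_of_finite_type_of_isJacobsonRing ℤ (MvPolynomial σ ℤ ⧸ 𝔪)
  refine ⟨MvPolynomial σ ℤ ⧸ 𝔪, inferInstance, finite_of_field_finite_int _,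
    Ideal.Quotient.mk 𝔪, ?_, ?_⟩
  · intro a ha
    exact Ideal.Quotient.eq_zero_iff_mem.mpr (h𝔪 ha)
  · intro h
    exact hb𝔪 (Ideal.Quotient.eq_zero_iff_mem.mp h)

end Run7.h51.Eng
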