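import Pool.Agent.Run7.h51.EngDefs
import Pool.Agent.Run7.h51.EngJac

/-!
The linear case: a square-zero configuration produces a bad ring.
-/

namespace Run7.h51.Eng

open MvPolynomial

open scoped IsMulCommutative in
theorem exists_action {R : Type} [NonUnitalRing R] (y : R) :
    ∃ Λ : MvPolynomial (Fin 2) ℤ →+* AddMonoid.End R,
      (∀ u, Λ (X 0) u = y * u) ∧ (∀ u, Λ (X 1) u = u * y) := by
  let l : AddMonoid.End R := AddMonoidHom.mulLeft y
  let r : AddMonoid.End R := AddMonoidHom.mulRight y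
  have hlr : l * r = r * l := by
    ext u
    show y * (u * y) = (y * u) * y
    rw [mul_assoc]
  have hcomm : ∀ a ∈ ({l, r} : Set (AddMonoid.End R)),
      ∀ b ∈ ({l, r} : Set (AddMonoid.End R)), a * b = b * a := by
    rintro a (rfl | rfl) b (rfl | rfl)
    · rfl
    · exact hlr
    · exact hlr.symm
    · rfl
  have hc := Subring.isMulCommutative_closure hcomm
  let C := Subring.closure ({l, r} : Set (AddMonoid.End R))
  let l' : C := ⟨l, Subring.subset_closure (by simp)⟩
  let r' : C := ⟨r, Subring.subset_closure (by simp)⟩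
  refine ⟨(Subring.subtype C).comp (MvPolynomial.eval₂Hom (Int.castRingHom C) ![l', r']), ?_, ?_⟩
  · intro u
    simp [l', l]
    rfl
  · intro u
    simp [r', r]
    rfl

theorem lemmaA {Sg : Set RTerm} {R : Type} [NonUnitalRing R] (hR : Models Sg R) (y z : R)
    (N : AddSubgroup R) (hz : z ∈ N) (hl : ∀ w ∈ N, y * w ∈ N) (hr : ∀ w ∈ N, w * y ∈ N)
    (h0 : ∀ a ∈ N, ∀ b ∈ N, a * b = 0) (hc : ∀ n, comm n z y ≠ 0) : HasBad Sg := by
  obtain ⟨Λ, hΛ0, hΛ1⟩ := exists_action y
  have hΛmul : ∀ a b w, Λ (a * b) w = Λ a (Λ b w) := by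
    intro a b w; rw [map_mul]; rfl
  have hΛadd : ∀ a b w, Λ (a + b) w = Λ a w + Λ b w := by
    intro a b w; rw [map_add]; rfl
  have hΛneg : ∀ a w, Λ (-a) w = - Λ a w := by
    intro a w; rw [map_neg]; rfl
  have hΛsub : ∀ a b w, Λ (a - b) w = Λ a w - Λ b w := by
    intro a b w; rw [map_sub]; rfl
  have hΛ1' : ∀ w, Λ 1 w = w := by
    intro w; rw [map_one]; rfl
  have hN : ∀ h, ∀ w ∈ N, Λ h w ∈ N := by
    intro h
    induction h using MvPolynomial.induction_on with
    | C n =>
      intro w hw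
      have : Λ (C n) w = n • w := by
        have e : (C n : MvPolynomial (Fin 2) ℤ) = (n : MvPolynomial (Fin 2) ℤ) := by simp
        rw [e, map_intCast]
        simp
      rw [this]
      exact N.zsmul_mem hw n
    | add p q hp hq =>
      intro w hw
      rw [hΛadd]
      exact N.add_mem (hp w hw) (hq w hw)
    | mul_X p i hp =>
      intro w hw
      rw [hΛmul]
      apply hp
      fin_cases i
      · show Λ (X 0) w ∈ N
        rw [hΛ0]; exact hl w hw
      · show Λ (X 1) w ∈ N
        rw [hΛ1]; exact hr w hw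
  let 𝔞 : Ideal (MvPolynomial (Fin 2) ℤ) :=
    { carrier := {h | Λ h z = 0}
      add_mem' := by
        intro a b ha hb
        simp only [Set.mem_ofPred_eq] at ha hb ⊢
        rw [hΛadd, ha, hb, add_zero]
      zero_mem' := by
        simp only [Set.mem_ofPred_eq]
        rw [map_zero]; rfl
      smul_mem' := by
        intro c a ha
        simp only [Set.mem_ofPred_eq] at ha ⊢
        rw [smul_eq_mul, hΛmul, ha, map_zero] }
  have h𝔞 : ∀ h, h ∈ 𝔞 ↔ Λ h z = 0 := fun h => Iff.rfl
  have hb : ∀ n : ℕ, Λ ((X 1 - X 0) ^ n) z = comm n z y := by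
    intro n
    induction n with
    | zero => rw [pow_zero, hΛ1']; rfl
    | succ n ih =>
      rw [pow_succ', hΛmul, ih, hΛsub, hΛ0, hΛ1]; rfl
  obtain ⟨k, _, _, φ, hφ𝔞, hφb⟩ := exists_finite_field (Fin 2) 𝔞 (X 1 - X 0) (by
    intro n hn
    exact hc n (by rw [← hb]; exact hn))
  let Inv : R × Matrix (Fin 2) (Fin 2) k → Prop := fun p =>
    ∃ g1 g2 h : MvPolynomial (Fin 2) ℤ, (∀ u, p.1 * Λ u z = Λ (g1 * u) z) ∧
      (∀ u, Λ u z * p.1 = Λ (g2 * u) z) ∧
      p.1 * y - y * p.1 = Λ ((X 1 - X 0) * h) z ∧ p.2 = !![φ g1, φ h; 0, φ g2]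
  let Y0 : Matrix (Fin 2) (Fin 2) k := !![φ (X 0), 0; 0, φ (X 1)]
  let Z0 : Matrix (Fin 2) (Fin 2) k := !![0, 1; 0, 0]
  let G : NonUnitalSubring (R × Matrix (Fin 2) (Fin 2) k) :=
    NonUnitalSubring.closure {(y, Y0), (z, Z0)}
  have hG : ∀ p ∈ G, Inv p := by
    intro p hp
    induction hp using NonUnitalSubring.closure_induction with
    | mem p hp =>
      rcases hp with rfl | rfl
      · refine ⟨X 0, X 1, 0, ?_, ?_, ?_, ?_⟩
        · intro u
          show y * _ = _
          rw [hΛmul, hΛ0]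
        · intro u
          show _ * y = _
          rw [hΛmul, hΛ1]
        · show y * y - y * y = _
          rw [sub_self, mul_zero, map_zero]; rfl
        · show Y0 = _
          simp [Y0]
      · refine ⟨0, 0, 1, ?_, ?_, ?_, ?_⟩
        · intro u
          show z * _ = _
          rw [h0 z hz _ (hN u z hz), zero_mul, map_zero]; rfl
        · intro u
          show _ * z = _
          rw [h0 _ (hN u z hz) z hz, zero_mul, map_zero]; rfl
        · show z * y - y * z = _
          rw [mul_one, hΛsub, hΛ0, hΛ1]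
        · show Z0 = _
          simp [Z0]
    | zero =>
      refine ⟨0, 0, 0, ?_, ?_, ?_, ?_⟩
      · intro u
        rw [zero_mul, map_zero]; simp
      · intro u
        rw [zero_mul, map_zero]; simp
      · rw [mul_zero, map_zero]; simp
      · ext i j
        fin_cases i <;> fin_cases j <;> simp
    | add p q _ _ hp hq =>
      obtain ⟨g1, g2, h, h1, h2, h3, h4⟩ := hp
      obtain ⟨g1', g2', h', h1', h2', h3', h4'⟩ := hq
      refine ⟨g1 + g1', g2 + g2', h + h', ?_, ?_, ?_, ?_⟩
      · intro u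
        rw [Prod.fst_add, add_mul, h1, h1', ← hΛadd, ← add_mul]
      · intro u
        rw [Prod.fst_add, mul_add, h2, h2', ← hΛadd, ← add_mul]
      · rw [Prod.fst_add, mul_add (X 1 - X 0) h h', hΛadd, ← h3, ← h3', add_mul, mul_add]
        abel
      · rw [Prod.snd_add, h4, h4']
        ext i j
        fin_cases i <;> fin_cases j <;> simp
    | neg p _ hp =>
      obtain ⟨g1, g2, h, h1, h2, h3, h4⟩ := hp
      refine ⟨-g1, -g2, -h, ?_, ?_, ?_, ?_⟩
      · intro u
        rw [Prod.fst_neg, neg_mul, h1, neg_mul, hΛneg]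
      · intro u
        rw [Prod.fst_neg, mul_neg, h2, neg_mul, hΛneg]
      · rw [Prod.fst_neg, mul_neg (X 1 - X 0) h, hΛneg, ← h3, neg_mul, mul_neg]
        abel
      · rw [Prod.snd_neg, h4]
        ext i j
        fin_cases i <;> fin_cases j <;> simp
    | mul p q _ _ hp hq =>
      obtain ⟨g1, g2, h, h1, h2, h3, h4⟩ := hp
      obtain ⟨g1', g2', h', h1', h2', h3', h4'⟩ := hq
      refine ⟨g1 * g1', g2 * g2', g1 * h' + h * g2', ?_, ?_, ?_, ?_⟩
      · intro u
        rw [Prod.fst_mul, mul_assoc, h1', h1, mul_assoc]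
      · intro u
        rw [Prod.fst_mul, ← mul_assoc, h2, h2', ← mul_assoc, mul_comm g2' g2]
      · have e1 : (p * q).1 * y - y * (p * q).1
            = p.1 * (q.1 * y - y * q.1) + (p.1 * y - y * p.1) * q.1 := by
          rw [Prod.fst_mul, mul_sub, sub_mul]
          simp only [mul_assoc]
          abel
        rw [e1, h3, h3', h1, h2', ← hΛadd]
        congr 2
        ring
      · rw [Prod.snd_mul, h4, h4']
        ext i j
        fin_cases i <;> fin_cases j <;> simp [Matrix.mul_apply, Fin.sum_univ_two]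
  have hG0 : ∀ s, ((0 : R), s) ∈ G → s = 0 := by
    intro s hs
    obtain ⟨g1, g2, h, h1, h2, h3, h4⟩ := hG _ hs
    have e1 : φ g1 = 0 := by
      apply hφ𝔞
      rw [h𝔞]
      have := h1 1
      rw [mul_one] at this
      rw [← this]
      simp
    have e2 : φ g2 = 0 := by
      apply hφ𝔞
      rw [h𝔞]
      have := h2 1
      rw [mul_one] at this
      rw [← this]
      simp
    have e3 : φ h = 0 := by
      have : φ ((X 1 - X 0) * h) = 0 := by
        apply hφ𝔞
        rw [h𝔞, ← h3]
        simp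
      rw [map_mul] at this
      rcases mul_eq_zero.mp this with h5 | h5
      · exact absurd h5 hφb
      · exact h5
    have h4' : s = !![φ g1, φ h; 0, φ g2] := h4
    rw [h4', e1, e2, e3]
    ext i j
    fin_cases i <;> fin_cases j <;> simp
  have hyG : (y, Y0) ∈ G := NonUnitalSubring.subset_closure (by simp)
  have hzG : (z, Z0) ∈ G := NonUnitalSubring.subset_closure (by simp)
  refine ⟨k, inferInstance, inferInstance, G.map (NonUnitalRingHom.snd R _), ?_, ?_, ?_⟩
  · rintro M ⟨p, hp, rfl⟩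
    obtain ⟨g1, g2, h, h1, h2, h3, h4⟩ := hG p hp
    show p.2 1 0 = 0
    rw [h4]
    simp
  · refine ⟨⟨Y0, ⟨(y, Y0), hyG, rfl⟩⟩, ⟨Z0, ⟨(z, Z0), hzG, rfl⟩⟩, ?_⟩
    intro n hn
    have h1 := congrArg (NonUnitalSubringClass.subtype (G.map (NonUnitalRingHom.snd R _))) hn
    rw [← comm_map, map_zero] at h1
    have h2 : comm n Z0 Y0 = 0 := h1
    have h3 : ∀ n, comm n Z0 Y0 = !![0, (φ (X 1 - X 0)) ^ n; 0, 0] := by
      intro n
      induction n with
      | zero => simp [comm, Z0]
      | succ n ih =>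
        show comm n Z0 Y0 * Y0 - Y0 * comm n Z0 Y0 = _
        rw [ih]
        ext i j
        fin_cases i <;> fin_cases j <;> simp [Y0]
        ring
    rw [h3] at h2
    have h4 := congrFun (congrFun h2 0) 1
    simp only [Matrix.of_apply, Matrix.cons_val', Matrix.cons_val_one, Matrix.cons_val_fin_one,
      Matrix.cons_val_zero, Matrix.zero_apply] at h4
    exact pow_ne_zero n hφb h4
  · intro t ht
    exact transfer G hG0 (hR t ht)

end Run7.h51.Eng
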