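import Pool.Agent.Run7.h51.EngDefs

/-!
A simple module of a polynomial ring on which a given non-nilpotent element does not vanish,
and the passage to a dense action over a field.
-/

namespace Run7.h51.Eng

open Polynomial

/-- Every nonunital ring is an ideal of a unital ring. -/
theorem exists_unital (R : Type) [NonUnitalRing R] :
    ∃ (U : Type) (_ : Ring U) (ι : R →ₙ+* U), Function.Injective ι ∧
      (∀ r u, ∃ r', ι r * u = ι r') ∧ (∀ r u, ∃ r', u * ι r = ι r') := by
  refine ⟨Unitization ℤ R, Unitization.instRing,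
    { toFun := fun r => Unitization.inr r
      map_mul' := fun a b => Unitization.inr_mul ℤ a b
      map_zero' := rfl
      map_add' := fun a b => Unitization.inr_add ℤ a b }, ?_, ?_, ?_⟩
  · exact Unitization.inr_injective
  · intro r u
    refine ⟨u.fst • r + r * u.snd, ?_⟩
    show (Unitization.inr r : Unitization ℤ R) * u = Unitization.inr _
    apply Unitization.ext <;> simp [-zsmul_eq_mul]
  · intro r u
    refine ⟨u.fst • r + u.snd * r, ?_⟩
    show u * (Unitization.inr r : Unitization ℤ R) = Unitization.inr _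
    apply Unitization.ext <;> simp [-zsmul_eq_mul]

section simple

variable {R : Type} [NonUnitalRing R] {U : Type} [Ring U] (ι : R →ₙ+* U)

theorem map_iter (ζ v : R) (k : ℕ) :
    ι ((fun u => ζ * u)^[k] v) = (ι ζ) ^ k * ι v := by
  induction k with
  | zero => simp
  | succ k ih =>
    rw [Function.iterate_succ_apply', map_mul, ih, pow_succ', mul_assoc]

theorem map_pow_ne (hι : Function.Injective ι) (ζ : R) (hζ : ∀ k, (fun u => ζ * u)^[k] ζ ≠ 0)
    (k : ℕ) : (ι ζ) ^ k ≠ 0 := by
  intro h
  apply hζ k
  apply hι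
  rw [map_iter, h, zero_mul, map_zero]

theorem not_left_inv (z : U) (hz : ∀ k, z ^ k ≠ 0) (h : U[X]) : h * (1 + X * C z) ≠ 1 := by
  intro hh
  have hX : X * C z = C z * X := X_mul_C z
  have h1 : h + h * C z * X = 1 := by
    rw [mul_add, mul_one, hX, ← mul_assoc] at hh
    exact hh
  have h0 : h.coeff 0 = 1 := by
    have := congrArg (fun p => p.coeff 0) h1
    simpa using this
  have hs : ∀ n, h.coeff (n + 1) = - (h.coeff n * z) := by
    intro n
    have := congrArg (fun p => p.coeff (n + 1)) h1
    simp only [coeff_add, coeff_mul_X, coeff_mul_C, coeff_one] at this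
    simp only [Nat.add_eq_zero_iff, one_ne_zero, and_false, if_false] at this
    exact eq_neg_of_add_eq_zero_left this
  have hn : ∀ n, h.coeff n = (-1) ^ n * z ^ n := by
    intro n
    induction n with
    | zero => simp [h0]
    | succ n ih =>
      rw [hs, ih, mul_assoc, ← pow_succ, pow_succ (-1 : U)]
      simp
  have hne : h.coeff (h.natDegree + 1) ≠ 0 := by
    rw [hn]
    intro h2
    have h3 : z ^ (h.natDegree + 1) = 0 := by
      rcases neg_one_pow_eq_or U (h.natDegree + 1) with h4 | h4
      · rw [h4, one_mul] at h2; exact h2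
      · rw [h4, neg_one_mul, neg_eq_zero] at h2; exact h2
    exact hz _ h3
  exact hne (coeff_eq_zero_of_natDegree_lt (Nat.lt_succ_self _))

/-- A simple module over `U[X]` on which `z` acts nontrivially. -/
theorem exists_simple (z : U) (hz : ∀ k, z ^ k ≠ 0) :
    ∃ (M : Type) (_ : AddCommGroup M) (_ : Module U[X] M),
      IsSimpleModule U[X] M ∧ ∃ m : M, (C z : U[X]) • m ≠ 0 := by
  have hne : Ideal.span {1 + X * C z} ≠ ⊤ := by
    intro h
    have h1 : (1 : U[X]) ∈ Ideal.span {1 + X * C z} := by rw [h]; trivial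
    rw [Ideal.mem_span_singleton'] at h1
    obtain ⟨a, ha⟩ := h1
    exact not_left_inv z hz a ha
  obtain ⟨L, hL, hle⟩ := Ideal.exists_le_maximal _ hne
  refine ⟨U[X] ⧸ (L : Submodule U[X] U[X]),
    inferInstance, inferInstance, isSimpleModule_iff_isCoatom.mpr hL.out,
    Submodule.Quotient.mk 1, ?_⟩
  intro h
  rw [← Submodule.Quotient.mk_smul, Submodule.Quotient.mk_eq_zero, smul_eq_mul, mul_one] at h
  apply hL.ne_top
  rw [Ideal.eq_top_iff_one]
  have h1 : 1 + X * C z ∈ L := hle (Ideal.subset_span rfl)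
  have h2 : X * C z ∈ L := L.mul_mem_left _ h
  have := L.sub_mem h1 h2
  rwa [add_sub_cancel_right] at this

end simple

/-- The simple module gives a dense action over a field. -/
theorem exists_dense {R : Type} [NonUnitalRing R] {U : Type} [Ring U] (ι : R →ₙ+* U)
    (hr : ∀ r u, ∃ r', ι r * u = ι r') (hl : ∀ r u, ∃ r', u * ι r = ι r')
    (M : Type) [AddCommGroup M] [Module U[X] M] [IsSimpleModule U[X] M] (ζ : R) (m₀ : M)
    (hm₀ : (C (ι ζ) : U[X]) • m₀ ≠ 0) :
    ∃ (K : Type) (_ : Field K) (_ : Module K M) (ρ : R →ₙ+* Module.End K M),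
      (∀ r m, ρ r m = (C (ι r) : U[X]) • m) ∧
      ∀ (d : ℕ) (v : Fin d → M), LinearIndependent K v → ∀ (i : Fin d) (u : M),
        ∃ e ∈ Submodule.span K (Set.range ρ), (∀ j, j ≠ i → e (v j) = 0) ∧ e (v i) = u := by
  classical
  let a : U[X] →+* AddMonoid.End M := Module.toAddMonoidEnd U[X] M
  have ha : ∀ f m, a f m = f • m := fun _ _ => rfl
  obtain ⟨S, hS⟩ := zorn_subset {S : Set (AddMonoid.End M) |
      (∀ s ∈ S, ∀ f, s * a f = a f * s) ∧ ∀ s ∈ S, ∀ t ∈ S, s * t = t * s} (by
    intro c hc hchain
    refine ⟨⋃₀ c, ⟨?_, ?_⟩, fun s hs => Set.subset_sUnion_of_mem hs⟩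
    · rintro s ⟨A, hA, hs⟩ f
      exact (hc hA).1 s hs f
    · rintro s ⟨A, hA, hs⟩ t ⟨B, hB, ht⟩
      rcases hchain.total hA hB with h | h
      · exact (hc hB).2 s (h hs) t ht
      · exact (hc hA).2 s hs t (h ht))
  have hSa : ∀ s ∈ S, ∀ f, s * a f = a f * s := hS.prop.1
  have hSS : ∀ s ∈ S, ∀ t ∈ S, s * t = t * s := hS.prop.2
  have hmax : ∀ δ : AddMonoid.End M, (∀ f, δ * a f = a f * δ) → (∀ s ∈ S, δ * s = s * δ) →
      δ ∈ S := by
    intro δ h1 h2
    have h3 : insert δ S ∈ {S : Set (AddMonoid.End M) |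
        (∀ s ∈ S, ∀ f, s * a f = a f * s) ∧ ∀ s ∈ S, ∀ t ∈ S, s * t = t * s} := by
      refine ⟨?_, ?_⟩
      · rintro s (rfl | hs) f
        · exact h1 f
        · exact hSa s hs f
      · rintro s (rfl | hs) t (rfl | ht)
        · rfl
        · exact h2 t ht
        · exact (h2 s hs).symm
        · exact hSS s hs t ht
    exact hS.le_of_ge h3 (Set.subset_insert δ S) (Set.mem_insert δ S)
  have hS1 : (1 : AddMonoid.End M) ∈ S := hmax 1 (fun f => by rw [one_mul, mul_one])
    (fun s _ => by rw [one_mul, mul_one])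
  have hSmul : ∀ s ∈ S, ∀ t ∈ S, s * t ∈ S := by
    intro s hs t ht
    apply hmax
    · intro f
      rw [mul_assoc, hSa t ht f, ← mul_assoc, hSa s hs f, mul_assoc]
    · intro s' hs'
      rw [mul_assoc, hSS t ht s' hs', ← mul_assoc, hSS s hs s' hs', mul_assoc]
  have hSX : ∀ n : ℕ, a (X ^ n) ∈ S := by
    intro n
    apply hmax
    · intro f
      rw [← map_mul, ← map_mul, X_pow_mul]
    · intro s hs
      rw [hSa s hs]
  let T₀ : AddSubgroup (AddMonoid.End M) :=
    AddSubgroup.closure {e | ∃ r : R, ∃ s ∈ S, e = a (C (ι r)) * s}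
  have hgen : ∀ r, ∀ s ∈ S, a (C (ι r)) * s ∈ T₀ := fun r s hs =>
    AddSubgroup.subset_closure ⟨r, s, hs, rfl⟩
  have hT0S : ∀ e ∈ T₀, ∀ s ∈ S, e * s ∈ T₀ := by
    intro e he s hs
    induction he using AddSubgroup.closure_induction with
    | mem e he =>
      obtain ⟨r, s', hs', rfl⟩ := he
      rw [mul_assoc]
      exact hgen r _ (hSmul s' hs' s hs)
    | zero => rw [zero_mul]; exact T₀.zero_mem
    | add x y _ _ hx hy => rw [add_mul]; exact T₀.add_mem hx hy
    | neg x _ hx => rw [neg_mul]; exact T₀.neg_mem hx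
  have hra : ∀ r f, a (C (ι r)) * a f ∈ T₀ := by
    intro r f
    induction f using Polynomial.induction_on' with
    | add p q hp hq => rw [map_add, mul_add]; exact T₀.add_mem hp hq
    | monomial n u =>
      obtain ⟨r', hr'⟩ := hr r u
      rw [← map_mul, ← C_mul_X_pow_eq_monomial, ← mul_assoc, ← C_mul, hr', map_mul]
      exact hgen r' _ (hSX n)
  have har : ∀ r f, a f * a (C (ι r)) ∈ T₀ := by
    intro r f
    induction f using Polynomial.induction_on' with
    | add p q hp hq => rw [map_add, add_mul]; exact T₀.add_mem hp hq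
    | monomial n u =>
      obtain ⟨r', hr'⟩ := hl r u
      rw [← map_mul, ← C_mul_X_pow_eq_monomial, mul_assoc, X_pow_mul, ← mul_assoc, ← C_mul, hr',
        map_mul]
      exact hgen r' _ (hSX n)
  have hT0a : ∀ e ∈ T₀, ∀ f, e * a f ∈ T₀ := by
    intro e he f
    induction he using AddSubgroup.closure_induction with
    | mem e he =>
      obtain ⟨r, s, hs, rfl⟩ := he
      rw [mul_assoc, hSa s hs f, ← mul_assoc]
      exact hT0S _ (hra r f) s hs
    | zero => rw [zero_mul]; exact T₀.zero_mem
    | add x y _ _ hx hy => rw [add_mul]; exact T₀.add_mem hx hy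
    | neg x _ hx => rw [neg_mul]; exact T₀.neg_mem hx
  have haT0 : ∀ f, ∀ e ∈ T₀, a f * e ∈ T₀ := by
    intro f e he
    induction he using AddSubgroup.closure_induction with
    | mem e he =>
      obtain ⟨r, s, hs, rfl⟩ := he
      rw [← mul_assoc]
      exact hT0S _ (har r f) s hs
    | zero => rw [mul_zero]; exact T₀.zero_mem
    | add x y _ _ hx hy => rw [mul_add]; exact T₀.add_mem hx hy
    | neg x _ hx => rw [mul_neg]; exact T₀.neg_mem hx
  let T₁ : Subring (AddMonoid.End M) :=
    { carrier := {τ | (∀ s ∈ S, τ * s = s * τ) ∧ ∀ e ∈ T₀, e * τ ∈ T₀}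
      mul_mem' := by
        rintro τ σ ⟨h1, h2⟩ ⟨h3, h4⟩
        refine ⟨?_, ?_⟩
        · intro s hs
          rw [mul_assoc, h3 s hs, ← mul_assoc, h1 s hs, mul_assoc]
        · intro e he
          rw [← mul_assoc]
          exact h4 _ (h2 e he)
      one_mem' := ⟨fun s _ => by rw [one_mul, mul_one], fun e he => by rwa [mul_one]⟩
      add_mem' := by
        rintro τ σ ⟨h1, h2⟩ ⟨h3, h4⟩
        refine ⟨?_, ?_⟩
        · intro s hs
          rw [add_mul, mul_add, h1 s hs, h3 s hs]
        · intro e he
          rw [mul_add]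
          exact T₀.add_mem (h2 e he) (h4 e he)
      zero_mem' := ⟨fun s _ => by rw [zero_mul, mul_zero],
        fun e he => by rw [mul_zero]; exact T₀.zero_mem⟩
      neg_mem' := by
        rintro τ ⟨h1, h2⟩
        refine ⟨?_, ?_⟩
        · intro s hs
          rw [neg_mul, mul_neg, h1 s hs]
        · intro e he
          rw [mul_neg]
          exact T₀.neg_mem (h2 e he) }
  have haT1 : ∀ f, a f ∈ T₁ := fun f => ⟨fun s hs => (hSa s hs f).symm, fun e he => hT0a e he f⟩
  have hST1 : ∀ s ∈ S, s ∈ T₁ := fun s hs => ⟨fun t ht => hSS s hs t ht,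
    fun e he => hT0S e he s hs⟩
  have hsm : ∀ (τ : T₁) (m : M), τ • m = (τ : AddMonoid.End M) m := fun _ _ => rfl
  have hnt : Nontrivial M := IsSimpleModule.nontrivial U[X] M
  have hsub : ∀ N : AddSubgroup M, (∀ f m, m ∈ N → a f m ∈ N) → N = ⊥ ∨ N = ⊤ := by
    intro N hN
    let N' : Submodule U[X] M := { N with smul_mem' := fun f m hm => hN f m hm }
    rcases eq_bot_or_eq_top N' with h | h
    · left
      rw [AddSubgroup.eq_bot_iff_forall]
      intro x hx
      have : x ∈ N' := hx
      rw [h] at this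
      simpa using this
    · right
      rw [AddSubgroup.eq_top_iff']
      intro x
      have : x ∈ N' := by rw [h]; trivial
      exact this
  have hsimple : IsSimpleModule T₁ M := by
    have h1 : IsSimpleOrder (Submodule T₁ M) :=
      { exists_pair_ne := exists_pair_ne _
        eq_bot_or_eq_top := by
          intro N
          rcases hsub N.toAddSubgroup (fun f m hm => N.smul_mem ⟨a f, haT1 f⟩ hm) with h | h
          · left
            rw [Submodule.eq_bot_iff]
            intro x hx
            have : x ∈ N.toAddSubgroup := hx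
            rw [h] at this
            simpa using this
          · right
            rw [Submodule.eq_top_iff']
            intro x
            have : x ∈ N.toAddSubgroup := by rw [h]; trivial
            exact this }
    exact { toIsSimpleOrder := h1 }
  have hKS : ∀ δ : Module.End T₁ M, (δ.toAddMonoidHom : AddMonoid.End M) ∈ S := by
    intro δ
    apply hmax
    · intro f
      ext m
      exact δ.map_smul ⟨a f, haT1 f⟩ m
    · intro s hs
      ext m
      exact δ.map_smul ⟨s, hST1 s hs⟩ m
  have hSK : ∀ s ∈ S, ∃ δ : Module.End T₁ M, ∀ m, δ m = s m := by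
    intro s hs
    refine ⟨{ toFun := s, map_add' := map_add s, map_smul' := ?_ }, fun _ => rfl⟩
    intro τ m
    have := τ.2.1 s hs
    exact (DFunLike.congr_fun this m).symm
  have hcomm : ∀ δ δ' : Module.End T₁ M, δ * δ' = δ' * δ := by
    intro δ δ'
    ext m
    exact DFunLike.congr_fun (hSS _ (hKS δ) _ (hKS δ')) m
  let instF : Field (Module.End T₁ M) :=
    { (inferInstance : DivisionRing (Module.End T₁ M)) with mul_comm := hcomm }
  let ρ : R →ₙ+* Module.End (Module.End T₁ M) M :=
    { toFun := fun r =>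
        { toFun := fun m => a (C (ι r)) m
          map_add' := map_add _
          map_smul' := fun δ m => by
            have := hSa _ (hKS δ) (C (ι r))
            exact (DFunLike.congr_fun this m).symm }
      map_mul' := fun r s => by
        ext m
        show a (C (ι (r * s))) m = a (C (ι r)) (a (C (ι s)) m)
        rw [map_mul, C_mul, map_mul]
        rfl
      map_zero' := by
        ext m
        show a (C (ι 0)) m = 0
        rw [map_zero, map_zero, map_zero]
        rfl
      map_add' := fun r s => by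
        ext m
        show a (C (ι (r + s))) m = a (C (ι r)) m + a (C (ι s)) m
        rw [map_add, map_add, map_add]
        rfl }
  refine ⟨Module.End T₁ M, instF, inferInstance, ρ, fun r m => rfl, ?_⟩
  intro d v hv i u
  -- T₀ v_i = M
  have hvi : v i ≠ 0 := hv.ne_zero i
  have hZ : ∀ m : M, (∀ e ∈ T₀, e m = 0) → m = 0 := by
    intro m hm
    let Z : AddSubgroup M :=
      { carrier := {m | ∀ e ∈ T₀, e m = 0}
        add_mem' := by
          intro x y hx hy e he
          rw [map_add, hx e he, hy e he, add_zero]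
        zero_mem' := fun e _ => map_zero e
        neg_mem' := by
          intro x hx e he
          rw [map_neg, hx e he, neg_zero] }
    rcases hsub Z (fun f x hx e he => hx _ (hT0a e he f)) with h | h
    · have : m ∈ Z := hm
      rw [h] at this
      simpa using this
    · exfalso
      have h1 : m₀ ∈ Z := by rw [h]; trivial
      apply hm₀
      have h2 := h1 _ (hgen ζ 1 hS1)
      rw [mul_one] at h2
      exact h2
  have hT0v : ∃ e' ∈ T₀, e' (v i) = u := by
    let N : AddSubgroup M :=
      { carrier := {m | ∃ e ∈ T₀, e (v i) = m}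
        add_mem' := by
          rintro x y ⟨e, he, rfl⟩ ⟨e', he', rfl⟩
          exact ⟨e + e', T₀.add_mem he he', rfl⟩
        zero_mem' := ⟨0, T₀.zero_mem, rfl⟩
        neg_mem' := by
          rintro x ⟨e, he, rfl⟩
          exact ⟨-e, T₀.neg_mem he, rfl⟩ }
    rcases hsub N (by
      rintro f x ⟨e, he, rfl⟩
      exact ⟨a f * e, haT0 f e he, rfl⟩) with h | h
    · exfalso
      apply hvi
      apply hZ
      intro e he
      have : e (v i) ∈ N := ⟨e, he, rfl⟩
      rw [h] at this
      simpa using this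
    · have : u ∈ N := by rw [h]; trivial
      exact this
  obtain ⟨e', he', he'u⟩ := hT0v
  -- a linear map
  obtain ⟨f, hf⟩ := LinearMap.exists_extend ((Module.Basis.span hv).constr (Module.End T₁ M)
    (fun j => if j = i then v i else 0))
  have hfv : ∀ j, f (v j) = if j = i then v i else 0 := by
    intro j
    have h1 := DFunLike.congr_fun hf (Module.Basis.span hv j)
    rw [Module.Basis.constr_basis] at h1
    rw [← h1]
    show f (v j) = f ((Module.Basis.span hv j : Submodule.span _ (Set.range v)) : M)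
    rw [Module.Basis.span_apply]
  obtain ⟨τ, hτ⟩ := jacobson_density (R := T₁) (M := M) f (Finset.univ.image v)
  have hτv : ∀ j, (τ : AddMonoid.End M) (v j) = if j = i then v i else 0 := by
    intro j
    have := hτ (v j) (Finset.mem_image_of_mem v (Finset.mem_univ j))
    rw [hfv] at this
    exact this.symm
  have hspan : ∀ e ∈ T₀, ∃ e₁ ∈ Submodule.span (Module.End T₁ M) (Set.range ρ), ∀ m, e₁ m = e m := by
    intro e he
    induction he using AddSubgroup.closure_induction with
    | mem e he =>
      obtain ⟨r, s, hs, rfl⟩ := he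
      obtain ⟨δ, hδ⟩ := hSK s hs
      refine ⟨δ • ρ r, Submodule.smul_mem _ _ (Submodule.subset_span ⟨r, rfl⟩), ?_⟩
      intro m
      show δ (a (C (ι r)) m) = a (C (ι r)) (s m)
      rw [hδ]
      exact DFunLike.congr_fun (hSa s hs (C (ι r))) m
    | zero => exact ⟨0, Submodule.zero_mem _, fun m => rfl⟩
    | add x y _ _ hx hy =>
      obtain ⟨x', hx', hx''⟩ := hx
      obtain ⟨y', hy', hy''⟩ := hy
      refine ⟨x' + y', Submodule.add_mem _ hx' hy', fun m => ?_⟩
      show x' m + y' m = x m + y m
      rw [hx'', hy'']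
    | neg x _ hx =>
      obtain ⟨x', hx', hx''⟩ := hx
      refine ⟨-x', Submodule.neg_mem _ hx', fun m => ?_⟩
      show - x' m = - x m
      rw [hx'']
  obtain ⟨e₁, he₁, he₁'⟩ := hspan (e' * (τ : AddMonoid.End M)) (τ.2.2 e' he')
  refine ⟨e₁, he₁, ?_, ?_⟩
  · intro j hj
    rw [he₁']
    show e' ((τ : AddMonoid.End M) (v j)) = 0
    rw [hτv, if_neg hj, map_zero]
  · rw [he₁']
    show e' ((τ : AddMonoid.End M) (v i)) = u
    rw [hτv, if_pos rfl, he'u]

end Run7.h51.Eng
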