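import Pool.Agent.Run7.h51.EngDefs

/-!
Noncommutative polynomials attached to ring terms, their multilinearisation by inclusion and
exclusion, and the dimension bound for dense actions satisfying an identity.
-/

namespace Run7.h51.Eng

open Finset

section ML

variable {K : Type} [Field K] {E : Type} [Ring E] [Algebra K E] {d : ℕ} (lab : Fin d → ℕ)

/-- The multilinear part of a word, with variables indexed by the set `J`. -/
def ML (y : Fin d → E) : List ℕ → Finset (Fin d) → E
  | [], J => if J = ∅ then 1 else 0
  | a :: w, J => ∑ j ∈ J, if lab j = a then y j * ML y w (J.erase j) else 0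

/-- The value of the variable `a` at the subset `T`. -/
def VT (y : Fin d → E) (T : Finset (Fin d)) (a : ℕ) : E := ∑ j ∈ T, if lab j = a then y j else 0

/-- The alternating sum over subsets of `J`. -/
def DL (y : Fin d → E) (w : List ℕ) (J : Finset (Fin d)) : E :=
  ∑ T ∈ J.powerset, (-1 : ℤ) ^ T.card • (w.map (VT lab y T)).prod

theorem ML_eq_zero (y : Fin d → E) (w : List ℕ) : ∀ J : Finset (Fin d), w.length < J.card →
    ML lab y w J = 0 := by
  induction w with
  | nil =>
    intro J hJ
    have : J ≠ ∅ := by rintro rfl; simp at hJ
    simp [ML, this]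
  | cons a w ih =>
    intro J hJ
    show ∑ j ∈ J, _ = _
    apply Finset.sum_eq_zero
    intro j hj
    rw [ih (J.erase j) (by
      rw [Finset.card_erase_of_mem hj]
      simp only [List.length_cons] at hJ
      omega), mul_zero, ite_self]

theorem DL_cons (y : Fin d → E) (a : ℕ) (w : List ℕ) (J : Finset (Fin d)) :
    DL lab y (a :: w) J =
      ∑ j ∈ J, if lab j = a then y j * (DL lab y w J - DL lab y w (J.erase j)) else 0 := by
  have h1 : ∀ j ∈ J, DL lab y w J - DL lab y w (J.erase j)
      = ∑ T ∈ J.powerset, if j ∈ T then (-1 : ℤ) ^ T.card • (w.map (VT lab y T)).prod else 0 := by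
    intro j hj
    unfold DL
    rw [← Finset.sum_filter, sub_eq_iff_eq_add]
    rw [← Finset.sum_filter_add_sum_filter_not J.powerset (fun T => j ∈ T)]
    congr 1
    apply Finset.sum_congr _ (fun _ _ => rfl)
    ext T
    simp only [mem_filter, mem_powerset, Finset.subset_erase]
  have h2 : DL lab y (a :: w) J = ∑ T ∈ J.powerset, ∑ j ∈ J,
      if j ∈ T ∧ lab j = a then (-1 : ℤ) ^ T.card • (y j * (w.map (VT lab y T)).prod) else 0 := by
    unfold DL
    apply Finset.sum_congr rfl
    intro T hT
    rw [mem_powerset] at hT
    rw [List.map_cons, List.prod_cons]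
    have : VT lab y T a = ∑ j ∈ J, if j ∈ T ∧ lab j = a then y j else 0 := by
      unfold VT
      rw [← Finset.sum_filter, ← Finset.sum_filter]
      apply Finset.sum_congr _ (fun _ _ => rfl)
      ext j
      simp only [mem_filter]
      constructor
      · rintro ⟨h, h'⟩; exact ⟨hT h, h, h'⟩
      · rintro ⟨_, h, h'⟩; exact ⟨h, h'⟩
    rw [this, Finset.sum_mul, Finset.smul_sum]
    apply Finset.sum_congr rfl
    intro j _
    split_ifs <;> simp
  rw [h2, Finset.sum_comm]
  apply Finset.sum_congr rfl
  intro j hj
  rw [h1 j hj]
  split_ifs with hlab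
  · rw [Finset.mul_sum]
    apply Finset.sum_congr rfl
    intro T _
    by_cases hT : j ∈ T
    · rw [if_pos ⟨hT, hlab⟩, if_pos hT, mul_smul_comm]
    · simp [hT]
  · apply Finset.sum_eq_zero
    intro T _
    simp [hlab]

theorem DL_eq_ML (y : Fin d → E) (w : List ℕ) : ∀ J : Finset (Fin d), w.length ≤ J.card →
    DL lab y w J = (-1 : ℤ) ^ J.card • ML lab y w J := by
  induction w with
  | nil =>
    intro J _
    unfold DL
    simp only [List.map_nil, List.prod_nil, ML]
    rw [← Finset.sum_smul, Finset.sum_powerset_neg_one_pow_card]
    by_cases hJ : J = ∅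
    · subst hJ; simp
    · simp [hJ]
  | cons a w ih =>
    intro J hJ
    simp only [List.length_cons] at hJ
    rw [DL_cons]
    show _ = _ • ∑ j ∈ J, _
    rw [Finset.smul_sum]
    apply Finset.sum_congr rfl
    intro j hj
    have hc : (J.erase j).card = J.card - 1 := Finset.card_erase_of_mem hj
    rw [ih J (by omega), ih (J.erase j) (by omega), ML_eq_zero lab y w J (by omega), smul_zero,
      zero_sub]
    obtain ⟨c, hc'⟩ : ∃ c, J.card = c + 1 := ⟨J.card - 1, by omega⟩
    rw [hc, hc', Nat.add_sub_cancel, pow_succ]
    split_ifs
    · rw [mul_neg, mul_smul_comm, mul_neg_one, neg_smul]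
    · simp

theorem ML_update_not_mem (y : Fin d → E) (j₀ : Fin d) (b : E) (w : List ℕ) :
    ∀ J : Finset (Fin d), j₀ ∉ J → ML lab (Function.update y j₀ b) w J = ML lab y w J := by
  induction w with
  | nil => intro J _; rfl
  | cons a w ih =>
    intro J hJ
    show ∑ j ∈ J, _ = ∑ j ∈ J, _
    apply Finset.sum_congr rfl
    intro j hj
    have hne : j ≠ j₀ := by rintro rfl; exact hJ hj
    rw [ih (J.erase j) (by
      intro h
      exact hJ (Finset.mem_of_mem_erase h)), Function.update_of_ne hne]

theorem ML_update_add (y : Fin d → E) (j₀ : Fin d) (b c : E) (w : List ℕ) :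
    ∀ J : Finset (Fin d), j₀ ∈ J → ML lab (Function.update y j₀ (b + c)) w J
      = ML lab (Function.update y j₀ b) w J + ML lab (Function.update y j₀ c) w J := by
  induction w with
  | nil =>
    intro J hJ
    have : J ≠ ∅ := by rintro rfl; simp at hJ
    simp [ML, this]
  | cons a w ih =>
    intro J hJ
    show ∑ j ∈ J, _ = ∑ j ∈ J, _ + ∑ j ∈ J, _
    rw [← Finset.sum_add_distrib]
    apply Finset.sum_congr rfl
    intro j hj
    by_cases hlab : lab j = a
    · simp only [hlab, if_true]
      by_cases hjj : j = j₀
      · subst hjj
        rw [ML_update_not_mem lab y j _ w _ (Finset.notMem_erase _ _),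
          ML_update_not_mem lab y j _ w _ (Finset.notMem_erase _ _),
          ML_update_not_mem lab y j _ w _ (Finset.notMem_erase _ _)]
        simp only [Function.update_self]
        rw [add_mul]
      · rw [ih (J.erase j) (Finset.mem_erase.mpr ⟨Ne.symm hjj, hJ⟩)]
        simp only [Function.update_of_ne hjj]
        rw [mul_add]
    · simp [hlab]

theorem ML_update_smul (y : Fin d → E) (j₀ : Fin d) (s : K) (b : E) (w : List ℕ) :
    ∀ J : Finset (Fin d), j₀ ∈ J → ML lab (Function.update y j₀ (s • b)) w J
      = s • ML lab (Function.update y j₀ b) w J := by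
  induction w with
  | nil =>
    intro J hJ
    have : J ≠ ∅ := by rintro rfl; simp at hJ
    simp [ML, this]
  | cons a w ih =>
    intro J hJ
    show ∑ j ∈ J, _ = s • ∑ j ∈ J, _
    rw [Finset.smul_sum]
    apply Finset.sum_congr rfl
    intro j hj
    by_cases hlab : lab j = a
    · simp only [hlab, if_true]
      by_cases hjj : j = j₀
      · subst hjj
        rw [ML_update_not_mem lab y j _ w _ (Finset.notMem_erase _ _),
          ML_update_not_mem lab y j _ w _ (Finset.notMem_erase _ _)]
        simp only [Function.update_self]
        rw [smul_mul_assoc]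
      · rw [ih (J.erase j) (Finset.mem_erase.mpr ⟨Ne.symm hjj, hJ⟩)]
        simp only [Function.update_of_ne hjj]
        rw [mul_smul_comm]
    · simp [hlab]

end ML

/-! ### Polynomials of terms -/

/-- The noncommutative polynomial of a ring term, with coefficients in `κ`. -/
noncomputable def tp (κ : Type) [CommRing κ] (t : RTerm) : MonoidAlgebra κ (FreeMonoid ℕ) :=
  t.eval fun n => MonoidAlgebra.of κ (FreeMonoid ℕ) (FreeMonoid.of n)

theorem eval_eq_lift {κ : Type} [CommRing κ] {E : Type} [Ring E] [Algebra κ E] (v : ℕ → E)
    (t : RTerm) : t.eval v = MonoidAlgebra.lift κ E (FreeMonoid ℕ) (FreeMonoid.lift v) (tp κ t) := by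
  have h := eval_map ((MonoidAlgebra.lift κ E (FreeMonoid ℕ) (FreeMonoid.lift v) :
    MonoidAlgebra κ (FreeMonoid ℕ) →ₐ[κ] E) : MonoidAlgebra κ (FreeMonoid ℕ) →ₙ+* E)
    (fun n => MonoidAlgebra.of κ (FreeMonoid ℕ) (FreeMonoid.of n)) t
  have e : (fun n => ((MonoidAlgebra.lift κ E (FreeMonoid ℕ) (FreeMonoid.lift v) :
    MonoidAlgebra κ (FreeMonoid ℕ) →ₐ[κ] E) : MonoidAlgebra κ (FreeMonoid ℕ) →ₙ+* E)
      (MonoidAlgebra.of κ (FreeMonoid ℕ) (FreeMonoid.of n))) = v := by
    funext n
    show MonoidAlgebra.lift κ E (FreeMonoid ℕ) (FreeMonoid.lift v) _ = _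
    rw [MonoidAlgebra.lift_of, FreeMonoid.lift_eval_of]
  rw [e] at h
  exact h

theorem eval_eq_sum {κ : Type} [CommRing κ] {E : Type} [Ring E] [Algebra κ E] (v : ℕ → E)
    (t : RTerm) : t.eval v = ∑ w ∈ (tp κ t).coeff.support,
      (tp κ t).coeff w • ((FreeMonoid.toList w).map v).prod := by
  rw [eval_eq_lift (κ := κ), MonoidAlgebra.lift_apply, Finsupp.sum]
  apply Finset.sum_congr rfl
  intro w _
  rw [FreeMonoid.lift_apply]

/-- The degree of a ring term. -/
def RTerm.deg : RTerm → ℕ
  | .var _ => 1
  | .zero => 0
  | .neg t => RTerm.deg t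
  | .add s t => max (RTerm.deg s) (RTerm.deg t)
  | .mul s t => RTerm.deg s + RTerm.deg t

theorem length_le_deg (κ : Type) [CommRing κ] (t : RTerm) :
    ∀ w ∈ (tp κ t).coeff.support, (FreeMonoid.toList w).length ≤ t.deg := by
  classical
  induction t with
  | var n =>
    intro w hw
    have h1 : (tp κ (RTerm.var n)) = MonoidAlgebra.single (FreeMonoid.of n) 1 := rfl
    rw [h1, MonoidAlgebra.coeff_single] at hw
    have h2 := Finsupp.support_single_subset hw
    rw [Finset.mem_singleton] at h2
    subst h2
    simp [RTerm.deg]
  | zero =>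
    intro w hw
    have h1 : (tp κ RTerm.zero) = 0 := rfl
    rw [h1] at hw
    simp at hw
  | neg t ih =>
    intro w hw
    have h1 : tp κ (RTerm.neg t) = - tp κ t := rfl
    rw [h1] at hw
    apply ih
    simpa using hw
  | add s t ihs iht =>
    intro w hw
    have h1 : tp κ (RTerm.add s t) = tp κ s + tp κ t := rfl
    rw [h1, MonoidAlgebra.coeff_add] at hw
    have h2 := Finsupp.support_add hw
    rw [Finset.mem_union] at h2
    rcases h2 with h | h
    · exact (ihs w h).trans (le_max_left _ _)
    · exact (iht w h).trans (le_max_right _ _)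
  | mul s t ihs iht =>
    intro w hw
    have h1 : tp κ (RTerm.mul s t) = tp κ s * tp κ t := rfl
    rw [h1] at hw
    have h2 := MonoidAlgebra.support_coeff_mul_subset _ _ hw
    obtain ⟨a, ha, b, hb, rfl⟩ := Finset.mem_mul.mp h2
    have h3 := ihs a ha
    have h4 := iht b hb
    rw [FreeMonoid.toList_mul, List.length_append]
    show _ ≤ s.deg + t.deg
    omega

theorem eval_zero_val {E : Type} [NonUnitalRing E] (t : RTerm) :
    t.eval (fun _ => (0 : E)) = 0 := by
  induction t with
  | var n => rfl
  | zero => rfl
  | neg t ih => simp [RTerm.eval, ih]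
  | add s t ihs iht => simp [RTerm.eval, ihs, iht]
  | mul s t ihs iht => simp [RTerm.eval, ihs, iht]

/-- the constant coefficient vanishes -/
theorem one_not_mem_support (κ : Type) [CommRing κ] (t : RTerm) :
    (1 : FreeMonoid ℕ) ∉ (tp κ t).coeff.support := by
  intro h
  have h1 := eval_eq_sum (κ := κ) (fun _ : ℕ => (0 : κ)) t
  rw [eval_zero_val, Finset.sum_eq_single_of_mem 1 h] at h1
  · simp at h1
    rw [Finsupp.mem_support_iff] at h
    exact h h1.symm
  · intro w hw hne
    have : FreeMonoid.toList w ≠ [] := by
      intro h0
      apply hne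
      exact FreeMonoid.toList.injective h0
    obtain ⟨a, l, hl⟩ := List.exists_cons_of_ne_nil this
    rw [hl]
    simp

/-! ### Evaluation along a chain of vectors -/

theorem ML_chain {K : Type} [Field K] {M : Type} [AddCommGroup M] [Module K M] (W : List ℕ)
    (u : ℕ → M) (e : Fin W.length → Module.End K M)
    (h1 : ∀ j : Fin W.length, e j (u j) = u (j + 1))
    (h2 : ∀ (j : Fin W.length) (l : ℕ), l < W.length → l ≠ j → e j (u l) = 0)
    (w : List ℕ) : ∀ J : Finset (Fin W.length), w.length = J.card →
      (ML (fun j => W.get j) e w J) (u 0) =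
        if J = Finset.univ.filter (fun j : Fin W.length => (j : ℕ) < w.length) ∧
          w = (W.take w.length).reverse then u w.length else 0 := by
  induction w with
  | nil =>
    intro J hJ
    have hJ0 : J = ∅ := by
      rw [← Finset.card_eq_zero]; exact hJ.symm
    subst hJ0
    simp [ML]
  | cons a w ih =>
    intro J hJ
    simp only [List.length_cons] at hJ
    have hcard : J.card ≤ W.length := by
      have := Finset.card_le_univ J
      rwa [Fintype.card_fin] at this
    have hl : w.length < W.length := by omega
    set jl : Fin W.length := ⟨w.length, hl⟩ with hjl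
    have hterm : ∀ j ∈ J, (if W.get j = a then e j * ML (fun j => W.get j) e w (J.erase j)
        else (0 : Module.End K M)) (u 0) = if j = jl then
          (if W.get jl = a ∧ J.erase jl = Finset.univ.filter
            (fun j : Fin W.length => (j : ℕ) < w.length) ∧
            w = (W.take w.length).reverse then u (w.length + 1) else 0) else 0 := by
      intro j hj
      have hc : w.length = (J.erase j).card := by
        rw [Finset.card_erase_of_mem hj]; omega
      have ihj := ih (J.erase j) hc
      by_cases ha : W.get j = a
      · rw [if_pos ha]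
        show e j ((ML (fun j => W.get j) e w (J.erase j)) (u 0)) = _
        rw [ihj]
        by_cases hcond : J.erase j = Finset.univ.filter
            (fun j : Fin W.length => (j : ℕ) < w.length) ∧ w = (W.take w.length).reverse
        · rw [if_pos hcond]
          by_cases hjj : j = jl
          · subst hjj
            rw [if_pos rfl, if_pos ⟨ha, hcond.1, hcond.2⟩]
            exact h1 jl
          · rw [if_neg hjj]
            apply h2 j _ hl
            intro h
            apply hjj
            apply Fin.ext
            exact h.symm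
        · rw [if_neg hcond, map_zero]
          by_cases hjj : j = jl
          · subst hjj
            rw [if_pos rfl, if_neg]
            rintro ⟨_, h3, h4⟩
            exact hcond ⟨h3, h4⟩
          · rw [if_neg hjj]
      · rw [if_neg ha]
        by_cases hjj : j = jl
        · subst hjj
          rw [if_pos rfl, if_neg]
          · rfl
          rintro ⟨h3, _⟩
          exact ha h3
        · rw [if_neg hjj]; rfl
    show (∑ j ∈ J, if W.get j = a then e j * ML (fun j => W.get j) e w (J.erase j) else 0) (u 0) = _
    rw [LinearMap.sum_apply, Finset.sum_congr rfl hterm, Finset.sum_ite_eq']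
    have htake : (W.take (w.length + 1)).reverse = W.get jl :: (W.take w.length).reverse := by
      rw [List.take_succ_eq_append_getElem hl, List.reverse_append]
      rfl
    have hiff : (jl ∈ J ∧ (W.get jl = a ∧ J.erase jl = Finset.univ.filter
            (fun j : Fin W.length => (j : ℕ) < w.length) ∧ w = (W.take w.length).reverse)) ↔
        (J = Finset.univ.filter (fun j : Fin W.length => (j : ℕ) < (a :: w).length) ∧
          (a :: w) = (W.take (a :: w).length).reverse) := by
      simp only [List.length_cons]
      rw [htake]
      constructor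
      · rintro ⟨h3, h4, h5, h6⟩
        refine ⟨?_, ?_⟩
        · rw [← Finset.insert_erase h3, h5]
          ext j
          simp only [Finset.mem_insert, Finset.mem_filter, Finset.mem_univ, true_and, hjl,
            Fin.ext_iff]
          omega
        · rw [h4, ← h6]
      · rintro ⟨h3, h4⟩
        rw [List.cons.injEq] at h4
        refine ⟨?_, h4.1.symm, ?_, h4.2⟩
        · rw [h3]
          simp [hjl]
        · rw [h3]
          ext j
          simp only [Finset.mem_erase, Finset.mem_filter, Finset.mem_univ, true_and, hjl,
            Fin.ext_iff, ne_eq]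
          omega
    by_cases hA : jl ∈ J
    · rw [if_pos hA]
      by_cases hB : (W.get jl = a ∧ J.erase jl = Finset.univ.filter
            (fun j : Fin W.length => (j : ℕ) < w.length) ∧ w = (W.take w.length).reverse)
      · rw [if_pos hB, if_pos (hiff.mp ⟨hA, hB⟩)]; rfl
      · rw [if_neg hB, if_neg (fun h => hB (hiff.mpr h).2)]
    · rw [if_neg hA, if_neg (fun h => hA (hiff.mpr h).1)]

theorem dim_bound {K : Type} [Field K] {M : Type} [AddCommGroup M] [Module K M]
    (Q : AddSubgroup (Module.End K M)) (t : RTerm)
    (hQ : ∀ v : ℕ → Module.End K M, (∀ n, v n ∈ Q) → t.eval v = 0) (hf : tp K t ≠ 0)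
    (hdense : ∀ (d : ℕ) (v : Fin d → M), LinearIndependent K v → ∀ (i : Fin d) (u : M),
      ∃ e ∈ Submodule.span K (Q : Set (Module.End K M)), (∀ j, j ≠ i → e (v j) = 0) ∧ e (v i) = u)
    (v : Fin t.deg → M) : ¬ LinearIndependent K v := by
  intro hv
  have hne : (tp K t).coeff.support.Nonempty := by
    rw [Finset.nonempty_iff_ne_empty]
    intro h
    apply hf
    rw [Finsupp.support_eq_empty] at h
    exact MonoidAlgebra.coeff_injective (by rw [h]; rfl)
  obtain ⟨ws, hws, hmax⟩ := Finset.exists_max_image (tp K t).coeff.support
    (fun w => (FreeMonoid.toList w).length) hne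
  set W : List ℕ := (FreeMonoid.toList ws).reverse with hW
  have hWr : W.reverse = FreeMonoid.toList ws := by rw [hW, List.reverse_reverse]
  have hWl : W.length = (FreeMonoid.toList ws).length := by rw [hW, List.length_reverse]
  have hd0 : 0 < W.length := by
    rw [hWl, List.length_pos_iff]
    intro h
    apply one_not_mem_support K t
    have : ws = 1 := FreeMonoid.toList.injective h
    rw [← this]; exact hws
  have hdt : W.length ≤ t.deg := by rw [hWl]; exact length_le_deg K t ws hws
  let v' : Fin W.length → M := fun j => v (Fin.castLE hdt j)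
  have hv' : LinearIndependent K v' := hv.comp _ (Fin.castLE_injective hdt)
  let u : ℕ → M := fun l => if h : l < W.length then v' ⟨l, h⟩ else v' ⟨0, hd0⟩
  have hu : ∀ (l : ℕ) (h : l < W.length), u l = v' ⟨l, h⟩ := fun l h => dif_pos h
  have hue : u W.length = v' ⟨0, hd0⟩ := dif_neg (lt_irrefl _)
  choose e heQ he0 he1 using fun i : Fin W.length => hdense W.length v' hv' i (u (i + 1))
  have h1 : ∀ j : Fin W.length, e j (u j) = u (j + 1) := by
    intro j
    rw [hu j j.2]
    exact he1 j
  have h2 : ∀ (j : Fin W.length) (l : ℕ), l < W.length → l ≠ j → e j (u l) = 0 := by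
    intro j l hl hlj
    rw [hu l hl]
    apply he0
    intro h
    apply hlj
    rw [← h]
  let lab : Fin W.length → ℕ := fun j => W.get j
  let Φ : (Fin W.length → Module.End K M) → Module.End K M := fun y =>
    ∑ w ∈ (tp K t).coeff.support, (tp K t).coeff w • ML lab y (FreeMonoid.toList w) Finset.univ
  have hlen : ∀ w ∈ (tp K t).coeff.support, (FreeMonoid.toList w).length ≤ W.length := by
    intro w hw
    rw [hWl]; exact hmax w hw
  have hΦQ : ∀ y : Fin W.length → Module.End K M, (∀ j, y j ∈ Q) → Φ y = 0 := by
    intro y hy
    have h3 : ∑ T ∈ (Finset.univ : Finset (Fin W.length)).powerset,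
        (-1 : ℤ) ^ T.card • t.eval (VT lab y T) = (-1 : ℤ) ^ W.length • Φ y := by
      have : ∀ T, t.eval (VT lab y T) = ∑ w ∈ (tp K t).coeff.support,
          (tp K t).coeff w • ((FreeMonoid.toList w).map (VT lab y T)).prod :=
        fun T => eval_eq_sum (κ := K) (VT lab y T) t
      simp only [this, Finset.smul_sum]
      rw [Finset.sum_comm]
      simp only [Φ]
      rw [Finset.smul_sum]
      apply Finset.sum_congr rfl
      intro w hw
      have h4 := DL_eq_ML lab y (FreeMonoid.toList w) Finset.univ (by
        rw [Finset.card_univ, Fintype.card_fin]; exact hlen w hw)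
      rw [Finset.card_univ, Fintype.card_fin] at h4
      rw [smul_comm, ← h4]
      unfold DL
      rw [Finset.smul_sum]
      apply Finset.sum_congr rfl
      intro T _
      rw [smul_comm]
    have h5 : ∀ T, t.eval (VT lab y T) = 0 := by
      intro T
      apply hQ
      intro n
      apply Q.sum_mem
      intro j _
      split_ifs
      · exact hy j
      · exact Q.zero_mem
    simp only [h5, smul_zero, Finset.sum_const_zero] at h3
    rcases neg_one_pow_eq_or ℤ W.length with h | h
    · rw [h, one_smul] at h3; exact h3.symm
    · rw [h, neg_smul, one_smul] at h3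
      exact neg_eq_zero.mp h3.symm
  have hΦadd : ∀ (y : Fin W.length → Module.End K M) j b c,
      Φ (Function.update y j (b + c)) = Φ (Function.update y j b) + Φ (Function.update y j c) := by
    intro y j b c
    simp only [Φ]
    rw [← Finset.sum_add_distrib]
    apply Finset.sum_congr rfl
    intro w _
    rw [ML_update_add lab y j b c _ _ (Finset.mem_univ j), smul_add]
  have hΦsmul : ∀ (y : Fin W.length → Module.End K M) j (s : K) b,
      Φ (Function.update y j (s • b)) = s • Φ (Function.update y j b) := by
    intro y j s b
    simp only [Φ]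
    rw [Finset.smul_sum]
    apply Finset.sum_congr rfl
    intro w _
    rw [ML_update_smul lab y j s b _ _ (Finset.mem_univ j), smul_comm]
  have hspan : ∀ (s : Finset (Fin W.length)) (y : Fin W.length → Module.End K M),
      (∀ j ∈ s, y j ∈ Submodule.span K (Q : Set (Module.End K M))) → (∀ j, j ∉ s → y j ∈ Q) →
      Φ y = 0 := by
    intro s
    induction s using Finset.induction_on with
    | empty =>
      intro y _ hy
      exact hΦQ y fun j => hy j (Finset.notMem_empty j)
    | insert j₀ s hj₀ ih =>
      intro y hy hy'
      have key : ∀ b ∈ Submodule.span K (Q : Set (Module.End K M)),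
          Φ (Function.update y j₀ b) = 0 := by
        intro b hb
        induction hb using Submodule.span_induction with
        | mem b hb =>
          apply ih
          · intro j hj
            have hne : j ≠ j₀ := by rintro rfl; exact hj₀ hj
            rw [Function.update_of_ne hne]
            exact hy j (Finset.mem_insert_of_mem hj)
          · intro j hj
            by_cases hjj : j = j₀
            · subst hjj
              rw [Function.update_self]; exact hb
            · rw [Function.update_of_ne hjj]
              apply hy'
              rw [Finset.mem_insert]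
              rintro (h | h)
              · exact hjj h
              · exact hj h
        | zero =>
          have := hΦsmul y j₀ 0 0
          rw [zero_smul, zero_smul] at this
          exact this
        | add b c _ _ hb hc => rw [hΦadd, hb, hc, add_zero]
        | smul s b _ hb => rw [hΦsmul, hb, smul_zero]
      have := key (y j₀) (hy j₀ (Finset.mem_insert_self _ _))
      rwa [Function.update_eq_self] at this
  have hΦe : Φ e = 0 := hspan Finset.univ e (fun j _ => heQ j) (fun j hj =>
    absurd (Finset.mem_univ j) hj)
  have hval : (Φ e) (u 0) = (tp K t).coeff ws • u W.length := by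
    simp only [Φ]
    rw [LinearMap.sum_apply, Finset.sum_eq_single_of_mem ws hws]
    · rw [LinearMap.smul_apply]
      rw [ML_chain W u e h1 h2 (FreeMonoid.toList ws) Finset.univ (by
        rw [Finset.card_univ, Fintype.card_fin, hWl])]
      rw [if_pos]
      · rw [hWl]
      · refine ⟨?_, ?_⟩
        · rw [← hWl]
          ext j
          simp
        · rw [← hWl, List.take_length, hWr]
    · intro w hw hne
      rw [LinearMap.smul_apply]
      rcases lt_or_eq_of_le (hlen w hw) with h | h
      · rw [ML_eq_zero]
        · simp
        · rw [Finset.card_univ, Fintype.card_fin]; exact h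
      · rw [ML_chain W u e h1 h2 (FreeMonoid.toList w) Finset.univ (by
          rw [Finset.card_univ, Fintype.card_fin, h])]
        rw [if_neg, smul_zero]
        rintro ⟨_, h4⟩
        apply hne
        apply FreeMonoid.toList.injective
        rw [h4, h, List.take_length, hWr]
  rw [hΦe, hue] at hval
  have h6 : (tp K t).coeff ws ≠ 0 := Finsupp.mem_support_iff.mp hws
  have h7 : v' ⟨0, hd0⟩ ≠ 0 := hv'.ne_zero _
  have h8 : (tp K t).coeff ws • v' ⟨0, hd0⟩ = 0 := hval.symm
  rcases smul_eq_zero.mp h8 with h | h
  · exact h6 h
  · exact h7 h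

end Run7.h51.Eng
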