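import Pool.Agent.Run7.h51.EngDefs
import Pool.Agent.Run7.h51.EngJac

/-!
Specialisation of matrix representations over a field to finite fields.
-/

namespace Run7.h51.Eng

open MvPolynomial

theorem comm_ne_of_large {k : Type} [Field k] {n : ℕ} (X Y : Matrix (Fin n) (Fin n) k)
    (h : comm (n * n) X Y ≠ 0) (l : ℕ) : comm l X Y ≠ 0 := by
  intro hl
  let ad : Module.End k (Matrix (Fin n) (Fin n) k) :=
    LinearMap.mulRight k Y - LinearMap.mulLeft k Y
  have had : ∀ l, (ad ^ l) X = comm l X Y := by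
    intro l
    induction l with
    | zero => rfl
    | succ l ih =>
      rw [pow_succ']
      show ad ((ad ^ l) X) = _
      rw [ih]
      rfl
  have h1 : X ∈ LinearMap.ker (ad ^ l) := by
    rw [LinearMap.mem_ker, had, hl]
  have h2 := Module.End.ker_pow_le_ker_pow_finrank ad l h1
  rw [LinearMap.mem_ker, had] at h2
  have h3 : Module.finrank k (Matrix (Fin n) (Fin n) k) = n * n := by
    rw [Module.finrank_matrix]
    simp
  rw [h3] at h2
  exact h h2

theorem exists_finite_ring {Sg : Set RTerm} {R : Type} [NonUnitalRing R] (hR : Models Sg R)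
    {K : Type} [Field K] {n : ℕ} (φ : R →ₙ+* Matrix (Fin n) (Fin n) K) (x y : R)
    (h : comm (n * n) (φ x) (φ y) ≠ 0) :
    ∃ (F : Type) (_ : NonUnitalRing F) (_ : Finite F), Models Sg F ∧
      ∃ X Y : F, ∀ l, comm l X Y ≠ 0 := by
  let B := MvPolynomial (Bool × Fin n × Fin n) ℤ
  let X₀ : Matrix (Fin n) (Fin n) B := fun i j => X (false, i, j)
  let Y₀ : Matrix (Fin n) (Fin n) B := fun i j => X (true, i, j)
  let π : B →+* K := eval₂Hom (Int.castRingHom K)
    (fun s => if s.1 then φ y s.2.1 s.2.2 else φ x s.2.1 s.2.2)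
  have hX : X₀.map π = φ x := by
    ext i j
    exact eval₂Hom_X' (Int.castRingHom K)
      (fun s : Bool × Fin n × Fin n => if s.1 then φ y s.2.1 s.2.2 else φ x s.2.1 s.2.2)
      (false, i, j)
  have hY : Y₀.map π = φ y := by
    ext i j
    exact eval₂Hom_X' (Int.castRingHom K)
      (fun s : Bool × Fin n × Fin n => if s.1 then φ y s.2.1 s.2.2 else φ x s.2.1 s.2.2)
      (true, i, j)
  have hmapπ : comm (n * n) (φ x) (φ y) = (comm (n * n) X₀ Y₀).map π := by
    rw [← hX, ← hY]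
    exact comm_map ((π.mapMatrix : Matrix (Fin n) (Fin n) B →+* Matrix (Fin n) (Fin n) K) :
      Matrix (Fin n) (Fin n) B →ₙ+* Matrix (Fin n) (Fin n) K) (n * n) X₀ Y₀
  obtain ⟨i, j, hij⟩ : ∃ i j, π (comm (n * n) X₀ Y₀ i j) ≠ 0 := by
    by_contra hcon
    push Not at hcon
    apply h
    rw [hmapπ]
    ext i j
    exact hcon i j
  obtain ⟨k, _, _, ψ, hψ, hψb⟩ := exists_finite_field (Bool × Fin n × Fin n) (RingHom.ker π)
    (comm (n * n) X₀ Y₀ i j) (by
      intro m hm
      rw [RingHom.mem_ker, map_pow] at hm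
      exact pow_ne_zero m hij hm)
  let G : NonUnitalSubring (R × Matrix (Fin n) (Fin n) k) :=
    NonUnitalSubring.closure {(x, X₀.map ψ), (y, Y₀.map ψ)}
  have hG : ∀ p ∈ G, ∃ N : Matrix (Fin n) (Fin n) B, N.map π = φ p.1 ∧ p.2 = N.map ψ := by
    intro p hp
    induction hp using NonUnitalSubring.closure_induction with
    | mem p hp =>
      rcases hp with rfl | rfl
      · exact ⟨X₀, hX, rfl⟩
      · exact ⟨Y₀, hY, rfl⟩
    | zero =>
      refine ⟨0, ?_, ?_⟩
      · rw [Prod.fst_zero, map_zero]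
        ext i j; simp
      · rw [Prod.snd_zero]
        ext i j; simp
    | add p q _ _ hp hq =>
      obtain ⟨N, h1, h2⟩ := hp
      obtain ⟨N', h1', h2'⟩ := hq
      refine ⟨N + N', ?_, ?_⟩
      · rw [Prod.fst_add, map_add, ← h1, ← h1']
        exact Matrix.map_add π (map_add π) N N'
      · rw [Prod.snd_add, h2, h2']
        exact (Matrix.map_add ψ (map_add ψ) N N').symm
    | neg p _ hp =>
      obtain ⟨N, h1, h2⟩ := hp
      refine ⟨-N, ?_, ?_⟩
      · rw [Prod.fst_neg, map_neg, ← h1]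
        ext i j; simp
      · rw [Prod.snd_neg, h2]
        ext i j; simp
    | mul p q _ _ hp hq =>
      obtain ⟨N, h1, h2⟩ := hp
      obtain ⟨N', h1', h2'⟩ := hq
      refine ⟨N * N', ?_, ?_⟩
      · rw [Prod.fst_mul, map_mul, ← h1, ← h1']
        exact Matrix.map_mul
      · rw [Prod.snd_mul, h2, h2']
        exact Matrix.map_mul.symm
  have hG0 : ∀ s, ((0 : R), s) ∈ G → s = 0 := by
    intro s hs
    obtain ⟨N, h1, h2⟩ := hG _ hs
    have h3 : s = N.map ψ := h2
    rw [h3]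
    ext i j
    apply hψ
    rw [RingHom.mem_ker]
    have h4 := congrFun (congrFun h1 i) j
    rw [Prod.fst, map_zero] at h4
    exact h4
  have hxG : (x, X₀.map ψ) ∈ G := NonUnitalSubring.subset_closure (by simp)
  have hyG : (y, Y₀.map ψ) ∈ G := NonUnitalSubring.subset_closure (by simp)
  refine ⟨G.map (NonUnitalRingHom.snd R _), inferInstance, inferInstance,
    fun t ht => transfer G hG0 (hR t ht), ⟨X₀.map ψ, ⟨_, hxG, rfl⟩⟩, ⟨Y₀.map ψ, ⟨_, hyG, rfl⟩⟩, ?_⟩
  intro l hl
  have h1 := congrArg (NonUnitalSubringClass.subtype (G.map (NonUnitalRingHom.snd R _))) hl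
  rw [← comm_map, map_zero] at h1
  have h2 : comm l (X₀.map ψ) (Y₀.map ψ) = 0 := h1
  revert h2
  apply comm_ne_of_large
  have hmapψ : comm (n * n) (X₀.map ψ) (Y₀.map ψ) = (comm (n * n) X₀ Y₀).map ψ :=
    comm_map ((ψ.mapMatrix : Matrix (Fin n) (Fin n) B →+* Matrix (Fin n) (Fin n) k) :
      Matrix (Fin n) (Fin n) B →ₙ+* Matrix (Fin n) (Fin n) k) (n * n) X₀ Y₀
  rw [hmapψ]
  intro h3
  exact hψb (congrFun (congrFun h3 i) j)

end Run7.h51.Eng
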