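import Pool.Agent.Run7.h51.EngPrime
import Pool.Agent.Run7.h51.EngMulti
import Pool.Agent.Run7.h51.EngMod
import Pool.Agent.Run7.h51.EngSpec

/-!
Every non-Engel variety of rings contains a bad ring.
-/

namespace Run7.h51.Eng

theorem coeff_tp (κ : Type) [CommRing κ] (t : RTerm) (w : FreeMonoid ℕ) :
    (tp κ t).coeff w = ((tp ℤ t).coeff w : κ) := by
  have h := eval_map ((MonoidAlgebra.mapRingHom (FreeMonoid ℕ) (Int.castRingHom κ) :
    MonoidAlgebra ℤ (FreeMonoid ℕ) →+* MonoidAlgebra κ (FreeMonoid ℕ)) :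
    MonoidAlgebra ℤ (FreeMonoid ℕ) →ₙ+* MonoidAlgebra κ (FreeMonoid ℕ))
    (fun n => MonoidAlgebra.of ℤ (FreeMonoid ℕ) (FreeMonoid.of n)) t
  have e : (fun n => ((MonoidAlgebra.mapRingHom (FreeMonoid ℕ) (Int.castRingHom κ) :
    MonoidAlgebra ℤ (FreeMonoid ℕ) →+* MonoidAlgebra κ (FreeMonoid ℕ)) :
    MonoidAlgebra ℤ (FreeMonoid ℕ) →ₙ+* MonoidAlgebra κ (FreeMonoid ℕ))
      (MonoidAlgebra.of ℤ (FreeMonoid ℕ) (FreeMonoid.of n)))
      = fun n => MonoidAlgebra.of κ (FreeMonoid ℕ) (FreeMonoid.of n) := by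
    funext n
    show MonoidAlgebra.mapRingHom (FreeMonoid ℕ) (Int.castRingHom κ) _ = _
    simp
  rw [e] at h
  have h2 : tp κ t = MonoidAlgebra.mapRingHom (FreeMonoid ℕ) (Int.castRingHom κ) (tp ℤ t) := h
  rw [h2, MonoidAlgebra.coeff_mapRingHom]
  rfl

theorem exists_coeff {Sg : Set RTerm} (hbad : ¬ HasBad Sg) (p : ℕ) (hp : p.Prime) :
    ∃ t ∈ Sg, ∃ w, ¬ (p : ℤ) ∣ (tp ℤ t).coeff w := by
  have : Fact p.Prime := ⟨hp⟩
  let A : NonUnitalSubring (Matrix (Fin 2) (Fin 2) (ZMod p)) :=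
    { carrier := {M | M 1 0 = 0 ∧ M 1 1 = 0}
      add_mem' := by
        rintro M N ⟨h1, h2⟩ ⟨h3, h4⟩
        refine ⟨?_, ?_⟩
        · rw [Matrix.add_apply, h1, h3, add_zero]
        · rw [Matrix.add_apply, h2, h4, add_zero]
      zero_mem' := ⟨rfl, rfl⟩
      mul_mem' := by
        rintro M N ⟨h1, h2⟩ ⟨h3, h4⟩
        refine ⟨?_, ?_⟩
        · rw [Matrix.mul_apply, Fin.sum_univ_two, h1, h2, zero_mul, zero_mul, add_zero]
        · rw [Matrix.mul_apply, Fin.sum_univ_two, h1, h2, zero_mul, zero_mul, add_zero]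
      neg_mem' := by
        rintro M ⟨h1, h2⟩
        refine ⟨?_, ?_⟩
        · rw [Matrix.neg_apply, h1, neg_zero]
        · rw [Matrix.neg_apply, h2, neg_zero] }
  have hA : ¬ Models Sg A := by
    intro hM
    apply hbad
    refine ⟨ZMod p, inferInstance, inferInstance, A, fun M hM => hM.1, ?_, hM⟩
    refine ⟨⟨!![1, 0; 0, 0], by constructor <;> simp⟩, ⟨!![0, 1; 0, 0], by constructor <;> simp⟩,
      ?_⟩
    intro n hn
    have h1 := congrArg (NonUnitalSubringClass.subtype A) hn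
    rw [← comm_map, map_zero] at h1
    have h2 : comm n (!![0, 1; 0, 0] : Matrix (Fin 2) (Fin 2) (ZMod p)) !![1, 0; 0, 0] = 0 := h1
    have h3 : ∀ n, comm n (!![0, 1; 0, 0] : Matrix (Fin 2) (Fin 2) (ZMod p)) !![1, 0; 0, 0]
        = !![0, (-1) ^ n; 0, 0] := by
      intro n
      induction n with
      | zero => simp [comm]
      | succ n ih =>
        show comm n _ _ * _ - _ * comm n _ _ = _
        rw [ih]
        ext i j
        fin_cases i <;> fin_cases j <;> simp [pow_succ]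
    rw [h3] at h2
    have h4 := congrFun (congrFun h2 0) 1
    simp at h4
  unfold Models at hA
  push Not at hA
  obtain ⟨t, ht, hsat⟩ := hA
  refine ⟨t, ht, ?_⟩
  by_contra hcon
  push Not at hcon
  apply hsat
  intro v
  apply Subtype.ext
  have h1 := eval_map (NonUnitalSubringClass.subtype A) v t
  have h2 : ((t.eval v : A) : Matrix (Fin 2) (Fin 2) (ZMod p)) = t.eval fun n => (v n : Matrix _ _ _) :=
    h1.symm
  rw [h2, eval_eq_lift (κ := ZMod p)]
  have h3 : tp (ZMod p) t = 0 := by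
    apply MonoidAlgebra.coeff_injective
    ext w
    rw [coeff_tp]
    exact (ZMod.intCast_zmod_eq_zero_iff_dvd _ _).mpr (hcon w)
  rw [h3, map_zero]
  rfl

theorem exists_degree_bound {Sg : Set RTerm} (hbad : ¬ HasBad Sg) :
    ∃ D : ℕ, ∀ (K : Type) [Field K], ∃ t ∈ Sg, t.deg ≤ D ∧ tp K t ≠ 0 := by
  classical
  choose T hT w hw using exists_coeff hbad
  set t₂ := T 2 Nat.prime_two with ht₂
  set c : ℤ := (tp ℤ t₂).coeff (w 2 Nat.prime_two) with hc
  have hc0 : c ≠ 0 := by
    intro h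
    apply hw 2 Nat.prime_two
    rw [← hc, h]
    exact dvd_zero _
  refine ⟨max t₂.deg (c.natAbs.primeFactors.sup fun p => if h : p.Prime then (T p h).deg else 0), ?_⟩
  intro K _
  have hne : ∀ (t : RTerm) w, ((tp ℤ t).coeff w : K) ≠ 0 → tp K t ≠ 0 := by
    intro t w h h0
    apply h
    rw [← coeff_tp, h0]
    rfl
  by_cases hcK : (c : K) = 0
  · obtain ⟨p, hp⟩ := CharP.exists K
    have hpc : (p : ℤ) ∣ c := (CharP.intCast_eq_zero_iff K p c).mp hcK
    have hp0 : p ≠ 0 := by
      rintro rfl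
      apply hc0
      rw [Nat.cast_zero, zero_dvd_iff] at hpc
      exact hpc
    have hpp : p.Prime := (CharP.char_is_prime_or_zero K p).resolve_right hp0
    refine ⟨T p hpp, hT p hpp, ?_, ?_⟩
    · apply le_trans _ (le_max_right _ _)
      have hmem : p ∈ c.natAbs.primeFactors := by
        rw [Nat.mem_primeFactors]
        refine ⟨hpp, ?_, Int.natAbs_ne_zero.mpr hc0⟩
        exact Int.natCast_dvd.mp hpc
      have := Finset.le_sup (f := fun p => if h : p.Prime then (T p h).deg else 0) hmem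
      rwa [dif_pos hpp] at this
    · apply hne _ (w p hpp)
      intro h
      exact hw p hpp ((CharP.intCast_eq_zero_iff K p _).mp h)
  · exact ⟨t₂, hT 2 Nat.prime_two, le_max_left _ _, hne _ _ hcK⟩

theorem hasBad_of_not_engel {Sg : Set RTerm} (hne : ¬ IsEngel Sg) : HasBad Sg := by
  classical
  by_contra hbad
  -- a single ring with long commutators nonzero
  have h1 : ∀ n : ℕ, ∃ (R : Type) (_ : NonUnitalRing R), Models Sg R ∧
      ∃ x y : R, comm (n + 1) x y ≠ 0 := by
    intro n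
    by_contra hcon
    push Not at hcon
    exact hne ⟨n + 1, by omega, fun R _ hR x y => hcon R _ hR x y⟩
  choose R₀ inst₀ hR₀ x₀ y₀ hxy₀ using h1
  have hRM : Models Sg (∀ n, R₀ n) := Models.pi hR₀
  have hxy : ∀ n, comm n (x₀ : ∀ n, R₀ n) y₀ ≠ 0 := by
    intro n h
    have h2 := congrFun h n
    rw [comm_pi] at h2
    exact comm_ne_of_le (Nat.le_succ n) (hxy₀ n) h2
  obtain ⟨P, _, π, hπ, hπne, hpr⟩ := exists_prime_quotient hbad hRM x₀ y₀ hxy
  have hP : Models Sg P := hRM.of_surjective π hπ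
  set x : P := π x₀ with hx
  set y : P := π y₀ with hy
  have hsp : ∀ a : P, (∀ r, a * r * a = 0) → a = 0 := fun a h => (hpr a a h).elim id id
  obtain ⟨D, hD⟩ := exists_degree_bound hbad
  set z : P := comm (D * D) x y with hz
  have hz0 : z ≠ 0 := hπne _
  choose r s hrs using exists_iter_ne hsp z hz0
  let R := ℕ → P
  have hR : Models Sg R := Models.pi fun _ => hP
  let zc : R := fun _ => z
  let ζ : R := zc * r
  have hζ : ∀ k, (fun u => ζ * u)^[k] ζ ≠ 0 := by
    intro k hk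
    have h2 := congrFun hk (k + 1)
    rw [iter_pi] at h2
    have h3 : (fun u => z * r (k + 1) * u)^[k] (z * r (k + 1)) = 0 := h2
    apply hrs (k + 1)
    rw [Function.iterate_succ_apply]
    rw [← iter_mul, h3, zero_mul]
  obtain ⟨U, _, ι, hι, hιr, hιl⟩ := exists_unital R
  obtain ⟨M, _, _, hsimple, m₀, hm₀⟩ := exists_simple (ι ζ) (map_pow_ne ι hι ζ hζ)
  obtain ⟨K, _, _, ρ, hρ, hdense⟩ := exists_dense ι hιr hιl M ζ m₀ hm₀
  have hρζ : ρ ζ ≠ 0 := by
    intro h
    apply hm₀
    rw [← hρ, h]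
    rfl
  obtain ⟨t, ht, htD, htK⟩ := hD K
  have hrk : ∀ v : Fin t.deg → M, ¬ LinearIndependent K v := by
    apply dim_bound (AddMonoidHom.range (ρ : R →+ Module.End K M)) t ?_ htK ?_
    · intro v hv
      choose g hg using hv
      have : v = fun n => ρ (g n) := by
        funext n; exact (hg n).symm
      rw [this, eval_map, hR t ht, map_zero]
    · intro d v hv i u
      obtain ⟨e, he, h2, h3⟩ := hdense d v hv i u
      exact ⟨e, he, h2, h3⟩
  have hrank : Module.rank K M < t.deg := by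
    by_contra hcon
    push Not at hcon
    obtain ⟨v, hv⟩ := exists_linearIndependent_of_le_rank hcon
    exact hrk v hv
  have hfin : Module.Finite K M := by
    rw [← Module.rank_lt_aleph0_iff]
    exact hrank.trans Cardinal.natCast_lt_aleph0
  have hfr : Module.finrank K M ≤ D := by
    have h2 : (Module.finrank K M : Cardinal) < (t.deg : Cardinal) := by
      rw [Module.finrank_eq_rank]; exact hrank
    have h3 : Module.finrank K M < t.deg := by exact_mod_cast h2
    omega
  let b := Module.finBasis K M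
  let φ : R →ₙ+* Matrix (Fin (Module.finrank K M)) (Fin (Module.finrank K M)) K :=
    ((LinearMap.toMatrixAlgEquiv b : Module.End K M ≃ₐ[K] _) :
      Module.End K M →ₙ+* Matrix (Fin (Module.finrank K M)) (Fin (Module.finrank K M)) K).comp ρ
  have hφ : ∀ r, φ r = LinearMap.toMatrixAlgEquiv b (ρ r) := fun _ => rfl
  let xc : R := fun _ => x
  let yc : R := fun _ => y
  have hcz : comm (D * D) xc yc = zc := by
    funext i
    rw [comm_pi]
  have hne1 : comm (D * D) (φ xc) (φ yc) ≠ 0 := by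
    rw [comm_map, hcz]
    intro h
    apply hρζ
    have h2 : φ ζ = 0 := by
      show φ (zc * r) = 0
      rw [map_mul, h, zero_mul]
    rw [hφ] at h2
    exact (LinearMap.toMatrixAlgEquiv b).injective (by rw [h2, map_zero])
  have hne2 : comm (Module.finrank K M * Module.finrank K M) (φ xc) (φ yc) ≠ 0 :=
    comm_ne_of_le (Nat.mul_le_mul hfr hfr) hne1
  obtain ⟨F, _, _, hF, X, Y, hXY⟩ := exists_finite_ring hR φ xc yc hne2
  obtain ⟨n, hn⟩ := finite_engel hbad hF X Y
  exact hXY n hn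

end Run7.h51.Eng
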