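import Pool.Agent.Run7.h51.EngA

/-!
Maximal ideals avoiding a set, prime quotients, a Levitzki type lemma,
and the exclusion of finite non-Engel rings.
-/

namespace Run7.h51.Eng

/-- An additive subgroup which is a two-sided ideal. -/
def IsId {R : Type} [NonUnitalRing R] (I : AddSubgroup R) : Prop :=
  (∀ r x, x ∈ I → r * x ∈ I) ∧ (∀ r x, x ∈ I → x * r ∈ I)

theorem exists_max_ideal {R : Type} [NonUnitalRing R] (Z : Set R) (h0 : (0 : R) ∉ Z) :
    ∃ I : AddSubgroup R, IsId I ∧ (∀ z ∈ Z, z ∉ I) ∧
      ∀ J : AddSubgroup R, IsId J → I ≤ J → J ≠ I → ∃ z ∈ Z, z ∈ J := by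
  obtain ⟨I, -, hI⟩ := zorn_le_nonempty₀
    {I : AddSubgroup R | IsId I ∧ ∀ z ∈ Z, z ∉ I} (by
      intro c hc hchain y hy
      have hne : c.Nonempty := ⟨y, hy⟩
      have hmem : ∀ {x}, x ∈ sSup c ↔ ∃ s ∈ c, x ∈ s := by
        intro x
        exact AddSubgroup.mem_sSup_of_directedOn hne hchain.directedOn
      refine ⟨sSup c, ⟨⟨?_, ?_⟩, ?_⟩, fun z hz => le_sSup hz⟩
      · intro r x hx
        obtain ⟨s, hs, hxs⟩ := hmem.mp hx
        exact hmem.mpr ⟨s, hs, (hc hs).1.1 r x hxs⟩
      · intro r x hx
        obtain ⟨s, hs, hxs⟩ := hmem.mp hx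
        exact hmem.mpr ⟨s, hs, (hc hs).1.2 r x hxs⟩
      · intro z hz hz'
        obtain ⟨s, hs, hxs⟩ := hmem.mp hz'
        exact (hc hs).2 z hz hxs) ⊥ (by
      refine ⟨⟨?_, ?_⟩, ?_⟩
      · intro r x hx
        rw [AddSubgroup.mem_bot] at hx ⊢
        rw [hx, mul_zero]
      · intro r x hx
        rw [AddSubgroup.mem_bot] at hx ⊢
        rw [hx, zero_mul]
      · intro z hz hz'
        rw [AddSubgroup.mem_bot] at hz'
        exact h0 (hz' ▸ hz))
  refine ⟨I, hI.prop.1, hI.prop.2, ?_⟩
  intro J hJ hIJ hne
  by_contra hcon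
  push Not at hcon
  exact hne (le_antisymm (hI.le_of_ge ⟨hJ, hcon⟩ hIJ) hIJ)

/-- a quotient in which the elements of `Z` are nonzero and every nonzero ideal meets the image
of `Z` -/
theorem exists_quotient_avoiding {R : Type} [NonUnitalRing R] (Z : Set R) (h0 : (0 : R) ∉ Z) :
    ∃ (Q : Type) (_ : NonUnitalRing Q) (π : R →ₙ+* Q), Function.Surjective π ∧
      (∀ z ∈ Z, π z ≠ 0) ∧ ∀ J : AddSubgroup Q, IsId J → J ≠ ⊥ → ∃ z ∈ Z, π z ∈ J := by
  obtain ⟨I, hI, hZ, hmax⟩ := exists_max_ideal Z h0
  obtain ⟨Q, _, π, hπ, hker⟩ := exists_quotient I hI.1 hI.2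
  refine ⟨Q, inferInstance, π, hπ, ?_, ?_⟩
  · intro z hz h
    exact hZ z hz ((hker z).mp h)
  · intro J hJ hJne
    have hid : IsId (J.comap (π : R →+ Q)) := by
      refine ⟨?_, ?_⟩
      · intro r x hx
        rw [AddSubgroup.mem_comap] at hx ⊢
        show π (r * x) ∈ J
        rw [map_mul]
        exact hJ.1 _ _ hx
      · intro r x hx
        rw [AddSubgroup.mem_comap] at hx ⊢
        show π (x * r) ∈ J
        rw [map_mul]
        exact hJ.2 _ _ hx
    have hle : I ≤ J.comap (π : R →+ Q) := by
      intro x hx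
      rw [AddSubgroup.mem_comap]
      have hx0 : π x = 0 := (hker x).mpr hx
      show π x ∈ J
      rw [hx0]
      exact J.zero_mem
    have hne : J.comap (π : R →+ Q) ≠ I := by
      intro h
      apply hJne
      rw [AddSubgroup.eq_bot_iff_forall]
      intro q hq
      obtain ⟨x, rfl⟩ := hπ q
      rw [hker, ← h]
      exact hq
    obtain ⟨z, hz, hzJ⟩ := hmax _ hid hle hne
    exact ⟨z, hz, hzJ⟩

theorem exists_prime_quotient {Sg : Set RTerm} (hbad : ¬ HasBad Sg) {R : Type} [NonUnitalRing R]
    (hR : Models Sg R) (x y : R) (hxy : ∀ n, comm n x y ≠ 0) :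
    ∃ (P : Type) (_ : NonUnitalRing P) (π : R →ₙ+* P), Function.Surjective π ∧
      (∀ n, comm n (π x) (π y) ≠ 0) ∧
      (∀ a b : P, (∀ r, a * r * b = 0) → a = 0 ∨ b = 0) := by
  obtain ⟨P, _, π, hπ, hne, hid⟩ := exists_quotient_avoiding
    (Set.range fun n => comm n x y) (by rintro ⟨n, hn⟩; exact hxy n hn)
  have hP : Models Sg P := hR.of_surjective π hπ
  have hne' : ∀ n, comm n (π x) (π y) ≠ 0 := by
    intro n
    rw [comm_map]
    exact hne _ ⟨n, rfl⟩
  have f1 : ∀ J : AddSubgroup P, IsId J → J ≠ ⊥ → ∃ n, ∀ m, n ≤ m → comm m (π x) (π y) ∈ J := by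
    intro J hJ hJne
    obtain ⟨z, ⟨n, rfl⟩, hz⟩ := hid J hJ hJne
    refine ⟨n, ?_⟩
    intro m hm
    induction m, hm using Nat.le_induction with
    | base => rw [comm_map]; exact hz
    | succ m _ ih => exact J.sub_mem (hJ.2 _ _ ih) (hJ.1 _ _ ih)
  have f2 : ∀ A B : AddSubgroup P, IsId A → IsId B → A ≠ ⊥ → B ≠ ⊥ →
      (∀ a ∈ A, ∀ b ∈ B, a * b = 0) → False := by
    intro A B hA hB hA0 hB0 hAB
    obtain ⟨n, hn⟩ := f1 A hA hA0
    obtain ⟨m, hm⟩ := f1 B hB hB0
    apply hbad
    apply lemmaA hP (π y) (comm (n + m) (π x) (π y)) (A ⊓ B)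
    · exact ⟨hn _ (by omega), hm _ (by omega)⟩
    · intro w hw
      exact ⟨hA.1 _ _ hw.1, hB.1 _ _ hw.2⟩
    · intro w hw
      exact ⟨hA.2 _ _ hw.1, hB.2 _ _ hw.2⟩
    · intro a ha b hb
      exact hAB a ha.1 b hb.2
    · intro l
      rw [← comm_add]
      exact hne' _
  have f3 : ∀ a : P, (∀ r, a * r = 0) → a = 0 := by
    let A : AddSubgroup P :=
      { carrier := {a | ∀ r, a * r = 0}
        add_mem' := by
          intro a b ha hb r
          rw [add_mul, ha r, hb r, add_zero]
        zero_mem' := by intro r; rw [zero_mul]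
        neg_mem' := by
          intro a ha r
          rw [neg_mul, ha r, neg_zero] }
    have hA : IsId A := by
      refine ⟨?_, ?_⟩
      · intro r x hx s
        rw [mul_assoc, hx s, mul_zero]
      · intro r x hx s
        rw [hx r, zero_mul]
    intro a ha
    by_contra ha0
    have hA0 : A ≠ ⊥ := by
      intro h
      have : a ∈ A := ha
      rw [h, AddSubgroup.mem_bot] at this
      exact ha0 this
    exact f2 A A hA hA hA0 hA0 (fun a ha b _ => ha b)
  refine ⟨P, inferInstance, π, hπ, hne', ?_⟩
  intro a b hab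
  by_contra hcon
  push Not at hcon
  obtain ⟨ha0, hb0⟩ := hcon
  let B : AddSubgroup P :=
    { carrier := {c | ∀ r, a * r * c = 0}
      add_mem' := by
        intro c d hc hd r
        rw [mul_add, hc r, hd r, add_zero]
      zero_mem' := by intro r; rw [mul_zero]
      neg_mem' := by
        intro c hc r
        rw [mul_neg, hc r, neg_zero] }
  have hB : IsId B := by
    refine ⟨?_, ?_⟩
    · intro s c hc r
      rw [← mul_assoc, mul_assoc a r s]
      exact hc _
    · intro s c hc r
      rw [← mul_assoc, hc r, zero_mul]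
  let A : AddSubgroup P :=
    { carrier := {c | ∀ d ∈ B, c * d = 0}
      add_mem' := by
        intro c c' hc hc' d hd
        rw [add_mul, hc d hd, hc' d hd, add_zero]
      zero_mem' := by intro d _; rw [zero_mul]
      neg_mem' := by
        intro c hc d hd
        rw [neg_mul, hc d hd, neg_zero] }
  have hA : IsId A := by
    refine ⟨?_, ?_⟩
    · intro s c hc d hd
      rw [mul_assoc, hc d hd, mul_zero]
    · intro s c hc d hd
      rw [mul_assoc]
      exact hc _ (hB.1 s d hd)
  have hB0 : B ≠ ⊥ := by
    intro h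
    have : b ∈ B := hab
    rw [h, AddSubgroup.mem_bot] at this
    exact hb0 this
  have hA0 : A ≠ ⊥ := by
    intro h
    apply ha0
    apply f3
    intro r
    have : a * r ∈ A := fun d hd => hd r
    rw [h, AddSubgroup.mem_bot] at this
    exact this
  exact f2 A B hA hB hA0 hB0 (fun c hc d hd => hc d hd)

/-! ### Levitzki's lemma -/

section levitzki

variable {P : Type} [NonUnitalRing P]

theorem iter_mul (y v w : P) (m : ℕ) :
    ((fun u => y * u)^[m] v) * w = (fun u => y * u)^[m] (v * w) := by
  induction m with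
  | zero => rfl
  | succ m ih => rw [Function.iterate_succ_apply', Function.iterate_succ_apply', ← ih, mul_assoc]

theorem iter_zero (y : P) (m : ℕ) : (fun u => y * u)^[m] 0 = 0 := by
  induction m with
  | zero => rfl
  | succ m ih => rw [Function.iterate_succ_apply', ih, mul_zero]

theorem levitzki (hsp : ∀ a : P, (∀ r, a * r * a = 0) → a = 0) (k : ℕ) :
    ∀ ρ : AddSubgroup P, (∀ x ∈ ρ, ∀ r, x * r ∈ ρ) →
      (∀ y ∈ ρ, ∀ w ∈ ρ, (fun u => y * u)^[k] w = 0) → ∀ w ∈ ρ, w = 0 := by
  induction k with
  | zero =>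
    intro ρ _ hE w hw
    exact hE w hw w hw
  | succ k ih =>
    intro ρ hρ hE
    rcases Nat.eq_zero_or_pos k with hk | hk
    · subst hk
      intro w hw
      apply hsp
      intro r
      exact hE _ (hρ w hw r) w hw
    · obtain ⟨m, rfl⟩ : ∃ m, k = m + 1 := ⟨k - 1, by omega⟩
      apply ih ρ hρ
      intro y hy w hw
      set u : P := (fun u => y * u)^[m] y with hu
      have huw : ∀ w, u * w = (fun u => y * u)^[m + 1] w := by
        intro w
        rw [hu, iter_mul, Function.iterate_succ_apply]
      have huρ : u ∈ ρ := by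
        rcases Nat.eq_zero_or_pos m with h | h
        · subst h; exact hy
        · obtain ⟨l, rfl⟩ : ∃ l, m = l + 1 := ⟨m - 1, by omega⟩
          rw [hu, Function.iterate_succ_apply']
          exact hρ y hy _
      have huu : ∀ v ∈ ρ, u * (u * v) = 0 := by
        intro v hv
        rw [huw, huw, ← Function.iterate_add_apply,
          show m + 1 + (m + 1) = m + (m + 1 + 1) by ring, Function.iterate_add_apply,
          hE y hy v hv, iter_zero]
      rw [← huw]
      apply ih (ρ.map (AddMonoidHom.mulLeft u)) ?_ ?_ (u * w) ⟨w, hw, rfl⟩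
      · rintro _ ⟨x, hx, rfl⟩ r
        refine ⟨x * r, hρ x hx r, ?_⟩
        show u * (x * r) = u * x * r
        rw [mul_assoc]
      · rintro _ ⟨x, hx, rfl⟩ _ ⟨w', hw', rfl⟩
        show (fun v => u * x * v)^[m + 1] (u * w') = 0
        have hkey : ∀ j, (fun v => (u * x + u) * v)^[j + 1] w'
            = (fun v => u * x * v)^[j + 1] w' + (fun v => u * x * v)^[j] (u * w') := by
          intro j
          induction j with
          | zero =>
            show (u * x + u) * w' = u * x * w' + u * w'
            rw [add_mul]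
          | succ j ihj =>
            have hx1 : ∀ v, u * (u * x * v) = 0 := by
              intro v
              rw [mul_assoc u x v]
              exact huu _ (hρ x hx v)
            have h1 : u * (fun v => u * x * v)^[j + 1] w' = 0 := by
              rw [Function.iterate_succ_apply']
              exact hx1 _
            have h2 : u * (fun v => u * x * v)^[j] (u * w') = 0 := by
              rcases Nat.eq_zero_or_pos j with hj | hj
              · subst hj
                exact huu _ hw'
              · obtain ⟨l, rfl⟩ : ∃ l, j = l + 1 := ⟨j - 1, by omega⟩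
                rw [Function.iterate_succ_apply']
                exact hx1 _
            rw [Function.iterate_succ_apply' (fun v => (u * x + u) * v), ihj, add_mul, mul_add,
              mul_add u, h2, h1, add_zero, add_zero]
            rw [Function.iterate_succ_apply' (fun v => u * x * v) (j + 1),
              Function.iterate_succ_apply' (fun v => u * x * v) j (u * w')]
        have e1 := hE (u * x + u) (ρ.add_mem (hρ u huρ x) huρ) w' hw'
        rw [hkey, hE (u * x) (hρ u huρ x) w' hw', zero_add] at e1
        exact e1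

theorem exists_iter_ne (hsp : ∀ a : P, (∀ r, a * r * a = 0) → a = 0) (a : P) (ha : a ≠ 0)
    (k : ℕ) : ∃ r s : P, (fun u => a * r * u)^[k] (a * s) ≠ 0 := by
  by_contra hcon
  push Not at hcon
  apply ha
  apply hsp
  have h1 : ∀ s, a * s = 0 := by
    intro s
    apply levitzki hsp k ((⊤ : AddSubgroup P).map (AddMonoidHom.mulLeft a)) ?_ ?_ (a * s)
      ⟨s, trivial, rfl⟩
    · rintro _ ⟨x, -, rfl⟩ r
      refine ⟨x * r, trivial, ?_⟩
      show a * (x * r) = a * x * r
      rw [mul_assoc]
    · rintro _ ⟨x, -, rfl⟩ _ ⟨w, -, rfl⟩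
      exact hcon x w
  intro r
  rw [h1, zero_mul]

end levitzki

theorem iter_pi {P : Type} [NonUnitalRing P] (y v : ℕ → P) (m : ℕ) (i : ℕ) :
    ((fun u => y * u)^[m] v) i = (fun u => y i * u)^[m] (v i) := by
  induction m with
  | zero => rfl
  | succ m ih =>
    rw [Function.iterate_succ_apply', Function.iterate_succ_apply', ← ih]; rfl

/-- In a variety without bad rings, semiprime rings are reduced. -/
theorem eq_zero_of_sq {Sg : Set RTerm} (hbad : ¬ HasBad Sg) {P : Type} [NonUnitalRing P]
    (hP : Models Sg P) (hsp : ∀ a : P, (∀ r, a * r * a = 0) → a = 0) (a : P) (ha : a * a = 0) :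
    a = 0 := by
  by_contra ha0
  have h1 := exists_iter_ne hsp a ha0
  choose r s hrs using h1
  have hPi : Models Sg (ℕ → P) := Models.pi fun _ => hP
  apply hbad
  let α : ℕ → P := fun _ => a
  let y : ℕ → P := α * r
  have hαα : α * α = 0 := by funext i; exact ha
  have hαy : α * y = 0 := by rw [← mul_assoc, hαα, zero_mul]
  have hgα : ∀ i, α * ((fun u => y * u)^[i] α) = 0 := by
    intro i
    rcases Nat.eq_zero_or_pos i with hi | hi
    · subst hi; exact hαα
    · obtain ⟨l, rfl⟩ : ∃ l, i = l + 1 := ⟨i - 1, by omega⟩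
      rw [Function.iterate_succ_apply', ← mul_assoc, hαy, zero_mul]
  let gens : Set (ℕ → P) := {v | ∃ i, v = (fun u => y * u)^[i] α}
  apply lemmaA hPi y α (AddSubgroup.closure gens)
  · exact AddSubgroup.subset_closure ⟨0, rfl⟩
  · intro w hw
    induction hw using AddSubgroup.closure_induction with
    | mem w hw =>
      obtain ⟨i, rfl⟩ := hw
      apply AddSubgroup.subset_closure
      exact ⟨i + 1, by rw [Function.iterate_succ_apply']⟩
    | zero => rw [mul_zero]; exact AddSubgroup.zero_mem _
    | add a b _ _ ha hb => rw [mul_add]; exact AddSubgroup.add_mem _ ha hb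
    | neg a _ ha => rw [mul_neg]; exact AddSubgroup.neg_mem _ ha
  · intro w hw
    have : w * y = 0 := by
      induction hw using AddSubgroup.closure_induction with
      | mem w hw =>
        obtain ⟨i, rfl⟩ := hw
        rw [iter_mul, hαy, iter_zero]
      | zero => rw [zero_mul]
      | add a b _ _ ha hb => rw [add_mul, ha, hb, add_zero]
      | neg a _ ha => rw [neg_mul, ha, neg_zero]
    rw [this]; exact AddSubgroup.zero_mem _
  · intro v hv w hw
    induction hv using AddSubgroup.closure_induction with
    | mem v hv =>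
      obtain ⟨i, rfl⟩ := hv
      rw [iter_mul]
      have : α * w = 0 := by
        induction hw using AddSubgroup.closure_induction with
        | mem w hw =>
          obtain ⟨j, rfl⟩ := hw
          exact hgα j
        | zero => rw [mul_zero]
        | add a b _ _ ha hb => rw [mul_add, ha, hb, add_zero]
        | neg a _ ha => rw [mul_neg, ha, neg_zero]
      rw [this, iter_zero]
    | zero => rw [zero_mul]
    | add a b _ _ ha hb => rw [add_mul, ha, hb, add_zero]
    | neg a _ ha => rw [neg_mul, ha, neg_zero]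
  · have hcomm : ∀ n, comm n α y = (-1 : ℤ) ^ n • (fun u => y * u)^[n] α := by
      intro n
      induction n with
      | zero => simp [comm]
      | succ n ih =>
        show comm n α y * y - y * comm n α y = _
        rw [ih, smul_mul_assoc, iter_mul, hαy, iter_zero, smul_zero, zero_sub, mul_smul_comm,
          Function.iterate_succ_apply', pow_succ, mul_smul, neg_smul, one_smul]
        simp
    intro n hn
    rw [hcomm] at hn
    have h2 : (fun u => y * u)^[n] α = 0 := by
      rcases neg_one_pow_eq_or ℤ n with h | h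
      · rw [h, one_smul] at hn; exact hn
      · rw [h, neg_smul, one_smul, neg_eq_zero] at hn; exact hn
    have h3 := congrFun h2 n
    rw [iter_pi] at h3
    have h4 : ((fun u => y n * u)^[n] (α n)) * s n = 0 := by rw [h3]; exact zero_mul _
    rw [iter_mul] at h4
    exact hrs n h4

theorem domain_of_prime {Sg : Set RTerm} (hbad : ¬ HasBad Sg) {P : Type} [NonUnitalRing P]
    (hP : Models Sg P) (hpr : ∀ a b : P, (∀ r, a * r * b = 0) → a = 0 ∨ b = 0) (a b : P)
    (hab : a * b = 0) : a = 0 ∨ b = 0 := by
  have hsp : ∀ a : P, (∀ r, a * r * a = 0) → a = 0 := fun a h => (hpr a a h).elim id id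
  have hba : b * a = 0 := by
    apply eq_zero_of_sq hbad hP hsp
    rw [mul_assoc, ← mul_assoc a b a, hab, zero_mul, mul_zero]
  apply hpr
  intro r
  apply eq_zero_of_sq hbad hP hsp
  have : a * r * b * (a * r * b) = a * r * (b * a) * r * b := by
    simp only [mul_assoc]
  rw [this, hba, mul_zero, zero_mul, zero_mul]

theorem comm_of_finite_domain {P : Type} [NonUnitalRing P] [Finite P]
    (hdom : ∀ a b : P, a * b = 0 → a = 0 ∨ b = 0) (x y : P) : x * y = y * x := by
  by_cases hx : x = 0
  · rw [hx, zero_mul, mul_zero]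
  have hinj : Function.Injective fun u : P => x * u := by
    intro u v huv
    have : x * (u - v) = 0 := by rw [mul_sub, sub_eq_zero]; exact huv
    rcases hdom _ _ this with h | h
    · exact absurd h hx
    · exact sub_eq_zero.mp h
  obtain ⟨e, he⟩ := Finite.surjective_of_injective hinj x
  have he1 : ∀ u, e * u = u := by
    intro u
    apply hinj
    show x * (e * u) = x * u
    rw [← mul_assoc]
    congr 1
  have he2 : ∀ u, u * e = u := by
    intro u
    have h1 : (u * e - u) * x = 0 := by
      rw [sub_mul, mul_assoc, he1, sub_self]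
    rcases hdom _ _ h1 with h | h
    · exact sub_eq_zero.mp h
    · exact absurd h hx
  let inst : Ring P := { (inferInstance : NonUnitalRing P) with
    one := e
    one_mul := he1
    mul_one := he2 }
  have : Nontrivial P := ⟨x, 0, hx⟩
  have : NoZeroDivisors P := ⟨fun {a b} h => hdom a b h⟩
  have : IsDomain P := NoZeroDivisors.to_isDomain P
  exact (Finite.isDomain_to_isField P).mul_comm x y

theorem finite_engel {Sg : Set RTerm} (hbad : ¬ HasBad Sg) {F : Type} [NonUnitalRing F]
    [Finite F] (hF : Models Sg F) (x y : F) : ∃ n, comm n x y = 0 := by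
  by_contra hcon
  push Not at hcon
  obtain ⟨P, _, π, hπ, hne, hpr⟩ := exists_prime_quotient hbad hF x y hcon
  have : Finite P := Finite.of_surjective π hπ
  have hP : Models Sg P := hF.of_surjective π hπ
  apply hne 1
  show π x * π y - π y * π x = 0
  rw [comm_of_finite_domain (domain_of_prime hbad hP hpr) (π x) (π y), sub_self]

end Run7.h51.Eng
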