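import Mathlib

/-!
A closed subset `K` of the real line with small harmonic measure (in the sense of the barriers
below) is removable for the Hardy space `H²`: a holomorphic function on `Kᶜ` whose square has a
harmonic majorant is constant.
-/

set_option autoImplicit false

open Set Filter Topology Metric

namespace Pool.Agent.Run7.h51.HN

/-- locally the real part of a holomorphic function -/
def LocRe (Ω : Set ℂ) (u : ℂ → ℝ) : Prop :=
  ∀ z ∈ Ω, ∃ r > 0, ball z r ⊆ Ω ∧ ∃ g : ℂ → ℂ, DifferentiableOn ℂ g (ball z r) ∧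
    ∀ w ∈ ball z r, u w = (g w).re

lemma LocRe.of_re {Ω : Set ℂ} (hΩ : IsOpen Ω) {F : ℂ → ℂ} (hF : DifferentiableOn ℂ F Ω) :
    LocRe Ω fun z => (F z).re := by
  intro z hz
  obtain ⟨r, hr, hb⟩ := Metric.isOpen_iff.mp hΩ z hz
  exact ⟨r, hr, hb, F, hF.mono hb, fun w _ => rfl⟩

lemma LocRe.mono {Ω Ω' : Set ℂ} {u : ℂ → ℝ} (hu : LocRe Ω u) (hΩ' : IsOpen Ω') (h : Ω' ⊆ Ω) :
    LocRe Ω' u := by
  intro z hz
  obtain ⟨r, hr, hb, g, hg, hug⟩ := hu z (h hz)
  obtain ⟨r', hr', hb'⟩ := Metric.isOpen_iff.mp hΩ' z hz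
  refine ⟨min r r', lt_min hr hr', ?_, g, hg.mono (ball_subset_ball (min_le_left _ _)), ?_⟩
  · exact (ball_subset_ball (min_le_right _ _)).trans hb'
  · exact fun w hw => hug w (ball_subset_ball (min_le_left _ _) hw)

lemma LocRe.add {Ω : Set ℂ} {u v : ℂ → ℝ} (hu : LocRe Ω u) (hv : LocRe Ω v) :
    LocRe Ω fun z => u z + v z := by
  intro z hz
  obtain ⟨r, hr, hb, g, hg, hug⟩ := hu z hz
  obtain ⟨s, hs, hb', g', hg', hvg⟩ := hv z hz
  refine ⟨min r s, lt_min hr hs, (ball_subset_ball (min_le_left _ _)).trans hb,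
    fun w => g w + g' w, ?_, ?_⟩
  · exact (hg.mono (ball_subset_ball (min_le_left _ _))).add
      (hg'.mono (ball_subset_ball (min_le_right _ _)))
  · intro w hw
    rw [Complex.add_re, ← hug w (ball_subset_ball (min_le_left _ _) hw),
      ← hvg w (ball_subset_ball (min_le_right _ _) hw)]

lemma LocRe.smul {Ω : Set ℂ} {u : ℂ → ℝ} (c : ℝ) (hu : LocRe Ω u) :
    LocRe Ω fun z => c * u z := by
  intro z hz
  obtain ⟨r, hr, hb, g, hg, hug⟩ := hu z hz
  refine ⟨r, hr, hb, fun w => (c : ℂ) * g w, hg.const_mul _, ?_⟩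
  intro w hw
  rw [Complex.re_ofReal_mul, ← hug w hw]

lemma LocRe.conj {Ω : Set ℂ} {u : ℂ → ℝ} (hΩ : ∀ z ∈ Ω, (starRingEnd ℂ) z ∈ Ω)
    (hu : LocRe Ω u) : LocRe Ω fun z => u ((starRingEnd ℂ) z) := by
  intro z hz
  obtain ⟨r, hr, hb, g, hg, hug⟩ := hu _ (hΩ z hz)
  have key : ∀ w ∈ ball z r, (starRingEnd ℂ) w ∈ ball ((starRingEnd ℂ) z) r := by
    intro w hw
    rw [mem_ball] at hw ⊢
    rwa [Complex.dist_conj_conj]
  refine ⟨r, hr, ?_, (starRingEnd ℂ) ∘ g ∘ (starRingEnd ℂ), ?_, ?_⟩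
  · intro w hw
    have := hΩ _ (hb (key w hw))
    rwa [Complex.conj_conj] at this
  · intro w hw
    have h1 : DifferentiableAt ℂ g ((starRingEnd ℂ) w) :=
      (hg _ (key w hw)).differentiableAt (isOpen_ball.mem_nhds (key w hw))
    have h2 := h1.conj_conj
    rw [Complex.conj_conj] at h2
    exact h2.differentiableWithinAt
  · intro w hw
    simp only [Function.comp_apply, Complex.conj_re]
    exact hug _ (key w hw)

lemma LocRe.continuousAt {Ω : Set ℂ} {u : ℂ → ℝ} (hu : LocRe Ω u) {z : ℂ} (hz : z ∈ Ω) :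
    ContinuousAt u z := by
  obtain ⟨r, hr, hb, g, hg, hug⟩ := hu z hz
  have h1 : ContinuousAt g z := (hg.continuousOn).continuousAt (ball_mem_nhds z hr)
  have h2 : ContinuousAt (fun w => (g w).re) z := Complex.continuous_re.continuousAt.comp h1
  exact h2.congr (by
    filter_upwards [ball_mem_nhds z hr] with w hw
    exact (hug w hw).symm)

lemma LocRe.eventually_eq {Ω : Set ℂ} {u : ℂ → ℝ} (hu : LocRe Ω u) {z : ℂ} (hz : z ∈ Ω)
    (hmax : IsLocalMax u z) : ∀ᶠ y in 𝓝 z, u y = u z := by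
  obtain ⟨r, hr, hb, g, hg, hug⟩ := hu z hz
  have hd : ∀ᶠ y in 𝓝 z, DifferentiableAt ℂ (fun w => Complex.exp (g w)) y := by
    filter_upwards [ball_mem_nhds z hr] with y hy
    exact ((hg y hy).differentiableAt (isOpen_ball.mem_nhds hy)).cexp
  have hm : IsLocalMax (norm ∘ fun w => Complex.exp (g w)) z := by
    filter_upwards [ball_mem_nhds z hr, hmax] with y hy hy2
    simp only [Function.comp_apply, Complex.norm_exp]
    rw [← hug y hy, ← hug z (mem_ball_self hr)]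
    exact Real.exp_le_exp.mpr hy2
  have h := Complex.norm_eventually_eq_of_isLocalMax hd hm
  filter_upwards [h, ball_mem_nhds z hr] with y hy hy2
  simp only [Complex.norm_exp] at hy
  rw [hug y hy2, hug z (mem_ball_self hr)]
  exact Real.exp_injective hy

lemma LocRe.eq_of_max {U : Set ℂ} {u : ℂ → ℝ} (hu : LocRe U u) (hU : IsOpen U)
    (hc : IsPreconnected U) {z₁ : ℂ} (hz₁ : z₁ ∈ U) (hmax : ∀ z ∈ U, u z ≤ u z₁) :
    ∀ z ∈ U, u z = u z₁ := by
  set S : Set ℂ := {z | z ∈ U ∧ u z = u z₁} with hS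
  have hSo : IsOpen S := by
    rw [isOpen_iff_mem_nhds]
    rintro z ⟨hz, hzu⟩
    have hm : IsLocalMax u z := by
      filter_upwards [hU.mem_nhds hz] with y hy
      rw [hzu]; exact hmax y hy
    filter_upwards [hu.eventually_eq hz hm, hU.mem_nhds hz] with y hy hy2
    exact ⟨hy2, hy.trans hzu⟩
  have hsub : U ⊆ S := by
    refine hc.subset_of_closure_inter_subset hSo ⟨z₁, hz₁, hz₁, rfl⟩ ?_
    rintro z ⟨hzc, hzU⟩
    refine ⟨hzU, ?_⟩
    have hcont := hu.continuousAt hzU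
    by_contra hne
    have h1 : ∀ᶠ y in 𝓝 z, u y ≠ u z₁ := hcont.eventually_ne hne
    obtain ⟨y, hy1, hy2⟩ := mem_closure_iff_nhds.mp hzc _ h1
    exact hy1 hy2.2
  exact fun z hz => (hsub hz).2

/-- the barriers: `K` has harmonic measure zero -/
def Bar (K : Set ℂ) : Prop :=
  ∀ z₀ : ℂ, 0 < z₀.im → ∀ η : ℝ, 0 < η → ∃ h : ℂ → ℂ, ∃ ρ > 0,
    DifferentiableOn ℂ h {z | -ρ < z.im} ∧ (∀ z, 0 ≤ z.im → 0 ≤ (h z).re) ∧
      (∀ z ∈ K, 1 ≤ (h z).re) ∧ (h z₀).re ≤ η

lemma isOpen_im (ρ : ℝ) : IsOpen {z : ℂ | ρ < z.im} := isOpen_lt continuous_const Complex.continuous_im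

lemma conn_im (ρ : ℝ) : IsPreconnected {z : ℂ | ρ < z.im} :=
  (convex_halfSpace_im_gt ρ).isPreconnected

theorem main_le {K : Set ℂ} (hKr : ∀ z ∈ K, z.im = 0) (hB : Bar K)
    {F : ℂ → ℂ} {u : ℂ → ℝ} (hF : DifferentiableOn ℂ F Kᶜ) (hK : IsClosed K)
    (hu : LocRe Kᶜ u) (hFu : ∀ z ∈ Kᶜ, ‖F z‖ ^ 2 ≤ u z)
    (hF0 : ∀ z ∈ Kᶜ, z.im = 0 → (F z).re = 0) (z₀ : ℂ) (hz₀ : 0 < z₀.im) : (F z₀).re ≤ 0 := by
  by_contra hcon
  push Not at hcon
  set a := (F z₀).re with ha
  have hUK : ∀ z : ℂ, 0 < z.im → z ∈ Kᶜ := fun z hz hzK => by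
    rw [hKr z hzK] at hz; exact lt_irrefl _ hz
  have hu0 : ∀ z ∈ Kᶜ, 0 ≤ u z := fun z hz => le_trans (by positivity) (hFu z hz)
  have hKo : IsOpen Kᶜ := hK.isOpen_compl
  -- parameters
  set ε : ℝ := a / (4 * (u z₀ + 1)) with hε
  have hu00 := hu0 z₀ (hUK z₀ hz₀)
  have hε0 : 0 < ε := by positivity
  have hεu : ε * u z₀ ≤ a / 4 := by
    rw [hε, div_mul_eq_mul_div, div_le_div_iff₀ (by positivity) (by norm_num)]
    nlinarith
  set M : ℝ := 1 / (4 * ε) with hM
  have hM0 : 0 < M := by positivity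
  have hMb : ∀ z ∈ Kᶜ, (F z).re - ε * u z ≤ M := by
    intro z hz
    have h1 : (F z).re ≤ ‖F z‖ := (le_abs_self _).trans (Complex.abs_re_le_norm _)
    have h2 := mul_le_mul_of_nonneg_left (hFu z hz) hε0.le
    have h3 : ‖F z‖ - ε * ‖F z‖ ^ 2 ≤ M := by
      rw [hM, le_div_iff₀ (by positivity)]
      nlinarith [sq_nonneg (2 * ε * ‖F z‖ - 1)]
    linarith
  obtain ⟨h, ρ, hρ, hhd, hh0, hhK, hhz⟩ := hB z₀ hz₀ (a / (8 * M)) (by positivity)
  have hhM : 2 * M * (h z₀).re ≤ a / 4 := by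
    calc 2 * M * (h z₀).re ≤ 2 * M * (a / (8 * M)) :=
          mul_le_mul_of_nonneg_left hhz (by positivity)
      _ = a / 4 := by field_simp; norm_num
  have hone : ∀ z : ℂ, 0 ≤ z.im → 1 ≤ ‖z + Complex.I‖ := by
    intro z hz
    have h1 : (z + Complex.I).im ≤ ‖z + Complex.I‖ :=
      (le_abs_self _).trans (Complex.abs_im_le_norm _)
    rw [Complex.add_im, Complex.I_im] at h1
    linarith
  have hlog0 : ∀ z : ℂ, 0 ≤ z.im → 0 ≤ Real.log ‖z + Complex.I‖ := fun z hz =>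
    Real.log_nonneg (hone z hz)
  set δ : ℝ := a / (4 * (Real.log ‖z₀ + Complex.I‖ + 1)) with hδ
  have hl0 := hlog0 z₀ hz₀.le
  have hδ0 : 0 < δ := by positivity
  have hδl : δ * Real.log ‖z₀ + Complex.I‖ ≤ a / 4 := by
    rw [hδ, div_mul_eq_mul_div, div_le_div_iff₀ (by positivity) (by norm_num)]
    nlinarith
  set W : ℂ → ℝ := fun z => ((F z).re + (-ε) * u z) + ((-(2 * M)) * (h z).re +
    (-δ) * Real.log ‖z + Complex.I‖) with hW
  have hWz₀ : 0 < W z₀ := by
    simp only [hW]; linarith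
  set Rr : ℝ := Real.exp (M / δ) with hRr
  set P : Set ℂ := {z | 0 ≤ z.im ∧ (h z).re ≤ 1 / 2 ∧ ‖z + Complex.I‖ ≤ Rr} with hP
  have hout : ∀ z, 0 ≤ z.im → z ∈ Kᶜ → z ∉ P → W z ≤ 0 := by
    intro z hz hzK hzP
    have h1 := hMb z hzK
    have h2 := hh0 z hz
    have h3 := hlog0 z hz
    have h4 : 0 ≤ δ * Real.log ‖z + Complex.I‖ := by positivity
    have h5 : 0 ≤ M * (h z).re := by positivity
    by_cases hc : (h z).re ≤ 1 / 2
    · have h6 : Rr < ‖z + Complex.I‖ := by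
        by_contra h7
        push Not at h7
        exact hzP ⟨hz, hc, h7⟩
      have h7 : M / δ ≤ Real.log ‖z + Complex.I‖ := by
        rw [← Real.log_exp (M / δ)]
        exact Real.log_le_log (Real.exp_pos _) h6.le
      rw [div_le_iff₀ hδ0] at h7
      simp only [hW]
      linarith
    · push Not at hc
      have h6 : M * (1 / 2) < M * (h z).re := mul_lt_mul_of_pos_left hc hM0
      simp only [hW]
      linarith
  have hPK : P ⊆ Kᶜ := by
    intro z hz hzK
    have h1 := hhK z hzK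
    have h2 := hz.2.1
    linarith
  have hPV : P ⊆ {z : ℂ | -ρ < z.im} := fun z hz => by
    have := hz.1
    show -ρ < z.im
    linarith
  have hPc : IsCompact P := by
    refine Metric.isCompact_of_isClosed_isBounded ?_ ?_
    · have hcl : IsClosed {z : ℂ | 0 ≤ z.im} := isClosed_le continuous_const Complex.continuous_im
      have hcont : ContinuousOn (fun z => (h z).re) {z : ℂ | 0 ≤ z.im} := by
        refine Complex.continuous_re.comp_continuousOn (hhd.continuousOn.mono ?_)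
        intro z hz
        show -ρ < z.im
        have : 0 ≤ z.im := hz
        linarith
      have h1 := hcont.preimage_isClosed_of_isClosed hcl (isClosed_Iic (a := (1 / 2 : ℝ)))
      have h2 : IsClosed {z : ℂ | ‖z + Complex.I‖ ≤ Rr} :=
        isClosed_le (by fun_prop) continuous_const
      have h3 : P = ({z : ℂ | 0 ≤ z.im} ∩ (fun z => (h z).re) ⁻¹' Iic (1 / 2)) ∩
          {z : ℂ | ‖z + Complex.I‖ ≤ Rr} := by
        ext z
        simp only [hP, Set.mem_ofPred_eq, mem_inter_iff, mem_preimage, mem_Iic, and_assoc]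
      rw [h3]
      exact h1.inter h2
    · refine (isBounded_closedBall (x := -Complex.I) (r := Rr)).subset ?_
      intro z hz
      rw [mem_closedBall, dist_eq_norm, sub_neg_eq_add]
      exact hz.2.2
  have hWc : ContinuousOn W P := by
    intro z hz
    have h1 : ContinuousAt F z :=
      ((hF z (hPK hz)).differentiableAt (hKo.mem_nhds (hPK hz))).continuousAt
    have h2 := hu.continuousAt (hPK hz)
    have h3 : ContinuousAt h z :=
      ((hhd z (hPV hz)).differentiableAt ((isOpen_im (-ρ)).mem_nhds (hPV hz))).continuousAt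
    have h4 : ContinuousAt (fun z : ℂ => Real.log ‖z + Complex.I‖) z := by
      refine ContinuousAt.log (by fun_prop) ?_
      have := hone z hz.1
      positivity
    refine ContinuousAt.continuousWithinAt ?_
    exact ((Complex.continuous_re.continuousAt.comp h1).add (h2.const_mul _)).add
      (((Complex.continuous_re.continuousAt.comp h3).const_mul _).add (h4.const_mul _))
  have hz₀P : z₀ ∈ P := by
    by_contra hn
    have := hout z₀ hz₀.le (hUK z₀ hz₀) hn
    linarith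
  obtain ⟨z₁, hz₁P, hz₁⟩ := hPc.exists_isMaxOn ⟨z₀, hz₀P⟩ hWc
  have hWz₁ : 0 < W z₁ := lt_of_lt_of_le hWz₀ (hz₁ hz₀P)
  have hz₁im : 0 < z₁.im := by
    rcases (hz₁P.1).eq_or_lt with h1 | h1
    · exfalso
      have h2 := hF0 z₁ (hPK hz₁P) h1.symm
      have h3 := hu0 z₁ (hPK hz₁P)
      have h4 := hh0 z₁ hz₁P.1
      have h5 := hlog0 z₁ hz₁P.1
      have h6 : 0 ≤ ε * u z₁ := by positivity
      have h7 : 0 ≤ M * (h z₁).re := by positivity
      have h8 : 0 ≤ δ * Real.log ‖z₁ + Complex.I‖ := by positivity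
      simp only [hW, h2] at hWz₁
      linarith
    · exact h1
  have hWmax : ∀ z ∈ {z : ℂ | 0 < z.im}, W z ≤ W z₁ := by
    intro z hz
    by_cases hzP : z ∈ P
    · exact hz₁ hzP
    · exact (hout z (le_of_lt hz) (hUK z hz) hzP).trans hWz₁.le
  have hWre : LocRe {z : ℂ | 0 < z.im} W := by
    have hsub : {z : ℂ | 0 < z.im} ⊆ Kᶜ := fun z hz => hUK z hz
    have h1 : LocRe {z : ℂ | 0 < z.im} fun z => (F z).re :=
      LocRe.of_re (isOpen_im 0) (hF.mono hsub)
    have h2 : LocRe {z : ℂ | 0 < z.im} u := hu.mono (isOpen_im 0) hsub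
    have h3 : LocRe {z : ℂ | 0 < z.im} fun z => (h z).re := by
      refine LocRe.of_re (isOpen_im 0) (hhd.mono fun z hz => ?_)
      have : 0 < z.im := hz
      show -ρ < z.im
      linarith
    have h4 : LocRe {z : ℂ | 0 < z.im} fun z => Real.log ‖z + Complex.I‖ := by
      have h5 : LocRe {z : ℂ | 0 < z.im} fun z => (Complex.log (z + Complex.I)).re := by
        refine LocRe.of_re (isOpen_im 0) fun z hz => ?_
        have hz' : 0 < z.im := hz
        refine DifferentiableAt.differentiableWithinAt ?_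
        refine DifferentiableAt.clog (by fun_prop) ?_
        rw [Complex.mem_slitPlane_iff]
        right
        rw [Complex.add_im, Complex.I_im]
        linarith
      simpa only [Complex.log_re] using h5
    exact (h1.add (h2.smul _)).add ((h3.smul _).add (h4.smul _))
  have hconst := hWre.eq_of_max (isOpen_im 0) (conn_im 0) (show z₁ ∈ {z : ℂ | 0 < z.im} from hz₁im)
    hWmax
  have hR0 : 0 < Rr := Real.exp_pos _
  have hz2 : (0 : ℝ) < ((Rr : ℂ) * Complex.I).im := by simpa using hR0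
  have h1 := hconst ((Rr : ℂ) * Complex.I) hz2
  have h2 := hout ((Rr : ℂ) * Complex.I) hz2.le (hUK _ hz2) (by
    rintro ⟨_, _, h3⟩
    have h4 : ((Rr : ℂ) * Complex.I + Complex.I).im ≤ ‖(Rr : ℂ) * Complex.I + Complex.I‖ :=
      (le_abs_self _).trans (Complex.abs_im_le_norm _)
    have h5 : ((Rr : ℂ) * Complex.I + Complex.I).im = Rr + 1 := by simp
    linarith)
  linarith

/-- functions with vanishing real part on a half plane are constant there -/
lemma const_of_re {F : ℂ → ℂ} (hF : DifferentiableOn ℂ F {z : ℂ | 0 < z.im})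
    (h : ∀ z : ℂ, 0 < z.im → (F z).re = 0) : ∃ c, ∀ z : ℂ, 0 < z.im → F z = c := by
  have han : AnalyticOnNhd ℂ F {z : ℂ | 0 < z.im} := hF.analyticOnNhd (isOpen_im 0)
  rcases han.is_constant_or_isOpen (conn_im 0) with ⟨c, hc⟩ | ho
  · exact ⟨c, fun z hz => hc z hz⟩
  · exfalso
    have h1 := ho _ Subset.rfl (isOpen_im 0)
    have hI : (0 : ℝ) < Complex.I.im := by simp
    have h2 : F Complex.I ∈ F '' {z : ℂ | 0 < z.im} := ⟨Complex.I, hI, rfl⟩
    obtain ⟨r, hr, hb⟩ := Metric.isOpen_iff.mp h1 _ h2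
    have h3 : F Complex.I + ((r / 2 : ℝ) : ℂ) ∈ ball (F Complex.I) r := by
      rw [mem_ball, dist_eq_norm, add_sub_cancel_left, Complex.norm_real, Real.norm_eq_abs,
        abs_of_pos (by positivity)]
      linarith
    obtain ⟨z, hz, hzF⟩ := hb h3
    have h4 := h z hz
    rw [hzF, Complex.add_re, h _ hI, Complex.ofReal_re] at h4
    linarith

theorem main_const {K : Set ℂ} (hKr : ∀ z ∈ K, z.im = 0) (hB : Bar K) (hK : IsClosed K)
    (hconn : IsPreconnected Kᶜ) {f : ℂ → ℂ} {u : ℂ → ℝ} (hf : DifferentiableOn ℂ f Kᶜ)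
    (hu : LocRe Kᶜ u) (hfu : ∀ z ∈ Kᶜ, ‖f z‖ ^ 2 ≤ u z) :
    ∀ z ∈ Kᶜ, ∀ w ∈ Kᶜ, f z = f w := by
  have hKo : IsOpen Kᶜ := hK.isOpen_compl
  have hUK : ∀ z : ℂ, 0 < z.im → z ∈ Kᶜ := fun z hz hzK => by
    rw [hKr z hzK] at hz; exact lt_irrefl _ hz
  have hcj : ∀ z ∈ Kᶜ, (starRingEnd ℂ) z ∈ Kᶜ := by
    intro z hz hz2
    have h1 := hKr _ hz2
    rw [Complex.conj_im, neg_eq_zero] at h1
    have h2 : (starRingEnd ℂ) z = z := Complex.conj_eq_iff_im.mpr h1
    rw [h2] at hz2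
    exact hz hz2
  set fc : ℂ → ℂ := (starRingEnd ℂ) ∘ f ∘ (starRingEnd ℂ) with hfc
  have hfcd : DifferentiableOn ℂ fc Kᶜ := by
    intro w hw
    have h1 : DifferentiableAt ℂ f ((starRingEnd ℂ) w) :=
      (hf _ (hcj w hw)).differentiableAt (hKo.mem_nhds (hcj w hw))
    have h2 := h1.conj_conj
    rw [Complex.conj_conj] at h2
    exact h2.differentiableWithinAt
  have hu2 : LocRe Kᶜ fun z => 2 * (u z + u ((starRingEnd ℂ) z)) :=
    (hu.add (hu.conj hcj)).smul 2
  have hfc2 : ∀ z ∈ Kᶜ, ‖fc z‖ ^ 2 ≤ u ((starRingEnd ℂ) z) := by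
    intro z hz
    have := hfu _ (hcj z hz)
    simpa [hfc] using this
  have hsum : ∀ a b : ℂ, ‖a + b‖ ^ 2 ≤ 2 * (‖a‖ ^ 2 + ‖b‖ ^ 2) := by
    intro a b
    have h1 := norm_add_le a b
    have h2 : ‖a + b‖ ^ 2 ≤ (‖a‖ + ‖b‖) ^ 2 := pow_le_pow_left₀ (norm_nonneg _) h1 2
    nlinarith [sq_nonneg (‖a‖ - ‖b‖)]
  -- the general step
  have step : ∀ F : ℂ → ℂ, DifferentiableOn ℂ F Kᶜ →
      (∀ z ∈ Kᶜ, ‖F z‖ ^ 2 ≤ 2 * (u z + u ((starRingEnd ℂ) z))) →
      (∀ z ∈ Kᶜ, z.im = 0 → (F z).re = 0) → ∃ c, ∀ z : ℂ, 0 < z.im → F z = c := by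
    intro F hF hFu hF0
    refine const_of_re (hF.mono fun z hz => hUK z hz) ?_
    intro z hz
    apply le_antisymm
    · exact main_le hKr hB hF hK hu2 hFu hF0 z hz
    · have h1 := main_le (F := fun z => - F z) hKr hB hF.neg hK hu2
        (fun z hz => by rw [norm_neg]; exact hFu z hz)
        (fun z hz hz0 => by rw [Complex.neg_re, hF0 z hz hz0, neg_zero]) z hz
      rw [Complex.neg_re] at h1
      linarith
  have hreal : ∀ z : ℂ, z.im = 0 → (starRingEnd ℂ) z = z := fun z hz =>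
    Complex.conj_eq_iff_im.mpr hz
  obtain ⟨c₁, hc₁⟩ := step (fun z => f z + -fc z) (hf.add hfcd.neg)
    (fun z hz => by
      refine (hsum _ _).trans ?_
      rw [norm_neg]
      have h1 := hfu z hz
      have h2 := hfc2 z hz
      linarith)
    (fun z hz hz0 => by
      simp only [hfc, Function.comp_apply, hreal z hz0, Complex.add_re, Complex.neg_re,
        Complex.conj_re]
      ring)
  obtain ⟨c₂, hc₂⟩ := step (fun z => Complex.I * (f z + fc z)) ((hf.add hfcd).const_mul _)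
    (fun z hz => by
      rw [norm_mul, Complex.norm_I, one_mul]
      refine (hsum _ _).trans ?_
      have h1 := hfu z hz
      have h2 := hfc2 z hz
      linarith)
    (fun z hz hz0 => by
      simp [hfc, Function.comp_apply, hreal z hz0])
  have hfU : ∀ z : ℂ, 0 < z.im → f z = (c₁ - Complex.I * c₂) / 2 := by
    intro z hz
    rw [← hc₁ z hz, ← hc₂ z hz]
    have : Complex.I * (Complex.I * (f z + fc z)) = -(f z + fc z) := by
      rw [← mul_assoc, Complex.I_mul_I, neg_one_mul]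
    rw [this]
    ring
  have hI : (0 : ℝ) < Complex.I.im := by simp
  have han : AnalyticOnNhd ℂ f Kᶜ := hf.analyticOnNhd hKo
  have hEq : EqOn f (fun _ => (c₁ - Complex.I * c₂) / 2) Kᶜ := by
    refine han.eqOn_of_preconnected_of_eventuallyEq analyticOnNhd_const hconn
      (hUK Complex.I hI) ?_
    filter_upwards [(isOpen_im 0).mem_nhds hI] with z hz
    exact hfU z hz
  intro z hz w hw
  rw [hEq hz, hEq hw]

/-- the complement of a closed nowhere dense subset of the real line is connected -/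
lemma conn_compl {K : Set ℂ} (hKr : ∀ z ∈ K, z.im = 0) (hK : IsClosed K) {x₀ : ℂ}
    (hx₀ : x₀ ∉ K) (hx₀r : x₀.im = 0) : IsConnected Kᶜ := by
  refine ⟨⟨x₀, hx₀⟩, ?_⟩
  have hKo : IsOpen Kᶜ := hK.isOpen_compl
  have hU : IsPreconnected (Kᶜ ∩ {z : ℂ | 0 ≤ z.im}) := by
    refine (conn_im 0).subset_closure ?_ ?_
    · intro z hz
      have : 0 < z.im := hz
      refine ⟨fun hzK => ?_, show 0 ≤ z.im from this.le⟩
      rw [hKr z hzK] at this; exact lt_irrefl _ this
    · rintro z ⟨hzK, hz⟩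
      have hz' : 0 ≤ z.im := hz
      rw [Metric.mem_closure_iff]
      intro ε hε
      refine ⟨z + ((ε / 2 : ℝ) : ℂ) * Complex.I, ?_, ?_⟩
      · show 0 < (z + ((ε / 2 : ℝ) : ℂ) * Complex.I).im
        simp only [Complex.add_im, Complex.mul_im, Complex.ofReal_re, Complex.I_im, mul_one,
          Complex.ofReal_im, Complex.I_re, mul_zero, add_zero]
        linarith
      · rw [dist_eq_norm, sub_add_cancel_left, norm_neg, norm_mul, Complex.norm_real,
          Complex.norm_I, mul_one, Real.norm_eq_abs, abs_of_pos (by positivity)]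
        linarith
  have hL : IsPreconnected (Kᶜ ∩ {z : ℂ | z.im ≤ 0}) := by
    refine (convex_halfSpace_im_lt 0).isPreconnected.subset_closure ?_ ?_
    · intro z hz
      have : z.im < 0 := hz
      refine ⟨fun hzK => ?_, show z.im ≤ 0 from this.le⟩
      rw [hKr z hzK] at this; exact lt_irrefl _ this
    · rintro z ⟨hzK, hz⟩
      have hz' : z.im ≤ 0 := hz
      rw [Metric.mem_closure_iff]
      intro ε hε
      refine ⟨z - ((ε / 2 : ℝ) : ℂ) * Complex.I, ?_, ?_⟩
      · show (z - ((ε / 2 : ℝ) : ℂ) * Complex.I).im < 0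
        simp only [Complex.sub_im, Complex.mul_im, Complex.ofReal_re, Complex.I_im, mul_one,
          Complex.ofReal_im, Complex.I_re, mul_zero, add_zero]
        linarith
      · rw [dist_eq_norm, sub_sub_cancel, norm_mul, Complex.norm_real,
          Complex.norm_I, mul_one, Real.norm_eq_abs, abs_of_pos (by positivity)]
        linarith
  have hun : Kᶜ = (Kᶜ ∩ {z : ℂ | 0 ≤ z.im}) ∪ (Kᶜ ∩ {z : ℂ | z.im ≤ 0}) := by
    ext z
    constructor
    · intro hz
      rcases le_total 0 z.im with h | h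
      · exact Or.inl ⟨hz, h⟩
      · exact Or.inr ⟨hz, h⟩
    · rintro (h | h) <;> exact h.1
  rw [hun]
  exact hU.union x₀ ⟨hx₀, hx₀r.ge⟩ ⟨hx₀, hx₀r.le⟩ hL

end Pool.Agent.Run7.h51.HN
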