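import Mathlib
import Pool.Agent.Run7.h51.HardyNull

/-!
The Cantor set on the real line: harmonic measure zero seen from the half planes, and a probability
measure of finite logarithmic energy.
-/

set_option autoImplicit false

open Set Filter Topology Metric MeasureTheory
open scoped ENNReal

namespace Pool.Agent.Run7.h51.HN

abbrev X := ℕ → Bool

/-- the ternary digits -/
def dg (a : X) : ℕ → Fin 3 := fun i => if a i then 2 else 0

noncomputable def phi (a : X) : ℝ := Real.ofDigits (dg a)

noncomputable def Phi (a : X) : ℂ := (phi a : ℂ)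

lemma phi_nonneg (a : X) : 0 ≤ phi a := Real.ofDigits_nonneg _

lemma phi_le (a : X) : phi a ≤ 1 := Real.ofDigits_le_one _

lemma phi_split (a : X) (n : ℕ) : phi a = (∑ i ∈ Finset.range n, Real.ofDigitsTerm (dg a) i) +
    ((3 : ℝ) ^ n)⁻¹ * phi (fun i => a (i + n)) := by
  have h := Real.ofDigits_eq_sum_add_ofDigits (dg a) n
  have e : (fun i => dg a (i + n)) = dg (fun i => a (i + n)) := rfl
  rw [e] at h
  exact_mod_cast h

lemma sum_congr' {a b : X} {n : ℕ} (h : ∀ i < n, a i = b i) :
    ∑ i ∈ Finset.range n, Real.ofDigitsTerm (dg a) i =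
      ∑ i ∈ Finset.range n, Real.ofDigitsTerm (dg b) i := by
  refine Finset.sum_congr rfl fun i hi => ?_
  simp only [Real.ofDigitsTerm, dg, h i (Finset.mem_range.mp hi)]

lemma sep0 {a b : X} (h : a 0 ≠ b 0) : 1 / 3 ≤ |phi a - phi b| := by
  have key : ∀ a b : X, a 0 = true → b 0 = false → 1 / 3 ≤ phi a - phi b := by
    intro a b ha hb
    rw [phi_split a 1, phi_split b 1]
    simp only [Finset.range_one, Finset.sum_singleton, Real.ofDigitsTerm, dg, ha, hb, if_true,
      Bool.false_eq_true, if_false]
    have h1 := phi_nonneg (fun i => a (i + 1))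
    have h2 := phi_le (fun i => b (i + 1))
    norm_num
    linarith
  cases ha : a 0 with
  | true =>
    cases hb : b 0 with
    | true => exact absurd (ha.trans hb.symm) h
    | false => exact (key a b ha hb).trans (le_abs_self _)
  | false =>
    cases hb : b 0 with
    | true =>
      rw [abs_sub_comm]
      exact (key b a hb ha).trans (le_abs_self _)
    | false => exact absurd (ha.trans hb.symm) h

lemma sep {a b : X} {n : ℕ} (h : ∀ i < n, a i = b i) (hn : a n ≠ b n) :
    ((3 : ℝ) ^ (n + 1))⁻¹ ≤ |phi a - phi b| := by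
  rw [phi_split a n, phi_split b n, sum_congr' h, add_sub_add_left_eq_sub, ← mul_sub, abs_mul,
    abs_of_nonneg (by positivity), pow_succ, mul_inv]
  refine mul_le_mul_of_nonneg_left ?_ (by positivity)
  have := sep0 (a := fun i => a (i + n)) (b := fun i => b (i + n)) (by simpa using hn)
  rwa [one_div] at this

lemma phi_sub_le (a b : X) : |phi a - phi b| ≤ 1 := by
  rw [abs_le]
  constructor <;> linarith [phi_nonneg a, phi_nonneg b, phi_le a, phi_le b]

lemma phi_inj : Function.Injective phi := by
  intro a b hab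
  by_contra hne
  have hex : ∃ i, a i ≠ b i := by
    by_contra hcon
    push Not at hcon
    exact hne (funext hcon)
  classical
  have h1 := sep (fun i hi => by
    have := Nat.find_min hex hi
    push Not at this
    exact this) (Nat.find_spec hex)
  rw [hab, sub_self, abs_zero] at h1
  have : (0 : ℝ) < ((3 : ℝ) ^ (Nat.find hex + 1))⁻¹ := by positivity
  linarith

lemma continuous_phi : Continuous phi := by
  refine Real.continuous_ofDigits.comp ?_
  refine continuous_pi fun i => ?_
  exact (continuous_of_discreteTopology (f := fun b : Bool => (if b then 2 else 0 : Fin 3))).comp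
    (continuous_apply i)

lemma continuous_Phi : Continuous Phi := Complex.continuous_ofReal.comp continuous_phi

lemma Phi_inj : Function.Injective Phi := Complex.ofReal_injective.comp phi_inj

def K : Set ℂ := range Phi

lemma K_compact : IsCompact K := isCompact_range continuous_Phi

lemma K_real : ∀ z ∈ K, z.im = 0 := by
  rintro z ⟨a, rfl⟩
  exact Complex.ofReal_im _

lemma two_not_mem : (2 : ℂ) ∉ K := by
  rintro ⟨a, ha⟩
  have h1 : phi a = 2 := by
    have : ((phi a : ℝ) : ℂ) = ((2 : ℝ) : ℂ) := by rw [← Phi, ha]; norm_num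
    exact_mod_cast this
  linarith [phi_le a]

/-! ### Barriers -/

/-- extension of a finite sequence by `false` -/
def ext {n : ℕ} (p : Fin n → Bool) : X := fun i => if h : i < n then p ⟨i, h⟩ else false

noncomputable def cen {n : ℕ} (p : Fin n → Bool) : ℝ :=
  ∑ i ∈ Finset.range n, Real.ofDigitsTerm (dg (ext p)) i

lemma phi_near (a : X) (n : ℕ) : |phi a - cen (fun i : Fin n => a i)| ≤ ((3 : ℝ) ^ n)⁻¹ := by
  have h : cen (fun i : Fin n => a i) = ∑ i ∈ Finset.range n, Real.ofDigitsTerm (dg a) i := by
    unfold cen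
    refine sum_congr' fun i hi => ?_
    simp [ext, hi]
  rw [h, phi_split a n, add_sub_cancel_left]
  have h1 := phi_nonneg (fun i => a (i + n))
  have h2 := phi_le (fun i => a (i + n))
  have h3 : (0 : ℝ) ≤ ((3 : ℝ) ^ n)⁻¹ := by positivity
  rw [abs_of_nonneg (by positivity)]
  nlinarith

noncomputable def term (c ρ : ℝ) (z : ℂ) : ℂ := (((2 * ρ : ℝ) : ℂ) * Complex.I) / (z - c + (ρ : ℂ) * Complex.I)

lemma term_re (c ρ : ℝ) (z : ℂ) : (term c ρ z).re =
    2 * ρ * (z.im + ρ) / ((z.re - c) ^ 2 + (z.im + ρ) ^ 2) := by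
  unfold term
  rw [Complex.div_re]
  have e1 : (z - c + (ρ : ℂ) * Complex.I).re = z.re - c := by simp
  have e2 : (z - c + (ρ : ℂ) * Complex.I).im = z.im + ρ := by simp
  have e3 : ((((2 * ρ : ℝ) : ℂ) * Complex.I)).re = 0 := by simp
  have e4 : ((((2 * ρ : ℝ) : ℂ) * Complex.I)).im = 2 * ρ := by simp
  rw [Complex.normSq_apply, e1, e2, e3, e4]
  ring_nf

lemma bar_K : Bar K := by
  intro z₀ hz₀ η hη
  obtain ⟨n, hn⟩ := exists_pow_lt_of_lt_one (show 0 < η * z₀.im / 2 by positivity)
    (show (2 / 3 : ℝ) < 1 by norm_num)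
  set ρ : ℝ := ((3 : ℝ) ^ n)⁻¹ with hρ
  have hρ0 : 0 < ρ := by positivity
  refine ⟨fun z => ∑ p : Fin n → Bool, term (cen p) ρ z, ρ, hρ0, ?_, ?_, ?_, ?_⟩
  · refine DifferentiableOn.fun_sum fun p _ => ?_
    intro z hz
    have hz' : -ρ < z.im := hz
    refine DifferentiableAt.differentiableWithinAt ?_
    unfold term
    refine DifferentiableAt.div (by fun_prop) (by fun_prop) ?_
    intro h0
    have h1 := congrArg Complex.im h0
    simp at h1
    linarith
  · intro z hz
    rw [Complex.re_sum]
    refine Finset.sum_nonneg fun p _ => ?_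
    rw [term_re]
    positivity
  · rintro z ⟨a, rfl⟩
    rw [Complex.re_sum]
    have h1 : (term (cen fun i : Fin n => a i) ρ (Phi a)).re ≤
        ∑ p : Fin n → Bool, (term (cen p) ρ (Phi a)).re := by
      refine Finset.single_le_sum (f := fun p : Fin n → Bool => (term (cen p) ρ (Phi a)).re)
        (fun p _ => ?_) (Finset.mem_univ _)
      rw [term_re]
      have : (Phi a).im = 0 := Complex.ofReal_im _
      rw [this]
      positivity
    refine le_trans ?_ h1
    rw [term_re]
    have e1 : (Phi a).im = 0 := Complex.ofReal_im _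
    have e2 : (Phi a).re = phi a := Complex.ofReal_re _
    rw [e1, e2, zero_add, le_div_iff₀ (by positivity), one_mul]
    have h2 := phi_near a n
    have h3 : (phi a - cen fun i : Fin n => a i) ^ 2 ≤ ρ ^ 2 := by
      rw [← sq_abs]
      exact pow_le_pow_left₀ (abs_nonneg _) h2 2
    nlinarith
  · rw [Complex.re_sum]
    have h1 : ∀ p ∈ (Finset.univ : Finset (Fin n → Bool)),
        (term (cen p) ρ z₀).re ≤ 2 * ρ / z₀.im := by
      intro p _
      rw [term_re, div_le_div_iff₀ (by positivity) hz₀]
      have h2 : 0 ≤ (z₀.re - cen p) ^ 2 := sq_nonneg _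
      have h3 : (z₀.im + ρ) * z₀.im ≤ (z₀.re - cen p) ^ 2 + (z₀.im + ρ) ^ 2 := by nlinarith
      calc 2 * ρ * (z₀.im + ρ) * z₀.im = 2 * ρ * ((z₀.im + ρ) * z₀.im) := by ring
        _ ≤ 2 * ρ * ((z₀.re - cen p) ^ 2 + (z₀.im + ρ) ^ 2) :=
          mul_le_mul_of_nonneg_left h3 (by positivity)
    refine (Finset.sum_le_sum h1).trans ?_
    rw [Finset.sum_const, Finset.card_univ, Fintype.card_fun, Fintype.card_bool, Fintype.card_fin,
      nsmul_eq_mul, mul_div_assoc', div_le_iff₀ hz₀]
    have e : (((2 ^ n : ℕ) : ℝ)) * (2 * ρ) = 2 * (2 / 3) ^ n := by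
      rw [hρ, div_pow]; push_cast; field_simp
    rw [e]
    linarith

/-! ### The measure -/

noncomputable def coin : Measure Bool := (2⁻¹ : ℝ≥0∞) • Measure.count

lemma coin_singleton (b : Bool) : coin {b} = 2⁻¹ := by
  simp [coin]

instance : IsProbabilityMeasure coin := ⟨by
  have : (univ : Set Bool) = {true} ∪ {false} := by ext b; cases b <;> simp
  rw [this, measure_union (by simp) (measurableSet_singleton _), coin_singleton, coin_singleton]
  exact ENNReal.inv_two_add_inv_two⟩

noncomputable def P : Measure X := Measure.infinitePi fun _ : ℕ => coin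

instance : IsProbabilityMeasure P := by unfold P; infer_instance

lemma P_cyl (a : X) (n : ℕ) : P {b : X | ∀ i < n, a i = b i} = (2⁻¹ : ℝ≥0∞) ^ n := by
  have : {b : X | ∀ i < n, a i = b i} = Set.pi (Finset.range n : Finset ℕ) fun i => {a i} := by
    ext b
    simp only [Set.mem_ofPred_eq, Set.mem_pi, Finset.coe_range, Set.mem_Iio, Set.mem_singleton_iff]
    exact forall₂_congr fun i _ => eq_comm
  rw [this, P, Measure.infinitePi_pi _ fun i _ => measurableSet_singleton _]
  simp only [coin_singleton, Finset.prod_const, Finset.card_range]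

lemma P_singleton (a : X) : P {a} = 0 := by
  have h : ∀ n : ℕ, P {a} ≤ (2⁻¹ : ℝ≥0∞) ^ n := fun n => by
    rw [← P_cyl a n]
    refine measure_mono ?_
    rintro b rfl
    exact fun i _ => rfl
  have h2 : Tendsto (fun n : ℕ => (2⁻¹ : ℝ≥0∞) ^ n) atTop (𝓝 0) :=
    ENNReal.tendsto_pow_atTop_nhds_zero_of_lt_one (by simp)
  exact le_antisymm (ge_of_tendsto' h2 h) zero_le

def D (n : ℕ) : Set (X × X) := {q | ∀ i < n, q.1 i = q.2 i}

lemma meas_D (n : ℕ) : MeasurableSet (D n) := by
  have : D n = ⋂ i : ℕ, ⋂ _ : i < n, {q : X × X | q.1 i = q.2 i} := by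
    ext q; simp [D]
  rw [this]
  refine MeasurableSet.iInter fun i => MeasurableSet.iInter fun _ => ?_
  exact measurableSet_eq_fun ((measurable_pi_apply i).comp measurable_fst)
    ((measurable_pi_apply i).comp measurable_snd)

lemma P_D (n : ℕ) : (P.prod P) (D n) = (2⁻¹ : ℝ≥0∞) ^ n := by
  rw [Measure.prod_apply (meas_D n)]
  have : ∀ a : X, P (Prod.mk a ⁻¹' D n) = (2⁻¹ : ℝ≥0∞) ^ n := fun a => P_cyl a n
  simp only [this, lintegral_const, measure_univ, mul_one]

lemma log_bound (a b : X) : ‖Real.log |phi a - phi b|‖ₑ ≤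
    ∑' n, (D n).indicator (fun _ => ENNReal.ofReal (Real.log 3)) (a, b) := by
  by_cases hab : a = b
  · subst hab
    simp
  · have hex : ∃ i, a i ≠ b i := by
      by_contra hcon
      push Not at hcon
      exact hab (funext hcon)
    classical
    set n := Nat.find hex with hn
    have hlt : ∀ i < n, a i = b i := fun i hi => by
      have := Nat.find_min hex hi
      push Not at this
      exact this
    have h1 := sep hlt (Nat.find_spec hex)
    have h2 := phi_sub_le a b
    have h0 : (0 : ℝ) < ((3 : ℝ) ^ (n + 1))⁻¹ := by positivity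
    have h3 : -Real.log |phi a - phi b| ≤ (n + 1) * Real.log 3 := by
      have := Real.log_le_log h0 h1
      rw [Real.log_inv, Real.log_pow] at this
      push_cast at this
      linarith
    have h4 : Real.log |phi a - phi b| ≤ 0 := Real.log_nonpos (abs_nonneg _) h2
    have h5 : ‖Real.log |phi a - phi b|‖ₑ ≤ ENNReal.ofReal ((n + 1) * Real.log 3) := by
      rw [← ofReal_norm, Real.norm_eq_abs, abs_of_nonpos h4]
      exact ENNReal.ofReal_le_ofReal h3
    refine h5.trans ?_
    calc ENNReal.ofReal ((n + 1) * Real.log 3)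
        = ∑ m ∈ Finset.range (n + 1),
            (D m).indicator (fun _ => ENNReal.ofReal (Real.log 3)) (a, b) := by
          rw [Finset.sum_congr rfl (g := fun _ => ENNReal.ofReal (Real.log 3))]
          · rw [Finset.sum_const, Finset.card_range, nsmul_eq_mul,
              ENNReal.ofReal_mul (by positivity)]
            congr 1
            have : ((n : ℝ) + 1) = ((n + 1 : ℕ) : ℝ) := by push_cast; rfl
            rw [this, ENNReal.ofReal_natCast]
          · intro m hm
            have hm' : m ≤ n := Nat.lt_succ_iff.mp (Finset.mem_range.mp hm)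
            exact indicator_of_mem (show (a, b) ∈ D m from fun i hi =>
              hlt i (lt_of_lt_of_le hi hm')) _
      _ ≤ _ := ENNReal.sum_le_tsum _

lemma integrable_log : Integrable (fun q : X × X => Real.log |phi q.1 - phi q.2|) (P.prod P) := by
  refine ⟨?_, ?_⟩
  · refine Measurable.aestronglyMeasurable ?_
    refine Real.measurable_log.comp ?_
    have h1 : Measurable fun q : X × X => phi q.1 := continuous_phi.measurable.comp measurable_fst
    have h2 : Measurable fun q : X × X => phi q.2 := continuous_phi.measurable.comp measurable_snd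
    exact (h1.sub h2).norm
  · unfold HasFiniteIntegral
    refine lt_of_le_of_lt (lintegral_mono fun q => log_bound q.1 q.2) ?_
    rw [lintegral_tsum fun n => (measurable_const.indicator (meas_D n)).aemeasurable]
    have : ∀ n, ∫⁻ q, (D n).indicator (fun _ => ENNReal.ofReal (Real.log 3)) (q.1, q.2)
        ∂(P.prod P) = ENNReal.ofReal (Real.log 3) * (2⁻¹ : ℝ≥0∞) ^ n := by
      intro n
      have e : (fun q : X × X => (D n).indicator (fun _ => ENNReal.ofReal (Real.log 3)) (q.1, q.2))
        = (D n).indicator (fun _ => ENNReal.ofReal (Real.log 3)) := rfl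
      rw [e, lintegral_indicator_const (meas_D n), P_D]
    simp only [this]
    rw [ENNReal.tsum_mul_left, ENNReal.tsum_geometric]
    refine ENNReal.mul_lt_top ENNReal.ofReal_lt_top ?_
    rw [ENNReal.one_sub_inv_two, inv_inv]
    exact ENNReal.ofNat_lt_top

end Pool.Agent.Run7.h51.HN
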