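import Mathlib

/-!
# Finitely supported combinations of points and Lipschitz functions

Basic objects for the quantitative Schur property of the Lipschitz-free space of a uniformly
separated metric space: the pairing of a finitely supported scalar function with a function, the
class `LL o K` of `K`-Lipschitz functions vanishing at the base point, the radial cut-off
functions, and two descent lemmas along an ultrafilter.
-/

namespace Pool.Agent.Run7.h51.US

open Filter Topology Set
open scoped Classical in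
/-- The mass of `a` off the base point. -/
noncomputable def massOff {𝕜 : Type*} [RCLike 𝕜] {M : Type*} (o : M) (a : M →₀ 𝕜) : ℝ :=
  ∑ p ∈ a.support, (if p = o then 0 else ‖a p‖)

variable {𝕜 : Type*} [RCLike 𝕜] {M : Type*} [MetricSpace M]

/-- The pairing of a finitely supported scalar function with a function. -/
noncomputable def pr (a : M →₀ 𝕜) (f : M → 𝕜) : 𝕜 := ∑ p ∈ a.support, a p * f p

/-- `K`-Lipschitz functions vanishing at the base point `o`. -/
structure LL (o : M) (K : ℝ) (f : M → 𝕜) : Prop where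
  zero : f o = 0
  lip : ∀ x y, ‖f x - f y‖ ≤ K * dist x y

theorem LL.bound {o : M} {K : ℝ} {f : M → 𝕜} (h : LL o K f) (x : M) : ‖f x‖ ≤ K * dist x o := by
  have := h.lip x o
  rwa [h.zero, sub_zero] at this

theorem LL.mono {o : M} {K L : ℝ} {f : M → 𝕜} (h : LL o K f) (hKL : K ≤ L) : LL o L f :=
  ⟨h.zero, fun x y => (h.lip x y).trans (mul_le_mul_of_nonneg_right hKL dist_nonneg)⟩

theorem LL.add {o : M} {K L : ℝ} {f g : M → 𝕜} (hf : LL o K f) (hg : LL o L g) :
    LL o (K + L) (fun p => f p + g p) := by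
  refine ⟨by simp [hf.zero, hg.zero], fun x y => ?_⟩
  calc ‖f x + g x - (f y + g y)‖ = ‖(f x - f y) + (g x - g y)‖ := by ring_nf
    _ ≤ ‖f x - f y‖ + ‖g x - g y‖ := norm_add_le _ _
    _ ≤ K * dist x y + L * dist x y := add_le_add (hf.lip x y) (hg.lip x y)
    _ = (K + L) * dist x y := by ring

theorem LL.sub {o : M} {K L : ℝ} {f g : M → 𝕜} (hf : LL o K f) (hg : LL o L g) :
    LL o (K + L) (fun p => f p - g p) := by
  refine ⟨by simp [hf.zero, hg.zero], fun x y => ?_⟩
  calc ‖f x - g x - (f y - g y)‖ = ‖(f x - f y) - (g x - g y)‖ := by ring_nf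
    _ ≤ ‖f x - f y‖ + ‖g x - g y‖ := norm_sub_le _ _
    _ ≤ K * dist x y + L * dist x y := add_le_add (hf.lip x y) (hg.lip x y)
    _ = (K + L) * dist x y := by ring

theorem LL.smul {o : M} {K : ℝ} {f : M → 𝕜} (hf : LL o K f) (c : 𝕜) :
    LL o (‖c‖ * K) (fun p => c * f p) := by
  refine ⟨by simp [hf.zero], fun x y => ?_⟩
  calc ‖c * f x - c * f y‖ = ‖c‖ * ‖f x - f y‖ := by rw [← mul_sub, norm_mul]
    _ ≤ ‖c‖ * (K * dist x y) := mul_le_mul_of_nonneg_left (hf.lip x y) (norm_nonneg _)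
    _ = ‖c‖ * K * dist x y := by ring

theorem pr_add (a : M →₀ 𝕜) (f g : M → 𝕜) : pr a (fun p => f p + g p) = pr a f + pr a g := by
  unfold pr
  rw [← Finset.sum_add_distrib]
  exact Finset.sum_congr rfl fun p _ => by ring

theorem pr_sub (a : M →₀ 𝕜) (f g : M → 𝕜) : pr a (fun p => f p - g p) = pr a f - pr a g := by
  unfold pr
  rw [← Finset.sum_sub_distrib]
  exact Finset.sum_congr rfl fun p _ => by ring

theorem pr_smul (a : M →₀ 𝕜) (c : 𝕜) (f : M → 𝕜) : pr a (fun p => c * f p) = c * pr a f := by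
  unfold pr
  rw [Finset.mul_sum]
  exact Finset.sum_congr rfl fun p _ => by ring

/-- A bound against `1`-Lipschitz functions gives one against `K`-Lipschitz functions. -/
theorem pr_le {o : M} {C : ℝ} {a : M →₀ 𝕜} (hC : ∀ f : M → 𝕜, LL o 1 f → ‖pr a f‖ ≤ C)
    {K : ℝ} (hK : 0 < K) {f : M → 𝕜} (hf : LL o K f) : ‖pr a f‖ ≤ K * C := by
  have h1 : LL o 1 (fun p => ((K⁻¹ : ℝ) : 𝕜) * f p) := by
    have := hf.smul ((K⁻¹ : ℝ) : 𝕜)
    have e : ‖((K⁻¹ : ℝ) : 𝕜)‖ * K = 1 := by
      rw [RCLike.norm_ofReal, abs_of_pos (inv_pos.2 hK), inv_mul_cancel₀ hK.ne']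
    rwa [e] at this
  have h2 := hC _ h1
  rw [pr_smul, norm_mul, RCLike.norm_ofReal, abs_of_pos (inv_pos.2 hK)] at h2
  rw [inv_mul_le_iff₀ hK] at h2
  exact h2

/-- Multiplying by a unimodular constant makes the pairing real and nonnegative. -/
theorem exists_rotate {o : M} {K : ℝ} {a : M →₀ 𝕜} {g : M → 𝕜} (hg : LL o K g) :
    ∃ g' : M → 𝕜, LL o K g' ∧ RCLike.re (pr a g') = ‖pr a g‖ ∧
      (∀ p, g p = 0 → g' p = 0) ∧ ∀ p, ‖g' p‖ = ‖g p‖ := by
  obtain ⟨c, hc, hc'⟩ := RCLike.exists_norm_eq_mul_self (pr a g)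
  refine ⟨fun p => c * g p, ?_, ?_, ?_, ?_⟩
  · have := hg.smul c
    rwa [hc, one_mul] at this
  · rw [pr_smul, ← hc', RCLike.ofReal_re]
  · intro p hp
    simp [hp]
  · intro p
    rw [norm_mul, hc, one_mul]

/-- The radial cut-off function: `1` on the ball of radius `R`, `0` off the ball of radius `2R`. -/
noncomputable def hR (o : M) (R : ℝ) (p : M) : ℝ := max 0 (min 1 (2 - dist p o / R))

theorem hR_nonneg (o : M) (R : ℝ) (p : M) : 0 ≤ hR o R p := le_max_left _ _

theorem hR_le_one (o : M) (R : ℝ) (p : M) : hR o R p ≤ 1 :=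
  max_le zero_le_one (min_le_left _ _)

theorem hR_eq_one {o : M} {R : ℝ} (hRp : 0 < R) {p : M} (hp : dist p o ≤ R) : hR o R p = 1 := by
  unfold hR
  have : dist p o / R ≤ 1 := (div_le_one hRp).2 hp
  rw [min_eq_left (by linarith), max_eq_right zero_le_one]

theorem hR_eq_zero {o : M} {R : ℝ} (hRp : 0 < R) {p : M} (hp : 2 * R ≤ dist p o) :
    hR o R p = 0 := by
  unfold hR
  have : 2 ≤ dist p o / R := by rw [le_div_iff₀ hRp]; exact hp
  rw [max_eq_left]
  exact (min_le_right _ _).trans (by linarith)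

theorem hR_lip {o : M} {R : ℝ} (hRp : 0 < R) (x y : M) :
    |hR o R x - hR o R y| ≤ dist x y / R := by
  unfold hR
  have h1 : |max 0 (min 1 (2 - dist x o / R)) - max 0 (min 1 (2 - dist y o / R))|
      ≤ |min 1 (2 - dist x o / R) - min 1 (2 - dist y o / R)| := by
    have := abs_max_sub_max_le_abs (min 1 (2 - dist x o / R)) (min 1 (2 - dist y o / R)) 0
    simpa [max_comm] using this
  have h2 : |min 1 (2 - dist x o / R) - min 1 (2 - dist y o / R)|
      ≤ |(2 - dist x o / R) - (2 - dist y o / R)| := by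
    have := abs_min_sub_min_le_max 1 (2 - dist x o / R) 1 (2 - dist y o / R)
    simpa using this
  have h3 : |(2 - dist x o / R) - (2 - dist y o / R)| = |dist x o - dist y o| / R := by
    rw [show (2 - dist x o / R) - (2 - dist y o / R) = -((dist x o - dist y o) / R) by ring,
      abs_neg, abs_div, abs_of_pos hRp]
  have h4 : |dist x o - dist y o| ≤ dist x y := abs_dist_sub_le x y o
  calc _ ≤ _ := h1
    _ ≤ _ := h2
    _ = _ := h3
    _ ≤ _ := div_le_div_of_nonneg_right h4 hRp.le

/-- Cutting a `1`-Lipschitz function gives a `3`-Lipschitz function. -/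
theorem LL.cut {o : M} {R : ℝ} (hRp : 0 < R) {g : M → 𝕜} (hg : LL o 1 g) :
    LL o 3 (fun p => (hR o R p : 𝕜) * g p) := by
  refine ⟨by simp [hg.zero], ?_⟩
  have key : ∀ x y : M, dist x o ≤ dist y o →
      ‖(hR o R x : 𝕜) * g x - (hR o R y : 𝕜) * g y‖ ≤ 3 * dist x y := by
    intro x y hxy
    by_cases hx : dist x o ≤ 2 * R
    · have e : (hR o R x : 𝕜) * g x - (hR o R y : 𝕜) * g y =
          ((hR o R x - hR o R y : ℝ) : 𝕜) * g x + (hR o R y : 𝕜) * (g x - g y) := by
        push_cast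
        ring
      rw [e]
      have h1 : ‖((hR o R x - hR o R y : ℝ) : 𝕜) * g x‖ ≤ 2 * dist x y := by
        rw [norm_mul, RCLike.norm_ofReal]
        have ha := hR_lip (o := o) hRp x y
        have hb := hg.bound x
        rw [one_mul] at hb
        calc |hR o R x - hR o R y| * ‖g x‖ ≤ (dist x y / R) * (2 * R) :=
              mul_le_mul ha (hb.trans hx) (norm_nonneg _) (by positivity)
          _ = 2 * dist x y := by field_simp
      have h2 : ‖(hR o R y : 𝕜) * (g x - g y)‖ ≤ dist x y := by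
        rw [norm_mul, RCLike.norm_ofReal, abs_of_nonneg (hR_nonneg _ _ _)]
        have hb := hg.lip x y
        rw [one_mul] at hb
        calc hR o R y * ‖g x - g y‖ ≤ 1 * dist x y :=
              mul_le_mul (hR_le_one _ _ _) hb (norm_nonneg _) zero_le_one
          _ = dist x y := one_mul _
      calc _ ≤ _ := norm_add_le _ _
        _ ≤ 2 * dist x y + dist x y := add_le_add h1 h2
        _ = 3 * dist x y := by ring
    · push Not at hx
      rw [hR_eq_zero hRp hx.le, hR_eq_zero hRp (hx.le.trans hxy)]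
      simp only [RCLike.ofReal_zero, zero_mul, sub_zero, norm_zero]
      positivity
  intro x y
  rcases le_total (dist x o) (dist y o) with h | h
  · exact key x y h
  · rw [norm_sub_rev, dist_comm x y]
    exact key y x h

/-- Two cut-offs. -/
theorem LL.cut2 {o : M} {R R' : ℝ} (hRp : 0 < R) (hRp' : 0 < R') {g : M → 𝕜} (hg : LL o 1 g) :
    LL o 6 (fun p => ((hR o R' p - hR o R p : ℝ) : 𝕜) * g p) := by
  have h := (hg.cut hRp').sub (hg.cut hRp)
  have e : (fun p => (hR o R' p : 𝕜) * g p - (hR o R p : 𝕜) * g p) =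
      fun p => ((hR o R' p - hR o R p : ℝ) : 𝕜) * g p := by
    funext p
    push_cast
    ring
  rw [e] at h
  exact h.mono (by norm_num)

/-- Descent for a bounded potential. -/
theorem potential {ι : Type*} (U : Ultrafilter ι) (Φ : ι → Finset M → ℝ) (B : ℝ)
    (h0 : ∀ i P, 0 ≤ Φ i P) (hB : ∀ i P, Φ i P ≤ B) {ε : ℝ} (hε : 0 < ε) :
    ∃ P : Finset M, ∀ P' : Finset M, P ⊆ P' → ∀ᶠ i in (U : Filter ι), Φ i P - Φ i P' ≤ ε := by
  classical
  by_contra h
  push Not at h
  have h' : ∀ P : Finset M, ∃ P' : Finset M, P ⊆ P' ∧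
      ∀ᶠ i in (U : Filter ι), ε < Φ i P - Φ i P' := by
    intro P
    obtain ⟨P', h1, h2⟩ := h P
    exact ⟨P', h1, h2⟩
  have key : ∀ m : ℕ, ∃ P : Finset M, ∀ᶠ i in (U : Filter ι), Φ i P + m * ε ≤ Φ i ∅ := by
    intro m
    induction m with
    | zero => exact ⟨∅, by simp⟩
    | succ m ih =>
      obtain ⟨P, hP⟩ := ih
      obtain ⟨P', _, hP'⟩ := h' P
      refine ⟨P', ?_⟩
      filter_upwards [hP, hP'] with i h1 h2
      push_cast
      linarith
  obtain ⟨m, hm⟩ := exists_nat_gt (B / ε)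
  obtain ⟨P, hP⟩ := key m
  obtain ⟨i, hi⟩ := hP.exists
  rw [div_lt_iff₀ hε] at hm
  linarith [h0 i P, hB i ∅]

/-- The middle part is small in norm. -/
theorem middle {ι : Type*} (U : Ultrafilter ι) (o : M) (a : ι → (M →₀ 𝕜)) (C : ℝ)
    (hC : ∀ i (f : M → 𝕜), LL o 1 f → ‖pr (a i) f‖ ≤ C) {ε : ℝ} (hε : 0 < ε) :
    ∃ R : ℝ, 1 ≤ R ∧ ∀ R', R ≤ R' → ∀ᶠ i in (U : Filter ι), ∀ g : M → 𝕜, LL o 1 g →
      ‖pr (a i) (fun p => ((hR o R' p - hR o R p : ℝ) : 𝕜) * g p)‖ ≤ ε := by
  classical
  by_contra h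
  push Not at h
  have h' : ∀ R : ℝ, 1 ≤ R → ∃ R', R ≤ R' ∧ ∀ᶠ i in (U : Filter ι), ∃ g : M → 𝕜, LL o 1 g ∧
      ε < ‖pr (a i) (fun p => ((hR o R' p - hR o R p : ℝ) : 𝕜) * g p)‖ := by
    intro R hR1
    obtain ⟨R', h1, h2⟩ := h R hR1
    exact ⟨R', h1, h2⟩
  have key : ∀ m : ℕ, ∃ R : ℝ, 1 ≤ R ∧ ∀ᶠ i in (U : Filter ι), ∃ F : M → 𝕜, LL o 6 F ∧
      (∀ x, ‖F x‖ ≤ dist x o) ∧ (∀ x, R / 2 ≤ dist x o → F x = 0) ∧
      m * ε ≤ RCLike.re (pr (a i) F) := by
    intro m
    induction m with
    | zero =>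
      refine ⟨1, le_rfl, Eventually.of_forall fun i => ⟨fun _ => 0, ⟨rfl, fun x y => ?_⟩, ?_, ?_, ?_⟩⟩
      · simp only [sub_zero, norm_zero]; positivity
      · intro x; simp only [norm_zero]; exact dist_nonneg
      · intro x _; rfl
      · simp [pr]
    | succ m ih =>
      obtain ⟨R, hR1, hP⟩ := ih
      obtain ⟨R', hRR', hP'⟩ := h' R hR1
      have hRp : 0 < R := by linarith
      have hRp' : 0 < R' := by linarith
      refine ⟨4 * R', by linarith, ?_⟩
      filter_upwards [hP, hP'] with i h1 h2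
      obtain ⟨F, hF, hFb, hF0, hFm⟩ := h1
      obtain ⟨g, hg, hgε⟩ := h2
      have hG := hg.cut2 hRp hRp'
      obtain ⟨G, hGL, hGre, hGz, hGn⟩ := exists_rotate (a := a i) hG
      -- properties of G
      have hG0 : ∀ x, dist x o ≤ R → G x = 0 := by
        intro x hx
        apply hGz
        rw [hR_eq_one hRp hx, hR_eq_one hRp' (hx.trans hRR')]
        simp
      have hG1 : ∀ x, 2 * R' ≤ dist x o → G x = 0 := by
        intro x hx
        apply hGz
        rw [hR_eq_zero hRp' hx, hR_eq_zero hRp (by linarith)]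
        simp
      have hGb : ∀ x, ‖G x‖ ≤ dist x o := by
        intro x
        rw [hGn x, norm_mul, RCLike.norm_ofReal]
        have hb := hg.bound x
        rw [one_mul] at hb
        have hl : |hR o R' x - hR o R x| ≤ 1 := by
          rw [abs_le]
          constructor
          · linarith [hR_nonneg o R' x, hR_le_one o R x]
          · linarith [hR_nonneg o R x, hR_le_one o R' x]
        calc |hR o R' x - hR o R x| * ‖g x‖ ≤ 1 * dist x o :=
              mul_le_mul hl hb (norm_nonneg _) zero_le_one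
          _ = dist x o := one_mul _
      refine ⟨fun p => F p + G p, ⟨?_, ?_⟩, ?_, ?_, ?_⟩
      · simp [hF.zero, hGL.zero]
      · have key2 : ∀ x y : M, dist x o ≤ dist y o →
            ‖F x + G x - (F y + G y)‖ ≤ 6 * dist x y := by
          intro x y hxy
          by_cases hx : R / 2 ≤ dist x o
          · rw [hF0 x hx, hF0 y (hx.trans hxy), zero_add, zero_add]
            exact hGL.lip x y
          · push Not at hx
            by_cases hy : dist y o ≤ R
            · rw [hG0 y hy, hG0 x (by linarith), add_zero, add_zero]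
              exact hF.lip x y
            · push Not at hy
              rw [hG0 x (by linarith), hF0 y (by linarith), add_zero, zero_add]
              have t : dist y o ≤ dist x y + dist x o := by
                have := dist_triangle y x o
                rwa [dist_comm y x] at this
              calc ‖F x - G y‖ ≤ ‖F x‖ + ‖G y‖ := norm_sub_le _ _
                _ ≤ dist x o + dist y o := add_le_add (hFb x) (hGb y)
                _ ≤ 6 * dist x y := by linarith
        intro x y
        rcases le_total (dist x o) (dist y o) with hh | hh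
        · exact key2 x y hh
        · rw [norm_sub_rev, dist_comm x y]
          exact key2 y x hh
      · intro x
        show ‖F x + G x‖ ≤ dist x o
        by_cases hx : R / 2 ≤ dist x o
        · rw [hF0 x hx, zero_add]
          exact hGb x
        · push Not at hx
          rw [hG0 x (by linarith), add_zero]
          exact hFb x
      · intro x hx
        show F x + G x = 0
        rw [hF0 x (by linarith), hG1 x (by linarith), add_zero]
      · rw [pr_add, map_add, hGre, Nat.cast_succ]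
        linarith
  obtain ⟨m, hm⟩ := exists_nat_gt (6 * C / ε)
  obtain ⟨R, _, hP⟩ := key m
  obtain ⟨i, F, hF, _, _, hFm⟩ := hP.exists
  rw [div_lt_iff₀ hε] at hm
  have h1 := pr_le (hC i) (by norm_num : (0 : ℝ) < 6) hF
  have h2 := RCLike.re_le_norm (pr (a i) F)
  linarith

/-- Mass bound for a uniformly separated space. -/
theorem mass {o : M} {s : ℝ} (hs : 0 < s) (hsep : ∀ x y : M, x ≠ y → s ≤ dist x y)
    {C : ℝ} {a : M →₀ 𝕜} (hC : ∀ f : M → 𝕜, LL o 1 f → ‖pr a f‖ ≤ C) :
    massOff o a ≤ 2 * C / s := by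
  classical
  unfold massOff
  set f : M → 𝕜 := fun p => if p = o then 0 else
    ((s / 2 : ℝ) : 𝕜) * (starRingEnd 𝕜 (a p) * ((‖a p‖⁻¹ : ℝ) : 𝕜)) with hf
  have hfb : ∀ p, ‖f p‖ ≤ s / 2 := by
    intro p
    simp only [hf]
    split_ifs
    · simp only [norm_zero]; positivity
    · rw [norm_mul, norm_mul, RCLike.norm_conj, RCLike.norm_ofReal, RCLike.norm_ofReal,
        abs_of_pos (by positivity : (0 : ℝ) < s / 2), abs_of_nonneg (by positivity)]
      have : ‖a p‖ * ‖a p‖⁻¹ ≤ 1 := mul_inv_le_one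
      nlinarith
  have hL : LL o 1 f := by
    refine ⟨by simp [hf], fun x y => ?_⟩
    by_cases hxy : x = y
    · simp [hxy]
    · calc ‖f x - f y‖ ≤ ‖f x‖ + ‖f y‖ := norm_sub_le _ _
        _ ≤ s / 2 + s / 2 := add_le_add (hfb x) (hfb y)
        _ ≤ 1 * dist x y := by have := hsep x y hxy; linarith
  have h1 := hC f hL
  have h2 : pr a f = ((s / 2 * ∑ p ∈ a.support, (if p = o then 0 else ‖a p‖) : ℝ) : 𝕜) := by
    unfold pr
    rw [Finset.mul_sum, RCLike.ofReal_sum]
    refine Finset.sum_congr rfl fun p hp => ?_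
    simp only [hf]
    split_ifs with hpo
    · simp
    · have hne : a p ≠ 0 := Finsupp.mem_support_iff.1 hp
      have hn : (‖a p‖ : 𝕜) ≠ 0 := by
        rw [Ne, RCLike.ofReal_eq_zero, norm_eq_zero]
        exact hne
      have e : a p * starRingEnd 𝕜 (a p) = (‖a p‖ : 𝕜) ^ 2 := RCLike.mul_conj (a p)
      push_cast
      calc a p * ((s : 𝕜) / 2 * (starRingEnd 𝕜 (a p) * (‖a p‖ : 𝕜)⁻¹)) =
            (s : 𝕜) / 2 * ((a p * starRingEnd 𝕜 (a p)) * (‖a p‖ : 𝕜)⁻¹) := by ring
        _ = (s : 𝕜) / 2 * (‖a p‖ : 𝕜) := by rw [e]; field_simp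
  rw [h2, RCLike.norm_ofReal, abs_of_nonneg (by
    apply mul_nonneg (by positivity)
    apply Finset.sum_nonneg
    intro p _
    split_ifs <;> simp)] at h1
  rw [le_div_iff₀ hs]
  linarith

end Pool.Agent.Run7.h51.US
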