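import Pool.Agent.Run7.h51.USBase

/-!
# The core construction

Along an ultrafilter, a bounded family of finitely supported combinations of points of a uniformly
separated metric space which stays away from the combinations of every finite set of points
contains a sequence on which a single Lipschitz function is large; moreover the function can be
chosen to vanish on the supports of any initial part of the sequence.
-/

namespace Pool.Agent.Run7.h51.US

open Filter Topology Set

variable {𝕜 : Type*} [RCLike 𝕜] {M : Type*} [MetricSpace M]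

/-- The potential of `a` relative to the finite set `P`. -/
noncomputable def pot (o : M) (R : ℝ) (a : M →₀ 𝕜) (P : Finset M) : ℝ :=
  ∑ p ∈ a.support, ‖a p‖ * hR o R p * Metric.infDist p (insert o (P : Set M))

theorem pot_nonneg (o : M) (R : ℝ) (a : M →₀ 𝕜) (P : Finset M) : 0 ≤ pot o R a P :=
  Finset.sum_nonneg fun _ _ =>
    mul_nonneg (mul_nonneg (norm_nonneg _) (hR_nonneg _ _ _)) Metric.infDist_nonneg

theorem pot_le {o : M} {R : ℝ} (hRp : 0 < R) (a : M →₀ 𝕜) (P : Finset M) :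
    pot o R a P ≤ massOff o a * (2 * R) := by
  classical
  unfold pot massOff
  rw [Finset.sum_mul]
  refine Finset.sum_le_sum fun p _ => ?_
  by_cases hpo : p = o
  · rw [if_pos hpo, hpo, Metric.infDist_zero_of_mem (mem_insert _ _)]
    simp
  · rw [if_neg hpo, mul_assoc]
    refine mul_le_mul_of_nonneg_left ?_ (norm_nonneg _)
    have h1 : Metric.infDist p (insert o (P : Set M)) ≤ dist p o :=
      Metric.infDist_le_dist_of_mem (mem_insert _ _)
    by_cases hp : 2 * R ≤ dist p o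
    · rw [hR_eq_zero hRp hp, zero_mul]; positivity
    · push Not at hp
      calc hR o R p * Metric.infDist p (insert o (P : Set M)) ≤ 1 * (2 * R) :=
            mul_le_mul (hR_le_one _ _ _) (h1.trans hp.le) Metric.infDist_nonneg zero_le_one
        _ = 2 * R := one_mul _

/-- A Lipschitz function with scalar values on a subset extends, with twice the constant. -/
theorem extend_LL {o : M} {K : ℝ} (hK : 0 ≤ K) {Z : Set M} (hoZ : o ∈ Z) (f0 : M → 𝕜)
    (hf0 : f0 o = 0) (hl : ∀ x ∈ Z, ∀ y ∈ Z, ‖f0 x - f0 y‖ ≤ K * dist x y) :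
    ∃ f : M → 𝕜, LL o (2 * K) f ∧ ∀ x ∈ Z, f x = f0 x := by
  have hre : LipschitzOnWith (Real.toNNReal K) (fun x => RCLike.re (f0 x)) Z := by
    refine LipschitzOnWith.of_dist_le_mul fun x hx y hy => ?_
    rw [Real.coe_toNNReal K hK, Real.dist_eq, ← map_sub]
    exact (RCLike.abs_re_le_norm _).trans (hl x hx y hy)
  have him : LipschitzOnWith (Real.toNNReal K) (fun x => RCLike.im (f0 x)) Z := by
    refine LipschitzOnWith.of_dist_le_mul fun x hx y hy => ?_
    rw [Real.coe_toNNReal K hK, Real.dist_eq, ← map_sub]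
    exact (RCLike.abs_im_le_norm _).trans (hl x hx y hy)
  obtain ⟨u, hu, hu'⟩ := hre.extend_real
  obtain ⟨v, hv, hv'⟩ := him.extend_real
  have hval : ∀ x ∈ Z, ((u x : ℝ) : 𝕜) + ((v x : ℝ) : 𝕜) * RCLike.I = f0 x := by
    intro x hx
    rw [← hu' hx, ← hv' hx]
    exact RCLike.re_add_im (f0 x)
  refine ⟨fun x => ((u x : ℝ) : 𝕜) + ((v x : ℝ) : 𝕜) * RCLike.I, ⟨?_, fun x y => ?_⟩, hval⟩
  · rw [hval o hoZ, hf0]
  · have h1 := hu.dist_le_mul x y
    have h2 := hv.dist_le_mul x y
    rw [Real.coe_toNNReal K hK, Real.dist_eq] at h1 h2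
    have hI : ‖(RCLike.I : 𝕜)‖ ≤ 1 := by
      rcases RCLike.I_mul_I (K := 𝕜) with h | h
      · simp [h]
      · have : ‖(RCLike.I : 𝕜)‖ * ‖(RCLike.I : 𝕜)‖ = 1 := by
          rw [← norm_mul, h, norm_neg, norm_one]
        nlinarith [norm_nonneg (RCLike.I : 𝕜)]
    calc ‖((u x : ℝ) : 𝕜) + ((v x : ℝ) : 𝕜) * RCLike.I
            - (((u y : ℝ) : 𝕜) + ((v y : ℝ) : 𝕜) * RCLike.I)‖
          = ‖((u x - u y : ℝ) : 𝕜) + ((v x - v y : ℝ) : 𝕜) * RCLike.I‖ := by
            push_cast; ring_nf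
      _ ≤ ‖((u x - u y : ℝ) : 𝕜)‖ + ‖((v x - v y : ℝ) : 𝕜) * RCLike.I‖ := norm_add_le _ _
      _ ≤ |u x - u y| + |v x - v y| * 1 := by
            rw [norm_mul, RCLike.norm_ofReal, RCLike.norm_ofReal]
            gcongr
      _ ≤ 2 * K * dist x y := by linarith

/-- A bound for the radius of a finite set. -/
noncomputable def rad (o : M) (R : ℝ) (P : Finset M) : ℝ := 8 * R + 4 * ∑ p ∈ P, dist p o

theorem rad_ge (o : M) (R : ℝ) (P : Finset M) : 8 * R ≤ rad o R P := by
  unfold rad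
  have : 0 ≤ ∑ p ∈ P, dist p o := Finset.sum_nonneg fun _ _ => dist_nonneg
  linarith

theorem rad_ge' {o : M} {R : ℝ} {P : Finset M} {p : M} (hp : p ∈ P) :
    8 * R + 4 * dist p o ≤ rad o R P := by
  unfold rad
  have : dist p o ≤ ∑ p ∈ P, dist p o :=
    Finset.single_le_sum (f := fun p => dist p o) (fun _ _ => dist_nonneg) hp
  linarith

/-- The kept points of the support: near good points and far points. -/
def Kept (o : M) (R : ℝ) (a : M →₀ 𝕜) (P₁ P : Finset M) : Set M :=
  {p | p ∈ a.support ∧ ((dist p o ≤ 2 * R ∧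
    Metric.infDist p (insert o (P₁ : Set M)) ≤ 2 * Metric.infDist p (insert o (P : Set M))) ∨
    rad o R P < dist p o)}

theorem LL.infDist_le {o : M} {K : ℝ} {g : M → 𝕜} (hg : LL o K g) {P : Finset M}
    (hP : ∀ p ∈ P, g p = 0) (x : M) : ‖g x‖ ≤ K * Metric.infDist x (insert o (P : Set M)) := by
  have hfin : (insert o (P : Set M)).Finite := (P.finite_toSet).insert o
  have hne : (insert o (P : Set M)).Nonempty := ⟨o, mem_insert _ _⟩
  obtain ⟨y, hy, hxy⟩ := hfin.isCompact.exists_infDist_eq_dist hne x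
  rw [hxy]
  have hgy : g y = 0 := by
    rcases hy with rfl | hy
    · exact hg.zero
    · exact hP y hy
  have := hg.lip x y
  rwa [hgy, sub_zero] at this

theorem kept_est {o : M} {R : ℝ} (hRp : 0 < R) {a : M →₀ 𝕜} {P₁ P : Finset M} {g : M → 𝕜}
    (hg : LL o 1 g) (hgP : ∀ p ∈ P₁, g p = 0) {x y : M} (hx : x ∈ Kept o R a P₁ P)
    (hy : y = o ∨ y ∈ P) : ‖g x‖ ≤ 2 * dist x y := by
  obtain ⟨_, ⟨_, h2⟩ | h2⟩ := hx
  · have h3 := hg.infDist_le hgP x
    have h4 : Metric.infDist x (insert o (P : Set M)) ≤ dist x y :=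
      Metric.infDist_le_dist_of_mem (by
        rcases hy with rfl | hy
        · exact mem_insert _ _
        · exact mem_insert_of_mem _ hy)
    linarith
  · have h3 := hg.bound x
    have h4 : dist y o ≤ dist x o / 4 := by
      rcases hy with rfl | hy
      · rw [dist_self]; positivity
      · have := rad_ge' (o := o) (R := R) hy
        linarith
    have h5 : dist x o ≤ dist x y + dist y o := dist_triangle _ _ _
    have h6 : 0 ≤ dist x o := dist_nonneg
    linarith

theorem kept_est2 {o : M} {R : ℝ} (hRp : 0 < R) {a : M →₀ 𝕜} {P₁ P : Finset M}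
    {g g' : M → 𝕜}
    (hg : LL o 1 g) (hgP : ∀ p ∈ P₁, g p = 0) (hg' : LL o 1 g') (hgP' : ∀ p ∈ P₁, g' p = 0)
    {x y : M} (hx : x ∈ Kept o R a P₁ P) (hy : y ∈ P) :
    ‖g x‖ ≤ 2 * dist x y ∧ ‖g' y‖ ≤ 3 * dist x y := by
  refine ⟨kept_est hRp hg hgP hx (Or.inr hy), ?_⟩
  obtain ⟨_, ⟨_, h2⟩ | h2⟩ := hx
  · have h3 := hg'.infDist_le hgP' y
    have h4 : Metric.infDist x (insert o (P : Set M)) ≤ dist x y :=
      Metric.infDist_le_dist_of_mem (mem_insert_of_mem _ hy)
    have h5 : Metric.infDist y (insert o (P₁ : Set M)) ≤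
        Metric.infDist x (insert o (P₁ : Set M)) + dist y x := Metric.infDist_le_infDist_add_dist
    rw [dist_comm y x] at h5
    linarith
  · have h3 := hg'.bound y
    have h4 : 8 * R + 4 * dist y o ≤ rad o R P := rad_ge' hy
    have h5 : dist x o ≤ dist x y + dist y o := dist_triangle _ _ _
    have h6 : 0 ≤ dist y o := dist_nonneg
    linarith

/-- The core theorem. -/
theorem core {ι : Type*} (U : Ultrafilter ι) (o : M) {s : ℝ} (hs : 0 < s)
    (hsep : ∀ x y : M, x ≠ y → s ≤ dist x y) (a : ι → (M →₀ 𝕜)) (C : ℝ)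
    (hC : ∀ i (f : M → 𝕜), LL o 1 f → ‖pr (a i) f‖ ≤ C) (c : ℝ)
    (hc : ∀ P : Finset M, ∀ᶠ i in (U : Filter ι), ∃ g : M → 𝕜, LL o 1 g ∧ (∀ p ∈ P, g p = 0) ∧
      c < ‖pr (a i) g‖)
    (E : ℕ → Set ι) (hE : ∀ k, E k ∈ U) {η : ℝ} (hη : 0 < η) :
    ∃ n : ℕ → ι, (∀ k, n k ∈ E k) ∧ ∀ m : ℕ, ∃ f : M → 𝕜, LL o 10 f ∧
      (∀ k, k < m → ∀ p ∈ (a (n k)).support, f p = 0) ∧
      ∀ k, m ≤ k → c - η ≤ RCLike.re (pr (a (n k)) f) := by
  classical
  set ε : ℝ := η / 33 with hεdef
  have hε : 0 < ε := by positivity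
  obtain ⟨R, hR1, hmid⟩ := middle (𝕜 := 𝕜) U o a C hC hε
  have hRp : 0 < R := by linarith
  obtain ⟨P₀, hP₀⟩ := potential U (fun i P => pot o R (a i) P) (2 * C / s * (2 * R))
    (fun i P => pot_nonneg _ _ _ _) (fun i P => (pot_le hRp _ _).trans
      (mul_le_mul_of_nonneg_right (mass hs hsep (hC i)) (by positivity))) hε
  -- the selection sets
  have hsel : ∀ (k : ℕ) (P : Finset M), P₀ ⊆ P → ∃ i, i ∈ E k ∧
      pot o R (a i) P₀ - pot o R (a i) P ≤ ε ∧
      (∀ g : M → 𝕜, LL o 1 g →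
        ‖pr (a i) (fun p => ((hR o (rad o R P) p - hR o R p : ℝ) : 𝕜) * g p)‖ ≤ ε) ∧
      ∃ g : M → 𝕜, LL o 1 g ∧ (∀ p ∈ P₀, g p = 0) ∧ c < ‖pr (a i) g‖ := by
    intro k P hP
    have h1 := hP₀ P hP
    have h2 := hmid (rad o R P) (by linarith [rad_ge o R P])
    have h3 := hc P₀
    have h4 : ∀ᶠ i in (U : Filter ι), i ∈ E k := hE k
    obtain ⟨i, hi⟩ := (((h4.and h1).and h2).and h3).exists
    exact ⟨i, hi.1.1.1, hi.1.1.2, hi.1.2, hi.2⟩
  have hne : Nonempty ι := ⟨(hsel 0 P₀ (Finset.Subset.refl _)).choose⟩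
  let sel : ℕ → Finset M → ι := fun k P =>
    if h : P₀ ⊆ P then (hsel k P h).choose else Classical.arbitrary ι
  have hselspec : ∀ (k : ℕ) (P : Finset M), P₀ ⊆ P → sel k P ∈ E k ∧
      pot o R (a (sel k P)) P₀ - pot o R (a (sel k P)) P ≤ ε ∧
      (∀ g : M → 𝕜, LL o 1 g →
        ‖pr (a (sel k P)) (fun p => ((hR o (rad o R P) p - hR o R p : ℝ) : 𝕜) * g p)‖ ≤ ε) ∧
      ∃ g : M → 𝕜, LL o 1 g ∧ (∀ p ∈ P₀, g p = 0) ∧ c < ‖pr (a (sel k P)) g‖ := by
    intro k P hP
    have e : sel k P = (hsel k P hP).choose := by simp only [sel, dif_pos hP]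
    rw [e]
    exact (hsel k P hP).choose_spec
  obtain ⟨Q, hQ0, hQs⟩ : ∃ Q : ℕ → Finset M, Q 0 = P₀ ∧
      ∀ k, Q (k + 1) = Q k ∪ (a (sel k (Q k))).support :=
    ⟨fun k => Nat.rec P₀ (fun k P => P ∪ (a (sel k P)).support) k, rfl, fun _ => rfl⟩
  have hQmono : Monotone Q := monotone_nat_of_le_succ fun k => by
    rw [hQs]; exact Finset.subset_union_left
  have hQP : ∀ k, P₀ ⊆ Q k := fun k => by rw [← hQ0]; exact hQmono (Nat.zero_le k)
  let n : ℕ → ι := fun k => sel k (Q k)
  have hsupp : ∀ i k, i < k → (a (n i)).support ⊆ Q k := by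
    intro i k hik
    have h1 : (a (n i)).support ⊆ Q (i + 1) := by rw [hQs]; exact Finset.subset_union_right
    exact h1.trans (hQmono hik)
  have hg : ∀ k, ∃ g : M → 𝕜, LL o 1 g ∧ (∀ p ∈ P₀, g p = 0) ∧ c < RCLike.re (pr (a (n k)) g) := by
    intro k
    obtain ⟨g, h1, h2, h3⟩ := (hselspec k (Q k) (hQP k)).2.2.2
    obtain ⟨g', h4, h5, h6, _⟩ := exists_rotate (a := a (n k)) h1
    exact ⟨g', h4, fun p hp => h6 p (h2 p hp), by rw [h5]; exact h3⟩
  choose g hgL hgP hgc using hg
  refine ⟨n, fun k => (hselspec k (Q k) (hQP k)).1, fun m => ?_⟩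
  -- the kept points
  let D : ℕ → Set M := fun k => Kept o R (a (n k)) P₀ (Q k)
  have hDsupp : ∀ i k, i < k → ∀ y ∈ D i, y ∈ Q k := fun i k hik y hy => hsupp i k hik hy.1
  -- coincidence
  have hco : ∀ i k, i < k → ∀ y, y ∈ D i → y ∈ D k → g k y = 0 ∧ g i y = 0 := by
    intro i k hik y hyi hyk
    obtain ⟨h1, h2⟩ := kept_est2 hRp (hgL k) (hgP k) (hgL i) (hgP i) hyk (hDsupp i k hik y hyi)
    rw [dist_self, mul_zero] at h1 h2
    exact ⟨norm_le_zero_iff.1 h1, norm_le_zero_iff.1 h2⟩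
  have hco' : ∀ i k y, y ∈ D i → y ∈ D k → g i y = g k y := by
    intro i k y hyi hyk
    rcases lt_trichotomy i k with h | h | h
    · rw [(hco i k h y hyi hyk).1, (hco i k h y hyi hyk).2]
    · rw [h]
    · rw [(hco k i h y hyk hyi).1, (hco k i h y hyk hyi).2]
  let f0 : M → 𝕜 := fun y => if h : ∃ k, m ≤ k ∧ y ∈ D k then g h.choose y else 0
  have hf0D : ∀ k, m ≤ k → ∀ y ∈ D k, f0 y = g k y := by
    intro k hk y hy
    have h : ∃ k, m ≤ k ∧ y ∈ D k := ⟨k, hk, hy⟩
    have e : f0 y = g h.choose y := by simp only [f0, dif_pos h]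
    rw [e]
    exact hco' _ _ y h.choose_spec.2 hy
  have hf0Q : ∀ y, (y = o ∨ y ∈ Q m) → f0 y = 0 := by
    intro y hy
    by_cases h : ∃ k, m ≤ k ∧ y ∈ D k
    · obtain ⟨k, hk, hyk⟩ := h
      rw [hf0D k hk y hyk]
      have h1 := kept_est hRp (hgL k) (hgP k) hyk (hy.imp id fun h => hQmono hk h)
      rw [dist_self, mul_zero] at h1
      exact norm_le_zero_iff.1 h1
    · simp only [f0, dif_neg h]
  let Z : Set M := {y | (y = o ∨ y ∈ Q m) ∨ ∃ k, m ≤ k ∧ y ∈ D k}
  have hlip : ∀ x ∈ Z, ∀ y ∈ Z, ‖f0 x - f0 y‖ ≤ 5 * dist x y := by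
    have hDD : ∀ k i, m ≤ k → m ≤ i → i ≤ k → ∀ x ∈ D k, ∀ y ∈ D i,
        ‖f0 x - f0 y‖ ≤ 5 * dist x y := by
      intro k i hk hi hik x hx y hy
      rw [hf0D k hk x hx, hf0D i hi y hy]
      rcases hik.lt_or_eq with h | h
      · obtain ⟨h1, h2⟩ := kept_est2 hRp (hgL k) (hgP k) (hgL i) (hgP i) hx (hDsupp i k h y hy)
        calc ‖g k x - g i y‖ ≤ ‖g k x‖ + ‖g i y‖ := norm_sub_le _ _
          _ ≤ 5 * dist x y := by linarith
      · subst h
        have := (hgL i).lip x y
        have := dist_nonneg (x := x) (y := y)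
        linarith
    have hDQ : ∀ k, m ≤ k → ∀ x ∈ D k, ∀ y, (y = o ∨ y ∈ Q m) →
        ‖f0 x - f0 y‖ ≤ 5 * dist x y := by
      intro k hk x hx y hy
      rw [hf0D k hk x hx, hf0Q y hy, sub_zero]
      have h1 := kept_est hRp (hgL k) (hgP k) hx (hy.imp id fun h => hQmono hk h)
      have := dist_nonneg (x := x) (y := y)
      linarith
    intro x hx y hy
    rcases hx with hx | ⟨k, hk, hx⟩
    · rcases hy with hy | ⟨i, hi, hy⟩
      · rw [hf0Q x hx, hf0Q y hy, sub_zero, norm_zero]; positivity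
      · rw [norm_sub_rev, dist_comm]
        exact hDQ i hi y hy x hx
    · rcases hy with hy | ⟨i, hi, hy⟩
      · exact hDQ k hk x hx y hy
      · rcases le_total i k with h | h
        · exact hDD k i hk hi h x hx y hy
        · rw [norm_sub_rev, dist_comm]
          exact hDD i k hi hk h y hy x hx
  have hoZ : o ∈ Z := Or.inl (Or.inl rfl)
  obtain ⟨f, hfL, hfZ⟩ := extend_LL (by norm_num : (0 : ℝ) ≤ 5) hoZ f0 (hf0Q o (Or.inl rfl)) hlip
  have hfL : LL o 10 f := hfL.mono (by norm_num)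
  refine ⟨f, hfL, ?_, ?_⟩
  · intro k hk p hp
    have hpQ : p ∈ Q m := hsupp k m hk hp
    rw [hfZ p (Or.inl (Or.inr hpQ)), hf0Q p (Or.inr hpQ)]
  · intro k hk
    -- compare `f` with `g k`
    have hdL : LL o 11 (fun p => f p - g k p) := (hfL.sub (hgL k)).mono (by norm_num)
    have hdP : ∀ p ∈ P₀, f p - g k p = 0 := by
      intro p hp
      have hpQ : p ∈ Q m := hQP m hp
      rw [hfZ p (Or.inl (Or.inr hpQ)), hf0Q p (Or.inr hpQ), hgP k p hp, sub_zero]
    have hdD : ∀ p ∈ D k, f p - g k p = 0 := by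
      intro p hp
      rw [hfZ p (Or.inr ⟨k, hk, hp⟩), hf0D k hk p hp, sub_self]
    set d : M → 𝕜 := fun p => f p - g k p with hd
    have hdD' : ∀ p ∈ D k, d p = 0 := hdD
    obtain ⟨_, hpot, hmidk, _⟩ := hselspec k (Q k) (hQP k)
    set R' : ℝ := rad o R (Q k) with hR'
    have hR'p : 0 < R' := by linarith [rad_ge o R (Q k)]
    -- splitting
    have hsplit : pr (a (n k)) d =
        pr (a (n k)) (fun p => (hR o R p : 𝕜) * d p) +
        pr (a (n k)) (fun p => ((hR o R' p - hR o R p : ℝ) : 𝕜) * d p) := by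
      have e3 : pr (a (n k)) (fun p => ((1 - hR o R' p : ℝ) : 𝕜) * d p) = 0 := by
        unfold pr
        refine Finset.sum_eq_zero fun p hp => ?_
        show (a (n k)) p * (((1 - hR o R' p : ℝ) : 𝕜) * d p) = 0
        by_cases hpr : dist p o ≤ R'
        · rw [hR_eq_one hR'p hpr]; simp
        · push Not at hpr
          rw [hdD' p ⟨hp, Or.inr hpr⟩]; simp
      rw [← pr_add]
      have : pr (a (n k)) d = pr (a (n k)) (fun p =>
          ((hR o R p : 𝕜) * d p + ((hR o R' p - hR o R p : ℝ) : 𝕜) * d p) +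
          ((1 - hR o R' p : ℝ) : 𝕜) * d p) := by
        congr 1
        funext p
        push_cast
        ring
      rw [this, pr_add, e3, add_zero]
    have hsecond : ‖pr (a (n k)) (fun p => ((hR o R' p - hR o R p : ℝ) : 𝕜) * d p)‖ ≤ 11 * ε := by
      have h1 : LL o 1 (fun p => ((11⁻¹ : ℝ) : 𝕜) * d p) := by
        have := hdL.smul ((11⁻¹ : ℝ) : 𝕜)
        have e : ‖((11⁻¹ : ℝ) : 𝕜)‖ * 11 = 1 := by
          rw [RCLike.norm_ofReal, abs_of_pos (by norm_num)]; norm_num
        rwa [e] at this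
      have h2 := hmidk _ h1
      have e2 : (fun p => ((hR o R' p - hR o R p : ℝ) : 𝕜) * (((11⁻¹ : ℝ) : 𝕜) * d p)) =
          fun p => ((11⁻¹ : ℝ) : 𝕜) * (((hR o R' p - hR o R p : ℝ) : 𝕜) * d p) := by
        funext p; ring
      rw [e2, pr_smul, norm_mul, RCLike.norm_ofReal, abs_of_pos (by norm_num)] at h2
      rw [inv_mul_le_iff₀ (by norm_num)] at h2
      exact h2
    have hfirst : ‖pr (a (n k)) (fun p => (hR o R p : 𝕜) * d p)‖ ≤ 22 * ε := by
      have h1 : ‖pr (a (n k)) (fun p => (hR o R p : 𝕜) * d p)‖ ≤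
          22 * (pot o R (a (n k)) P₀ - pot o R (a (n k)) (Q k)) := by
        unfold pr pot
        rw [← Finset.sum_sub_distrib, Finset.mul_sum]
        refine (norm_sum_le _ _).trans (Finset.sum_le_sum fun p hp => ?_)
        rw [norm_mul, norm_mul, RCLike.norm_ofReal, abs_of_nonneg (hR_nonneg _ _ _)]
        have hsub : (insert o (P₀ : Set M)) ⊆ insert o ((Q k : Finset M) : Set M) := by
          refine insert_subset_insert ?_
          exact Finset.coe_subset.2 (hQP k)
        have hle : Metric.infDist p (insert o ((Q k : Finset M) : Set M)) ≤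
            Metric.infDist p (insert o (P₀ : Set M)) :=
          Metric.infDist_le_infDist_of_subset hsub ⟨o, mem_insert _ _⟩
        have hkey : hR o R p * ‖d p‖ ≤ 22 * (hR o R p *
            (Metric.infDist p (insert o (P₀ : Set M)) -
              Metric.infDist p (insert o ((Q k : Finset M) : Set M)))) := by
          by_cases hpD : p ∈ D k
          · rw [hdD' p hpD, norm_zero, mul_zero]
            have := hR_nonneg o R p
            have := sub_nonneg.2 hle
            positivity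
          · by_cases hp2 : dist p o ≤ 2 * R
            · have hbad : 2 * Metric.infDist p (insert o ((Q k : Finset M) : Set M)) <
                  Metric.infDist p (insert o (P₀ : Set M)) := by
                by_contra hcon
                push Not at hcon
                exact hpD ⟨hp, Or.inl ⟨hp2, hcon⟩⟩
              have h3 := hdL.infDist_le hdP p
              have h4 : ‖d p‖ ≤ 22 * (Metric.infDist p (insert o (P₀ : Set M)) -
                  Metric.infDist p (insert o ((Q k : Finset M) : Set M))) := by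
                linarith
              calc hR o R p * ‖d p‖ ≤ hR o R p * (22 * (Metric.infDist p (insert o (P₀ : Set M)) -
                  Metric.infDist p (insert o ((Q k : Finset M) : Set M)))) :=
                    mul_le_mul_of_nonneg_left h4 (hR_nonneg _ _ _)
                _ = _ := by ring
            · push Not at hp2
              rw [hR_eq_zero hRp hp2.le]
              simp
        calc ‖(a (n k)) p‖ * (hR o R p * ‖d p‖) ≤ ‖(a (n k)) p‖ * (22 * (hR o R p *
            (Metric.infDist p (insert o (P₀ : Set M)) -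
              Metric.infDist p (insert o ((Q k : Finset M) : Set M))))) :=
              mul_le_mul_of_nonneg_left hkey (norm_nonneg _)
          _ = _ := by ring
      refine h1.trans ?_
      have : pot o R (a (n k)) P₀ - pot o R (a (n k)) (Q k) ≤ ε := hpot
      linarith
    have htot : ‖pr (a (n k)) d‖ ≤ 33 * ε := by
      rw [hsplit]
      exact (norm_add_le _ _).trans (by linarith)
    have hre : RCLike.re (pr (a (n k)) f) = RCLike.re (pr (a (n k)) (g k)) +
        RCLike.re (pr (a (n k)) d) := by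
      rw [hd, pr_sub, map_sub]
      ring
    have h5 := RCLike.abs_re_le_norm (pr (a (n k)) d)
    have h6 := (abs_le.1 (h5.trans htot)).1
    have h7 := hgc k
    rw [hre]
    have : 33 * ε = η := by rw [hεdef]; ring
    linarith

end Pool.Agent.Run7.h51.US
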