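import Pool.Agent.Run7.h51.USCore

/-!
# The Lipschitz-free space

`Lip0 𝕜 o` is the space of scalar Lipschitz functions vanishing at the base point `o`, with the
best Lipschitz constant as norm; `FreeSpace 𝕜 o` is the closed linear span of the evaluations in
its dual.
-/

namespace Pool.Agent.Run7.h51.US

open Filter Topology Set

universe u v

/-- The linear space of scalar Lipschitz functions vanishing at `o`, as a subspace of all
functions. -/
def lipSub (𝕜 : Type u) [RCLike 𝕜] {M : Type v} [MetricSpace M] (o : M) :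
    Submodule 𝕜 (M → 𝕜) where
  carrier := {f | f o = 0 ∧ ∃ K : ℝ, ∀ x y, ‖f x - f y‖ ≤ K * dist x y}
  zero_mem' := ⟨rfl, 0, fun x y => by simp⟩
  add_mem' := by
    rintro f g ⟨hf, K, hK⟩ ⟨hg, L, hL⟩
    refine ⟨by simp [hf, hg], K + L, fun x y => ?_⟩
    calc ‖(f + g) x - (f + g) y‖ = ‖(f x - f y) + (g x - g y)‖ := by
          simp only [Pi.add_apply]; ring_nf
      _ ≤ ‖f x - f y‖ + ‖g x - g y‖ := norm_add_le _ _
      _ ≤ K * dist x y + L * dist x y := add_le_add (hK x y) (hL x y)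
      _ = (K + L) * dist x y := by ring
  smul_mem' := by
    rintro c f ⟨hf, K, hK⟩
    refine ⟨by simp [hf], ‖c‖ * K, fun x y => ?_⟩
    calc ‖(c • f) x - (c • f) y‖ = ‖c‖ * ‖f x - f y‖ := by
          simp only [Pi.smul_apply, smul_eq_mul]; rw [← mul_sub, norm_mul]
      _ ≤ ‖c‖ * (K * dist x y) := mul_le_mul_of_nonneg_left (hK x y) (norm_nonneg _)
      _ = ‖c‖ * K * dist x y := by ring

/-- The space `Lip₀(M)` of scalar Lipschitz functions vanishing at `o`. -/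
def Lip0 (𝕜 : Type u) [RCLike 𝕜] {M : Type v} [MetricSpace M] (o : M) : Type (max u v) :=
  ↥(lipSub 𝕜 o)

section

variable {𝕜 : Type u} [RCLike 𝕜] {M : Type v} [MetricSpace M] {o : M}

instance : AddCommGroup (Lip0 𝕜 o) := (lipSub 𝕜 o).addCommGroup

instance : Module 𝕜 (Lip0 𝕜 o) := (lipSub 𝕜 o).module

/-- The underlying function. -/
def Lip0.fn (f : Lip0 𝕜 o) : M → 𝕜 := f.1

theorem Lip0.fn_zero (f : Lip0 𝕜 o) : f.fn o = 0 := f.2.1

@[simp] theorem Lip0.fn_add (f g : Lip0 𝕜 o) (x : M) : (f + g).fn x = f.fn x + g.fn x := rfl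

@[simp] theorem Lip0.fn_smul (c : 𝕜) (f : Lip0 𝕜 o) (x : M) : (c • f).fn x = c * f.fn x := rfl

@[simp] theorem Lip0.fn_zero' (x : M) : (0 : Lip0 𝕜 o).fn x = 0 := rfl

/-- The norm of `Lip₀(M)` is the best Lipschitz constant. -/
noncomputable instance : Norm (Lip0 𝕜 o) :=
  ⟨fun f => sInf {K : ℝ | 0 ≤ K ∧ ∀ x y, ‖f.fn x - f.fn y‖ ≤ K * dist x y}⟩

theorem Lip0.norm_def (f : Lip0 𝕜 o) :
    ‖f‖ = sInf {K : ℝ | 0 ≤ K ∧ ∀ x y, ‖f.fn x - f.fn y‖ ≤ K * dist x y} := rfl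

theorem Lip0.nonempty (f : Lip0 𝕜 o) :
    {K : ℝ | 0 ≤ K ∧ ∀ x y, ‖f.fn x - f.fn y‖ ≤ K * dist x y}.Nonempty := by
  obtain ⟨_, K, hK⟩ := f.2
  refine ⟨max K 0, le_max_right _ _, fun x y => (hK x y).trans ?_⟩
  exact mul_le_mul_of_nonneg_right (le_max_left _ _) dist_nonneg

theorem Lip0.norm_nonneg' (f : Lip0 𝕜 o) : 0 ≤ ‖f‖ :=
  Real.sInf_nonneg fun _ h => h.1

theorem Lip0.lip (f : Lip0 𝕜 o) (x y : M) : ‖f.fn x - f.fn y‖ ≤ ‖f‖ * dist x y := by
  rcases eq_or_ne x y with rfl | hxy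
  · simp
  · have hd : 0 < dist x y := dist_pos.2 hxy
    rw [← div_le_iff₀ hd, Lip0.norm_def]
    refine le_csInf f.nonempty fun K hK => ?_
    rw [div_le_iff₀ hd]
    exact hK.2 x y

theorem Lip0.norm_le {f : Lip0 𝕜 o} {K : ℝ} (hK : 0 ≤ K)
    (h : ∀ x y, ‖f.fn x - f.fn y‖ ≤ K * dist x y) : ‖f‖ ≤ K :=
  csInf_le ⟨0, fun _ h => h.1⟩ ⟨hK, h⟩

theorem Lip0.coreN : NormedSpace.Core 𝕜 (Lip0 𝕜 o) where
  norm_nonneg f := f.norm_nonneg'
  norm_smul c f := by
    refine le_antisymm (Lip0.norm_le (by have := f.norm_nonneg'; positivity) fun x y => ?_) ?_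
    · simp only [Lip0.fn_smul]
      rw [← mul_sub, norm_mul, mul_assoc]
      exact mul_le_mul_of_nonneg_left (f.lip x y) (norm_nonneg _)
    · rcases eq_or_ne c 0 with rfl | hc
      · simp only [norm_zero, zero_mul]
        exact Lip0.norm_nonneg' _
      · have hc' : 0 < ‖c‖ := norm_pos_iff.2 hc
        rw [← le_div_iff₀' hc']
        refine Lip0.norm_le (div_nonneg (Lip0.norm_nonneg' _) hc'.le) fun x y => ?_
        have := (c • f).lip x y
        simp only [Lip0.fn_smul] at this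
        rw [← mul_sub, norm_mul] at this
        rw [div_mul_eq_mul_div, le_div_iff₀' hc']
        exact this
  norm_triangle f g := by
    refine Lip0.norm_le (add_nonneg f.norm_nonneg' g.norm_nonneg') fun x y => ?_
    simp only [Lip0.fn_add]
    calc ‖f.fn x + g.fn x - (f.fn y + g.fn y)‖ = ‖(f.fn x - f.fn y) + (g.fn x - g.fn y)‖ := by
          ring_nf
      _ ≤ ‖f.fn x - f.fn y‖ + ‖g.fn x - g.fn y‖ := norm_add_le _ _
      _ ≤ ‖f‖ * dist x y + ‖g‖ * dist x y := add_le_add (f.lip x y) (g.lip x y)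
      _ = (‖f‖ + ‖g‖) * dist x y := by ring
  norm_eq_zero_iff f := by
    constructor
    · intro h
      apply Subtype.ext
      funext x
      have := f.lip x o
      rw [h, zero_mul, f.fn_zero, sub_zero] at this
      exact norm_le_zero_iff.1 this
    · rintro rfl
      refine le_antisymm (Lip0.norm_le le_rfl fun x y => by simp) (Lip0.norm_nonneg' _)

noncomputable instance : NormedAddCommGroup (Lip0 𝕜 o) := NormedAddCommGroup.ofCore Lip0.coreN

noncomputable instance : NormedSpace 𝕜 (Lip0 𝕜 o) := NormedSpace.ofCore Lip0.coreN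

end

section

variable (𝕜 : Type u) [RCLike 𝕜] {M : Type v} [MetricSpace M] (o : M)

/-- The evaluation at the point `x`, an element of the dual of `Lip₀(M)`. -/
noncomputable def ev (x : M) : StrongDual 𝕜 (Lip0 𝕜 o) :=
  LinearMap.mkContinuous
    { toFun := fun f => f.fn x
      map_add' := fun f g => f.fn_add g x
      map_smul' := fun c f => f.fn_smul c x } (dist x o) (fun f => by
    have := f.lip x o
    rw [f.fn_zero, sub_zero] at this
    rw [mul_comm]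
    exact this)

@[simp] theorem ev_apply (x : M) (f : Lip0 𝕜 o) : ev 𝕜 o x f = f.fn x := rfl

/-- The closed linear span of the evaluations in the dual of `Lip₀(M)`. -/
noncomputable def freeSub : Submodule 𝕜 (StrongDual 𝕜 (Lip0 𝕜 o)) :=
  (Submodule.span 𝕜 (Set.range (ev 𝕜 o))).topologicalClosure

/-- The Lipschitz-free space `F(M)`: the closed linear span of the evaluations in the dual of
`Lip₀(M)`, with the norm of that dual. -/
def FreeSpace : Type (max u v) := ↥(freeSub 𝕜 o)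

noncomputable instance : NormedAddCommGroup (FreeSpace 𝕜 o) :=
  (freeSub 𝕜 o).normedAddCommGroup

noncomputable instance : NormedSpace 𝕜 (FreeSpace 𝕜 o) :=
  (freeSub 𝕜 o).normedSpace

end

section

variable {𝕜 : Type u} [RCLike 𝕜] {M : Type v} [MetricSpace M] {o : M}

/-- A Lipschitz function vanishing at `o` as an element of `Lip₀(M)`. -/
def LL.toLip {K : ℝ} {f : M → 𝕜} (h : LL o K f) : Lip0 𝕜 o := ⟨f, h.zero, K, h.lip⟩

@[simp] theorem LL.toLip_fn {K : ℝ} {f : M → 𝕜} (h : LL o K f) (x : M) : h.toLip.fn x = f x := rfl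

theorem LL.norm_toLip {K : ℝ} (hK : 0 ≤ K) {f : M → 𝕜} (h : LL o K f) : ‖h.toLip‖ ≤ K :=
  Lip0.norm_le hK h.lip

theorem Lip0.toLL (f : Lip0 𝕜 o) : LL o ‖f‖ f.fn := ⟨f.fn_zero, f.lip⟩

/-- The element of the free space given by a finitely supported function. -/
noncomputable def comb (𝕜 : Type u) [RCLike 𝕜] {M : Type v} [MetricSpace M] (o : M)
    (a : M →₀ 𝕜) : StrongDual 𝕜 (Lip0 𝕜 o) :=
  Finsupp.linearCombination 𝕜 (ev 𝕜 o) a

theorem comb_apply (a : M →₀ 𝕜) (f : Lip0 𝕜 o) : comb 𝕜 o a f = pr a f.fn := by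
  unfold comb pr
  rw [Finsupp.linearCombination_apply, Finsupp.sum]
  simp

theorem comb_mem (a : M →₀ 𝕜) : comb 𝕜 o a ∈ freeSub 𝕜 o := by
  refine Submodule.le_topologicalClosure _ ?_
  unfold comb
  rw [← Finsupp.range_linearCombination]
  exact ⟨a, rfl⟩

theorem exists_comb {x : StrongDual 𝕜 (Lip0 𝕜 o)} (hx : x ∈ freeSub 𝕜 o) {ε : ℝ} (hε : 0 < ε) :
    ∃ a : M →₀ 𝕜, ‖x - comb 𝕜 o a‖ < ε := by
  have h1 : x ∈ closure ((Submodule.span 𝕜 (Set.range (ev 𝕜 o)) : Submodule 𝕜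
      (StrongDual 𝕜 (Lip0 𝕜 o))) : Set (StrongDual 𝕜 (Lip0 𝕜 o))) := hx
  obtain ⟨y, hy, hxy⟩ := Metric.mem_closure_iff.1 h1 ε hε
  rw [← Finsupp.range_linearCombination] at hy
  obtain ⟨a, rfl⟩ := hy
  exact ⟨a, by rw [← dist_eq_norm]; exact hxy⟩

/-- The inclusion of the free space in the dual of `Lip₀(M)`. -/
def FreeSpace.inc (x : FreeSpace 𝕜 o) : StrongDual 𝕜 (Lip0 𝕜 o) := x.1

theorem FreeSpace.inc_mem (x : FreeSpace 𝕜 o) : x.inc ∈ freeSub 𝕜 o := x.2

@[simp] theorem FreeSpace.inc_add (x y : FreeSpace 𝕜 o) : (x + y).inc = x.inc + y.inc := rfl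

@[simp] theorem FreeSpace.inc_sub (x y : FreeSpace 𝕜 o) : (x - y).inc = x.inc - y.inc := rfl

@[simp] theorem FreeSpace.inc_smul (c : 𝕜) (x : FreeSpace 𝕜 o) : (c • x).inc = c • x.inc := rfl

theorem FreeSpace.norm_inc (x : FreeSpace 𝕜 o) : ‖x.inc‖ = ‖x‖ := rfl

/-- A functional is bounded by its supremum over `1`-Lipschitz functions. -/
theorem norm_le_of_LL {x : StrongDual 𝕜 (Lip0 𝕜 o)} {B : ℝ} (hB : 0 ≤ B)
    (h : ∀ f : Lip0 𝕜 o, ‖f‖ ≤ 1 → ‖x f‖ ≤ B) : ‖x‖ ≤ B := by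
  refine ContinuousLinearMap.opNorm_le_bound _ hB fun f => ?_
  rcases eq_or_ne f 0 with rfl | hf
  · simp
  · have hn : 0 < ‖f‖ := norm_pos_iff.2 hf
    have h1 : ‖((‖f‖⁻¹ : ℝ) : 𝕜) • f‖ ≤ 1 := by
      rw [norm_smul, RCLike.norm_ofReal, abs_of_pos (inv_pos.2 hn), inv_mul_cancel₀ hn.ne']
    have h2 := h _ h1
    rw [map_smul, norm_smul, RCLike.norm_ofReal, abs_of_pos (inv_pos.2 hn),
      inv_mul_le_iff₀ hn] at h2
    linarith

/-- There is a `1`-Lipschitz function almost norming `x`. -/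
theorem exists_almost_norming (x : StrongDual 𝕜 (Lip0 𝕜 o)) {κ : ℝ} (hκ : 0 < κ) :
    ∃ f : Lip0 𝕜 o, ‖f‖ ≤ 1 ∧ ‖x‖ - κ ≤ ‖x f‖ := by
  by_contra h
  push Not at h
  have h1 : ‖x‖ ≤ max (‖x‖ - κ) 0 :=
    norm_le_of_LL (le_max_right _ _) fun f hf => (h f hf).le.trans (le_max_left _ _)
  rcases le_max_iff.1 h1 with h2 | h2
  · linarith
  · have h3 := h 0 (by simp)
    simp only [map_zero, norm_zero] at h3
    linarith

end

end Pool.Agent.Run7.h51.US
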