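import Pool.Agent.Run7.h51.USSchur

/-!
# Quantities measuring weak Cauchyness, norm Cauchyness and weak compactness

Definitions of `δ(x_n)`, `ca(x_n)`, `wck_X(x_n)` and of the `c`-Schur property and
`c`-weak sequential completeness, and the proof that the free space of a uniformly separated
metric space has both with `c = 21`.
-/

namespace Pool.Agent.Run7.h51.US

open Filter Topology Set
open scoped ENNReal NNReal

universe u v

section Defs

variable (𝕜 : Type u) [RCLike 𝕜] {X : Type v} [NormedAddCommGroup X] [NormedSpace 𝕜 X]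

/-- `δ(x_n) = sup_{x* ∈ B_{X*}} inf_n sup_{k,l ≥ n} |x*(x_k) - x*(x_l)|`. -/
noncomputable def deltaSeq (x : ℕ → X) : ℝ≥0∞ :=
  ⨆ f : {f : StrongDual 𝕜 X // ‖f‖ ≤ 1}, ⨅ n : ℕ, ⨆ (k : ℕ) (_ : n ≤ k) (l : ℕ) (_ : n ≤ l),
    edist (f.1 (x k)) (f.1 (x l))

/-- `ca(x_n) = inf_n sup_{k,l ≥ n} ‖x_k - x_l‖`. -/
noncomputable def caSeq {X : Type v} [NormedAddCommGroup X] (x : ℕ → X) : ℝ≥0∞ :=
  ⨅ n : ℕ, ⨆ (k : ℕ) (_ : n ≤ k) (l : ℕ) (_ : n ≤ l), edist (x k) (x l)

/-- The weak-star cluster points in the bidual of a sequence in `X`. -/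
def clustSeq (y : ℕ → X) : Set (StrongDual 𝕜 (StrongDual 𝕜 X)) :=
  {z | MapClusterPt (StrongDual.toWeakDual z) atTop
    (fun n => StrongDual.toWeakDual (NormedSpace.inclusionInDoubleDual 𝕜 X (y n)))}

/-- `wck_X(x_n)`: the supremum over the subsequences `(y_k)` of the infimum of the distances to
`X` of the weak-star cluster points of `(y_k)` in the bidual. -/
noncomputable def wckSeq (x : ℕ → X) : ℝ≥0∞ :=
  ⨆ (φ : ℕ → ℕ) (_ : StrictMono φ), ⨅ z ∈ clustSeq 𝕜 (x ∘ φ),
    Metric.infEDist z (Set.range (NormedSpace.inclusionInDoubleDual 𝕜 X))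

variable (X)

/-- `X` is `c`-weakly sequentially complete. -/
def IsWSC (c : ℝ≥0) : Prop :=
  ∀ x : ℕ → X, Bornology.IsBounded (Set.range x) → wckSeq 𝕜 x ≤ c * deltaSeq 𝕜 x

/-- `X` has the `c`-Schur property. -/
def IsSchur (c : ℝ≥0) : Prop :=
  ∀ x : ℕ → X, Bornology.IsBounded (Set.range x) → caSeq x ≤ c * deltaSeq 𝕜 x

end Defs

/-- The metric space `M` is uniformly separated. -/
def UniformlySeparated (M : Type*) [MetricSpace M] : Prop :=
  ∃ s : ℝ, 0 < s ∧ ∀ x y : M, x ≠ y → s ≤ dist x y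

section General

variable {𝕜 : Type u} [RCLike 𝕜] {X : Type v} [NormedAddCommGroup X] [NormedSpace 𝕜 X]

/-- A weak-star cluster point of a sequence which is eventually within `r` of a point `w` of `X`
lies within `r` of `w`. -/
theorem norm_sub_le_of_cluster {y : ℕ → X} {z : StrongDual 𝕜 (StrongDual 𝕜 X)}
    (hz : z ∈ clustSeq 𝕜 y) {w : X} {r : ℝ} (hr : 0 ≤ r) (h : ∀ᶠ k in atTop, ‖y k - w‖ ≤ r) :
    ‖z - NormedSpace.inclusionInDoubleDual 𝕜 X w‖ ≤ r := by
  refine ContinuousLinearMap.opNorm_le_bound _ hr fun φ => ?_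
  have h1 : MapClusterPt (z φ) atTop (fun n => φ (y n)) := by
    have hc : Continuous fun w : WeakDual 𝕜 (StrongDual 𝕜 X) => w φ := WeakDual.eval_continuous φ
    have := hz.tendsto_comp (hc.tendsto (StrongDual.toWeakDual z))
    exact this
  have h2 : z φ ∈ Metric.closedBall (φ w) (r * ‖φ‖) := by
    refine Metric.isClosed_closedBall.mem_of_mapClusterPt h1 ?_
    filter_upwards [h] with k hk
    rw [Metric.mem_closedBall, dist_eq_norm, ← map_sub, mul_comm]
    exact (φ.le_opNorm _).trans (mul_le_mul_of_nonneg_left hk (norm_nonneg _))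
  rw [sub_apply, NormedSpace.dual_def, ← dist_eq_norm]
  exact h2

/-- Bounded sequences have weak-star cluster points. -/
theorem clustSeq_nonempty {y : ℕ → X} {B : ℝ} (hB : ∀ n, ‖y n‖ ≤ B) :
    (clustSeq 𝕜 y).Nonempty := by
  have hc := WeakDual.isCompact_closedBall (𝕜 := 𝕜) (E := StrongDual 𝕜 X) 0 B
  obtain ⟨z, _, hz⟩ := hc.exists_mapClusterPt (f := (atTop : Filter ℕ))
    (u := fun n => StrongDual.toWeakDual (NormedSpace.inclusionInDoubleDual 𝕜 X (y n))) (by
      rw [le_principal_iff, mem_map]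
      refine Filter.univ_mem' fun n => ?_
      show NormedSpace.inclusionInDoubleDual 𝕜 X (y n) ∈ Metric.closedBall 0 B
      have h1 := (NormedSpace.double_dual_bound 𝕜 X (y n)).trans (hB n)
      exact le_of_eq_of_le (dist_zero_right (E := StrongDual 𝕜 (StrongDual 𝕜 X)) _) h1)
  exact ⟨WeakDual.toStrongDual z, hz⟩

theorem exists_bound_of_isBounded {x : ℕ → X} (hx : Bornology.IsBounded (Set.range x)) :
    ∃ B, ∀ n, ‖x n‖ ≤ B := by
  obtain ⟨B, hB⟩ := hx.exists_norm_le
  exact ⟨B, fun n => hB _ (mem_range_self n)⟩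

/-- The distance of cluster points to `X` is at most `ca`. -/
theorem wck_le_ca {x : ℕ → X} (hx : Bornology.IsBounded (Set.range x)) :
    wckSeq 𝕜 x ≤ caSeq x := by
  obtain ⟨B, hB⟩ := exists_bound_of_isBounded hx
  refine iSup₂_le fun φ hφ => ?_
  obtain ⟨z, hz⟩ := clustSeq_nonempty (𝕜 := 𝕜) (y := x ∘ φ) (B := B) (fun n => hB _)
  refine (iInf₂_le z hz).trans ?_
  refine le_iInf fun n => ?_
  set S : ℝ≥0∞ := ⨆ (k : ℕ) (_ : n ≤ k) (l : ℕ) (_ : n ≤ l), edist (x k) (x l) with hS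
  rcases eq_or_ne S ⊤ with htop | htop
  · rw [htop]; exact le_top
  · have hkl : ∀ k, n ≤ k → ∀ l, n ≤ l → edist (x k) (x l) ≤ S := by
      intro k hk l hl
      exact le_iSup₂_of_le k hk (le_iSup₂_of_le l hl le_rfl)
    have h1 : ∀ᶠ k in atTop, ‖(x ∘ φ) k - (x ∘ φ) n‖ ≤ S.toReal := by
      filter_upwards [eventually_ge_atTop n] with k hk
      have h2 := hkl (φ k) (hk.trans (hφ.id_le k)) (φ n) (hφ.id_le n)
      rw [← dist_eq_norm]
      simp only [Function.comp]
      rw [edist_dist] at h2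
      exact (ENNReal.ofReal_le_iff_le_toReal htop).1 h2
    have h3 := norm_sub_le_of_cluster hz ENNReal.toReal_nonneg h1
    calc Metric.infEDist z (Set.range (NormedSpace.inclusionInDoubleDual 𝕜 X))
        ≤ edist z (NormedSpace.inclusionInDoubleDual 𝕜 X ((x ∘ φ) n)) :=
          Metric.infEDist_le_edist_of_mem (mem_range_self _)
      _ ≤ ENNReal.ofReal S.toReal := by
          rw [edist_dist, dist_eq_norm]
          exact ENNReal.ofReal_le_ofReal h3
      _ = S := ENNReal.ofReal_toReal htop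

end General

section Free

variable {𝕜 : Type u} [RCLike 𝕜] {M : Type v} [MetricSpace M]

/-- Evaluation at a Lipschitz function as a functional on the free space. -/
noncomputable def evF (o : M) (f : Lip0 𝕜 o) : StrongDual 𝕜 (FreeSpace 𝕜 o) :=
  LinearMap.mkContinuous
    { toFun := fun x => x.inc f
      map_add' := fun x y => by simp
      map_smul' := fun c x => by simp } ‖f‖ (fun x => by
    rw [mul_comm, ← FreeSpace.norm_inc]
    exact ContinuousLinearMap.le_opNorm _ _)

theorem evF_apply (o : M) (f : Lip0 𝕜 o) (x : FreeSpace 𝕜 o) : evF o f x = x.inc f := rfl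

theorem evF_norm (o : M) (f : Lip0 𝕜 o) : ‖evF o f‖ ≤ ‖f‖ := by
  refine ContinuousLinearMap.opNorm_le_bound _ (norm_nonneg _) fun x => ?_
  rw [evF_apply, mul_comm, ← FreeSpace.norm_inc]
  exact ContinuousLinearMap.le_opNorm _ _

/-- The free space of a uniformly separated metric space has the `21`-Schur property. -/
theorem free_isSchur (o : M) (hM : UniformlySeparated M) : IsSchur 𝕜 (FreeSpace 𝕜 o) 21 := by
  obtain ⟨s, hs, hsep⟩ := hM
  intro x hx
  obtain ⟨B, hB⟩ := exists_bound_of_isBounded hx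
  rcases eq_or_ne (deltaSeq 𝕜 x) ⊤ with htop | htop
  · rw [htop]
    have : ((21 : ℝ≥0) : ℝ≥0∞) * ⊤ = ⊤ := ENNReal.mul_top (by norm_num)
    rw [this]; exact le_top
  · by_contra hcon
    push Not at hcon
    set D : ℝ := (deltaSeq 𝕜 x).toReal with hDdef
    have hD0 : 0 ≤ D := ENNReal.toReal_nonneg
    have hDe : deltaSeq 𝕜 x = ENNReal.ofReal D := (ENNReal.ofReal_toReal htop).symm
    obtain ⟨r, hr1, hr2⟩ := ENNReal.lt_iff_exists_real_btwn.1 hcon
    obtain ⟨hr1, hr2⟩ := hr2
    rw [hDe] at hr1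
    have hmul : ((21 : ℝ≥0) : ℝ≥0∞) * ENNReal.ofReal D = ENNReal.ofReal (21 * D) := by
      rw [ENNReal.ofReal_mul (by norm_num)]
      norm_num
    rw [hmul] at hr1
    have hr3 : 21 * D < r := by
      by_contra h
      push Not at h
      exact absurd (ENNReal.ofReal_le_ofReal h) (not_le.2 hr1)
    -- pairs
    have hpairs : ∀ n : ℕ, ∃ k l : ℕ, n ≤ k ∧ n ≤ l ∧ r < dist (x k) (x l) := by
      intro n
      have h1 : ENNReal.ofReal r < ⨆ (k : ℕ) (_ : n ≤ k) (l : ℕ) (_ : n ≤ l),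
          edist (x k) (x l) := hr2.trans_le (iInf_le _ n)
      simp only [lt_iSup_iff] at h1
      obtain ⟨k, hk, l, hl, h2⟩ := h1
      refine ⟨k, l, hk, hl, ?_⟩
      rw [edist_dist] at h2
      exact (ENNReal.ofReal_lt_ofReal_iff_of_nonneg (by linarith)).1 h2
    choose k l hk hl hkl using hpairs
    have hsch := schur_core (𝕜 := 𝕜) o hs hsep
      (fun n => (x (k n) - x (l n)).inc)
      (fun n => (x (k n) - x (l n)).inc_mem) (B + B)
      (fun n => by
        rw [FreeSpace.norm_inc]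
        exact (norm_sub_le _ _).trans (add_le_add (hB (k n)) (hB (l n)))) D hD0 (by
        intro f hf ε hε
        have h1 : (⨅ n : ℕ, ⨆ (k : ℕ) (_ : n ≤ k) (l : ℕ) (_ : n ≤ l),
            edist (evF o f (x k)) (evF o f (x l))) ≤ deltaSeq 𝕜 x :=
          le_iSup (fun f : {f : StrongDual 𝕜 (FreeSpace 𝕜 o) // ‖f‖ ≤ 1} =>
            ⨅ n : ℕ, ⨆ (k : ℕ) (_ : n ≤ k) (l : ℕ) (_ : n ≤ l),
              edist (f.1 (x k)) (f.1 (x l))) ⟨evF o f, (evF_norm o f).trans hf⟩
        have h2 : (⨅ n : ℕ, ⨆ (k : ℕ) (_ : n ≤ k) (l : ℕ) (_ : n ≤ l),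
            edist (evF o f (x k)) (evF o f (x l))) < ENNReal.ofReal (D + ε) := by
          refine h1.trans_lt ?_
          rw [hDe]
          exact (ENNReal.ofReal_lt_ofReal_iff_of_nonneg hD0).2 (by linarith)
        obtain ⟨N, hN⟩ := iInf_lt_iff.1 h2
        filter_upwards [eventually_ge_atTop N] with n hn
        have h3 : edist (evF o f (x (k n))) (evF o f (x (l n))) ≤
            ⨆ (k : ℕ) (_ : N ≤ k) (l : ℕ) (_ : N ≤ l),
              edist (evF o f (x k)) (evF o f (x l)) :=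
          le_iSup₂_of_le (k n) (hn.trans (hk n)) (le_iSup₂_of_le (l n) (hn.trans (hl n)) le_rfl)
        have h4 := (h3.trans_lt hN).le
        rw [edist_dist, dist_eq_norm] at h4
        have h6 := (ENNReal.ofReal_le_ofReal_iff (by linarith)).1 h4
        rw [evF_apply, evF_apply] at h6
        rw [FreeSpace.inc_sub, sub_apply]
        exact h6) (η := r - 21 * D) (by linarith)
    obtain ⟨n, hn⟩ := hsch.exists
    have h5 := hkl n
    rw [dist_eq_norm] at h5
    have h6 : ‖x (k n) - x (l n)‖ ≤ 21 * D + (r - 21 * D) := by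
      rw [← FreeSpace.norm_inc]; exact hn
    linarith

/-- The free space of a uniformly separated metric space is `21`-weakly sequentially
complete. -/
theorem free_isWSC (o : M) (hM : UniformlySeparated M) : IsWSC 𝕜 (FreeSpace 𝕜 o) 21 :=
  fun x hx => (wck_le_ca hx).trans (free_isSchur o hM x hx)

end Free

end Pool.Agent.Run7.h51.US
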