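import Pool.Agent.Run7.h51.USMeas

/-!
# Equivalence of the measures of weak non-compactness

In the free space of a uniformly separated metric space De Blasi's measure `ω` is at most `20`
times the measure `wk`.
-/

namespace Pool.Agent.Run7.h51.US

open Filter Topology Set
open scoped ENNReal NNReal

universe u v

section Defs

variable (𝕜 : Type u) [RCLike 𝕜] {X : Type v} [NormedAddCommGroup X] [NormedSpace 𝕜 X]

/-- De Blasi's measure `ω(A)`: the infimum over the weakly compact sets `K` of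
`sup_{a ∈ A} dist(a, K)`. -/
noncomputable def omegaM (A : Set X) : ℝ≥0∞ :=
  ⨅ (K : Set X) (_ : IsCompact (toWeakSpace 𝕜 X '' K)), ⨆ a ∈ A, Metric.infEDist a K

/-- The weak-star closure in the bidual of a subset of `X`. -/
def wstarClosure (A : Set X) : Set (StrongDual 𝕜 (StrongDual 𝕜 X)) :=
  {z | StrongDual.toWeakDual z ∈
    closure ((fun a : X => StrongDual.toWeakDual (NormedSpace.inclusionInDoubleDual 𝕜 X a)) '' A)}

/-- The measure `wk(A)`: the supremum of the distances to `X` of the points of the weak-star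
closure of `A` in the bidual. -/
noncomputable def wkM (A : Set X) : ℝ≥0∞ :=
  ⨆ z ∈ wstarClosure 𝕜 A, Metric.infEDist z (Set.range (NormedSpace.inclusionInDoubleDual 𝕜 X))

end Defs

section General

variable {𝕜 : Type u} [RCLike 𝕜] {X : Type v} [NormedAddCommGroup X] [NormedSpace 𝕜 X]

theorem exists_annihilator (S : Submodule 𝕜 X) (a : X) {r : ℝ} (h : ∀ v ∈ S, r ≤ ‖a - v‖) :
    ∃ φ : StrongDual 𝕜 X, ‖φ‖ ≤ 1 ∧ (∀ v ∈ S, φ v = 0) ∧ r ≤ ‖φ a‖ := by
  obtain ⟨g, hg1, hg2⟩ := exists_dual_vector'' 𝕜 (Submodule.Quotient.mk (p := S) a)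
  refine ⟨g.comp S.mkQL, ?_, ?_, ?_⟩
  · refine ContinuousLinearMap.opNorm_le_bound _ zero_le_one fun x => ?_
    calc ‖g (Submodule.Quotient.mk (p := S) x)‖ ≤ ‖g‖ * ‖Submodule.Quotient.mk (p := S) x‖ :=
          g.le_opNorm _
      _ ≤ 1 * ‖x‖ := mul_le_mul hg1 (Submodule.Quotient.norm_mk_le S x) (norm_nonneg _)
          zero_le_one
  · intro v hv
    have : Submodule.Quotient.mk (p := S) v = 0 := (Submodule.Quotient.mk_eq_zero S).2 hv
    show g (Submodule.Quotient.mk (p := S) v) = 0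
    rw [this, map_zero]
  · show r ≤ ‖g (Submodule.Quotient.mk (p := S) a)‖
    rw [hg2, RCLike.norm_ofReal, abs_of_nonneg (norm_nonneg _)]
    by_contra hlt
    push Not at hlt
    obtain ⟨m, hm1, hm2⟩ := Submodule.Quotient.norm_mk_lt (Submodule.Quotient.mk (p := S) a)
      (sub_pos.2 hlt)
    have h1 : m - a ∈ S := (Submodule.Quotient.eq S).1 hm1
    have h2 := h (a - m) (by rw [← neg_sub]; exact S.neg_mem h1)
    rw [sub_sub_cancel] at h2
    linarith

/-- If `ω(A)` is larger than `r` then some element of `A` is far from a given finite-dimensional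
subspace. -/
theorem exists_far {A : Set X} {B : ℝ} (hB : ∀ a ∈ A, ‖a‖ ≤ B) {r : ℝ} (hr : 0 ≤ r)
    (hω : ENNReal.ofReal r < omegaM 𝕜 A) (S : Submodule 𝕜 X) [FiniteDimensional 𝕜 S] :
    ∃ a ∈ A, ∀ v ∈ S, r ≤ ‖a - v‖ := by
  have : ProperSpace S := FiniteDimensional.proper 𝕜 S
  set K : Set X := Subtype.val '' (Metric.closedBall (0 : S) (B + r)) with hK
  have hKc : IsCompact K := (isCompact_closedBall (0 : S) (B + r)).image continuous_subtype_val
  have hKw : IsCompact (toWeakSpace 𝕜 X '' K) :=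
    hKc.image (toWeakSpaceCLM 𝕜 X).continuous
  have h1 : ENNReal.ofReal r < ⨆ a ∈ A, Metric.infEDist a K := hω.trans_le (iInf₂_le K hKw)
  simp only [lt_iSup_iff] at h1
  obtain ⟨a, ha, h2⟩ := h1
  refine ⟨a, ha, fun v hv => ?_⟩
  by_cases hvn : ‖v‖ ≤ B + r
  · have hvK : v ∈ K := ⟨⟨v, hv⟩, by simpa using hvn, rfl⟩
    have h3 : ENNReal.ofReal r < edist a v := h2.trans_le (Metric.infEDist_le_edist_of_mem hvK)
    rw [edist_dist, dist_eq_norm] at h3
    exact ((ENNReal.ofReal_lt_ofReal_iff_of_nonneg hr).1 h3).le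
  · push Not at hvn
    have h3 := norm_sub_norm_le v a
    rw [norm_sub_rev] at h3
    have h4 := hB a ha
    linarith

end General

section Free

variable {𝕜 : Type u} [RCLike 𝕜] {M : Type v} [MetricSpace M]

/-- The canonical map of `M` into the free space. -/
noncomputable def dF (𝕜 : Type u) [RCLike 𝕜] {M : Type v} [MetricSpace M] (o : M) (p : M) :
    FreeSpace 𝕜 o :=
  ⟨ev 𝕜 o p, Submodule.le_topologicalClosure _ (Submodule.subset_span ⟨p, rfl⟩)⟩

theorem dF_inc (o p : M) : (dF 𝕜 o p).inc = ev 𝕜 o p := rfl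

theorem LL_of_dual {o : M} (φ : StrongDual 𝕜 (FreeSpace 𝕜 o)) (hφ : ‖φ‖ ≤ 1) :
    LL o 1 (fun p => φ (dF 𝕜 o p)) := by
  refine ⟨?_, fun x y => ?_⟩
  · have : dF 𝕜 o o = 0 := by
      apply Subtype.ext
      refine ContinuousLinearMap.ext fun f => ?_
      exact f.fn_zero
    show φ (dF 𝕜 o o) = 0
    rw [this, map_zero]
  · rw [← map_sub]
    have h1 : ‖dF 𝕜 o x - dF 𝕜 o y‖ ≤ dist x y := by
      rw [← FreeSpace.norm_inc, FreeSpace.inc_sub, dF_inc, dF_inc]
      refine ContinuousLinearMap.opNorm_le_bound _ dist_nonneg fun f => ?_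
      rw [sub_apply, ev_apply, ev_apply, mul_comm]
      exact f.lip x y
    calc ‖φ (dF 𝕜 o x - dF 𝕜 o y)‖ ≤ ‖φ‖ * ‖dF 𝕜 o x - dF 𝕜 o y‖ := φ.le_opNorm _
      _ ≤ 1 * dist x y := mul_le_mul hφ h1 (norm_nonneg _) zero_le_one

/-- The element of the free space given by a finitely supported function. -/
noncomputable def combF (𝕜 : Type u) [RCLike 𝕜] {M : Type v} [MetricSpace M] (o : M)
    (a : M →₀ 𝕜) : FreeSpace 𝕜 o := ⟨comb 𝕜 o a, comb_mem a⟩

theorem combF_inc (o : M) (a : M →₀ 𝕜) : (combF 𝕜 o a).inc = comb 𝕜 o a := rfl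

theorem combF_eq (o : M) (a : M →₀ 𝕜) : combF 𝕜 o a = ∑ p ∈ a.support, a p • dF 𝕜 o p := by
  have h : ∀ s : Finset M, (∑ p ∈ s, a p • dF 𝕜 o p).inc = ∑ p ∈ s, a p • ev 𝕜 o p := by
    intro s
    classical
    induction s using Finset.induction_on with
    | empty => rfl
    | insert p s hp ih =>
      rw [Finset.sum_insert hp, Finset.sum_insert hp, FreeSpace.inc_add, ih, FreeSpace.inc_smul,
        dF_inc]
  apply Subtype.ext
  have h1 := h a.support
  have h2 : (combF 𝕜 o a).inc = ∑ p ∈ a.support, a p • ev 𝕜 o p := by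
    rw [combF_inc]
    unfold comb
    rw [Finsupp.linearCombination_apply, Finsupp.sum]
  exact h2.trans h1.symm

theorem map_combF {o : M} (φ : StrongDual 𝕜 (FreeSpace 𝕜 o)) (a : M →₀ 𝕜) :
    φ (combF 𝕜 o a) = pr a (fun p => φ (dF 𝕜 o p)) := by
  rw [combF_eq, map_sum]
  unfold pr
  exact Finset.sum_congr rfl fun p _ => by rw [map_smul, smul_eq_mul]

theorem exists_combF {o : M} (x : FreeSpace 𝕜 o) {ε : ℝ} (hε : 0 < ε) :
    ∃ a : M →₀ 𝕜, ‖x - combF 𝕜 o a‖ < ε := by
  obtain ⟨a, ha⟩ := exists_comb x.inc_mem hε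
  exact ⟨a, by rw [← FreeSpace.norm_inc, FreeSpace.inc_sub, combF_inc]; exact ha⟩

theorem evF_combF {o : M} (f : Lip0 𝕜 o) (a : M →₀ 𝕜) : evF o f (combF 𝕜 o a) = pr a f.fn := by
  rw [evF_apply, combF_inc, comb_apply]

/-- The main estimate. -/
theorem omega_le (o : M) (hM : UniformlySeparated M) {A : Set (FreeSpace 𝕜 o)}
    (hA : Bornology.IsBounded A) : omegaM 𝕜 A ≤ 20 * wkM 𝕜 A := by
  classical
  obtain ⟨s, hs, hsep⟩ := hM
  obtain ⟨B0, hB0⟩ := hA.exists_norm_le
  set B : ℝ := max B0 0 with hBdef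
  have hB : ∀ a ∈ A, ‖a‖ ≤ B := fun a ha => (hB0 a ha).trans (le_max_left _ _)
  have hBpos : 0 ≤ B := le_max_right _ _
  by_contra hcon
  push Not at hcon
  have htop : wkM 𝕜 A ≠ ⊤ := by
    intro h
    rw [h, ENNReal.mul_top (by norm_num)] at hcon
    exact absurd hcon (not_lt.2 le_top)
  set W : ℝ := (wkM 𝕜 A).toReal with hWdef
  have hW0 : 0 ≤ W := ENNReal.toReal_nonneg
  have hWe : wkM 𝕜 A = ENNReal.ofReal W := (ENNReal.ofReal_toReal htop).symm
  have hmul : (20 : ℝ≥0∞) * ENNReal.ofReal W = ENNReal.ofReal (20 * W) := by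
    rw [ENNReal.ofReal_mul (by norm_num)]
    norm_num
  obtain ⟨r, hr0, hr1, hr2⟩ := ENNReal.lt_iff_exists_real_btwn.1 hcon
  rw [hWe, hmul] at hr1
  have hr3 : 20 * W < r := by
    by_contra h
    push Not at h
    exact absurd (ENNReal.ofReal_le_ofReal h) (not_le.2 hr1)
  set κ : ℝ := (r - 20 * W) / 48 with hκdef
  have hκ : 0 < κ := by
    rw [hκdef]
    have : 0 < r - 20 * W := by linarith
    positivity
  -- far elements
  have hfar : ∀ P : Finset M, ∃ x ∈ A, ∃ g : M → 𝕜, LL o 1 g ∧ (∀ p ∈ P, g p = 0) ∧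
      ∃ a : M →₀ 𝕜, ‖x - combF 𝕜 o a‖ < κ ∧ r - κ ≤ ‖pr a g‖ := by
    intro P
    let S : Submodule 𝕜 (FreeSpace 𝕜 o) :=
      Submodule.span 𝕜 ((P.image (dF 𝕜 o) : Finset (FreeSpace 𝕜 o)) : Set (FreeSpace 𝕜 o))
    have : FiniteDimensional 𝕜 S := FiniteDimensional.span_finset 𝕜 _
    obtain ⟨x, hx, hx2⟩ := exists_far hB hr0 hr2 S
    obtain ⟨φ, hφ1, hφ2, hφ3⟩ := exists_annihilator S x hx2
    obtain ⟨a, ha⟩ := exists_combF x hκ
    refine ⟨x, hx, fun p => φ (dF 𝕜 o p), LL_of_dual φ hφ1, fun p hp => ?_, a, ha, ?_⟩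
    · exact hφ2 _ (Submodule.subset_span (Finset.mem_coe.2 (Finset.mem_image_of_mem _ hp)))
    · rw [← map_combF]
      have h1 : ‖φ x - φ (combF 𝕜 o a)‖ ≤ κ := by
        rw [← map_sub]
        calc ‖φ (x - combF 𝕜 o a)‖ ≤ ‖φ‖ * ‖x - combF 𝕜 o a‖ := φ.le_opNorm _
          _ ≤ 1 * κ := mul_le_mul hφ1 ha.le (norm_nonneg _) zero_le_one
          _ = κ := one_mul _
      have h2 := norm_sub_norm_le (φ x) (φ (combF 𝕜 o a))
      linarith
  choose x hxA g hgL hgP a hxa hga using hfar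
  let U : Ultrafilter (Finset M) := Ultrafilter.of atTop
  have hU : (U : Filter (Finset M)) ≤ atTop := Ultrafilter.of_le _
  have hC : ∀ P (f : M → 𝕜), LL o 1 f → ‖pr (a P) f‖ ≤ B + κ := by
    intro P f hf
    have e : pr (a P) f = evF o hf.toLip (combF 𝕜 o (a P)) := by rw [evF_combF]; rfl
    have h1 : ‖combF 𝕜 o (a P)‖ ≤ B + κ := by
      have h2 := norm_sub_norm_le (combF 𝕜 o (a P)) (x P)
      rw [norm_sub_rev] at h2
      have h3 := hB _ (hxA P)
      have h4 := hxa P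
      linarith
    rw [e]
    calc ‖evF o hf.toLip (combF 𝕜 o (a P))‖ ≤ ‖evF o hf.toLip‖ * ‖combF 𝕜 o (a P)‖ :=
          ContinuousLinearMap.le_opNorm _ _
      _ ≤ 1 * (B + κ) := mul_le_mul ((evF_norm o _).trans (hf.norm_toLip zero_le_one)) h1
          (norm_nonneg _) zero_le_one
      _ = B + κ := one_mul _
  obtain ⟨n, _, hf⟩ := core (𝕜 := 𝕜) U o hs hsep a (B + κ) hC (r - 2 * κ) (by
    intro P
    have h1 : ∀ᶠ Q in (atTop : Filter (Finset M)), P ≤ Q := eventually_ge_atTop P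
    filter_upwards [hU h1] with Q hQ
    exact ⟨g Q, hgL Q, fun p hp => hgP Q p (hQ hp), by linarith [hga Q]⟩)
    (fun _ => Set.univ) (fun _ => Filter.univ_mem) hκ
  choose f hfL hf0 hfre using hf
  -- the limit of the functions
  let V : Ultrafilter ℕ := Ultrafilter.of atTop
  have hV : (V : Filter ℕ) ≤ atTop := Ultrafilter.of_le _
  obtain ⟨f', hf'L, hf'⟩ := exists_ulim V f hfL
  have hf'0 : ∀ k, ∀ p ∈ (a (n k)).support, f' p = 0 := by
    intro k p hp
    have h1 : ∀ᶠ m in (V : Filter ℕ), f m p = 0 := by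
      filter_upwards [hV (eventually_gt_atTop k)] with m hm
      exact hf0 m k hm p hp
    have h2 : Tendsto (fun m => f m p) V (𝓝 0) :=
      (tendsto_congr' (h1.mono fun m hm => hm)).2 tendsto_const_nhds
    exact tendsto_nhds_unique (hf' p) h2
  have hhL : ∀ m, LL o 20 (fun p => f m p - f' p) := fun m =>
    ((hfL m).sub hf'L).mono (by norm_num)
  have hpre : ∀ m k, m ≤ k →
      r - 3 * κ ≤ RCLike.re (pr (a (n k)) (fun p => f m p - f' p)) := by
    intro m k hmk
    rw [pr_sub]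
    have e : pr (a (n k)) f' = 0 := by
      unfold pr
      exact Finset.sum_eq_zero fun p hp => by rw [hf'0 k p hp, mul_zero]
    rw [e, sub_zero]
    have := hfre m k hmk
    linarith
  let F : ℕ → StrongDual 𝕜 (FreeSpace 𝕜 o) := fun m => evF o (hhL m).toLip
  have hF20 : ∀ m, ‖F m‖ ≤ 20 := fun m =>
    (evF_norm o _).trans ((hhL m).norm_toLip (by norm_num))
  have hFcomb : ∀ m (b : M →₀ 𝕜), F m (combF 𝕜 o b) = pr b (fun p => f m p - f' p) := by
    intro m b
    rw [evF_combF]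
    rfl
  have hFx : ∀ m k, m ≤ k → r - 23 * κ ≤ RCLike.re (F m (x (n k))) := by
    intro m k hmk
    have h1 := hpre m k hmk
    rw [← hFcomb] at h1
    have h2 : ‖F m (combF 𝕜 o (a (n k)) - x (n k))‖ ≤ 20 * κ := by
      calc ‖F m (combF 𝕜 o (a (n k)) - x (n k))‖ ≤ ‖F m‖ * ‖combF 𝕜 o (a (n k)) - x (n k)‖ :=
            (F m).le_opNorm _
        _ ≤ 20 * κ := by
            rw [norm_sub_rev]
            exact mul_le_mul (hF20 m) (hxa (n k)).le (norm_nonneg _) (by norm_num)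
    have h3 := RCLike.re_le_norm (F m (combF 𝕜 o (a (n k)) - x (n k)))
    rw [map_sub, map_sub] at h3
    rw [map_sub] at h2
    linarith
  -- the cluster point
  obtain ⟨z, hz⟩ := clustSeq_nonempty (𝕜 := 𝕜) (y := fun k => x (n k)) (B := B)
    (fun k => hB _ (hxA (n k)))
  have hzA : z ∈ wstarClosure 𝕜 A := by
    have h1 : MapClusterPt (StrongDual.toWeakDual z) atTop
      (fun k => StrongDual.toWeakDual (NormedSpace.inclusionInDoubleDual 𝕜 _ (x (n k)))) := hz
    have h2 : IsClosed (closure ((fun a : FreeSpace 𝕜 o =>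
        StrongDual.toWeakDual (NormedSpace.inclusionInDoubleDual 𝕜 _ a)) '' A)) :=
      isClosed_closure
    have h3 := h2.mem_of_mapClusterPt h1 (Eventually.of_forall fun k =>
      subset_closure ⟨x (n k), hxA (n k), rfl⟩)
    exact h3
  have hzF : ∀ m, r - 23 * κ ≤ RCLike.re (z (F m)) := by
    intro m
    have h1 : MapClusterPt (z (F m)) atTop (fun k => F m (x (n k))) := by
      have hc : Continuous fun w : WeakDual 𝕜 (StrongDual 𝕜 (FreeSpace 𝕜 o)) => w (F m) :=
        WeakDual.eval_continuous (F m)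
      have hz' : MapClusterPt (StrongDual.toWeakDual z) atTop
        (fun k => StrongDual.toWeakDual (NormedSpace.inclusionInDoubleDual 𝕜 _ (x (n k)))) := hz
      have h3 := hz'.tendsto_comp (hc.tendsto (StrongDual.toWeakDual z))
      exact h3
    have h2 : IsClosed {w : 𝕜 | r - 23 * κ ≤ RCLike.re w} :=
      isClosed_le continuous_const RCLike.continuous_re
    exact h2.mem_of_mapClusterPt h1 ((eventually_ge_atTop m).mono fun k hk => hFx m k hk)
  -- the functionals tend to zero pointwise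
  have hF0 : ∀ y : FreeSpace 𝕜 o, ∀ᶠ m in (V : Filter ℕ), ‖F m y‖ ≤ κ := by
    intro y
    obtain ⟨b, hb⟩ := exists_combF y (by positivity : 0 < κ / 40)
    have h1 : Tendsto (fun m => ‖pr b (fun p => f m p - f' p)‖) V (𝓝 0) := by
      have h2 : Tendsto (fun m => pr b (fun p => f m p - f' p)) V (𝓝 (∑ p ∈ b.support, b p * 0)) := by
        unfold pr
        refine tendsto_finsetSum _ fun p _ => ?_
        refine Tendsto.const_mul _ ?_
        have := (hf' p).sub_const (f' p)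
        rwa [sub_self] at this
      have h3 := h2.norm
      simpa using h3
    filter_upwards [h1.eventually (Iic_mem_nhds (by positivity : 0 < κ / 2))] with m hm
    have hm' : ‖pr b (fun p => f m p - f' p)‖ ≤ κ / 2 := hm
    rw [← hFcomb] at hm'
    have h4 : ‖F m (y - combF 𝕜 o b)‖ ≤ 20 * (κ / 40) := by
      calc ‖F m (y - combF 𝕜 o b)‖ ≤ ‖F m‖ * ‖y - combF 𝕜 o b‖ := (F m).le_opNorm _
        _ ≤ 20 * (κ / 40) := mul_le_mul (hF20 m) hb.le (norm_nonneg _) (by norm_num)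
    have h5 : ‖F m y‖ ≤ ‖F m (y - combF 𝕜 o b)‖ + ‖F m (combF 𝕜 o b)‖ := by
      have := norm_add_le (F m (y - combF 𝕜 o b)) (F m (combF 𝕜 o b))
      rwa [← map_add, sub_add_cancel] at this
    linarith
  -- conclusion
  have hfinal : ∀ y : FreeSpace 𝕜 o,
      (r - 24 * κ) / 20 ≤ ‖z - NormedSpace.inclusionInDoubleDual 𝕜 _ y‖ := by
    intro y
    obtain ⟨m, hm⟩ := (hF0 y).exists
    have h1 := hzF m
    have h2 : ‖(z - NormedSpace.inclusionInDoubleDual 𝕜 _ y) (F m)‖ ≤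
        ‖z - NormedSpace.inclusionInDoubleDual 𝕜 _ y‖ * 20 :=
      (ContinuousLinearMap.le_opNorm _ _).trans
        (mul_le_mul_of_nonneg_left (hF20 m) (norm_nonneg _))
    rw [sub_apply, NormedSpace.dual_def] at h2
    have h3 := RCLike.re_le_norm (z (F m) - F m y)
    rw [map_sub] at h3
    have h4 := RCLike.re_le_norm (F m y)
    rw [div_le_iff₀ (by norm_num)]
    linarith
  have hwk : ENNReal.ofReal ((r - 24 * κ) / 20) ≤ wkM 𝕜 A := by
    refine le_trans ?_ (le_iSup₂ (f := fun z (_ : z ∈ wstarClosure 𝕜 A) =>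
      Metric.infEDist z (Set.range (NormedSpace.inclusionInDoubleDual 𝕜 _))) z hzA)
    rw [Metric.le_infEDist]
    rintro _ ⟨y, rfl⟩
    rw [edist_dist, dist_eq_norm]
    exact ENNReal.ofReal_le_ofReal (hfinal y)
  rw [hWe] at hwk
  have h6 : (r - 24 * κ) / 20 ≤ W := (ENNReal.ofReal_le_ofReal_iff hW0).1 hwk
  rw [div_le_iff₀ (by norm_num)] at h6
  have h7 : 48 * κ = r - 20 * W := by rw [hκdef]; ring
  linarith

end Free

end Pool.Agent.Run7.h51.US
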