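import Pool.Agent.Run7.h51.USFree

/-!
# The Schur property with a universal constant, for functionals on `Lip₀(M)`
-/

namespace Pool.Agent.Run7.h51.US

open Filter Topology Set

universe u v

variable {𝕜 : Type u} [RCLike 𝕜] {M : Type v} [MetricSpace M]

/-- Pointwise limits along an ultrafilter. -/
theorem exists_ulim {ι : Type*} (U : Ultrafilter ι) {o : M} {K : ℝ} (f : ι → M → 𝕜)
    (hf : ∀ i, LL o K (f i)) :
    ∃ g : M → 𝕜, LL o K g ∧ ∀ x, Tendsto (fun i => f i x) U (𝓝 (g x)) := by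
  have h1 : ∀ x, ∃ z : 𝕜, Tendsto (fun i => f i x) U (𝓝 z) := by
    intro x
    have hc : IsCompact (Metric.closedBall (0 : 𝕜) (K * dist x o)) :=
      isCompact_closedBall 0 _
    have hm : (U.map fun i => f i x : Filter 𝕜) ≤ 𝓟 (Metric.closedBall (0 : 𝕜) (K * dist x o)) := by
      rw [le_principal_iff, Ultrafilter.mem_coe, Ultrafilter.mem_map]
      refine Filter.univ_mem' fun i => ?_
      simp only [mem_preimage, mem_closedBall_zero_iff]
      exact (hf i).bound x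
    obtain ⟨z, _, hz⟩ := hc.ultrafilter_le_nhds (U.map fun i => f i x) hm
    exact ⟨z, hz⟩
  choose g hg using h1
  refine ⟨g, ⟨?_, fun x y => ?_⟩, hg⟩
  · have h2 : Tendsto (fun i => f i o) U (𝓝 0) := by
      have : (fun i => f i o) = fun _ => 0 := funext fun i => (hf i).zero
      rw [this]
      exact tendsto_const_nhds
    exact tendsto_nhds_unique (hg o) h2
  · have h3 : Tendsto (fun i => ‖f i x - f i y‖) U (𝓝 ‖g x - g y‖) := ((hg x).sub (hg y)).norm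
    exact le_of_tendsto h3 (Eventually.of_forall fun i => (hf i).lip x y)

/-- A small function on a finite set extends to a function with a small Lipschitz constant. -/
theorem exists_small_ext {o : M} {s : ℝ} (hs : 0 < s) (hsep : ∀ x y : M, x ≠ y → s ≤ dist x y)
    (P : Finset M) {τ : ℝ} (hτ : 0 ≤ τ) {h : M → 𝕜} (h0 : h o = 0) (hP : ∀ p ∈ P, ‖h p‖ ≤ τ) :
    ∃ q : M → 𝕜, LL o (4 * τ / s) q ∧ ∀ p ∈ P, q p = h p := by
  have hb : ∀ x, (x = o ∨ x ∈ P) → ‖h x‖ ≤ τ := by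
    rintro x (rfl | hx)
    · rw [h0, norm_zero]; exact hτ
    · exact hP x hx
  obtain ⟨q, hq, hqZ⟩ := extend_LL (𝕜 := 𝕜) (o := o) (K := 2 * τ / s) (by positivity)
    (Z := {x | x = o ∨ x ∈ P}) (Or.inl rfl) h h0 (by
      intro x hx y hy
      rcases eq_or_ne x y with rfl | hxy
      · simp
      · have h1 := hsep x y hxy
        calc ‖h x - h y‖ ≤ ‖h x‖ + ‖h y‖ := norm_sub_le _ _
          _ ≤ τ + τ := add_le_add (hb x hx) (hb y hy)
          _ = 2 * τ / s * s := by field_simp; ring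
          _ ≤ 2 * τ / s * dist x y := mul_le_mul_of_nonneg_left h1 (by positivity))
  refine ⟨q, hq.mono (by rw [← mul_div_assoc]; ring_nf; rfl), fun p hp => hqZ p (Or.inr hp)⟩

/-- The quantitative Schur property for sequences which are asymptotically small on each
`1`-Lipschitz function. -/
theorem schur_core (o : M) {s : ℝ} (hs : 0 < s) (hsep : ∀ x y : M, x ≠ y → s ≤ dist x y)
    (x : ℕ → StrongDual 𝕜 (Lip0 𝕜 o)) (hx : ∀ n, x n ∈ freeSub 𝕜 o) (B : ℝ)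
    (hB : ∀ n, ‖x n‖ ≤ B) (D : ℝ) (hD0 : 0 ≤ D)
    (hD : ∀ f : Lip0 𝕜 o, ‖f‖ ≤ 1 → ∀ ε > 0, ∀ᶠ n in atTop, ‖x n f‖ ≤ D + ε)
    {η : ℝ} (hη : 0 < η) : ∀ᶠ n in atTop, ‖x n‖ ≤ 21 * D + η := by
  classical
  by_contra hcon
  have hfr : ∃ᶠ n in atTop, n ∈ {n : ℕ | 21 * D + η < ‖x n‖} := by
    rw [Filter.not_eventually] at hcon
    exact hcon.mono fun n hn => not_le.1 hn
  have hne : NeBot (atTop ⊓ 𝓟 {n : ℕ | 21 * D + η < ‖x n‖}) := frequently_mem_iff_neBot.1 hfr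
  let U : Ultrafilter ℕ := Ultrafilter.of (atTop ⊓ 𝓟 {n : ℕ | 21 * D + η < ‖x n‖})
  have hU : (U : Filter ℕ) ≤ atTop ⊓ 𝓟 {n : ℕ | 21 * D + η < ‖x n‖} := Ultrafilter.of_le _
  have hUtop : (U : Filter ℕ) ≤ atTop := hU.trans inf_le_left
  have hUS : ∀ᶠ n in (U : Filter ℕ), 21 * D + η < ‖x n‖ := by
    have : (U : Filter ℕ) ≤ 𝓟 {n : ℕ | 21 * D + η < ‖x n‖} := hU.trans inf_le_right
    exact le_principal_iff.1 this
  set κ : ℝ := η / 100 with hκdef
  have hκ : 0 < κ := by positivity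
  have hcomb : ∀ n, ∃ a : M →₀ 𝕜, ‖x n - comb 𝕜 o a‖ < κ := fun n => exists_comb (hx n) hκ
  choose a ha using hcomb
  have hBpos : 0 ≤ B := (norm_nonneg _).trans (hB 0)
  set C : ℝ := B + κ with hCdef
  have hCpos : 0 < C := by positivity
  -- comparison of `x n f` and `pr (a n) f`
  have hcmp : ∀ n (f : M → 𝕜) (hf : LL o 1 f), ‖x n hf.toLip - pr (a n) f‖ ≤ κ := by
    intro n f hf
    have e : pr (a n) f = comb 𝕜 o (a n) hf.toLip := by rw [comb_apply]; rfl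
    rw [e, ← sub_apply]
    calc ‖(x n - comb 𝕜 o (a n)) hf.toLip‖ ≤ ‖x n - comb 𝕜 o (a n)‖ * ‖hf.toLip‖ :=
          ContinuousLinearMap.le_opNorm _ _
      _ ≤ κ * 1 := mul_le_mul (ha n).le (hf.norm_toLip zero_le_one) (norm_nonneg _) hκ.le
      _ = κ := mul_one _
  have hC : ∀ n (f : M → 𝕜), LL o 1 f → ‖pr (a n) f‖ ≤ C := by
    intro n f hf
    have h1 := hcmp n f hf
    have h2 : ‖x n hf.toLip‖ ≤ B := by
      calc ‖x n hf.toLip‖ ≤ ‖x n‖ * ‖hf.toLip‖ := ContinuousLinearMap.le_opNorm _ _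
        _ ≤ B * 1 := mul_le_mul (hB n) (hf.norm_toLip zero_le_one) (norm_nonneg _) hBpos
        _ = B := mul_one _
    have h3 : ‖pr (a n) f‖ ≤ ‖x n hf.toLip‖ + ‖x n hf.toLip - pr (a n) f‖ := by
      have := norm_sub_le (x n hf.toLip) (x n hf.toLip - pr (a n) f)
      rwa [sub_sub_cancel] at this
    linarith
  set D' : ℝ := D + 2 * κ with hD'def
  have hD'pos : 0 < D' := by positivity
  have hD' : ∀ f : M → 𝕜, LL o 1 f → ∀ᶠ n in atTop, ‖pr (a n) f‖ ≤ D' := by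
    intro f hf
    filter_upwards [hD hf.toLip (hf.norm_toLip zero_le_one) κ hκ] with n hn
    have h1 := hcmp n f hf
    have h3 : ‖pr (a n) f‖ ≤ ‖x n hf.toLip‖ + ‖x n hf.toLip - pr (a n) f‖ := by
      have := norm_sub_le (x n hf.toLip) (x n hf.toLip - pr (a n) f)
      rwa [sub_sub_cancel] at this
    linarith
  set c : ℝ := 10 * D' + κ with hcdef
  have hcpos : 0 < c := by positivity
  -- first claim
  have claim1 : ∃ P : Finset M, ∀ᶠ i in (U : Filter ℕ), ∀ g : M → 𝕜, LL o 1 g →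
      (∀ p ∈ P, g p = 0) → ‖pr (a i) g‖ ≤ c := by
    by_contra hc1
    push Not at hc1
    obtain ⟨n, hn, hf⟩ := core (𝕜 := 𝕜) U o hs hsep a C hC c hc1 (fun k => {n | k ≤ n})
      (fun k => hUtop (Filter.mem_atTop k)) (by positivity : 0 < κ / 2)
    obtain ⟨f, hfL, _, hfb⟩ := hf 0
    have hfL1 : LL o 1 (fun p => ((10⁻¹ : ℝ) : 𝕜) * f p) := by
      have := hfL.smul ((10⁻¹ : ℝ) : 𝕜)
      have e : ‖((10⁻¹ : ℝ) : 𝕜)‖ * 10 = 1 := by
        rw [RCLike.norm_ofReal, abs_of_pos (by norm_num)]; norm_num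
      rwa [e] at this
    obtain ⟨N, hN⟩ := Filter.eventually_atTop.1 (hD' _ hfL1)
    have h1 := hN (n N) (hn N)
    rw [pr_smul, norm_mul, RCLike.norm_ofReal, abs_of_pos (by norm_num),
      inv_mul_le_iff₀ (by norm_num)] at h1
    have h2 := hfb N (Nat.zero_le _)
    have h3 := RCLike.re_le_norm (pr (a (n N)) f)
    linarith
  obtain ⟨P, hP⟩ := claim1
  -- norming functions
  have hnorming : ∀ n, ∃ g : Lip0 𝕜 o, ‖g‖ ≤ 1 ∧ ‖x n‖ - κ ≤ ‖x n g‖ :=
    fun n => exists_almost_norming (x n) hκ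
  choose g hg1 hg2 using hnorming
  have hgL : ∀ n, LL o 1 (g n).fn := fun n => (g n).toLL.mono (hg1 n)
  obtain ⟨g0, hg0L, hg0⟩ := exists_ulim U (fun n => (g n).fn) hgL
  obtain ⟨τ, hτ, hτ2⟩ : ∃ τ : ℝ, 0 < τ ∧ 4 * τ / s * (C + c) ≤ κ := by
    refine ⟨κ * s / (4 * (C + c)), by positivity, le_of_eq ?_⟩
    field_simp
  have hclose : ∀ᶠ n in (U : Filter ℕ), ∀ p ∈ P, ‖(g n).fn p - g0 p‖ ≤ τ := by
    rw [Filter.eventually_all_finset]
    intro p _
    have h1 : Tendsto (fun n => ‖(g n).fn p - g0 p‖) U (𝓝 0) := by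
      have := ((hg0 p).sub_const (g0 p)).norm
      simpa using this
    exact h1.eventually (Iic_mem_nhds hτ)
  have hg0D : ∀ᶠ n in (U : Filter ℕ), ‖pr (a n) g0‖ ≤ D' := (hD' g0 hg0L).filter_mono hUtop
  obtain ⟨n, ⟨⟨hn1, hn2⟩, hn3⟩, hn4⟩ := (((hUS.and hclose).and hg0D).and hP).exists
  -- the final estimate
  set h : M → 𝕜 := fun p => (g n).fn p - g0 p with hh
  have hhL : LL o 2 h := ((hgL n).sub hg0L).mono (by norm_num)
  obtain ⟨q, hqL, hqP⟩ := exists_small_ext hs hsep P hτ.le hhL.zero hn2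
  set δ : ℝ := 4 * τ / s with hδ
  have hδpos : 0 < δ := by positivity
  have hw : LL o (2 + δ) (fun p => h p - q p) := hhL.sub hqL
  have hwP : ∀ p ∈ P, h p - q p = 0 := fun p hp => by rw [hqP p hp, sub_self]
  have hw2 : ‖pr (a n) (fun p => h p - q p)‖ ≤ (2 + δ) * c := by
    have hpos : 0 < 2 + δ := by positivity
    have h1 : LL o 1 (fun p => (((2 + δ)⁻¹ : ℝ) : 𝕜) * (h p - q p)) := by
      have := hw.smul (((2 + δ)⁻¹ : ℝ) : 𝕜)
      have e : ‖(((2 + δ)⁻¹ : ℝ) : 𝕜)‖ * (2 + δ) = 1 := by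
        rw [RCLike.norm_ofReal, abs_of_pos (inv_pos.2 hpos), inv_mul_cancel₀ hpos.ne']
      rwa [e] at this
    have h2 := hn4 _ h1 (fun p hp => by rw [hwP p hp, mul_zero])
    rw [pr_smul, norm_mul, RCLike.norm_ofReal, abs_of_pos (inv_pos.2 hpos),
      inv_mul_le_iff₀ hpos] at h2
    exact h2
  have hq2 : ‖pr (a n) q‖ ≤ δ * C := pr_le (hC n) hδpos hqL
  have hsum : pr (a n) (g n).fn = pr (a n) g0 + (pr (a n) (fun p => h p - q p) + pr (a n) q) := by
    rw [← pr_add, ← pr_add]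
    congr 1
    funext p
    simp only [hh]
    ring
  have h5 : ‖pr (a n) (g n).fn‖ ≤ D' + ((2 + δ) * c + δ * C) := by
    rw [hsum]
    refine (norm_add_le _ _).trans (add_le_add hn3 ((norm_add_le _ _).trans (add_le_add hw2 hq2)))
  have h6 := hcmp n (g n).fn (hgL n)
  have h7 : ‖x n (g n)‖ ≤ ‖pr (a n) (g n).fn‖ + κ := by
    have e : (hgL n).toLip = g n := rfl
    rw [e] at h6
    have := norm_add_le (x n (g n) - pr (a n) (g n).fn) (pr (a n) (g n).fn)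
    rw [sub_add_cancel] at this
    linarith
  have h8 := hg2 n
  have h9 : δ * (C + c) ≤ κ := hτ2
  have h10 : (2 + δ) * c + δ * C = 2 * c + δ * (C + c) := by ring
  rw [h10] at h5
  have h11 : η = 100 * κ := by rw [hκdef]; ring
  linarith

end Pool.Agent.Run7.h51.US
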